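import Pool.Agent.LibBH2.Stmts

/-!
Task Df: independent points on twists of one curve.
-/

open Height WeierstrassCurve
open scoped Classical

namespace Pool.Agent.LibBH2

namespace Df

section Gram

variable {A : Type*} [AddCommGroup A] {q : A → ℝ}

/-- The symmetric form attached to a map satisfying the parallelogram law. -/
def bform (q : A → ℝ) (R S : A) : ℝ := q (R + S) - q R - q S

lemma par_zero (hq : ∀ R S : A, q (R + S) + q (R - S) = 2 * q R + 2 * q S) : q 0 = 0 := by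
  have := hq 0 0
  simp at this
  linarith

lemma par_neg (hq : ∀ R S : A, q (R + S) + q (R - S) = 2 * q R + 2 * q S) (S : A) :
    q (-S) = q S := by
  have := hq 0 S
  have h0 := par_zero hq
  simp at this
  linarith

lemma bform_add (hq : ∀ R S : A, q (R + S) + q (R - S) = 2 * q R + 2 * q S) (R S T : A) :
    bform q R (S + T) = bform q R S + bform q R T := by
  have h1 := hq (R + S) T
  have h2 := hq (R + T) S
  have h3 := hq (S + T) R
  have h4 := hq R (S - T)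
  have h5 := hq S (R - T)
  have h6 := hq T (R - S)
  have h7 := hq R S
  have h8 := hq R T
  have h9 := hq S T
  have e1 : R + T + S = R + S + T := by abel
  have e2 : S + T + R = R + S + T := by abel
  have e3 : q (R + T - S) = q (R - (S - T)) := by congr 1; abel
  have e4 : q (S + T - R) = q (S - (R - T)) := by congr 1; abel
  have e5 : q (R + S - T) = q (R + (S - T)) := by congr 1; abel
  have e6 : q (T + (R - S)) = q (R - (S - T)) := by congr 1; abel
  have e7 : q (T - (R - S)) = q (S - (R - T)) := by congr 1; abel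
  have e8 : q (S + (R - T)) = q (R + (S - T)) := by congr 1; abel
  have e9 : q (R + (S + T)) = q (R + S + T) := by congr 1; abel
  rw [e1, e3] at h2
  rw [e2, e4] at h3
  rw [e5] at h1
  rw [e8] at h5
  rw [e6, e7] at h6
  unfold bform
  rw [e9]
  linarith

lemma bform_zero (hq : ∀ R S : A, q (R + S) + q (R - S) = 2 * q R + 2 * q S) (R : A) :
    bform q R 0 = 0 := by
  have h0 := par_zero hq
  simp [bform, h0]

lemma bform_sub_eq (hq : ∀ R S : A, q (R + S) + q (R - S) = 2 * q R + 2 * q S) (R S : A) :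
    q (R - S) = q R + q S - bform q R S := by
  have := hq R S
  unfold bform
  linarith

lemma bform_self (hq : ∀ R S : A, q (R + S) + q (R - S) = 2 * q R + 2 * q S) (R : A) :
    bform q R R = 2 * q R := by
  have := hq R R
  have h0 := par_zero hq
  simp [h0] at this
  unfold bform
  linarith

/-- `bform` as a homomorphism in the second variable. -/
noncomputable def bhom (hq : ∀ R S : A, q (R + S) + q (R - S) = 2 * q R + 2 * q S) (R : A) :
    A →+ ℝ :=
  AddMonoidHom.mk' (bform q R) (bform_add hq R)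

end Gram

/-- two points with large height and small pairing are independent -/
theorem indep_two {A : Type*} [AddCommGroup A] {q : A → ℝ}
    (hq : ∀ R S : A, q (R + S) + q (R - S) = 2 * q R + 2 * q S) (P Q : A) (B : ℝ)
    (hB : |bform q P Q| ≤ B) (hP : B < 2 * q P) (hQ : B < 2 * q Q) :
    LinearIndependent ℤ ![P, Q] := by
  rw [LinearIndependent.pair_iff]
  intro s t hst
  have hsymm : bform q Q P = bform q P Q := by
    unfold bform
    rw [add_comm Q P]; ring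
  have e1 : (s : ℝ) * (2 * q P) + t * bform q P Q = 0 := by
    have := congrArg (bhom hq P) hst
    rw [map_add, map_zsmul, map_zsmul, map_zero] at this
    have a1 : bhom hq P P = 2 * q P := bform_self hq P
    have a2 : bhom hq P Q = bform q P Q := rfl
    rw [a1, a2, zsmul_eq_mul, zsmul_eq_mul] at this
    exact this
  have e2 : (s : ℝ) * bform q P Q + t * (2 * q Q) = 0 := by
    have := congrArg (bhom hq Q) hst
    rw [map_add, map_zsmul, map_zsmul, map_zero] at this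
    have a1 : bhom hq Q Q = 2 * q Q := bform_self hq Q
    have a2 : bhom hq Q P = bform q P Q := hsymm
    rw [a1, a2, zsmul_eq_mul, zsmul_eq_mul] at this
    exact this
  have hB0 : 0 ≤ B := (abs_nonneg _).trans hB
  have f1 : |(s : ℝ)| * (2 * q P) = |(t : ℝ)| * |bform q P Q| := by
    have : (s : ℝ) * (2 * q P) = - (t * bform q P Q) := by linarith
    have h2 := congrArg abs this
    rw [abs_mul, abs_neg, abs_mul (t : ℝ), abs_of_nonneg (by linarith : (0:ℝ) ≤ 2 * q P)] at h2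
    exact h2
  have f2 : |(t : ℝ)| * (2 * q Q) = |(s : ℝ)| * |bform q P Q| := by
    have : (t : ℝ) * (2 * q Q) = - (s * bform q P Q) := by linarith
    have h2 := congrArg abs this
    rw [abs_mul, abs_neg, abs_mul (s : ℝ), abs_of_nonneg (by linarith : (0:ℝ) ≤ 2 * q Q)] at h2
    exact h2
  have hs0 := abs_nonneg (s : ℝ)
  have ht0 := abs_nonneg (t : ℝ)
  have hst0 : |(s : ℝ)| = 0 ∧ |(t : ℝ)| = 0 := by
    rcases le_total |(t : ℝ)| |(s : ℝ)| with hle | hle
    · have h1 : |(s : ℝ)| = 0 := by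
        by_contra hne
        have hpos : 0 < |(s : ℝ)| := lt_of_le_of_ne hs0 (Ne.symm hne)
        have : |(t : ℝ)| * |bform q P Q| ≤ |(s : ℝ)| * B :=
          mul_le_mul hle hB (abs_nonneg _) hs0
        nlinarith
      exact ⟨h1, by linarith⟩
    · have h1 : |(t : ℝ)| = 0 := by
        by_contra hne
        have hpos : 0 < |(t : ℝ)| := lt_of_le_of_ne ht0 (Ne.symm hne)
        have : |(s : ℝ)| * |bform q P Q| ≤ |(t : ℝ)| * B :=
          mul_le_mul hle hB (abs_nonneg _) ht0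
        nlinarith
      exact ⟨by linarith, h1⟩
  exact ⟨by exact_mod_cast abs_eq_zero.1 hst0.1, by exact_mod_cast abs_eq_zero.1 hst0.2⟩

/-- base change of points, as a homomorphism -/
noncomputable def mHom {K L : Type} [Field K] [Field L] [DecidableEq K] [DecidableEq L] (f : K →+* L) (W : WeierstrassCurve K) :
    W.toAffine.Point →+ (W.map f).toAffine.Point where
  toFun P := match P with
    | 0 => 0
    | Affine.Point.some x y h => Affine.Point.some (f x) (f y)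
        ((Affine.map_nonsingular W f.injective x y).2 h)
  map_zero' := rfl
  map_add' := by
    rintro (_ | ⟨x₁, y₁, h₁⟩) (_ | ⟨x₂, y₂, h₂⟩)
    any_goals rfl
    by_cases hxy : x₁ = x₂ ∧ y₁ = W.toAffine.negY x₂ y₂
    · rw [Affine.Point.add_of_Y_eq hxy.left hxy.right, Affine.Point.add_of_Y_eq (by rw [hxy.left])
        (by rw [hxy.right]; exact (Affine.map_negY (W' := W) f x₂ y₂).symm)]
    · have hxy' : ¬(f x₁ = f x₂ ∧ f y₁ = (W.map f).toAffine.negY (f x₂) (f y₂)) := by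
        rintro ⟨h1, h2⟩
        apply hxy
        refine ⟨f.injective h1, f.injective ?_⟩
        rw [h2]
        exact (Affine.map_negY (W' := W) f x₂ y₂)
      rw [Affine.Point.add_some hxy, Affine.Point.add_some hxy']
      have hs := Affine.map_slope (W := W) f x₁ x₂ y₁ y₂
      simp only [Affine.Point.some.injEq]
      constructor
      · rw [← Affine.map_addX (W' := W) f, ← hs]
      · rw [← Affine.map_addY (W' := W) f, ← hs]

theorem mHom_some {K L : Type} [Field K] [Field L] [DecidableEq K] [DecidableEq L] (f : K →+* L) (W : WeierstrassCurve K)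
    {x y : K} (h : W.toAffine.Nonsingular x y) : mHom f W (Affine.Point.some x y h) =
      Affine.Point.some (f x) (f y) ((Affine.map_nonsingular W f.injective x y).2 h) := rfl

theorem scale_hom (hs1 : TaskS1) {L : Type} [Field L] (W W' : WeierstrassCurve L) (A B l : L)
    (hl : l ≠ 0) (hW : W = ⟨0, 0, 0, A, B⟩) (hW' : W' = ⟨0, 0, 0, A * l ^ 4, B * l ^ 6⟩) :
    ∃ e : W.toAffine.Point →+ W'.toAffine.Point, ∀ (x y : L) (h : W.toAffine.Nonsingular x y),
      ∃ h', e (Affine.Point.some x y h) = Affine.Point.some (l ^ 2 * x) (l ^ 3 * y) h' := by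
  subst hW hW'
  obtain ⟨e, he⟩ := hs1 L A B l hl
  exact ⟨e.toAddMonoidHom, he⟩

theorem kw_gen (hkw : TaskKW) {k : Type} [Field k] [CharZero k] [IsAlgClosed k]
    (W₁ W₂ : WeierstrassCurve k) (a b c d : k) (hW₁ : W₁ = ⟨0, 0, 0, a, b⟩)
    (hW₂ : W₂ = ⟨0, 0, 0, c, d⟩) [W₁.IsElliptic] [W₂.IsElliptic] (h1 : ¬ (a = 0 ∧ c = 0))
    (h2 : ¬ (b = 0 ∧ d = 0)) (s x y x' y' : k) (h : W₁.toAffine.Nonsingular x y)
    (h' : W₂.toAffine.Nonsingular x' y') (hx : x' = s ^ 2 * x) (hy : y' = s ^ 3 * y)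
    (hs : s ≠ 0) (hac : a * s ^ 4 ≠ c) :
    2 • (zc (Affine.Point.some x y h) (Affine.Point.some x' y' h') : CH0 W₁ W₂) = 0 := by
  subst hW₁ hW₂ hx hy
  exact hkw k a b c d h1 h2 s x y h h' hs hac

/-- height of the values of a rational function -/
theorem h0_gen (hh0 : TaskH0) (P Q : Polynomial ℚ) (hQ : Q ≠ 0) : ∃ (N : ℕ) (C : ℝ), ∀ x : ℚ,
    Q.eval x ≠ 0 → |logHeight₁ (P.eval x / Q.eval x) - N * logHeight₁ x| ≤ C := by
  have hco := isCoprime_div_gcd_div_gcd (p := P) (q := Q) hQ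
  obtain ⟨C, hC⟩ := hh0 ℚ _ _ hco
  refine ⟨max (P / GCDMonoid.gcd P Q).natDegree (Q / GCDMonoid.gcd P Q).natDegree, C,
    fun x hx => ?_⟩
  set g := GCDMonoid.gcd P Q with hg
  have hg0 : g ≠ 0 := fun h => hQ ((gcd_eq_zero_iff P Q).1 h).2
  have e1 : P = g * (P / g) := (EuclideanDomain.mul_div_cancel' hg0 (gcd_dvd_left P Q)).symm
  have e2 : Q = g * (Q / g) := (EuclideanDomain.mul_div_cancel' hg0 (gcd_dvd_right P Q)).symm
  have hx2 : g.eval x * (Q / g).eval x ≠ 0 := by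
    rw [← Polynomial.eval_mul, ← e2]; exact hx
  have e3 : P.eval x / Q.eval x = (P / g).eval x / (Q / g).eval x := by
    conv_lhs => rw [e1, e2]
    rw [Polynomial.eval_mul, Polynomial.eval_mul]
    exact mul_div_mul_left _ _ (left_ne_zero_of_mul hx2)
  rw [e3]
  exact hC x (right_ne_zero_of_mul hx2)

section poly

open Polynomial

/-- numerator of `x₁` -/
noncomputable def num (b : ℚ) : ℚ[X] := - C b * (X ^ 4 + X ^ 2 + 1)

/-- denominator of `x₁` -/
noncomputable def den (a : ℚ) : ℚ[X] := C a * (X ^ 2 * (X ^ 2 + 1))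

/-- `den ^ 3 * f (num / den)` -/
noncomputable def cub (a b : ℚ) : ℚ[X] :=
  num b ^ 3 + C a * num b * den a ^ 2 + C b * den a ^ 3

/-- `den ^ 4 * f (num / den)` -/
noncomputable def HH (a b : ℚ) : ℚ[X] := den a * cub a b

theorem num_eval (b s : ℚ) : (num b).eval s = - b * (s ^ 4 + s ^ 2 + 1) := by simp [num]

theorem den_eval (a s : ℚ) : (den a).eval s = a * (s ^ 2 * (s ^ 2 + 1)) := by simp [den]

theorem cub_eval (a b s : ℚ) : (cub a b).eval s = (num b).eval s ^ 3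
    + a * (num b).eval s * (den a).eval s ^ 2 + b * (den a).eval s ^ 3 := by simp [cub]

theorem HH_eval (a b s : ℚ) : (HH a b).eval s = (den a).eval s * (cub a b).eval s := by simp [HH]

theorem HH_ne (hb1 : TaskB1) (a b : ℚ) (hab : 4 * a ^ 3 + 27 * b ^ 2 ≠ 0) (ha : a ≠ 0)
    (hb : b ≠ 0) (κ : ℚ) (G : ℚ[X]) : HH a b ≠ C κ * G ^ 2 := by
  intro hEq
  set φ : ℚ[X] →+* RatFunc Qb :=
    (algebraMap Qb[X] (RatFunc Qb)).comp (mapRingHom (algebraMap ℚ Qb)) with hφ
  have hinj : Function.Injective φ := by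
    rw [hφ, RingHom.coe_comp]
    exact (RatFunc.algebraMap_injective Qb).comp
      (Polynomial.map_injective _ (algebraMap ℚ Qb).injective)
  have hC : ∀ c : ℚ, φ (C c) = RatFunc.C (algebraMap ℚ Qb c) := by
    intro c
    rw [hφ, RingHom.comp_apply, coe_mapRingHom, Polynomial.map_C, RatFunc.algebraMap_C]
  have hden0 : den a ≠ 0 := by
    intro h
    have := den_eval a 1
    rw [h, eval_zero] at this
    norm_num at this
    exact ha this
  have hden : φ (den a) ≠ 0 := by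
    rw [Ne, map_eq_zero_iff φ hinj]; exact hden0
  obtain ⟨κ', hκ'⟩ := IsAlgClosed.exists_pow_nat_eq (algebraMap ℚ Qb κ) (n := 2) (by norm_num)
  have h1 := congrArg φ hEq
  rw [HH, cub] at h1
  simp only [map_mul, map_add, map_pow, hC] at h1
  have hne : 4 * (algebraMap ℚ Qb a) ^ 3 + 27 * (algebraMap ℚ Qb b) ^ 2 ≠ 0 := by
    have e : 4 * (algebraMap ℚ Qb a) ^ 3 + 27 * (algebraMap ℚ Qb b) ^ 2
        = algebraMap ℚ Qb (4 * a ^ 3 + 27 * b ^ 2) := by
      simp only [map_mul, map_add, map_pow, map_ofNat]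
    rw [e, Ne, map_eq_zero_iff _ (algebraMap ℚ Qb).injective]
    exact hab
  obtain ⟨c, hc⟩ := hb1 Qb (algebraMap ℚ Qb a) (algebraMap ℚ Qb b) hne
    (φ (num b) / φ (den a)) (RatFunc.C κ' * φ G / φ (den a) ^ 2) (by
      have h2 : (RatFunc.C κ') ^ 2 = RatFunc.C (algebraMap ℚ Qb κ) := by
        rw [← map_pow, hκ']
      have h3 : (RatFunc.C κ' * φ G / φ (den a) ^ 2) ^ 2 =
          (RatFunc.C (algebraMap ℚ Qb κ) * φ G ^ 2) / φ (den a) ^ 4 := by
        rw [div_pow, mul_pow, h2]; ring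
      rw [h3, ← h1]
      field_simp)
  rw [div_eq_iff hden] at hc
  have h4 : (algebraMap Qb[X] (RatFunc Qb)) ((num b).map (algebraMap ℚ Qb)) =
      (algebraMap Qb[X] (RatFunc Qb)) (C c * (den a).map (algebraMap ℚ Qb)) := by
    rw [map_mul, RatFunc.algebraMap_C]
    exact hc
  have h5 := RatFunc.algebraMap_injective Qb h4
  have h6 := congrArg (Polynomial.eval 0) h5
  simp [num, den] at h6
  exact hb h6

/-- numerator of the `x`-coordinate of the sum -/
noncomputable def P0 (a b : ℚ) : ℚ[X] :=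
  cub a b * (X ^ 2 + X + 1) ^ 2 - (1 + X ^ 2) * num b ^ 3 * (X + 1) ^ 2

/-- denominator of the `x`-coordinate of the sum -/
noncomputable def Q0 (a b : ℚ) : ℚ[X] := den a * num b ^ 2 * (X + 1) ^ 2

theorem P0_eval (a b s : ℚ) : (P0 a b).eval s = (cub a b).eval s * (s ^ 2 + s + 1) ^ 2
    - (1 + s ^ 2) * (num b).eval s ^ 3 * (s + 1) ^ 2 := by simp [P0]

theorem Q0_eval (a b s : ℚ) : (Q0 a b).eval s
    = (den a).eval s * (num b).eval s ^ 2 * (s + 1) ^ 2 := by simp [Q0]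

theorem ratio (a b s x : ℚ) (hd : (den a).eval s ≠ 0) (hn : (num b).eval s ≠ 0) (hs : s + 1 ≠ 0)
    (hx : x = (num b).eval s / (den a).eval s) :
    (P0 a b).eval s / (Q0 a b).eval s
      = ((s ^ 2 + s + 1) / (s + 1)) ^ 2 * (x ^ 3 + a * x + b) / x ^ 2 - (1 + s ^ 2) * x := by
  rw [P0_eval, Q0_eval, cub_eval, hx]
  generalize (den a).eval s = d at *
  generalize (num b).eval s = m at *
  field_simp

end poly

section points

theorem tw_eqn (a b D x y : ℚ) : (tw a b D).toAffine.Equation x y ↔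
    y ^ 2 = x ^ 3 + a * D ^ 2 * x + b * D ^ 3 := by
  rw [Affine.equation_iff]
  simp [tw]

theorem short_Δ {R : Type*} [CommRing R] (a b : R) : (⟨0, 0, 0, a, b⟩ : WeierstrassCurve R).Δ =
    -16 * (4 * a ^ 3 + 27 * b ^ 2) := by
  simp only [WeierstrassCurve.Δ, WeierstrassCurve.b₂, WeierstrassCurve.b₄, WeierstrassCurve.b₆,
    WeierstrassCurve.b₈]
  ring

theorem tw_ell (a b D : ℚ) (hab : 4 * a ^ 3 + 27 * b ^ 2 ≠ 0) (hD : D ≠ 0) :
    (tw a b D).IsElliptic := by
  rw [WeierstrassCurve.isElliptic_iff, isUnit_iff_ne_zero]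
  unfold tw
  rw [short_Δ]
  have : (-16 : ℚ) * (4 * (a * D ^ 2) ^ 3 + 27 * (b * D ^ 3) ^ 2) =
      -16 * D ^ 6 * (4 * a ^ 3 + 27 * b ^ 2) := by ring
  rw [this]
  exact mul_ne_zero (mul_ne_zero (by norm_num) (pow_ne_zero _ hD)) hab

theorem nonsP (a b D x y : ℚ) (hab : 4 * a ^ 3 + 27 * b ^ 2 ≠ 0) (hD : D ≠ 0)
    (hy : D * y ^ 2 = x ^ 3 + a * x + b) :
    (tw a b D).toAffine.Nonsingular (D * x) (D ^ 2 * y) := by
  have := tw_ell a b D hab hD
  rw [← Affine.equation_iff_nonsingular, tw_eqn]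
  linear_combination D ^ 3 * hy

theorem nonsQ (a b D x y n : ℚ) (hab : 4 * a ^ 3 + 27 * b ^ 2 ≠ 0) (hD : D ≠ 0)
    (hy : D * y ^ 2 = x ^ 3 + a * x + b)
    (hxe : a * (n ^ 2 * (n ^ 2 + 1)) * x = - b * (n ^ 4 + n ^ 2 + 1)) :
    (tw a b D).toAffine.Nonsingular (D * (n ^ 2 * x)) (D ^ 2 * (n ^ 3 * y)) := by
  have := tw_ell a b D hab hD
  rw [← Affine.equation_iff_nonsingular, tw_eqn]
  linear_combination D ^ 3 * n ^ 6 * hy + D ^ 3 * (n ^ 2 - 1) * hxe

theorem sum_pt (a b D x y n : ℚ) (hD : D ≠ 0) (hx0 : x ≠ 0) (hn : n ^ 2 ≠ 1)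
    (hy : D * y ^ 2 = x ^ 3 + a * x + b)
    (hP : (tw a b D).toAffine.Nonsingular (D * x) (D ^ 2 * y))
    (hQ : (tw a b D).toAffine.Nonsingular (D * (n ^ 2 * x)) (D ^ 2 * (n ^ 3 * y))) :
    ∃ y₃ h₃, (Affine.Point.some _ _ hP + Affine.Point.some _ _ hQ : (tw a b D).toAffine.Point)
      = Affine.Point.some (D * (((n ^ 2 + n + 1) / (n + 1)) ^ 2 * (x ^ 3 + a * x + b) / x ^ 2
        - (1 + n ^ 2) * x)) y₃ h₃ := by
  have hxne : D * x ≠ D * (n ^ 2 * x) := by
    intro h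
    have h1 := mul_left_cancel₀ hD h
    apply hn
    have : (n ^ 2) * x = 1 * x := by rw [one_mul]; exact h1.symm
    exact mul_right_cancel₀ hx0 this
  rw [Affine.Point.add_of_X_ne hxne]
  have hn1 : n + 1 ≠ 0 := by
    intro h
    apply hn
    have : n = -1 := by linarith
    rw [this]; norm_num
  have hn2 : n - 1 ≠ 0 := by
    intro h
    apply hn
    have : n = 1 := by linarith
    rw [this]; norm_num
  have key : (tw a b D).toAffine.addX (D * x) (D * (n ^ 2 * x))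
      ((tw a b D).toAffine.slope (D * x) (D * (n ^ 2 * x)) (D ^ 2 * y) (D ^ 2 * (n ^ 3 * y)))
      = D * (((n ^ 2 + n + 1) / (n + 1)) ^ 2 * (x ^ 3 + a * x + b) / x ^ 2
        - (1 + n ^ 2) * x) := by
    rw [Affine.slope_of_X_ne hxne, Affine.addX]
    have e1 : (D ^ 2 * y - D ^ 2 * (n ^ 3 * y)) / (D * x - D * (n ^ 2 * x)) =
        D * y * (n ^ 2 + n + 1) / (x * (n + 1)) := by
      have hne : D * x - D * (n ^ 2 * x) ≠ 0 := sub_ne_zero.2 hxne
      rw [div_eq_div_iff hne (mul_ne_zero hx0 hn1)]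
      ring
    rw [e1]
    simp only [tw]
    rw [← hy]
    field_simp
    ring
  have : ∀ (X Y X' : ℚ) (h : (tw a b D).toAffine.Nonsingular X Y), X = X' →
      ∃ (y₃ : ℚ) (h₃ : (tw a b D).toAffine.Nonsingular X' y₃),
        (Affine.Point.some X Y h : (tw a b D).toAffine.Point) = Affine.Point.some X' y₃ h₃ := by
    intro X Y X' h e
    subst e
    exact ⟨Y, h, rfl⟩
  exact this _ _ _ _ key

theorem neg_pt (a b D x y n : ℚ)
    (hQ : (tw a b D).toAffine.Nonsingular (D * (n ^ 2 * x)) (D ^ 2 * (n ^ 3 * y)))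
    (hQ' : (tw a b D).toAffine.Nonsingular (D * ((-n) ^ 2 * x)) (D ^ 2 * ((-n) ^ 3 * y))) :
    - (Affine.Point.some _ _ hQ : (tw a b D).toAffine.Point) = Affine.Point.some _ _ hQ' := by
  rw [Affine.Point.neg_some, Affine.Point.some.injEq]
  constructor
  · ring
  · simp only [Affine.negY, tw]
    ring

theorem nh_some' {K L : Type} [Field K] [AdmissibleAbsValues K] [Field L] [Algebra K L]
    {W : WeierstrassCurve K} {x y : L} (h : (W⁄L).toAffine.Nonsingular x y) (x₀ : K)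
    (hx : algebraMap K L x₀ = x) :
    nh (K := K) (L := L) (W := W) (Affine.Point.some x y h) = logHeight₁ x₀ := by
  have hx' : ∃ x₀ : K, algebraMap K L x₀ = x := ⟨x₀, hx⟩
  have e : hx'.choose = x₀ := (algebraMap K L).injective (hx'.choose_spec.trans hx.symm)
  unfold nh
  simp only [dif_pos hx']
  rw [e]

/-- the embedding of `tw a b D (ℚ)` in `E(Qb)` -/
theorem exists_hom (hs1 : TaskS1) (a b D : ℚ) (hD : D ≠ 0) :
    ∃ φ : (tw a b D).toAffine.Point →+
      ((⟨0, 0, 0, a, b⟩ : WeierstrassCurve ℚ)⁄Qb).toAffine.Point,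
      ∀ (x y : ℚ) (h : (tw a b D).toAffine.Nonsingular x y), ∃ y' h',
        φ (Affine.Point.some x y h) = Affine.Point.some (algebraMap ℚ Qb (x / D)) y' h' := by
  obtain ⟨l, hl⟩ := IsAlgClosed.exists_pow_nat_eq (algebraMap ℚ Qb D⁻¹) (n := 2) (by norm_num)
  have hl0 : l ≠ 0 := by
    rintro rfl
    rw [zero_pow (by norm_num)] at hl
    have := (map_eq_zero_iff _ (algebraMap ℚ Qb).injective).1 hl.symm
    exact hD (inv_eq_zero.1 this)
  have hD2 : algebraMap ℚ Qb D * l ^ 2 = 1 := by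
    rw [hl, ← map_mul, mul_inv_cancel₀ hD, map_one]
  obtain ⟨e, he⟩ := scale_hom hs1 ((tw a b D)⁄Qb) ((⟨0, 0, 0, a, b⟩ : WeierstrassCurve ℚ)⁄Qb)
    (algebraMap ℚ Qb (a * D ^ 2)) (algebraMap ℚ Qb (b * D ^ 3)) l hl0
    (by ext <;> simp [tw])
    (by
      ext <;> simp only [WeierstrassCurve.map, WeierstrassCurve.baseChange, map_zero, map_mul,
        map_pow]
      · linear_combination (-algebraMap ℚ Qb a) * (algebraMap ℚ Qb D * l ^ 2 + 1) * hD2
      · linear_combination (-algebraMap ℚ Qb b) * ((algebraMap ℚ Qb D * l ^ 2) ^ 2 +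
          algebraMap ℚ Qb D * l ^ 2 + 1) * hD2)
  refine ⟨e.comp (mHom (algebraMap ℚ Qb) (tw a b D)), fun x y h => ?_⟩
  obtain ⟨h', he'⟩ := he (algebraMap ℚ Qb x) (algebraMap ℚ Qb y)
    ((WeierstrassCurve.Affine.map_nonsingular (tw a b D).toAffine
      (algebraMap ℚ Qb).injective x y).2 h)
  have hx : l ^ 2 * algebraMap ℚ Qb x = algebraMap ℚ Qb (x / D) := by
    rw [hl, ← map_mul]
    congr 1
    field_simp
  refine ⟨_, hx ▸ h', ?_⟩
  refine Eq.trans (he' : _) ?_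
  rw [Affine.Point.some.injEq]
  exact ⟨hx, rfl⟩

end points


open Polynomial in
theorem cop1 (a b : ℚ) (ha : a ≠ 0) (hb : b ≠ 0) : IsCoprime (num b) (den a) := by
  refine ⟨- C b⁻¹, - C a⁻¹, ?_⟩
  unfold num den
  have e1 : (C b⁻¹ : ℚ[X]) * C b = 1 := by rw [← C_mul, inv_mul_cancel₀ hb, C_1]
  have e2 : (C a⁻¹ : ℚ[X]) * C a = 1 := by rw [← C_mul, inv_mul_cancel₀ ha, C_1]
  linear_combination (X ^ 4 + X ^ 2 + 1) * e1 - (X ^ 2 * (X ^ 2 + 1)) * e2

open Polynomial in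
theorem cop2 (a b : ℚ) (ha : a ≠ 0) (hb : b ≠ 0) : IsCoprime (num b) (C a * (X ^ 2 + 1)) := by
  refine ⟨- C b⁻¹, - C a⁻¹ * X ^ 2, ?_⟩
  unfold num
  have e1 : (C b⁻¹ : ℚ[X]) * C b = 1 := by rw [← C_mul, inv_mul_cancel₀ hb, C_1]
  have e2 : (C a⁻¹ : ℚ[X]) * C a = 1 := by rw [← C_mul, inv_mul_cancel₀ ha, C_1]
  linear_combination (X ^ 4 + X ^ 2 + 1) * e1 - (X ^ 2 * (X ^ 2 + 1)) * e2

theorem neg4 (s : ℚ) : (-s) ^ 4 = s ^ 4 := by ring

theorem log_big (M : ℝ) : ∃ n₀ : ℕ, 2 ≤ n₀ ∧ ∀ n : ℕ, n₀ ≤ n → M ≤ logHeight₁ (n : ℚ) := by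
  obtain ⟨m, hm⟩ := exists_nat_ge (Real.exp M)
  refine ⟨max m 2, le_max_right _ _, fun n hn => ?_⟩
  have hn2 : 2 ≤ n := (le_max_right _ _).trans hn
  have : NeZero n := ⟨by omega⟩
  rw [Rat.logHeight₁_natCast n, Real.le_log_iff_exp_le (by exact_mod_cast (by omega : 0 < n))]
  have h1 : (m : ℝ) ≤ n := by exact_mod_cast (le_max_left _ _).trans hn
  linarith

/-- the independence for one value of the parameter -/
theorem step (hs1 : TaskS1) (a b : ℚ) (hab : 4 * a ^ 3 + 27 * b ^ 2 ≠ 0) (hb : b ≠ 0)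
    (Cc C₁ C₂ C₃ : ℝ) (N : ℕ)
    (hC : ∀ (L : Type) [Field L] [Algebra ℚ L]
      (G : AddSubgroup ((⟨0, 0, 0, a, b⟩ : WeierstrassCurve ℚ)⁄L).toAffine.Point),
      (∀ R ∈ G, XIn R) →
      ∃ hh : ((⟨0, 0, 0, a, b⟩ : WeierstrassCurve ℚ)⁄L).toAffine.Point → ℝ,
        (∀ R ∈ G, |hh R - nh R| ≤ Cc) ∧
        (∀ R ∈ G, ∀ S ∈ G, hh (R + S) + hh (R - S) = 2 * hh R + 2 * hh S) ∧
        (∀ R ∈ G, 0 ≤ hh R) ∧ (∀ R ∈ G, hh R = 0 → IsOfFinAddOrder R))
    (n x y D : ℚ) (hD : D ≠ 0) (hn1 : n ^ 2 ≠ 1)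
    (hy : D * y ^ 2 = x ^ 3 + a * x + b)
    (hxe : a * (n ^ 2 * (n ^ 2 + 1)) * x = - b * (n ^ 4 + n ^ 2 + 1))
    (h1 : logHeight₁ n - C₁ ≤ logHeight₁ x)
    (h2 : logHeight₁ n - C₂ ≤ logHeight₁ (n ^ 2 * x))
    (h3 : |logHeight₁ (((n ^ 2 + n + 1) / (n + 1)) ^ 2 * (x ^ 3 + a * x + b) / x ^ 2
      - (1 + n ^ 2) * x) - N * logHeight₁ n| ≤ C₃)
    (h4 : |logHeight₁ ((((-n) ^ 2 + (-n) + 1) / ((-n) + 1)) ^ 2 * (x ^ 3 + a * x + b) / x ^ 2
      - (1 + (-n) ^ 2) * x) - N * logHeight₁ n| ≤ C₃)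
    (hbig : |Cc| + |C₃| + |Cc| + |C₁| + |C₂| + 1 ≤ logHeight₁ n)
    (hP : (tw a b D).toAffine.Nonsingular (D * x) (D ^ 2 * y))
    (hQ : (tw a b D).toAffine.Nonsingular (D * (n ^ 2 * x)) (D ^ 2 * (n ^ 3 * y))) :
    LinearIndependent ℤ ![(Affine.Point.some _ _ hP : (tw a b D).toAffine.Point),
      Affine.Point.some _ _ hQ] := by
  have hx0 : x ≠ 0 := by
    rintro rfl
    rw [mul_zero] at hxe
    have : n ^ 4 + n ^ 2 + 1 > 0 := by positivity
    have h5 : b * (n ^ 4 + n ^ 2 + 1) = 0 := by linarith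
    rcases mul_eq_zero.1 h5 with h6 | h6
    · exact hb h6
    · exact this.ne' h6
  obtain ⟨φ, hφ⟩ := exists_hom hs1 a b D hD
  obtain ⟨hh, g1, g2, -, -⟩ := hC Qb φ.range (by
    rintro R ⟨T, rfl⟩
    rcases T with _ | ⟨X, Y, hT⟩
    · left; exact map_zero φ
    · obtain ⟨y', h', e⟩ := hφ X Y hT
      right
      exact ⟨_, _, _, e⟩)
  have nhφ : ∀ (X Y : ℚ) (hT : (tw a b D).toAffine.Nonsingular (D * X) Y),
      nh (φ (Affine.Point.some _ _ hT)) = logHeight₁ X := by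
    intro X Y hT
    obtain ⟨y', h', e⟩ := hφ _ _ hT
    rw [e, nh_some' h' (D * X / D) rfl, mul_div_cancel_left₀ _ hD]
  have mem : ∀ T, φ T ∈ φ.range := fun T => ⟨T, rfl⟩
  have hq : ∀ R S : (tw a b D).toAffine.Point, (fun T => hh (φ T)) (R + S) +
      (fun T => hh (φ T)) (R - S) = 2 * (fun T => hh (φ T)) R + 2 * (fun T => hh (φ T)) S := by
    intro R S
    have := g2 _ (mem R) _ (mem S)
    simp only [map_add, map_sub]
    exact this
  obtain ⟨y₃, h₃, e₃⟩ := sum_pt a b D x y n hD hx0 hn1 hy hP hQ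
  have hQ' := nonsQ a b D x y (-n) hab hD hy (by rw [neg4, neg_sq]; exact hxe)
  obtain ⟨y₄, h₄, e₄⟩ := sum_pt a b D x y (-n) hD hx0 (by rw [neg_sq]; exact hn1) hy hP hQ'
  rw [← neg_pt a b D x y n hQ hQ', ← sub_eq_add_neg] at e₄
  have k1 := g1 _ (mem (Affine.Point.some _ _ hP))
  have k2 := g1 _ (mem (Affine.Point.some _ _ hQ))
  have k3 := g1 _ (mem (Affine.Point.some _ _ h₃))
  have k4 := g1 _ (mem (Affine.Point.some _ _ h₄))
  rw [nhφ, abs_le] at k1 k2 k3 k4
  rw [abs_le] at h3 h4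
  have hb2 : |bform (fun T => hh (φ T)) (Affine.Point.some _ _ hP) (Affine.Point.some _ _ hQ)|
      ≤ |Cc| + |C₃| := by
    have hq' := hq (Affine.Point.some _ _ hP) (Affine.Point.some _ _ hQ)
    unfold bform
    simp only at hq' ⊢
    rw [e₃, e₄] at hq'
    rw [e₃]
    have a1 := le_abs_self Cc
    have a3 := le_abs_self C₃
    rw [abs_le]
    constructor <;> linarith [k3.1, k3.2, k4.1, k4.2, h3.1, h3.2, h4.1, h4.2]
  refine indep_two hq _ _ (|Cc| + |C₃|) hb2 ?_ ?_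
  · have a1 := le_abs_self Cc
    have a2 := le_abs_self C₁
    have a3 := abs_nonneg C₃
    have a4 := abs_nonneg C₂
    have a5 := abs_nonneg Cc
    linarith [k1.1]
  · have a1 := le_abs_self Cc
    have a2 := le_abs_self C₂
    have a3 := abs_nonneg C₃
    have a4 := abs_nonneg C₁
    have a5 := abs_nonneg Cc
    linarith [k2.1]

end Df

open Df in
theorem df (hkw : TaskKW) (hb1 : TaskB1) (hb2 : TaskB2) (ht1 : TaskT1) (hh0 : TaskH0)
    (hs1 : TaskS1) : TaskDf := by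
  intro a b hab ha hb
  have hE : (⟨0, 0, 0, a, b⟩ : WeierstrassCurve ℚ).IsElliptic := by
    rw [WeierstrassCurve.isElliptic_iff, isUnit_iff_ne_zero, short_Δ]
    exact mul_ne_zero (by norm_num) hab
  obtain ⟨Cc, hC⟩ := ht1 ℚ ⟨0, 0, 0, a, b⟩
  obtain ⟨C₁, hC₁⟩ := hh0 ℚ (num b) (den a) (cop1 a b ha hb)
  obtain ⟨C₂, hC₂⟩ := hh0 ℚ (num b) (Polynomial.C a * (Polynomial.X ^ 2 + 1)) (cop2 a b ha hb)
  have hden0 : den a ≠ 0 := by
    intro h
    have := den_eval a 1
    rw [h, Polynomial.eval_zero] at this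
    norm_num at this
    exact ha this
  have hnum0 : num b ≠ 0 := by
    intro h
    have := num_eval b 0
    rw [h, Polynomial.eval_zero] at this
    norm_num at this
    exact hb this
  have hX1 : (Polynomial.X + 1 : Polynomial ℚ) ≠ 0 := Polynomial.X_add_C_ne_zero 1
  have hQ0 : Q0 a b ≠ 0 := mul_ne_zero (mul_ne_zero hden0 (pow_ne_zero 2 hnum0)) (pow_ne_zero 2 hX1)
  obtain ⟨N, C₃, hC₃⟩ := h0_gen hh0 (P0 a b) (Q0 a b) hQ0
  obtain ⟨n₀, hn₀2, hn₀⟩ := log_big (|Cc| + |C₃| + |Cc| + |C₁| + |C₂| + 1)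
  refine (hb2 (HH a b) (HH_ne hb1 a b hab ha hb) n₀).mono ?_
  rintro D ⟨hDs, n, hn, hHn, w, hw⟩
  refine ⟨hDs, ?_⟩
  have hD : (D : ℚ) ≠ 0 := by exact_mod_cast hDs.ne_zero
  have hn2 : (2 : ℚ) ≤ n := by exact_mod_cast hn₀2.trans hn
  have hdn : (den a).eval (n : ℚ) ≠ 0 := by
    rw [HH_eval] at hHn
    exact left_ne_zero_of_mul hHn
  have hnn : (num b).eval (n : ℚ) ≠ 0 := by
    rw [num_eval]
    exact mul_ne_zero (neg_ne_zero.2 hb) (by positivity)
  have hdn' : (den a).eval (-n : ℚ) ≠ 0 := by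
    rw [den_eval] at hdn ⊢
    rwa [neg_sq]
  have hnn' : (num b).eval (-n : ℚ) ≠ 0 := by
    rw [num_eval] at hnn ⊢
    rwa [neg_sq, neg4]
  obtain ⟨x, hx⟩ : ∃ x : ℚ, x = (num b).eval (n : ℚ) / (den a).eval (n : ℚ) := ⟨_, rfl⟩
  have hx' : x = (num b).eval (-n : ℚ) / (den a).eval (-n : ℚ) := by
    rw [hx, num_eval, num_eval, den_eval, den_eval, neg_sq, neg4]
  have hxe : a * ((n : ℚ) ^ 2 * ((n : ℚ) ^ 2 + 1)) * x = - b * ((n : ℚ) ^ 4 + (n : ℚ) ^ 2 + 1) := by
    rw [← den_eval, ← num_eval, hx, mul_div_cancel₀ _ hdn]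
  obtain ⟨y, hy0⟩ : ∃ y : ℚ, y = w / ((den a).eval (n : ℚ) ^ 2 * D) := ⟨_, rfl⟩
  have hy : (D : ℚ) * y ^ 2 = x ^ 3 + a * x + b := by
    rw [HH_eval, cub_eval] at hw
    rw [hy0, hx]
    generalize (den a).eval (n : ℚ) = d at *
    generalize (num b).eval (n : ℚ) = m at *
    field_simp
    linear_combination -hw
  have hP := nonsP a b D x y hab hD hy
  have hQ := nonsQ a b D x y n hab hD hy hxe
  have hn1 : (n : ℚ) ^ 2 ≠ 1 := by nlinarith
  have hnm1 : (n : ℚ) + 1 ≠ 0 := by linarith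
  have hnm2 : -(n : ℚ) + 1 ≠ 0 := by intro h; linarith
  refine ⟨Affine.Point.some _ _ hP, Affine.Point.some _ _ hQ, ?_, ?_⟩
  · have hh1 : 0 ≤ logHeight₁ (n : ℚ) := zero_le_logHeight₁ _
    refine step hs1 a b hab hb Cc C₁ C₂ C₃ N hC n x y D hD hn1 hy hxe ?_ ?_ ?_ ?_
      (hn₀ n hn) hP hQ
    · have := hC₁ n hdn
      rw [← hx, abs_le] at this
      have hdeg : (1 : ℝ) ≤ (max (num b).natDegree (den a).natDegree : ℕ) := by
        have : (den a).natDegree = 4 := by unfold den; compute_degree!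
        rw [this]
        exact_mod_cast (le_trans (by norm_num) (le_max_right _ _) : 1 ≤ max (num b).natDegree 4)
      nlinarith [this.1]
    · have hne : (Polynomial.C a * (Polynomial.X ^ 2 + 1)).eval (n : ℚ) ≠ 0 := by
        simp only [Polynomial.eval_mul, Polynomial.eval_C, Polynomial.eval_add,
          Polynomial.eval_pow, Polynomial.eval_X, Polynomial.eval_one]
        exact mul_ne_zero ha (by positivity)
      have := hC₂ n hne
      have e : (num b).eval (n : ℚ) / (Polynomial.C a * (Polynomial.X ^ 2 + 1)).eval (n : ℚ)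
          = (n : ℚ) ^ 2 * x := by
        simp only [Polynomial.eval_mul, Polynomial.eval_C, Polynomial.eval_add,
          Polynomial.eval_pow, Polynomial.eval_X, Polynomial.eval_one]
        rw [hx, den_eval]
        have : (n : ℚ) ≠ 0 := by linarith
        field_simp
      rw [e, abs_le] at this
      have hdeg : (1 : ℝ) ≤ (max (num b).natDegree
          (Polynomial.C a * (Polynomial.X ^ 2 + 1)).natDegree : ℕ) := by
        have : (Polynomial.C a * (Polynomial.X ^ 2 + 1)).natDegree = 2 := by compute_degree!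
        rw [this]
        exact_mod_cast (le_trans (by norm_num) (le_max_right _ _) : 1 ≤ max (num b).natDegree 2)
      nlinarith [this.1]
    · have := hC₃ n (by
        rw [Q0_eval]
        exact mul_ne_zero (mul_ne_zero hdn (pow_ne_zero 2 hnn)) (pow_ne_zero 2 hnm1))
      rw [ratio a b n x hdn hnn hnm1 hx] at this
      exact this
    · have := hC₃ (-n) (by
        rw [Q0_eval]
        exact mul_ne_zero (mul_ne_zero hdn' (pow_ne_zero 2 hnn')) (pow_ne_zero 2 hnm2))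
      rw [ratio a b (-n) x hdn' hnn' hnm2 hx', logHeight₁_neg (n : ℚ)] at this
      exact this
  · have hEt := tw_ell a b D hab hD
    have hac : (algebraMap ℚ Qb) (a * (D : ℚ) ^ 2) ≠ 0 := by
      rw [Ne, map_eq_zero_iff _ (algebraMap ℚ Qb).injective]
      exact mul_ne_zero ha (pow_ne_zero 2 hD)
    have hbc : (algebraMap ℚ Qb) (b * (D : ℚ) ^ 3) ≠ 0 := by
      rw [Ne, map_eq_zero_iff _ (algebraMap ℚ Qb).injective]
      exact mul_ne_zero hb (pow_ne_zero 3 hD)
    have hcv : ((tw a b D)⁄Qb) = ⟨0, 0, 0, algebraMap ℚ Qb (a * (D : ℚ) ^ 2),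
        algebraMap ℚ Qb (b * (D : ℚ) ^ 3)⟩ := by ext <;> simp [tw]
    have hEb : ((tw a b D)⁄Qb).IsElliptic := by
      change ((tw a b D).map (algebraMap ℚ Qb)).IsElliptic
      infer_instance
    refine kw_gen hkw ((tw a b D)⁄Qb) ((tw a b D)⁄Qb) _ _ _ _ hcv hcv (fun h => hac h.1)
      (fun h => hbc h.1) (algebraMap ℚ Qb n) _ _ _ _ _ _ ?_ ?_ ?_ ?_
    · rw [← map_pow, ← map_mul]
      congr 1
      ring
    · rw [← map_pow, ← map_mul]
      congr 1
      ring
    · rw [Ne, map_eq_zero_iff _ (algebraMap ℚ Qb).injective]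
      intro h; linarith
    · intro h
      rw [← map_pow, ← map_mul] at h
      have h1 := (algebraMap ℚ Qb).injective h
      have h2 : (n : ℚ) ^ 4 = 1 := by
        have : a * (D : ℚ) ^ 2 ≠ 0 := mul_ne_zero ha (pow_ne_zero 2 hD)
        exact mul_left_cancel₀ this (by rw [h1, mul_one])
      nlinarith [sq_nonneg ((n : ℚ) ^ 2 - 1)]

end Pool.Agent.LibBH2
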