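import Pool.Agent.LibBH2.Stmts

/-!
Curves `y² = x³ + a x + b` and `y² = x³ + c x + d` sharing a point after the scaling `(s², s³)`.
-/

open scoped Classical
open Polynomial WeierstrassCurve

namespace Pool.Agent.LibBH2

theorem toRF_X {k : Type} [Field k] : toRF (X : k[X]) = RatFunc.X := by
  rw [toRF, RatFunc.algebraMap_X]

theorem toRF_ne_zero {k : Type} [Field k] {P : k[X]} (h : P ≠ 0) : toRF P ≠ 0 :=
  RatFunc.algebraMap_ne_zero h

theorem toRF_C {k : Type} [Field k] (c : k) : toRF (C c : k[X]) = algebraMap k (RatFunc k) c := by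
  rw [toRF, RatFunc.algebraMap_C]; rfl

theorem ne_zero_of_eval {k : Type} [Field k] {P : k[X]} {t : k} (h : P.eval t ≠ 0) : P ≠ 0 := by
  rintro rfl; simp at h

theorem kw : TaskKW := by
  intro k _ _ _ a b c d hE₁ hE₂ hac hbd s x y h h' hs hM
  have e1 : y ^ 2 = x ^ 3 + a * x + b := by
    have := (Affine.equation_iff _ _).1 h.1
    simpa using this
  have e2 : (s ^ 3 * y) ^ 2 = (s ^ 2 * x) ^ 3 + c * (s ^ 2 * x) + d := by
    have := (Affine.equation_iff _ _).1 h'.1
    simpa using this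
  obtain ⟨μ, hμ⟩ : ∃ μ, a * s ^ 4 - c = μ := ⟨_, rfl⟩
  have hM0 : μ ≠ 0 := by rw [← hμ]; exact sub_ne_zero.2 hM
  have hx : x * s ^ 2 * μ = -(b * s ^ 6 - d) := by
    rw [← hμ]; linear_combination e2 - s ^ 6 * e1
  by_cases hy : y = 0
  · exact two_zc_of_torsion_left _ _ (two_nsmul_eq_zero_of h (by simp [hy]))
  apply two_zc_of
  set M : k[X] := C a * X ^ 4 - C c with hMd
  set N : k[X] := C b * X ^ 6 - C d with hNd
  have hMs : M.eval s = μ := by simp [hMd, hμ]
  have hNs : N.eval s = b * s ^ 6 - d := by simp [hNd]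
  have hMe : M.eval s ≠ 0 := by rw [hMs]; exact hM0
  have hM00 : M.eval 0 = -c := by simp [hMd]
  have hN00 : N.eval 0 = -d := by simp [hNd]
  have hMr : toRF M ≠ 0 := toRF_ne_zero (ne_zero_of_eval hMe)
  have hXr : (RatFunc.X : RatFunc k) ≠ 0 := RatFunc.X_ne_zero
  have hMr' : toRF M = algebraMap k (RatFunc k) a * RatFunc.X ^ 4 - algebraMap k (RatFunc k) c := by
    rw [hMd]; simp only [← toRF_X, ← toRF_C, toRF, map_sub, map_mul, map_pow]
  have hNr' : toRF N = algebraMap k (RatFunc k) b * RatFunc.X ^ 6 - algebraMap k (RatFunc k) d := by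
    rw [hNd]; simp only [← toRF_X, ← toRF_C, toRF, map_sub, map_mul, map_pow]
  set m : RatFunc k := toRF M with hm
  have mul' : ∀ P Q : k[X], toRF (P * Q) = toRF P * toRF Q := fun P Q => by simp [toRF]
  have pow' : ∀ (P : k[X]) (n : ℕ), toRF (P ^ n) = toRF P ^ n := fun P n => by simp [toRF]
  have neg' : ∀ (P : k[X]), toRF (-P) = - toRF P := fun P => by simp [toRF]
  have add' : ∀ P Q : k[X], toRF (P + Q) = toRF P + toRF Q := fun P Q => by simp [toRF]
  have sub' : ∀ P Q : k[X], toRF (P - Q) = toRF P - toRF Q := fun P Q => by simp [toRF]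
  have two' : toRF (2 : k[X]) = 2 := map_ofNat _ 2
  have hb₂ : ∀ p q : k, (⟨0, 0, 0, p, q⟩ : WeierstrassCurve k).b₂ = 0 := fun p q => by
    simp [b₂]
  have hb₄ : ∀ p q : k, (⟨0, 0, 0, p, q⟩ : WeierstrassCurve k).b₄ = 2 * p := fun p q => by
    simp [b₄]
  have hb₆ : ∀ p q : k, (⟨0, 0, 0, p, q⟩ : WeierstrassCurve k).b₆ = 4 * q := fun p q => by
    simp [b₆]
  have e4' : algebraMap k (RatFunc k) 4 = 4 := map_ofNat _ 4
  have e2' : algebraMap k (RatFunc k) 2 = 2 := map_ofNat _ 2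
  have hNx : N.eval s = - (x * s ^ 2 * μ) := by rw [hNs, hx]; ring
  by_cases hd : d = 0
  · -- the case `d = 0`
    subst hd
    have hb : b ≠ 0 := fun h0 => hbd ⟨h0, rfl⟩
    have hc : c ≠ 0 := by
      intro h0
      apply (WeierstrassCurve.isUnit_Δ (⟨0, 0, 0, c, 0⟩ : WeierstrassCurve k)).ne_zero
      simp [WeierstrassCurve.Δ, b₂, b₄, b₆, b₈, h0]
    set F : k[X] := -M * C b * (C (b ^ 2) * X ^ 12 + C c * M ^ 2) with hF
    have hFr : toRF F = -m * algebraMap k (RatFunc k) b * (algebraMap k (RatFunc k) b ^ 2 *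
        RatFunc.X ^ 12 + algebraMap k (RatFunc k) c * m ^ 2) := by
      rw [hF]
      simp only [mul', pow', neg', add', toRF_X, toRF_C, map_pow, ← hm]
    have hF0 : F.eval 0 = b * c ^ 4 := by
      simp only [hF, eval_mul, eval_neg, eval_add, eval_pow, eval_X, eval_C, hM00]
      ring
    obtain ⟨y₁, hy₁⟩ := IsAlgClosed.exists_pow_nat_eq (F.eval 0) two_pos
    have hy₁0 : y₁ ≠ 0 := by
      rintro rfl
      rw [zero_pow two_ne_zero, hF0] at hy₁
      exact mul_ne_zero hb (pow_ne_zero 4 hc) hy₁.symm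
    have hx' : x * μ = -(b * s ^ 4) := by
      have h1 : s ^ 2 * (x * μ) = s ^ 2 * (-(b * s ^ 4)) := by
        linear_combination hx
      exact mul_left_cancel₀ (pow_ne_zero 2 hs) h1
    have hFs : F.eval s = (y * μ ^ 2) ^ 2 := by
      simp only [hF, eval_mul, eval_neg, eval_add, eval_pow, eval_X, eval_C, hMs]
      linear_combination (-μ ^ 4) * e1 + (-μ * ((x * μ) ^ 2 - (x * μ) * b * s ^ 4 + b ^ 2 * s ^ 8)
        - μ ^ 3 * a) * hx' + μ ^ 3 * b * hμ
    have hq₁ : (⟨0, 0, 0, a, b⟩ : WeierstrassCurve k).toAffine.Nonsingular 0 (y₁ / c ^ 2) := by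
      apply (Affine.equation_iff_nonsingular_of_Δ_ne_zero
        (W := (⟨0, 0, 0, a, b⟩ : WeierstrassCurve k)) (WeierstrassCurve.isUnit_Δ _).ne_zero).1
      rw [Affine.equation_iff]
      rw [hF0] at hy₁
      simp only [zero_mul, add_zero]
      rw [div_pow, hy₁]
      field_simp
      ring
    have hq₂ : (⟨0, 0, 0, c, 0⟩ : WeierstrassCurve k).toAffine.Nonsingular 0 0 := by
      apply (Affine.equation_iff_nonsingular_of_Δ_ne_zero
        (W := (⟨0, 0, 0, c, 0⟩ : WeierstrassCurve k)) (WeierstrassCurve.isUnit_Δ _).ne_zero).1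
      rw [Affine.equation_iff]
      simp
    have key := family_rel (W₁ := ⟨0, 0, 0, a, b⟩) (W₂ := ⟨0, 0, 0, c, 0⟩) F
      (toRF (-(C b * X ^ 4)) / toRF M) (toRF 2 / toRF (M ^ 2))
      (toRF (-(C b * X ^ 6)) / toRF M) (toRF (2 * X ^ 3) / toRF (M ^ 2))
      (by
        simp only [hFr, mul', pow', neg', two', toRF_X, toRF_C, ← hm, hb₂, hb₄, hb₆, map_mul,
          e2', e4', map_zero]
        field_simp
        rw [hMr']
        ring)
      (by
        simp only [hFr, mul', pow', neg', two', toRF_X, toRF_C, ← hm, hb₂, hb₄, hb₆, map_mul,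
          e2', e4', map_zero]
        field_simp
        rw [hMr']
        ring)
      (s₀ := s) (s₁ := 0) (y₀ := y * μ ^ 2) (y₁ := y₁) hs
      (mul_ne_zero hy (pow_ne_zero 2 hM0)) hy₁0 hFs hy₁.symm
      (p₁ := .some x y h) (q₁ := .some _ _ hq₁) (p₂ := .some _ _ h') (q₂ := .some _ _ hq₂)
      ⟨⟨_, _, hMe, rfl, by
          simp only [eval_neg, eval_mul, eval_pow, eval_X, eval_C, hMs]
          linear_combination - hx'⟩,
        2 / μ ^ 2, ⟨_, _, by simpa [hMs] using hM0, rfl, by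
          simp only [eval_pow, hMs, eval_ofNat]; field_simp⟩, by
        simp only; field_simp; ring⟩
      ⟨⟨_, _, hMe, rfl, by
          simp only [eval_neg, eval_mul, eval_pow, eval_X, eval_C, hMs]
          linear_combination - s ^ 2 * hx'⟩,
        2 * s ^ 3 / μ ^ 2, ⟨_, _, by simpa [hMs] using hM0, rfl, by
          simp only [eval_mul, eval_pow, eval_X, hMs, eval_ofNat]; field_simp⟩, by
        simp only; field_simp; ring⟩
      ⟨⟨_, _, by simpa [hM00] using hc, rfl, by simp⟩,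
        2 / c ^ 2, ⟨_, _, by simpa [hM00] using hc, rfl, by
          simp only [eval_pow, hM00, eval_ofNat]; field_simp⟩, by
        simp only; field_simp; ring⟩
      ⟨⟨_, _, by simpa [hM00] using hc, rfl, by simp⟩,
        0, ⟨_, _, by simpa [hM00] using hc, rfl, by simp⟩, by simp⟩
    have hneg : -(Affine.Point.some 0 0 hq₂ :
        (⟨0, 0, 0, c, 0⟩ : WeierstrassCurve k).toAffine.Point) = .some 0 0 hq₂ := by
      rw [Affine.Point.neg_some]
      simp [Affine.negY]
    rw [key, hneg, pt_neg_left]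
    nth_rewrite 2 [← hneg]
    exact pt_neg_right _ _
  by_cases hc : c = 0
  · -- the case `c = 0`
    subst hc
    have ha : a ≠ 0 := fun h0 => hac ⟨h0, rfl⟩
    rw [sub_zero] at hμ
    subst hμ
    set F : k[X] := -C a * (N ^ 3 - C (a ^ 3 * d) * X ^ 12) with hF
    have hFr : toRF F = -algebraMap k (RatFunc k) a * (toRF N ^ 3 -
        algebraMap k (RatFunc k) a ^ 3 * algebraMap k (RatFunc k) d * RatFunc.X ^ 12) := by
      rw [hF]
      simp only [mul', pow', neg', sub', toRF_X, toRF_C, map_pow, map_mul]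
    have hF0 : F.eval 0 = a * d ^ 3 := by
      simp only [hF, eval_mul, eval_neg, eval_sub, eval_pow, eval_X, eval_C, hN00]
      ring
    obtain ⟨y₁, hy₁⟩ := IsAlgClosed.exists_pow_nat_eq (F.eval 0) two_pos
    have hy₁0 : y₁ ≠ 0 := by
      rintro rfl
      rw [zero_pow two_ne_zero, hF0] at hy₁
      exact mul_ne_zero ha (pow_ne_zero 3 hd) hy₁.symm
    have hFs : F.eval s = (y * a ^ 2 * s ^ 9) ^ 2 := by
      simp only [hF, eval_mul, eval_neg, eval_sub, eval_pow, eval_X, eval_C]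
      rw [hNx]
      linear_combination (-(a ^ 4 * s ^ 18)) * e1 + (-(a ^ 4 * s ^ 12)) * hx
    have har : algebraMap k (RatFunc k) a ≠ 0 := by
      rw [Ne, map_eq_zero]; exact ha
    have key := family_rel (W₁ := ⟨0, 0, 0, a, b⟩) (W₂ := ⟨0, 0, 0, 0, d⟩) F
      (toRF (-N) / toRF (C a * X ^ 6)) (toRF 2 / toRF (C (a ^ 2) * X ^ 9))
      (toRF (-N) / toRF (C a * X ^ 4)) (toRF 2 / toRF (C (a ^ 2) * X ^ 6))
      (by
        simp only [hFr, mul', pow', neg', two', toRF_X, toRF_C, hb₂, hb₄, hb₆, hNr', map_mul,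
          map_pow, e2', e4', map_zero]
        field_simp
        ring)
      (by
        simp only [hFr, mul', pow', neg', two', toRF_X, toRF_C, hb₂, hb₄, hb₆, hNr', map_mul,
          map_pow, e2', e4', map_zero]
        field_simp
        ring)
      (s₀ := s) (s₁ := 0) (y₀ := y * a ^ 2 * s ^ 9) (y₁ := y₁) hs
      (mul_ne_zero (mul_ne_zero hy (pow_ne_zero 2 ha)) (pow_ne_zero 9 hs)) hy₁0 hFs hy₁.symm
      (p₁ := .some x y h) (q₁ := 0) (p₂ := .some _ _ h') (q₂ := 0)
      ⟨⟨_, _, by simpa using ⟨ha, hs⟩, rfl, by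
          simp only [eval_neg, eval_mul, eval_pow, eval_X, eval_C, hNs]
          linear_combination - hx⟩,
        2 / (a ^ 2 * s ^ 9), ⟨_, _, by simpa using ⟨ha, hs⟩, rfl, by
          simp only [eval_mul, eval_pow, eval_X, eval_C, eval_ofNat]; field_simp⟩, by
        simp only; field_simp; ring⟩
      ⟨⟨_, _, by simpa using ⟨ha, hs⟩, rfl, by
          simp only [eval_neg, eval_mul, eval_pow, eval_X, eval_C, hNs]
          linear_combination - hx⟩,
        2 / (a ^ 2 * s ^ 6), ⟨_, _, by simpa using ⟨ha, hs⟩, rfl, by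
          simp only [eval_mul, eval_pow, eval_X, eval_C, eval_ofNat]; field_simp⟩, by
        simp only; field_simp; ring⟩
      ⟨_, _, by simpa [hN00] using hd,
        mul_ne_zero (C_ne_zero.2 ha) (pow_ne_zero 6 X_ne_zero), by simp, rfl⟩
      ⟨_, _, by simpa [hN00] using hd,
        mul_ne_zero (C_ne_zero.2 ha) (pow_ne_zero 4 X_ne_zero), by simp, rfl⟩
    rw [key, neg_zero, neg_zero]
  -- the main case
  · set F : k[X] := -M * (N ^ 3 + X ^ 4 * M ^ 2 * (C (b * c) * X ^ 2 - C (a * d))) with hF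
    have hFr : toRF F = -m * (toRF N ^ 3 + RatFunc.X ^ 4 * m ^ 2 *
        (algebraMap k (RatFunc k) b * algebraMap k (RatFunc k) c * RatFunc.X ^ 2 -
          algebraMap k (RatFunc k) a * algebraMap k (RatFunc k) d)) := by
      rw [hF]
      simp only [mul', pow', neg', add', sub', toRF_X, toRF_C, map_mul, ← hm]
    have hF0 : F.eval 0 = -(c * d ^ 3) := by
      simp only [hF, eval_mul, eval_neg, eval_add, eval_pow, eval_sub, eval_X, eval_C, hM00, hN00]
      ring
    obtain ⟨y₁, hy₁⟩ := IsAlgClosed.exists_pow_nat_eq (F.eval 0) two_pos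
    have hy₁0 : y₁ ≠ 0 := by
      rintro rfl
      rw [zero_pow two_ne_zero, hF0] at hy₁
      exact neg_ne_zero.2 (mul_ne_zero hc (pow_ne_zero 3 hd)) hy₁.symm
    have hFs : F.eval s = (y * s ^ 3 * μ ^ 2) ^ 2 := by
      simp only [hF, eval_mul, eval_neg, eval_add, eval_pow, eval_sub, eval_X, eval_C, hMs]
      rw [hNx]
      rw [← hμ] at hx ⊢
      linear_combination (-(s ^ 6 * (a * s ^ 4 - c) ^ 4)) * e1 +
        (-(s ^ 4 * (a * s ^ 4 - c) ^ 3 * a)) * hx
    have hq : (⟨0, 0, 0, c, d⟩ : WeierstrassCurve k).toAffine.Nonsingular (-(d / c))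
        (y₁ / c ^ 2) := by
      apply (Affine.equation_iff_nonsingular_of_Δ_ne_zero
        (W := (⟨0, 0, 0, c, d⟩ : WeierstrassCurve k)) (WeierstrassCurve.isUnit_Δ _).ne_zero).1
      rw [Affine.equation_iff]
      rw [hF0] at hy₁
      simp only [zero_mul, add_zero]
      rw [div_pow, hy₁]
      field_simp
      ring
    have key := family_rel (W₁ := ⟨0, 0, 0, a, b⟩) (W₂ := ⟨0, 0, 0, c, d⟩) F
      (toRF (-N) / toRF (X ^ 2 * M)) (toRF 2 / toRF (X ^ 3 * M ^ 2))
      (toRF (-N) / toRF M) (toRF 2 / toRF (M ^ 2))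
      (by
        simp only [hFr, mul', pow', neg', two', toRF_X, ← hm, hb₂, hb₄, hb₆, hNr', map_mul, e2',
          e4', map_zero]
        field_simp
        rw [hMr']
        ring)
      (by
        simp only [hFr, pow', neg', two', ← hm, hb₂, hb₄, hb₆, hNr', map_mul, e2', e4', map_zero]
        field_simp
        rw [hMr']
        ring)
      (s₀ := s) (s₁ := 0) (y₀ := y * s ^ 3 * μ ^ 2) (y₁ := y₁) hs
      (mul_ne_zero (mul_ne_zero hy (pow_ne_zero 3 hs)) (pow_ne_zero 2 hM0)) hy₁0 hFs hy₁.symm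
      (p₁ := .some x y h) (q₁ := 0) (p₂ := .some _ _ h') (q₂ := .some _ _ hq)
      ⟨⟨_, _, by simpa [hMs] using ⟨hs, hM0⟩, rfl, by
          simp only [eval_neg, eval_mul, eval_pow, eval_X, hMs, hNs]; linear_combination - hx⟩,
        2 / (s ^ 3 * μ ^ 2), ⟨_, _, by simpa [hMs] using ⟨hs, hM0⟩, rfl, by
          simp only [eval_mul, eval_pow, eval_X, hMs, eval_ofNat]; field_simp⟩, by
        simp only; field_simp; ring⟩
      ⟨⟨_, _, hMe, rfl, by
          simp only [eval_neg, hMs, hNs]; linear_combination - hx⟩,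
        2 / μ ^ 2, ⟨_, _, by simpa [hMs] using hM0, rfl, by
          simp only [eval_pow, hMs, eval_ofNat]; field_simp⟩, by
        simp only; field_simp; ring⟩
      ⟨_, _, by simpa [hN00] using hd, by
        exact mul_ne_zero (pow_ne_zero 2 X_ne_zero) (ne_zero_of_eval hMe), by simp, rfl⟩
      ⟨⟨_, _, by simpa [hM00] using hc, rfl, by
          simp only [eval_neg, hM00, hN00]; field_simp⟩,
        2 / c ^ 2, ⟨_, _, by simpa [hM00] using hc, rfl, by
          simp only [eval_pow, hM00, eval_ofNat]; field_simp⟩, by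
        simp only; field_simp; ring⟩
    rw [key, neg_zero]
    exact pt_neg_right _ _

end Pool.Agent.LibBH2
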