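import Pool.Agent.LibBH2.Place

/-!
The Chow group of zero-cycles of a product of two elliptic curves over an algebraically closed
field.
-/

open scoped Classical
open WeierstrassCurve

namespace Pool.Agent.LibBH2

section defs

variable {k : Type} [Field k]

/-- `Spec v T p`: the `K`-point `T` of the curve `W` (defined over `k`) specialises at the place `v`
of `K` over `k` to the `k`-point `p`. -/
def Spec {K : Type} [Field K] [Algebra k K] (v : Place k K) {W : WeierstrassCurve k} :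
    (W⁄K).toAffine.Point → W.toAffine.Point → Prop
  | .zero, p => p = 0
  | .some x _ _, .zero => v.ord x < 0
  | .some x y _, .some x₀ y₀ _ =>
      v.Zer (x - algebraMap k K x₀) ∧ v.Zer (y - algebraMap k K y₀)

/-- The zero-cycle `c` on `W₁ × W₂` is the push-forward of the divisor of a function `φ` on a curve:
`K` is a function field of one variable over `k` (finite over `k(s)`), `(T₁, T₂)` is a `K`-point of
`W₁ × W₂`, i.e. a map from the curve of `K` to `W₁ × W₂`, and `c` is the sum over the places `v` of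
`K` of `ord_v φ` times the value of `(T₁, T₂)` at `v`. -/
def IsPrincipal (W₁ W₂ : WeierstrassCurve k)
    (c : (W₁.toAffine.Point × W₂.toAffine.Point) →₀ ℤ) : Prop :=
  ∃ (K : Type) (_ : Field K) (_ : Algebra k K) (ι : RatFunc k →ₐ[k] K)
    (T₁ : (W₁⁄K).toAffine.Point) (T₂ : (W₂⁄K).toAffine.Point) (φ : K) (S : Finset (Place k K))
    (p₁ : Place k K → W₁.toAffine.Point) (p₂ : Place k K → W₂.toAffine.Point),
    ι.toRingHom.Finite ∧ φ ≠ 0 ∧ (∀ v, v.ord φ ≠ 0 → v ∈ S) ∧
    (∀ v ∈ S, Spec v T₁ (p₁ v) ∧ Spec v T₂ (p₂ v)) ∧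
    c = ∑ v ∈ S, Finsupp.single (p₁ v, p₂ v) (v.ord φ)

/-- The Chow group of zero-cycles of `W₁ × W₂` (for `k` algebraically closed): finite formal
`ℤ`-combinations of points modulo rational equivalence. -/
def CH0 (W₁ W₂ : WeierstrassCurve k) : Type :=
  ((W₁.toAffine.Point × W₂.toAffine.Point) →₀ ℤ) ⧸
    AddSubgroup.closure {c | IsPrincipal W₁ W₂ c}

noncomputable instance (W₁ W₂ : WeierstrassCurve k) : AddCommGroup (CH0 W₁ W₂) :=
  inferInstanceAs (AddCommGroup (_ ⧸ AddSubgroup.closure {c | IsPrincipal W₁ W₂ c}))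

/-- The class of the point `(P, Q)` in `CH0`. -/
noncomputable def pt {W₁ W₂ : WeierstrassCurve k} (P : W₁.toAffine.Point)
    (Q : W₂.toAffine.Point) : CH0 W₁ W₂ :=
  QuotientAddGroup.mk' (AddSubgroup.closure {c | IsPrincipal W₁ W₂ c}) (Finsupp.single (P, Q) 1)

/-- The class `z(P,Q) = [(P,Q)] - [(P,O)] - [(O,Q)] + [(O,O)]`, in the kernel of the Albanese map. -/
noncomputable def zc {W₁ W₂ : WeierstrassCurve k} (P : W₁.toAffine.Point)
    (Q : W₂.toAffine.Point) : CH0 W₁ W₂ :=
  pt P Q - pt P 0 - pt 0 Q + pt 0 0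

end defs

variable {k : Type} [Field k] {W₁ W₂ : WeierstrassCurve k}

theorem rel {K : Type} [Field K] [Algebra k K] (ι : RatFunc k →ₐ[k] K) (hι : ι.toRingHom.Finite)
    (T₁ : (W₁⁄K).toAffine.Point) (T₂ : (W₂⁄K).toAffine.Point) {φ : K} (hφ : φ ≠ 0)
    (S : Finset (Place k K)) (hS : ∀ v, v.ord φ ≠ 0 → v ∈ S)
    (p₁ : Place k K → W₁.toAffine.Point) (p₂ : Place k K → W₂.toAffine.Point)
    (hp : ∀ v ∈ S, Spec v T₁ (p₁ v) ∧ Spec v T₂ (p₂ v)) :
    ∑ v ∈ S, v.ord φ • (pt (p₁ v) (p₂ v) : CH0 W₁ W₂) = 0 := by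
  have h1 : (∑ v ∈ S, Finsupp.single (p₁ v, p₂ v) (v.ord φ)) ∈
      AddSubgroup.closure {c | IsPrincipal W₁ W₂ c} :=
    AddSubgroup.subset_closure ⟨K, inferInstance, inferInstance, ι, T₁, T₂, φ, S, p₁, p₂, hι, hφ,
      hS, hp, rfl⟩
  have h2 := (QuotientAddGroup.eq_zero_iff _).2 h1
  rw [← QuotientAddGroup.mk'_apply, map_sum] at h2
  refine Eq.trans (Finset.sum_congr rfl fun v _ => ?_) h2
  rw [pt]
  have h3 := map_zsmul (QuotientAddGroup.mk' (AddSubgroup.closure {c | IsPrincipal W₁ W₂ c}))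
    (v.ord φ) (Finsupp.single (p₁ v, p₂ v) (1 : ℤ))
  refine h3.symm.trans ?_
  congr 1
  rw [Finsupp.smul_single]
  simp

/-- a point over `k`, seen over `K` -/
noncomputable def constPt (K : Type) [Field K] [Algebra k K] {W : WeierstrassCurve k} :
    W.toAffine.Point → (W⁄K).toAffine.Point
  | .zero => .zero
  | .some x y h => .some (algebraMap k K x) (algebraMap k K y)
      ((WeierstrassCurve.Affine.map_nonsingular W (algebraMap k K).injective x y).2 h)

theorem spec_const {K : Type} [Field K] [Algebra k K] (v : Place k K) {W : WeierstrassCurve k}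
    (Q : W.toAffine.Point) : Spec v (constPt K Q) Q := by
  match Q with
  | .zero => rfl
  | .some x y h => exact ⟨by simp [Place.zer_zero], by simp [Place.zer_zero]⟩

end Pool.Agent.LibBH2
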