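import Pool.Agent.LibBH2.Inv
import Pool.Agent.LibBH2.CH0

/-!
The function field of a Weierstrass curve, its places, and the relations given by lines.
-/

open scoped Classical
open Polynomial WeierstrassCurve

namespace Pool.Agent.LibBH2

variable {k : Type} [Field k] [CharZero k]

/-- the cubic `x ^ 3 + (b₂/4) x ^ 2 + (b₄/2) x + b₆/4 = (y + (a₁ x + a₃)/2) ^ 2`. -/
noncomputable def fpoly (W : WeierstrassCurve k) : k[X] :=
  X ^ 3 + C (W.b₂ / 4) * X ^ 2 + C (W.b₄ / 2) * X + C (W.b₆ / 4)

omit [CharZero k] in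
theorem fpoly_eval (W : WeierstrassCurve k) (x : k) :
    (fpoly W).eval x = x ^ 3 + W.b₂ / 4 * x ^ 2 + W.b₄ / 2 * x + W.b₆ / 4 := by
  simp [fpoly]

omit [CharZero k] in
theorem fpoly_natDegree (W : WeierstrassCurve k) : (fpoly W).natDegree = 3 := by
  unfold fpoly
  compute_degree!

omit [CharZero k] in
theorem fpoly_not_isSquare (W : WeierstrassCurve k) :
    ¬ IsSquare (algebraMap k[X] (RatFunc k) (fpoly W)) := by
  apply not_isSquare_of_odd
  rw [fpoly_natDegree]
  decide

instance (W : WeierstrassCurve k) : Fact (Irreducible (quadPoly (fpoly W))) :=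
  ⟨quadPoly_irreducible (fpoly_not_isSquare W)⟩

theorem two_ne : (2 : k) ≠ 0 := two_ne_zero

theorem eq_iff_eta (W : WeierstrassCurve k) (x y : k) :
    W.toAffine.Equation x y ↔ (y + (W.a₁ * x + W.a₃) / 2) ^ 2 = (fpoly W).eval x := by
  rw [Affine.equation_iff, fpoly_eval]
  simp only [WeierstrassCurve.b₂, WeierstrassCurve.b₄, WeierstrassCurve.b₆]
  constructor
  · intro h; linear_combination h
  · intro h; linear_combination h

theorem fpoly_deriv_ne (W : WeierstrassCurve k) [W.IsElliptic] {e : k}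
    (he : (fpoly W).eval e = 0) : (fpoly W).derivative.eval e ≠ 0 := by
  intro hd
  have h1 : W.toAffine.Equation e (-(W.a₁ * e + W.a₃) / 2) := by
    rw [eq_iff_eta, he]; ring
  have h2 := (Affine.equation_iff_nonsingular_of_Δ_ne_zero
    (W := W) (x := e) (y := -(W.a₁ * e + W.a₃) / 2) (W.isUnit_Δ.ne_zero)).1 h1
  rw [Affine.nonsingular_iff'] at h2
  rcases h2.2 with h3 | h3
  · apply h3
    have h4 : (fpoly W).derivative.eval e = 3 * e ^ 2 + W.b₂ / 2 * e + W.b₄ / 2 := by
      simp [fpoly]; ring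
    rw [h4] at hd
    simp only [WeierstrassCurve.b₂, WeierstrassCurve.b₄] at hd
    linear_combination - hd
  · apply h3; ring

/-- the function field of `W` -/
abbrev KE (W : WeierstrassCurve k) : Type := AdjoinRoot (quadPoly (fpoly W))

noncomputable def DE (W : WeierstrassCurve k) : DC k (KE W) := DC.ofQuad (fpoly W)

theorem DE_F (W : WeierstrassCurve k) : (DE W).F = fpoly W := rfl

noncomputable def DEinf (W : WeierstrassCurve k) : DC k (KE W) :=
  (DE W).atInf 2 (X + C (W.b₂ / 4) * X ^ 2 + C (W.b₄ / 2) * X ^ 3 + C (W.b₆ / 4) * X ^ 4) (by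
    have hX : (RatFunc.X : RatFunc k) ≠ 0 := RatFunc.X_ne_zero
    rw [DE_F, fpoly]
    simp only [map_add, map_mul, map_pow, aeval_X, aeval_C, RatFunc.algebraMap_X,
      RatFunc.algebraMap_C]
    have h1 : ∀ c : k, algebraMap k (RatFunc k) c = RatFunc.C c := fun c => rfl
    simp only [h1]
    field_simp
    ring)

theorem DEinf_s (W : WeierstrassCurve k) : (DEinf W).s = (DE W).s⁻¹ := DC.atInf_s _ _ _ _

theorem DEinf_w (W : WeierstrassCurve k) : (DEinf W).w = (DE W).w / (DE W).s ^ 2 := rfl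

theorem DEinf_F (W : WeierstrassCurve k) : (DEinf W).F =
  X + C (W.b₂ / 4) * X ^ 2 + C (W.b₄ / 2) * X ^ 3 + C (W.b₆ / 4) * X ^ 4 := rfl

theorem DEinf_F0 (W : WeierstrassCurve k) : (DEinf W).F.eval 0 = 0 := by
  rw [DEinf_F]; simp

theorem DEinf_F1 (W : WeierstrassCurve k) : (DEinf W).F.derivative.eval 0 ≠ 0 := by
  rw [DEinf_F]; simp

theorem DE_s_ne (W : WeierstrassCurve k) : (DE W).s ≠ 0 := by
  have := (DE W).s_sub_ne_zero 0
  simpa using this

omit [CharZero k] in
theorem fpoly_aeval {A : Type} [CommRing A] [Algebra k A] (W : WeierstrassCurve k) (s : A) :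
    aeval s (fpoly W) = s ^ 3 + algebraMap k A (W.b₂ / 4) * s ^ 2 +
      algebraMap k A (W.b₄ / 2) * s + algebraMap k A (W.b₆ / 4) := by
  simp [fpoly]

theorem baseChange_Δ_ne (K : Type) [Field K] [Algebra k K] (W : WeierstrassCurve k)
    [W.IsElliptic] : (W⁄K).Δ ≠ 0 := by
  rw [baseChange, map_Δ]
  exact (_root_.map_ne_zero _).2 W.isUnit_Δ.ne_zero

/-- the generic point -/
theorem gen_equation (W : WeierstrassCurve k) : (W⁄(KE W)).toAffine.Equation (DE W).s
    ((DE W).w - algebraMap k (KE W) (1 / 2) *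
      (algebraMap k (KE W) W.a₁ * (DE W).s + algebraMap k (KE W) W.a₃)) := by
  rw [Affine.equation_iff]
  have h1 := (DE W).aeval_F
  rw [DE_F, fpoly_aeval] at h1
  simp only [baseChange, map_a₁, map_a₂, map_a₃, map_a₄, map_a₆]
  simp only [WeierstrassCurve.b₂, WeierstrassCurve.b₄, WeierstrassCurve.b₆] at h1
  have hcz : CharZero (KE W) :=
    charZero_of_injective_algebraMap (algebraMap k (KE W)).injective
  have e2 : algebraMap k (KE W) 2 = 2 := map_ofNat _ 2
  have e4 : algebraMap k (KE W) 4 = 4 := map_ofNat _ 4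
  simp only [map_div₀, map_add, map_mul, map_pow, map_one, e2, e4] at h1 ⊢
  linear_combination h1

noncomputable def genPt (W : WeierstrassCurve k) [W.IsElliptic] : (W⁄(KE W)).toAffine.Point :=
  .some (DE W).s ((DE W).w - algebraMap k (KE W) (1 / 2) *
      (algebraMap k (KE W) W.a₁ * (DE W).s + algebraMap k (KE W) W.a₃))
    ((Affine.equation_iff_nonsingular_of_Δ_ne_zero
      (W := W⁄(KE W)) (baseChange_Δ_ne (KE W) W)).1 (gen_equation W))

variable {W : WeierstrassCurve k} [W.IsElliptic]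

/-- places over an affine point -/
theorem spec_some_iff (v : Place k (KE W)) {x y : k} (h : W.toAffine.Nonsingular x y) :
    Spec v (genPt W) (.some x y h) ↔ v.Zer ((DE W).s - algebraMap k (KE W) x) ∧
      v.Zer ((DE W).w - algebraMap k (KE W) (y + (W.a₁ * x + W.a₃) / 2)) := by
  constructor
  · rintro ⟨h1, h2⟩
    refine ⟨h1, ?_⟩
    have h3 := Place.val_add h2 (Place.val_mul (Place.val_const (v := v) (1 / 2 : k))
      (Place.val_add (Place.val_mul (Place.val_const (v := v) W.a₁) h1)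
        (Place.val_const (v := v) W.a₃)))
    rw [sub_add_cancel] at h3
    convert h3 using 3
    ring
  · rintro ⟨h1, h2⟩
    refine ⟨h1, ?_⟩
    have h3 := Place.val_sub h2 (Place.val_mul (Place.val_const (v := v) (1 / 2 : k))
      (Place.val_add (Place.val_mul (Place.val_const (v := v) W.a₁) h1)
        (Place.val_const (v := v) W.a₃)))
    convert h3 using 3
    ring

theorem spec_zero_iff (v : Place k (KE W)) :
    Spec v (genPt W) 0 ↔ v.Zer ((DEinf W).s - algebraMap k (KE W) 0) := by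
  rw [map_zero, sub_zero, DEinf_s]
  have h0 : (DE W).s⁻¹ ≠ 0 := inv_ne_zero (DE_s_ne W)
  constructor
  · intro h
    right
    rw [Place.ord_inv]
    have : v.ord (DE W).s < 0 := h
    omega
  · intro h
    have h1 := h.resolve_left h0
    rw [Place.ord_inv] at h1
    change v.ord (DE W).s < 0
    omega

theorem eta_sq {x y : k} (h : W.toAffine.Nonsingular x y) :
    (fpoly W).eval x = (y + (W.a₁ * x + W.a₃) / 2) ^ 2 :=
  ((eq_iff_eta W x y).1 h.1).symm

theorem place_exists [IsAlgClosed k] (p : W.toAffine.Point) :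
    ∃ v : Place k (KE W), Spec v (genPt W) p := by
  match p with
  | .zero =>
    obtain ⟨v, hv⟩ := (DEinf W).exists_ram (DC.atInf_not_isSquare _ _ _ _ (fpoly_not_isSquare W))
      (fun c => IsAlgClosed.exists_pow_nat_eq c two_pos |>.elim
        fun z hz => ⟨z, by rw [← hz, sq]⟩) (DEinf_F0 W) (DEinf_F1 W)
    exact ⟨v, (spec_zero_iff v).2 hv⟩
  | .some x y h =>
    by_cases hy : y + (W.a₁ * x + W.a₃) / 2 = 0
    · have hf : (DE W).F.eval x = 0 := by rw [DE_F, eta_sq h, hy]; ring
      obtain ⟨v, hv⟩ := (DE W).exists_ram (fpoly_not_isSquare W)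
        (fun c => IsAlgClosed.exists_pow_nat_eq c two_pos |>.elim
          fun z hz => ⟨z, by rw [← hz, sq]⟩) hf (fpoly_deriv_ne W hf)
      refine ⟨v, (spec_some_iff v h).2 ⟨hv, ?_⟩⟩
      rw [hy, map_zero, sub_zero]
      exact Or.inr ((DE W).ram_s hf (fpoly_deriv_ne W hf) v hv).2.1
    · obtain ⟨v, hv⟩ := (DE W).exists_unram (fpoly_not_isSquare W) hy (eta_sq h)
      exact ⟨v, (spec_some_iff v h).2 hv⟩

theorem place_unique (p : W.toAffine.Point) (v v' : Place k (KE W)) (h : Spec v (genPt W) p)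
    (h' : Spec v' (genPt W) p) : v = v' := by
  match p with
  | .zero =>
    exact (DEinf W).ram_unique (DEinf_F0 W) (DEinf_F1 W) v v' ((spec_zero_iff v).1 h)
      ((spec_zero_iff v').1 h')
  | .some x y hxy =>
    rw [spec_some_iff] at h h'
    by_cases hy : y + (W.a₁ * x + W.a₃) / 2 = 0
    · have hf : (DE W).F.eval x = 0 := by rw [DE_F, eta_sq hxy, hy]; ring
      exact (DE W).ram_unique hf (fpoly_deriv_ne W hf) v v' h.1 h'.1
    · exact (DE W).unram_unique two_ne hy v v' h.1 h.2 h'.1 h'.2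

theorem spec_injective (v : Place k (KE W)) (p q : W.toAffine.Point) (h : Spec v (genPt W) p)
    (h' : Spec v (genPt W) q) : p = q := by
  have key : ∀ (x y : k) (hxy : W.toAffine.Nonsingular x y), Spec v (genPt W) (.some x y hxy) →
      ¬ Spec v (genPt W) 0 := by
    intro x y hxy h1 h2
    have h3 : v.ord (DE W).s < 0 := h2
    have h4 := Place.reg_of_val ((spec_some_iff v hxy).1 h1).1
    have := h4.resolve_left (DE_s_ne W)
    omega
  match p, q with
  | .zero, .zero => rfl
  | .zero, .some x y hxy => exact absurd h (key x y hxy h')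
  | .some x y hxy, .zero => exact absurd h' (key x y hxy h)
  | .some x y hxy, .some x' y' hxy' =>
    have h1 := (spec_some_iff v hxy).1 h
    have h2 := (spec_some_iff v hxy').1 h'
    have e1 := Place.val_unique h1.1 h2.1
    have e2 := Place.val_unique h.2 h'.2
    subst e1; subst e2; rfl

theorem ord_inf (v : Place k (KE W)) (h : Spec v (genPt W) 0) :
    v.ord (DE W).s = -2 ∧ v.ord (DE W).w = -3 := by
  have h0 := (spec_zero_iff v).1 h
  have h1 := (DEinf W).ram_e (DEinf_F0 W) (DEinf_F1 W) v h0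
  have h2 := ((DEinf W).ram_s (DEinf_F0 W) (DEinf_F1 W) v h0).1
  rw [h1, map_zero, sub_zero, DEinf_s, Place.ord_inv] at h2
  have h3 : v.ord (DE W).s = -2 := by omega
  refine ⟨h3, ?_⟩
  rw [DEinf_w] at h1
  have hw : (DE W).w ≠ 0 := by
    intro hw
    rw [hw, zero_div, Place.ord_zero] at h1
    omega
  rw [Place.ord_div _ _ _ hw (pow_ne_zero _ (DE_s_ne W)), Place.ord_pow, h3] at h1
  push_cast at h1
  omega

end Pool.Agent.LibBH2
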