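import Mathlib

/-!
The elliptic curves over the rationals that occur in the statements.
-/

open WeierstrassCurve

namespace Pool.Agent.LibBH2

/-- The quadratic twist by `D` of `y² = x³ + a x + b`, as `y² = x³ + a D² x + b D³`. -/
def tw (a b D : ℚ) : WeierstrassCurve ℚ := ⟨0, 0, 0, a * D ^ 2, b * D ^ 3⟩

/-- an algebraic closure of `ℚ` -/
abbrev Qb : Type := AlgebraicClosure ℚ

/-- The curve `y ^ 2 = x ^ 3 - t (t - 1) (u ^ 4 + u ^ 2 v ^ 2 + v ^ 4) x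
+ t ^ 2 (t - 1) u ^ 2 v ^ 2 (u ^ 2 + v ^ 2)`. -/
def fam (t u v : ℚ) : WeierstrassCurve ℚ :=
  ⟨0, 0, 0, - t * (t - 1) * (u ^ 4 + u ^ 2 * v ^ 2 + v ^ 4),
    t ^ 2 * (t - 1) * u ^ 2 * v ^ 2 * (u ^ 2 + v ^ 2)⟩

end Pool.Agent.LibBH2
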