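import Pool.Agent.LibBH2.Inv
import Pool.Agent.LibBH2.CH0

/-!
Fibres of a double cover of the line: constancy of the cycle `T(v) + T(v')`.
-/

open scoped Classical
open Polynomial WeierstrassCurve

namespace Pool.Agent.LibBH2

variable {k : Type} [Field k] [CharZero k]

section

variable {K : Type} [Field K] [Algebra k K] (D : DC k K)

omit [CharZero k] in
theorem DC.quot_ord {s₀ s₁ : k} (v : Place k K)
    (h : v.ord ((D.s - algebraMap k K s₀) / (D.s - algebraMap k K s₁)) ≠ 0) :
    v.Zer (D.s - algebraMap k K s₀) ∨ v.Zer (D.s - algebraMap k K s₁) := by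
  rw [Place.ord_div _ _ _ (D.s_sub_ne_zero s₀) (D.s_sub_ne_zero s₁)] at h
  by_contra hcon
  push Not at hcon
  apply h
  have hs : D.s ≠ 0 := by simpa using D.s_sub_ne_zero 0
  by_cases hneg : v.ord D.s < 0
  · have key : ∀ c : k, v.ord (D.s - algebraMap k K c) = v.ord D.s := by
      intro c
      by_cases hc : c = 0
      · rw [hc, map_zero, sub_zero]
      · have h1 : v.ord (-algebraMap k K c) = 0 := by rw [Place.ord_neg, v.ord_const c hc]
        have h2 : -algebraMap k K c ≠ 0 := by simpa using hc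
        rw [sub_eq_add_neg]
        exact (Place.ord_add_of_lt hs h2 (by rw [h1]; exact hneg)).2
    rw [key, key, sub_self]
  · have hreg : v.Reg D.s := Or.inr (not_lt.1 hneg)
    rw [Place.ord_eq_zero_of_reg (hreg.sub (v.reg_const s₀)) hcon.1,
      Place.ord_eq_zero_of_reg (hreg.sub (v.reg_const s₁)) hcon.2, sub_self]

omit [CharZero k] in
theorem DC.not_both {s₀ s₁ : k} (hs : s₀ ≠ s₁) (v : Place k K)
    (h0 : v.Zer (D.s - algebraMap k K s₀)) : ¬ v.Zer (D.s - algebraMap k K s₁) :=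
  fun h1 => hs (Place.val_unique h0 h1)

omit [CharZero k] in
theorem DC.ord_quot_left {s₀ s₁ : k} (hs : s₀ ≠ s₁) (v : Place k K)
    (h0 : v.Zer (D.s - algebraMap k K s₀)) (he : v.ord (D.s - algebraMap k K s₀) = 1) :
    v.ord ((D.s - algebraMap k K s₀) / (D.s - algebraMap k K s₁)) = 1 := by
  rw [Place.ord_div _ _ _ (D.s_sub_ne_zero s₀) (D.s_sub_ne_zero s₁), he,
    Place.ord_eq_zero_of_reg ((Place.reg_of_val h0).sub (v.reg_const s₁)) (D.not_both hs v h0)]
  norm_num

omit [CharZero k] in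
theorem DC.ord_quot_right {s₀ s₁ : k} (hs : s₀ ≠ s₁) (v : Place k K)
    (h1 : v.Zer (D.s - algebraMap k K s₁)) (he : v.ord (D.s - algebraMap k K s₁) = 1) :
    v.ord ((D.s - algebraMap k K s₀) / (D.s - algebraMap k K s₁)) = -1 := by
  rw [Place.ord_div _ _ _ (D.s_sub_ne_zero s₀) (D.s_sub_ne_zero s₁), he,
    Place.ord_eq_zero_of_reg ((Place.reg_of_val h1).sub (v.reg_const s₀))
      (D.not_both hs.symm v h1)]
  norm_num

end

/-- presentation of `k(s)` itself with `w = r`, `r ^ 2 = F` -/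
noncomputable def DC.rat (F : k[X]) (r : RatFunc k)
    (hr : r ^ 2 = algebraMap k[X] (RatFunc k) F) : DC k (RatFunc k) where
  ι := AlgHom.id k (RatFunc k)
  w := r
  F := F
  hw := hr
  gen := fun g => ⟨g, 0, by simp⟩

theorem exists_place_rat (s₀ : k) : ∃ v : Place k (RatFunc k),
    v.Zer ((RatFunc.X : RatFunc k) - algebraMap k (RatFunc k) s₀) := by
  have hconst : ∀ c : k, ratHom s₀ 1 one_pos (algebraMap k (RatFunc k) c) = HahnSeries.C c := by
    intro c
    have h1 : algebraMap k (RatFunc k) c = algebraMap k[X] (RatFunc k) (C c) := by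
      rw [RatFunc.algebraMap_C]; rfl
    rw [h1, ratHom_poly, polyHom_apply]
    simp
  have hs : ratHom s₀ 1 one_pos ((RatFunc.X : RatFunc k) - algebraMap k (RatFunc k) s₀) =
      HahnSeries.single 1 1 := by
    have h1 : (RatFunc.X : RatFunc k) - algebraMap k (RatFunc k) s₀ =
        algebraMap k[X] (RatFunc k) (X - C s₀) := by
      rw [map_sub, RatFunc.algebraMap_C, RatFunc.algebraMap_X]; rfl
    rw [h1, ratHom_poly, polyHom_apply]
    have h2 : ((X - C s₀ : k[X]).comp (C s₀ + X ^ 1) : k[X]) = X := by simp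
    rw [h2, Polynomial.coe_X, HahnSeries.ofPowerSeries_X]
  have hord : (ratHom s₀ 1 one_pos
      ((RatFunc.X : RatFunc k) - algebraMap k (RatFunc k) s₀)).order = 1 := by
    rw [hs, HahnSeries.order_single one_ne_zero]
  refine ⟨Place.ofHom (ratHom s₀ 1 one_pos) hconst ⟨_, hord⟩, Or.inr ?_⟩
  rw [Place.ofHom_ord, hord]; exact one_pos

variable {W₁ W₂ : WeierstrassCurve k}

/-- Constancy of the fibre cycle of a double cover of the line. -/
theorem fibre_relation (F : k[X]) {s₀ s₁ y₀ y₁ : k} (hs : s₀ ≠ s₁) (hy₀ : y₀ ≠ 0) (hy₁ : y₁ ≠ 0)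
    (hF₀ : F.eval s₀ = y₀ ^ 2) (hF₁ : F.eval s₁ = y₁ ^ 2)
    (T₁ : ∀ (K : Type) [Field K] [Algebra k K] (D : DC k K), D.F = F → (W₁⁄K).toAffine.Point)
    (T₂ : ∀ (K : Type) [Field K] [Algebra k K] (D : DC k K), D.F = F → (W₂⁄K).toAffine.Point)
    (p₁ p₁' q₁ q₁' : W₁.toAffine.Point) (p₂ p₂' q₂ q₂' : W₂.toAffine.Point)
    (hp : ∀ (K : Type) [Field K] [Algebra k K] (D : DC k K) (hD : D.F = F) (v : Place k K),
      v.Zer (D.s - algebraMap k K s₀) → v.Zer (D.w - algebraMap k K y₀) →
      Spec v (T₁ K D hD) p₁ ∧ Spec v (T₂ K D hD) p₂)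
    (hp' : ∀ (K : Type) [Field K] [Algebra k K] (D : DC k K) (hD : D.F = F) (v : Place k K),
      v.Zer (D.s - algebraMap k K s₀) → v.Zer (D.w - algebraMap k K (-y₀)) →
      Spec v (T₁ K D hD) p₁' ∧ Spec v (T₂ K D hD) p₂')
    (hq : ∀ (K : Type) [Field K] [Algebra k K] (D : DC k K) (hD : D.F = F) (v : Place k K),
      v.Zer (D.s - algebraMap k K s₁) → v.Zer (D.w - algebraMap k K y₁) →
      Spec v (T₁ K D hD) q₁ ∧ Spec v (T₂ K D hD) q₂)
    (hq' : ∀ (K : Type) [Field K] [Algebra k K] (D : DC k K) (hD : D.F = F) (v : Place k K),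
      v.Zer (D.s - algebraMap k K s₁) → v.Zer (D.w - algebraMap k K (-y₁)) →
      Spec v (T₁ K D hD) q₁' ∧ Spec v (T₂ K D hD) q₂') :
    (pt p₁ p₂ : CH0 W₁ W₂) + pt p₁' p₂' = pt q₁ q₂ + pt q₁' q₂' := by
  have h2 : (2 : k) ≠ 0 := two_ne_zero
  by_cases hsq : IsSquare (algebraMap k[X] (RatFunc k) F)
  · obtain ⟨r, hr⟩ := hsq
    -- one relation for each sign
    have main : ∀ r : RatFunc k, r ^ 2 = algebraMap k[X] (RatFunc k) F →
        ∀ (v₀ v₁ : Place k (RatFunc k)), v₀.Zer ((RatFunc.X : RatFunc k) - algebraMap k _ s₀) →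
        v₁.Zer ((RatFunc.X : RatFunc k) - algebraMap k _ s₁) →
        ∀ (a b : k) (P₁ Q₁ : W₁.toAffine.Point) (P₂ Q₂ : W₂.toAffine.Point), a ≠ 0 → b ≠ 0 →
        (∀ (D : DC k (RatFunc k)) (hD : D.F = F) (v : Place k (RatFunc k)),
          v.Zer (D.s - algebraMap k _ s₀) → v.Zer (D.w - algebraMap k _ a) →
          Spec v (T₁ _ D hD) P₁ ∧ Spec v (T₂ _ D hD) P₂) →
        (∀ (D : DC k (RatFunc k)) (hD : D.F = F) (v : Place k (RatFunc k)),
          v.Zer (D.s - algebraMap k _ s₁) → v.Zer (D.w - algebraMap k _ b) →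
          Spec v (T₁ _ D hD) Q₁ ∧ Spec v (T₂ _ D hD) Q₂) →
        F.eval s₀ = a ^ 2 → F.eval s₁ = b ^ 2 →
        v₀.Zer (r - algebraMap k _ a) → v₁.Zer (r - algebraMap k _ b) →
        (pt P₁ P₂ : CH0 W₁ W₂) = pt Q₁ Q₂ := by
      intro r hr v₀ v₁ hv₀ hv₁ a b P₁ Q₁ P₂ Q₂ ha hb HP HQ hFa hFb hra hrb
      let D := DC.rat F r hr
      have hsD : D.s = RatFunc.X := rfl
      have hwD : D.w = r := rfl
      have hex : D.F = F := rfl
      have e0 := D.unram_e h2 ha v₀ hv₀ hra
      have e1 := D.unram_e h2 hb v₁ hv₁ hrb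
      -- all places over s₀
      have uniq0 : ∀ v : Place k (RatFunc k), v.Zer (D.s - algebraMap k _ s₀) → v = v₀ := by
        intro v hv
        apply Place.ext'
        intro f
        by_cases hf : f = 0
        · rw [hf, v.ord_zero, v₀.ord_zero]
        obtain ⟨n, A, B, Q, hQ, hAB, hfe⟩ := ratfunc_pair s₀ f 0 (Or.inl hf)
        have hA : A.eval s₀ ≠ 0 ∨ B.eval s₀ ≠ 0 := hAB
        have hB0 : B = 0 := by
          obtain ⟨-, hB⟩ := hfe
          by_contra hB0
          have hX : algebraMap (Polynomial k) (RatFunc k) (X - C s₀) ≠ 0 :=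
            RatFunc.algebraMap_ne_zero (X_sub_C_ne_zero s₀)
          have hQ0 : Q ≠ 0 := by rintro rfl; simp at hQ
          exact (mul_ne_zero (zpow_ne_zero n hX) (div_ne_zero (RatFunc.algebraMap_ne_zero hB0)
            (RatFunc.algebraMap_ne_zero hQ0))) hB.symm
        have hA' : A.eval s₀ ≠ 0 := by
          rcases hA with h | h
          · exact h
          · rw [hB0] at h; simp at h
        have hA0 : A ≠ 0 := by rintro rfl; simp at hA'
        have hQ0 : Q ≠ 0 := by rintro rfl; simp at hQ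
        have calc1 : ∀ u : Place k (RatFunc k), u.Zer (D.s - algebraMap k _ s₀) →
            u.ord f = n * u.ord (D.s - algebraMap k _ s₀) := by
          intro u hu
          have hXs : algebraMap (Polynomial k) (RatFunc k) (X - C s₀) =
              D.s - algebraMap k _ s₀ := by
            rw [map_sub, RatFunc.algebraMap_C, RatFunc.algebraMap_X]; rfl
          have hAι : algebraMap (Polynomial k) (RatFunc k) A = aeval D.s A := D.ι_poly A
          have hQι : algebraMap (Polynomial k) (RatFunc k) Q = aeval D.s Q := D.ι_poly Q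
          rw [hfe.1, hXs, hAι, hQι, u.ord_mul _ _ (zpow_ne_zero _ (D.s_sub_ne_zero s₀))
            (div_ne_zero (D.aeval_ne_zero hA0) (D.aeval_ne_zero hQ0)),
            u.ord_div _ _ (D.aeval_ne_zero hA0) (D.aeval_ne_zero hQ0), u.ord_zpow,
            D.ord_poly hu hA', D.ord_poly hu hQ]
          ring
        have hev : v.ord (D.s - algebraMap k _ s₀) = 1 := by
          rcases D.w_val hFa v hv with h | h
          · exact D.unram_e h2 ha v hv h
          · exact D.unram_e h2 (neg_ne_zero.2 ha) v hv h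
        rw [calc1 v hv, calc1 v₀ hv₀, hev, e0]
      have uniq1 : ∀ v : Place k (RatFunc k), v.Zer (D.s - algebraMap k _ s₁) → v = v₁ := by
        intro v hv
        apply Place.ext'
        intro f
        by_cases hf : f = 0
        · rw [hf, v.ord_zero, v₁.ord_zero]
        obtain ⟨n, A, B, Q, hQ, hAB, hfe⟩ := ratfunc_pair s₁ f 0 (Or.inl hf)
        have hB0 : B = 0 := by
          obtain ⟨-, hB⟩ := hfe
          by_contra hB0
          have hX : algebraMap (Polynomial k) (RatFunc k) (X - C s₁) ≠ 0 :=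
            RatFunc.algebraMap_ne_zero (X_sub_C_ne_zero s₁)
          have hQ0 : Q ≠ 0 := by rintro rfl; simp at hQ
          exact (mul_ne_zero (zpow_ne_zero n hX) (div_ne_zero (RatFunc.algebraMap_ne_zero hB0)
            (RatFunc.algebraMap_ne_zero hQ0))) hB.symm
        have hA' : A.eval s₁ ≠ 0 := by
          rcases hAB with h | h
          · exact h
          · rw [hB0] at h; simp at h
        have hA0 : A ≠ 0 := by rintro rfl; simp at hA'
        have hQ0 : Q ≠ 0 := by rintro rfl; simp at hQ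
        have calc1 : ∀ u : Place k (RatFunc k), u.Zer (D.s - algebraMap k _ s₁) →
            u.ord f = n * u.ord (D.s - algebraMap k _ s₁) := by
          intro u hu
          have hXs : algebraMap (Polynomial k) (RatFunc k) (X - C s₁) =
              D.s - algebraMap k _ s₁ := by
            rw [map_sub, RatFunc.algebraMap_C, RatFunc.algebraMap_X]; rfl
          have hAι : algebraMap (Polynomial k) (RatFunc k) A = aeval D.s A := D.ι_poly A
          have hQι : algebraMap (Polynomial k) (RatFunc k) Q = aeval D.s Q := D.ι_poly Q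
          rw [hfe.1, hXs, hAι, hQι, u.ord_mul _ _ (zpow_ne_zero _ (D.s_sub_ne_zero s₁))
            (div_ne_zero (D.aeval_ne_zero hA0) (D.aeval_ne_zero hQ0)),
            u.ord_div _ _ (D.aeval_ne_zero hA0) (D.aeval_ne_zero hQ0), u.ord_zpow,
            D.ord_poly hu hA', D.ord_poly hu hQ]
          ring
        have hev : v.ord (D.s - algebraMap k _ s₁) = 1 := by
          rcases D.w_val hFb v hv with h | h
          · exact D.unram_e h2 hb v hv h
          · exact D.unram_e h2 (neg_ne_zero.2 hb) v hv h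
        rw [calc1 v hv, calc1 v₁ hv₁, hev, e1]
      have h01 : v₀ ≠ v₁ := by
        rintro rfl; exact D.not_both hs v₀ hv₀ hv₁
      have key := rel (W₁ := W₁) (W₂ := W₂) D.ι D.finite (T₁ _ D hex) (T₂ _ D hex)
        (div_ne_zero (D.s_sub_ne_zero s₀) (D.s_sub_ne_zero s₁)) {v₀, v₁} (by
          intro v hv
          simp only [Finset.mem_insert, Finset.mem_singleton]
          rcases D.quot_ord v hv with h | h
          · exact Or.inl (uniq0 v h)
          · exact Or.inr (uniq1 v h))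
        (fun v => if v = v₀ then P₁ else Q₁) (fun v => if v = v₀ then P₂ else Q₂) (by
          intro v hv
          simp only [Finset.mem_insert, Finset.mem_singleton] at hv
          rcases hv with rfl | rfl
          · simp only [if_true]
            exact HP D hex v hv₀ hra
          · simp only [if_neg h01.symm]
            exact HQ D hex v hv₁ hrb)
      rw [Finset.sum_pair h01, if_pos rfl, if_pos rfl, if_neg h01.symm, if_neg h01.symm,
        D.ord_quot_left hs v₀ hv₀ e0, D.ord_quot_right hs v₁ hv₁ e1, one_smul, neg_smul, one_smul,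
        ← sub_eq_add_neg, sub_eq_zero] at key
      exact key
    obtain ⟨v₀, hv₀⟩ := exists_place_rat s₀
    obtain ⟨v₁, hv₁⟩ := exists_place_rat s₁
    have hr2 : r ^ 2 = algebraMap k[X] (RatFunc k) F := by rw [hr, sq]
    have hr2' : (-r) ^ 2 = algebraMap k[X] (RatFunc k) F := by rw [hr]; ring
    have negz : ∀ (v : Place k (RatFunc k)) (c : k), v.Zer (r - algebraMap k _ c) →
        v.Zer (-r - algebraMap k _ (-c)) := fun v c h => Place.val_neg h
    have negz' : ∀ (v : Place k (RatFunc k)) (c : k), v.Zer (r - algebraMap k _ (-c)) →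
        v.Zer (-r - algebraMap k _ c) := fun v c h => by
      have := Place.val_neg h
      rwa [neg_neg] at this
    have hF₀' : F.eval s₀ = (-y₀) ^ 2 := by rw [hF₀]; ring
    have hF₁' : F.eval s₁ = (-y₁) ^ 2 := by rw [hF₁]; ring
    have n₀ := neg_ne_zero.2 hy₀
    have n₁ := neg_ne_zero.2 hy₁
    rcases (DC.rat F r hr2).w_val hF₀ v₀ hv₀ with h0 | h0 <;>
      rcases (DC.rat F r hr2).w_val hF₁ v₁ hv₁ with h1 | h1
    · rw [main r hr2 v₀ v₁ hv₀ hv₁ y₀ y₁ p₁ q₁ p₂ q₂ hy₀ hy₁ (fun D => hp _ D) (fun D => hq _ D)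
        hF₀ hF₁ h0 h1, main (-r) hr2' v₀ v₁ hv₀ hv₁ (-y₀) (-y₁) p₁' q₁' p₂' q₂' n₀ n₁
        (fun D => hp' _ D) (fun D => hq' _ D) hF₀' hF₁' (negz _ _ h0) (negz _ _ h1)]
    · rw [main r hr2 v₀ v₁ hv₀ hv₁ y₀ (-y₁) p₁ q₁' p₂ q₂' hy₀ n₁ (fun D => hp _ D)
        (fun D => hq' _ D) hF₀ hF₁' h0 h1, main (-r) hr2' v₀ v₁ hv₀ hv₁ (-y₀) y₁ p₁' q₁ p₂' q₂ n₀ hy₁
        (fun D => hp' _ D) (fun D => hq _ D) hF₀' hF₁ (negz _ _ h0) (negz' _ _ h1), add_comm]
    · rw [main (-r) hr2' v₀ v₁ hv₀ hv₁ y₀ (-y₁) p₁ q₁' p₂ q₂' hy₀ n₁ (fun D => hp _ D)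
        (fun D => hq' _ D) hF₀ hF₁' (negz' _ _ h0) (negz _ _ h1),
        main r hr2 v₀ v₁ hv₀ hv₁ (-y₀) y₁ p₁' q₁ p₂' q₂ n₀ hy₁
        (fun D => hp' _ D) (fun D => hq _ D) hF₀' hF₁ h0 h1, add_comm]
    · rw [main (-r) hr2' v₀ v₁ hv₀ hv₁ y₀ y₁ p₁ q₁ p₂ q₂ hy₀ hy₁ (fun D => hp _ D)
        (fun D => hq _ D) hF₀ hF₁ (negz' _ _ h0) (negz' _ _ h1),
        main r hr2 v₀ v₁ hv₀ hv₁ (-y₀) (-y₁) p₁' q₁' p₂' q₂' n₀ n₁
        (fun D => hp' _ D) (fun D => hq' _ D) hF₀' hF₁' h0 h1]
  · have : Fact (Irreducible (quadPoly F)) := ⟨quadPoly_irreducible hsq⟩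
    let D := DC.ofQuad F
    have hex : D.F = F := rfl
    have n₀ := neg_ne_zero.2 hy₀
    have n₁ := neg_ne_zero.2 hy₁
    obtain ⟨a, ha1, ha2⟩ := D.exists_unram hsq hy₀ hF₀
    obtain ⟨b, hb1, hb2⟩ := D.exists_unram hsq n₀ (show D.F.eval s₀ = (-y₀) ^ 2 by
      rw [neg_sq]; exact hF₀)
    obtain ⟨c, hc1, hc2⟩ := D.exists_unram hsq hy₁ hF₁
    obtain ⟨d, hd1, hd2⟩ := D.exists_unram hsq n₁ (show D.F.eval s₁ = (-y₁) ^ 2 by
      rw [neg_sq]; exact hF₁)
    have hab : a ≠ b := by
      rintro rfl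
      have := Place.val_unique ha2 hb2
      exact hy₀ (by linear_combination this / 2)
    have hcd : c ≠ d := by
      rintro rfl
      have := Place.val_unique hc2 hd2
      exact hy₁ (by linear_combination this / 2)
    have hac : a ≠ c := by rintro rfl; exact D.not_both hs a ha1 hc1
    have had : a ≠ d := by rintro rfl; exact D.not_both hs a ha1 hd1
    have hbc : b ≠ c := by rintro rfl; exact D.not_both hs b hb1 hc1
    have hbd : b ≠ d := by rintro rfl; exact D.not_both hs b hb1 hd1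
    have key := rel (W₁ := W₁) (W₂ := W₂) D.ι D.finite (T₁ _ D hex) (T₂ _ D hex)
      (div_ne_zero (D.s_sub_ne_zero s₀) (D.s_sub_ne_zero s₁)) {a, b, c, d} (by
        intro v hv
        simp only [Finset.mem_insert, Finset.mem_singleton]
        rcases D.quot_ord v hv with h | h
        · rcases D.w_val hF₀ v h with hw | hw
          · exact Or.inl (D.unram_unique h2 hy₀ v a h hw ha1 ha2)
          · exact Or.inr (Or.inl (D.unram_unique h2 n₀ v b h hw hb1 hb2))
        · rcases D.w_val hF₁ v h with hw | hw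
          · exact Or.inr (Or.inr (Or.inl (D.unram_unique h2 hy₁ v c h hw hc1 hc2)))
          · exact Or.inr (Or.inr (Or.inr (D.unram_unique h2 n₁ v d h hw hd1 hd2))))
      (fun v => if v = a then p₁ else if v = b then p₁' else if v = c then q₁ else q₁')
      (fun v => if v = a then p₂ else if v = b then p₂' else if v = c then q₂ else q₂') (by
        intro v hv
        simp only [Finset.mem_insert, Finset.mem_singleton] at hv
        rcases hv with rfl | rfl | rfl | rfl
        · simp only [if_true]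
          exact hp _ D hex v ha1 ha2
        · simp only [if_neg hab.symm, if_true]
          exact hp' _ D hex v hb1 hb2
        · simp only [if_neg hac.symm, if_neg hbc.symm, if_true]
          exact hq _ D hex v hc1 hc2
        · simp only [if_neg had.symm, if_neg hbd.symm, if_neg hcd.symm]
          exact hq' _ D hex v hd1 hd2)
    rw [Finset.sum_insert (by simp [hab, hac, had]), Finset.sum_insert (by simp [hbc, hbd]),
      Finset.sum_pair hcd] at key
    simp only [if_neg hab.symm, if_neg hac.symm, if_neg had.symm, if_neg hbc.symm,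
      if_neg hbd.symm, if_neg hcd.symm, if_true] at key
    rw [D.ord_quot_left hs a ha1 (D.unram_e h2 hy₀ a ha1 ha2),
      D.ord_quot_left hs b hb1 (D.unram_e h2 n₀ b hb1 hb2),
      D.ord_quot_right hs c hc1 (D.unram_e h2 hy₁ c hc1 hc2),
      D.ord_quot_right hs d hd1 (D.unram_e h2 n₁ d hd1 hd2)] at key
    simp only [one_smul, neg_smul] at key
    rw [← sub_eq_zero, ← key]
    abel

end Pool.Agent.LibBH2
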