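import Pool.Agent.LibBH2.Bilin
import Pool.Agent.LibBH2.Fibre

/-!
Zero-cycles from rational curves in the Kummer surface: families of points `(r(s), ρ(s) w)`.
-/

open scoped Classical
open Polynomial WeierstrassCurve

namespace Pool.Agent.LibBH2

variable {k : Type} [Field k]

/-- a polynomial as a rational function -/
noncomputable def toRF (P : k[X]) : RatFunc k := algebraMap k[X] (RatFunc k) P

/-- the rational function `r` has the value `c` at `s₀` -/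
def RV (r : RatFunc k) (s₀ c : k) : Prop :=
  ∃ A B : k[X], B.eval s₀ ≠ 0 ∧ r = toRF A / toRF B ∧ A.eval s₀ = c * B.eval s₀

/-- the rational function `r` has a pole at `s₀` -/
def RP (r : RatFunc k) (s₀ : k) : Prop :=
  ∃ A B : k[X], A.eval s₀ ≠ 0 ∧ B ≠ 0 ∧ B.eval s₀ = 0 ∧ r = toRF A / toRF B

theorem RV.val {K : Type} [Field K] [Algebra k K] {r : RatFunc k} {s₀ c : k} (h : RV r s₀ c)
    (D : DC k K) (v : Place k K) (hv : v.Zer (D.s - algebraMap k K s₀)) :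
    v.Zer (D.ι r - algebraMap k K c) := by
  obtain ⟨A, B, hB, rfl, hA⟩ := h
  rw [toRF, toRF, map_div₀, D.ι_poly, D.ι_poly]
  have h1 := Place.val_div (Place.val_aeval hv A) (Place.val_aeval hv B) hB
  rwa [hA, mul_div_cancel_right₀ _ hB] at h1

theorem RP.neg {K : Type} [Field K] [Algebra k K] {r : RatFunc k} {s₀ : k} (h : RP r s₀)
    (D : DC k K) (v : Place k K) (hv : v.Zer (D.s - algebraMap k K s₀)) :
    v.ord (D.ι r) < 0 := by
  obtain ⟨A, B, hA, hB0, hB, rfl⟩ := h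
  rw [toRF, toRF, map_div₀, D.ι_poly, D.ι_poly]
  have hA0 : A ≠ 0 := by rintro rfl; simp at hA
  rw [v.ord_div _ _ (D.aeval_ne_zero hA0) (D.aeval_ne_zero hB0), D.ord_poly hv hA]
  have h1 := Place.val_aeval hv B
  rw [hB, map_zero, sub_zero] at h1
  have := h1.resolve_left (D.aeval_ne_zero hB0)
  omega

variable [CharZero k]

theorem famPt_eq (W : WeierstrassCurve k) (F : k[X]) (r ρ : RatFunc k)
    (hid : ρ ^ 2 * toRF F = 4 * r ^ 3 + algebraMap k _ W.b₂ * r ^ 2 +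
      2 * algebraMap k _ W.b₄ * r + algebraMap k _ W.b₆)
    (K : Type) [Field K] [Algebra k K] (D : DC k K) (hD : D.F = F) :
    (W⁄K).toAffine.Equation (D.ι r)
      (algebraMap k K (1 / 2) * (D.ι ρ * D.w - algebraMap k K W.a₁ * D.ι r - algebraMap k K W.a₃)) := by
  have hcz : CharZero K := charZero_of_injective_algebraMap (algebraMap k K).injective
  have h1 : (D.ι ρ * D.w) ^ 2 = 4 * D.ι r ^ 3 + algebraMap k _ W.b₂ * D.ι r ^ 2 +
      2 * algebraMap k _ W.b₄ * D.ι r + algebraMap k _ W.b₆ := by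
    have h2 := congrArg D.ι hid
    simp only [map_mul, map_add, map_pow, AlgHom.commutes, map_ofNat] at h2
    rw [mul_pow, ← h2, D.hw, toRF, hD]
  rw [Affine.equation_iff]
  simp only [baseChange, map_a₁, map_a₂, map_a₃, map_a₄, map_a₆]
  simp only [WeierstrassCurve.b₂, WeierstrassCurve.b₄, WeierstrassCurve.b₆] at h1
  have e2 : algebraMap k K 2 = 2 := map_ofNat _ 2
  have e4 : algebraMap k K 4 = 4 := map_ofNat _ 4
  simp only [map_div₀, map_add, map_mul, map_pow, map_one, e2, e4] at h1 ⊢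
  linear_combination h1 / 4

/-- the point with coordinates `r(s)`, `2 y + a₁ x + a₃ = ρ(s) w` -/
noncomputable def famPt (W : WeierstrassCurve k) [W.IsElliptic] (F : k[X]) (r ρ : RatFunc k)
    (hid : ρ ^ 2 * toRF F = 4 * r ^ 3 + algebraMap k _ W.b₂ * r ^ 2 +
      2 * algebraMap k _ W.b₄ * r + algebraMap k _ W.b₆)
    (K : Type) [Field K] [Algebra k K] (D : DC k K) (hD : D.F = F) : (W⁄K).toAffine.Point :=
  .some _ _ ((Affine.equation_iff_nonsingular_of_Δ_ne_zero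
      (W := W⁄K) (baseChange_Δ_ne K W)).1 (famPt_eq W F r ρ hid K D hD))

/-- `p` is the value at `(s₀, y₀)` of the family `(r, ρ)`. -/
def PV (W : WeierstrassCurve k) (r ρ : RatFunc k) (s₀ y₀ : k) : W.toAffine.Point → Prop
  | .zero => RP r s₀
  | .some x y _ => RV r s₀ x ∧ ∃ c, RV ρ s₀ c ∧ c * y₀ = 2 * y + W.a₁ * x + W.a₃

theorem PV.spec {W : WeierstrassCurve k} [W.IsElliptic] {F : k[X]} {r ρ : RatFunc k}
    {hid : ρ ^ 2 * toRF F = 4 * r ^ 3 + algebraMap k _ W.b₂ * r ^ 2 +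
      2 * algebraMap k _ W.b₄ * r + algebraMap k _ W.b₆} {s₀ y₀ : k} {p : W.toAffine.Point}
    (h : PV W r ρ s₀ y₀ p) (K : Type) [Field K] [Algebra k K] (D : DC k K) (hD : D.F = F)
    (v : Place k K) (hv : v.Zer (D.s - algebraMap k K s₀)) (hw : v.Zer (D.w - algebraMap k K y₀)) :
    Spec v (famPt W F r ρ hid K D hD) p := by
  match p with
  | .zero => exact RP.neg h D v hv
  | .some x y hxy =>
    obtain ⟨h1, c, h2, h3⟩ := h
    refine ⟨h1.val D v hv, ?_⟩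
    have h4 := Place.val_mul (Place.val_const (v := v) (1 / 2 : k))
      (Place.val_sub (Place.val_sub (Place.val_mul (h2.val D v hv) hw)
        (Place.val_mul (Place.val_const W.a₁) (h1.val D v hv))) (Place.val_const W.a₃))
    convert h4 using 3
    rw [h3]; ring

theorem PV.neg {W : WeierstrassCurve k} {r ρ : RatFunc k} {s₀ y₀ : k}
    {p : W.toAffine.Point} (h : PV W r ρ s₀ y₀ p) : PV W r ρ s₀ (-y₀) (-p) := by
  match p with
  | .zero => exact h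
  | .some x y hxy =>
    obtain ⟨h1, c, h2, h3⟩ := h
    rw [Affine.Point.neg_some]
    refine ⟨h1, c, h2, ?_⟩
    rw [Affine.negY]
    linear_combination - h3

variable [IsAlgClosed k]

/-- the basic relation for a family -/
theorem family_rel {W₁ W₂ : WeierstrassCurve k} [W₁.IsElliptic] [W₂.IsElliptic] (F : k[X])
    (r₁ ρ₁ r₂ ρ₂ : RatFunc k)
    (h₁ : ρ₁ ^ 2 * toRF F = 4 * r₁ ^ 3 + algebraMap k _ W₁.b₂ * r₁ ^ 2 +
      2 * algebraMap k _ W₁.b₄ * r₁ + algebraMap k _ W₁.b₆)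
    (h₂ : ρ₂ ^ 2 * toRF F = 4 * r₂ ^ 3 + algebraMap k _ W₂.b₂ * r₂ ^ 2 +
      2 * algebraMap k _ W₂.b₄ * r₂ + algebraMap k _ W₂.b₆)
    {s₀ s₁ y₀ y₁ : k} (hs : s₀ ≠ s₁) (hy₀ : y₀ ≠ 0) (hy₁ : y₁ ≠ 0)
    (hF₀ : F.eval s₀ = y₀ ^ 2) (hF₁ : F.eval s₁ = y₁ ^ 2)
    {p₁ q₁ : W₁.toAffine.Point} {p₂ q₂ : W₂.toAffine.Point}
    (hp₁ : PV W₁ r₁ ρ₁ s₀ y₀ p₁) (hp₂ : PV W₂ r₂ ρ₂ s₀ y₀ p₂)
    (hq₁ : PV W₁ r₁ ρ₁ s₁ y₁ q₁) (hq₂ : PV W₂ r₂ ρ₂ s₁ y₁ q₂) :
    (pt p₁ p₂ : CH0 W₁ W₂) + pt (-p₁) (-p₂) = pt q₁ q₂ + pt (-q₁) (-q₂) :=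
  fibre_relation F hs hy₀ hy₁ hF₀ hF₁ (fun K _ _ D hD => famPt W₁ F r₁ ρ₁ h₁ K D hD)
    (fun K _ _ D hD => famPt W₂ F r₂ ρ₂ h₂ K D hD) p₁ (-p₁) q₁ (-q₁) p₂ (-p₂) q₂ (-q₂)
    (fun K _ _ D hD v hv hw => ⟨hp₁.spec K D hD v hv hw, hp₂.spec K D hD v hv hw⟩)
    (fun K _ _ D hD v hv hw => ⟨hp₁.neg.spec K D hD v hv hw, hp₂.neg.spec K D hD v hv hw⟩)
    (fun K _ _ D hD v hv hw => ⟨hq₁.spec K D hD v hv hw, hq₂.spec K D hD v hv hw⟩)
    (fun K _ _ D hD v hv hw => ⟨hq₁.neg.spec K D hD v hv hw, hq₂.neg.spec K D hD v hv hw⟩)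

/-- two-torsion points -/
theorem two_zc_of_torsion_left {W₁ W₂ : WeierstrassCurve k} [W₁.IsElliptic] [W₂.IsElliptic]
    (P : W₁.toAffine.Point) (Q : W₂.toAffine.Point) (h : 2 • P = 0) :
    2 • (zc P Q : CH0 W₁ W₂) = 0 := by
  rw [← zc_nsmul_left, h]
  have := congrArg (fun f => f Q) (map_zero (zHom W₁ W₂))
  exact this

theorem two_nsmul_eq_zero_of {W : WeierstrassCurve k} {x y : k} (h : W.toAffine.Nonsingular x y)
    (h0 : 2 * y + W.a₁ * x + W.a₃ = 0) : 2 • (Affine.Point.some x y h : W.toAffine.Point) = 0 := by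
  have h1 : -(Affine.Point.some x y h : W.toAffine.Point) = .some x y h := by
    rw [Affine.Point.neg_some]
    congr 1
    rw [Affine.negY]
    linear_combination - h0
  rw [two_nsmul]
  nth_rewrite 1 [← h1]
  exact neg_add_cancel _

/-- **Genus two curve** `η² = Ψ₁(a + z²)`. -/
theorem genus2_zc {W₁ W₂ : WeierstrassCurve k} [W₁.IsElliptic] [W₂.IsElliptic]
    (a m κ ν : k) (hκ : κ ≠ 0) (hν : ν ≠ 0)
    (hmatch : ∀ t : k, 4 * (m * t + κ) ^ 3 + W₂.b₂ * (m * t + κ) ^ 2 * t +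
      2 * W₂.b₄ * (m * t + κ) * t ^ 2 + W₂.b₆ * t ^ 3
      = ν ^ 2 * (4 * (a + t) ^ 3 + W₁.b₂ * (a + t) ^ 2 + 2 * W₁.b₄ * (a + t) + W₁.b₆))
    (z : k) (hz : z ≠ 0) {x y x' y' : k} (h : W₁.toAffine.Nonsingular x y)
    (h' : W₂.toAffine.Nonsingular x' y') (hx : x = a + z ^ 2) (hx' : x' = m + κ / z ^ 2)
    (hη : (2 * y' + W₂.a₁ * x' + W₂.a₃) * z ^ 3 = ν * (2 * y + W₁.a₁ * x + W₁.a₃)) :
    2 • (zc (.some x y h) (.some x' y' h') : CH0 W₁ W₂) = 0 := by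
  by_cases hη0 : 2 * y + W₁.a₁ * x + W₁.a₃ = 0
  · exact two_zc_of_torsion_left _ _ (two_nsmul_eq_zero_of h hη0)
  apply two_zc_of
  set F : k[X] := 4 * (C a + X ^ 2) ^ 3 + C W₁.b₂ * (C a + X ^ 2) ^ 2 +
    2 * C W₁.b₄ * (C a + X ^ 2) + C W₁.b₆ with hF
  have hmatchP : (4 * (C m * X + C κ) ^ 3 + C W₂.b₂ * (C m * X + C κ) ^ 2 * X +
      2 * C W₂.b₄ * (C m * X + C κ) * X ^ 2 + C W₂.b₆ * X ^ 3 : k[X])
      = C (ν ^ 2) * (4 * (C a + X) ^ 3 + C W₁.b₂ * (C a + X) ^ 2 + 2 * C W₁.b₄ * (C a + X)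
        + C W₁.b₆) := by
    apply Polynomial.funext
    intro t
    have := hmatch t
    simpa using this
  have hX0 : toRF (X : k[X]) ≠ 0 := by
    rw [toRF, RatFunc.algebraMap_X]; exact RatFunc.X_ne_zero
  have hCst : ∀ c : k, toRF (C c) = algebraMap k (RatFunc k) c := fun c => by
    rw [toRF, RatFunc.algebraMap_C]; rfl
  have hF0 : F.eval 0 = 4 * κ ^ 3 / ν ^ 2 := by
    have h0 := hmatch 0
    rw [eq_div_iff (pow_ne_zero 2 hν)]
    simp only [hF, eval_add, eval_mul, eval_pow, eval_C, eval_X, eval_ofNat]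
    linear_combination - h0
  have hF0' : F.eval 0 ≠ 0 := by
    rw [hF0]
    exact div_ne_zero (mul_ne_zero (by norm_num) (pow_ne_zero 3 hκ)) (pow_ne_zero 2 hν)
  obtain ⟨y₁, hy₁⟩ := IsAlgClosed.exists_pow_nat_eq (F.eval 0) two_pos
  have hy₁0 : y₁ ≠ 0 := by
    rintro rfl; rw [zero_pow two_ne_zero] at hy₁; exact hF0' hy₁.symm
  -- the reference point
  have hR : W₁.toAffine.Nonsingular a ((y₁ - W₁.a₁ * a - W₁.a₃) / 2) := by
    apply (Affine.equation_iff_nonsingular_of_Δ_ne_zero (W := W₁) W₁.isUnit_Δ.ne_zero).1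
    rw [eq_iff_eta, fpoly_eval]
    simp only [hF, eval_add, eval_mul, eval_pow, eval_C, eval_X, eval_ofNat] at hy₁
    linear_combination hy₁ / 4
  have key := family_rel (W₁ := W₁) (W₂ := W₂) F (toRF (C a + X ^ 2) / toRF 1) (toRF 1 / toRF 1)
    (toRF (C m * X ^ 2 + C κ) / toRF (X ^ 2)) (toRF (C ν) / toRF (X ^ 3))
    (by
      simp only [hF, toRF, map_one, div_one, one_pow, one_mul, map_add, map_mul, map_pow,
        RatFunc.algebraMap_X, RatFunc.algebraMap_C, map_ofNat]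
      rfl)
    (by
      have h1 := congrArg (fun P : k[X] => toRF (P.comp (X ^ 2))) hmatchP
      simp only [add_comp, mul_comp, pow_comp, X_comp, C_comp, ofNat_comp, Nat.cast_ofNat] at h1
      simp only [hF, toRF, map_add, map_mul, map_pow, map_ofNat, RatFunc.algebraMap_X,
        RatFunc.algebraMap_C] at h1 ⊢
      have hX : (RatFunc.X : RatFunc k) ≠ 0 := RatFunc.X_ne_zero
      have hc : ∀ c : k, algebraMap k (RatFunc k) c = RatFunc.C c := fun c => rfl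
      simp only [hc]
      field_simp
      linear_combination - h1)
    (s₀ := z) (s₁ := 0) (y₀ := 2 * y + W₁.a₁ * x + W₁.a₃) (y₁ := y₁) hz hη0 hy₁0
    (by
      have h1 := (eq_iff_eta W₁ x y).1 h.1
      rw [fpoly_eval] at h1
      simp only [hF, eval_add, eval_mul, eval_pow, eval_C, eval_X, eval_ofNat]
      rw [← hx]
      linear_combination - 4 * h1)
    hy₁.symm
    (p₁ := .some x y h) (q₁ := .some _ _ hR) (p₂ := .some x' y' h') (q₂ := 0)
    ⟨⟨_, _, by simp, rfl, by simp [hx]⟩, 1, ⟨_, _, by simp, rfl, by simp⟩, by ring⟩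
    ⟨⟨_, _, by simpa using hz, rfl, by
      rw [hx']; simp only [eval_add, eval_mul, eval_pow, eval_C, eval_X]; field_simp⟩,
      ν / z ^ 3, ⟨_, _, by simpa using hz, rfl, by
      simp only [eval_pow, eval_C, eval_X]; field_simp⟩, by
      rw [div_mul_eq_mul_div, ← hη]; field_simp⟩
    ⟨⟨_, _, by simp, rfl, by simp⟩, 1, ⟨_, _, by simp, rfl, by simp⟩, by ring⟩
    ⟨C m * X ^ 2 + C κ, X ^ 2, by simpa using hκ, pow_ne_zero 2 X_ne_zero, by simp, rfl⟩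
  rw [key, neg_zero]
  exact pt_neg_left _ _

end Pool.Agent.LibBH2
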