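import Mathlib

/-!
The addition-and-subtraction map on `x`-coordinates does what it is claimed to do.
-/

set_option autoImplicit false

open WeierstrassCurve MvPolynomial

namespace Pool.Agent.LibBH2

section
variable {R : Type*} [CommRing R] (W : WeierstrassCurve R)

theorem eval_addSubMap_zero (v : Fin 3 → R) : (addSubMap W 0).eval v =
    v 0 ^ 2 - W.b₄ * v 0 * v 2 - W.b₆ * v 1 * v 2 - W.b₈ * v 2 ^ 2 := by
  simp [addSubMap]

theorem eval_addSubMap_one (v : Fin 3 → R) : (addSubMap W 1).eval v =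
    2 * v 1 * v 0 + W.b₂ * v 0 * v 2 + W.b₄ * v 1 * v 2 + W.b₆ * v 2 ^ 2 := by
  simp [addSubMap]

theorem eval_addSubMap_two (v : Fin 3 → R) : (addSubMap W 2).eval v =
    v 1 ^ 2 - 4 * v 0 * v 2 := by
  simp [addSubMap]

end

section
variable {F : Type*} [Field F] [DecidableEq F] (W : WeierstrassCurve F)

omit [DecidableEq F] in
/-- the value of `addSubMap` at the pair `P, Q` -/
noncomputable def asv (P Q : W.toAffine.Point) : Fin 3 → F :=
  fun i => (addSubMap W i).eval (P.sym2x Q)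

omit [DecidableEq F] in
theorem asv_comm (P Q : W.toAffine.Point) : asv W P Q = asv W Q P := by
  unfold asv
  rw [Affine.Point.sym2x_comm]

omit [DecidableEq F] in
theorem asv_neg (P Q : W.toAffine.Point) : asv W P (-Q) = asv W P Q := by
  unfold asv
  rw [Affine.Point.sym2x_neg_right]

/-- proportionality -/
def Pr (v w : Fin 3 → F) : Prop := ∃ c : F, c ≠ 0 ∧ v = c • w

theorem addSub_X_ne {x₁ y₁ x₂ y₂ : F} (h₁ : W.toAffine.Nonsingular x₁ y₁)
    (h₂ : W.toAffine.Nonsingular x₂ y₂) (hx : x₁ ≠ x₂) :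
    Pr (asv W (.some x₁ y₁ h₁) (.some x₂ y₂ h₂))
      ((Affine.Point.some x₁ y₁ h₁ + .some x₂ y₂ h₂).sym2x
        (Affine.Point.some x₁ y₁ h₁ - .some x₂ y₂ h₂)) := by
  have e₁ := (W.toAffine.equation_iff x₁ y₁).1 h₁.1
  have e₂ := (W.toAffine.equation_iff x₂ y₂).1 h₂.1
  have hd : x₁ - x₂ ≠ 0 := sub_ne_zero.2 hx
  rw [sub_eq_add_neg, Affine.Point.neg_some, Affine.Point.add_of_X_ne hx,
    Affine.Point.add_of_X_ne hx, Affine.Point.sym2x_some_some]
  refine ⟨(x₁ - x₂) ^ 2, pow_ne_zero 2 hd, ?_⟩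
  rw [Affine.slope_of_X_ne hx, Affine.slope_of_X_ne hx]
  funext i
  fin_cases i
  · simp only [asv, Fin.zero_eta, eval_addSubMap_zero, Affine.Point.sym2x_some_some,
      Pi.smul_apply, smul_eq_mul, Affine.addX, Affine.negY, Matrix.cons_val_zero,
      Matrix.cons_val_one, Matrix.cons_val, b₄, b₆, b₈]
    field_simp
    linear_combination (-(-x₁^3+2*x₁^2*x₂-x₁^2*W.a₂+2*x₁*x₂^2+x₁*x₂*W.a₁^2+4*x₁*x₂*W.a₂+x₁*y₁*W.a₁+x₁*W.a₁*W.a₃+x₁*W.a₄-2*x₂^3-x₂^2*W.a₁^2-2*x₂^2*W.a₂-2*x₂*y₂*W.a₁-x₂*W.a₁*W.a₃+y₁^2+y₁*W.a₃-2*y₂^2-2*y₂*W.a₃+W.a₆)) * e₁ + (-(-4*x₁^3+2*x₁^2*x₂-x₁^2*W.a₁^2-4*x₁^2*W.a₂+2*x₁*x₂^2+x₁*x₂*W.a₁^2+4*x₁*x₂*W.a₂-x₁*W.a₁*W.a₃-2*x₁*W.a₄-x₂^3-x₂^2*W.a₂+x₂*y₂*W.a₁+x₂*W.a₁*W.a₃+x₂*W.a₄+y₂^2+y₂*W.a₃-W.a₆)) * e₂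
  · simp only [asv, Fin.mk_one, eval_addSubMap_one, Affine.Point.sym2x_some_some,
      Pi.smul_apply, smul_eq_mul, Affine.addX, Affine.negY, Matrix.cons_val_zero,
      Matrix.cons_val_one, Matrix.cons_val, b₂, b₄, b₆]
    field_simp
    linear_combination (-2) * e₁ + (-2) * e₂
  · simp only [asv, Fin.reduceFinMk, eval_addSubMap_two, Affine.Point.sym2x_some_some,
      Pi.smul_apply, smul_eq_mul, Matrix.cons_val_zero,
      Matrix.cons_val_one, Matrix.cons_val]
    ring

theorem addSub_self [W.IsElliptic] {x y : F} (h : W.toAffine.Nonsingular x y) :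
    Pr (asv W (.some x y h) (.some x y h))
      ((Affine.Point.some x y h + .some x y h).sym2x 0) := by
  have e := (W.toAffine.equation_iff x y).1 h.1
  have hpsi : asv W (.some x y h) (.some x y h) 1 = (2 * y + W.a₁ * x + W.a₃) ^ 2 := by
    simp only [asv, eval_addSubMap_one, Affine.Point.sym2x_some_some,
      Matrix.cons_val_zero, Matrix.cons_val_one, Matrix.cons_val, b₂, b₄, b₆]
    linear_combination (-4) * e
  have h2 : asv W (.some x y h) (.some x y h) 2 = 0 := by
    simp only [asv, eval_addSubMap_two, Affine.Point.sym2x_some_some,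
      Matrix.cons_val_zero, Matrix.cons_val_one, Matrix.cons_val]
    ring
  by_cases hy : y = W.toAffine.negY x y
  · rw [Affine.Point.add_self_of_Y_eq hy, Affine.Point.sym2x_zero_zero]
    have hη : 2 * y + W.a₁ * x + W.a₃ = 0 := by
      rw [Affine.negY] at hy
      linear_combination hy
    have hne : asv W (.some x y h) (.some x y h) ≠ 0 :=
      addSubMap_ne_zero W (Affine.Point.sym2x_ne_zero _ _)
    refine ⟨asv W (.some x y h) (.some x y h) 0, ?_, ?_⟩
    · intro h0
      apply hne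
      funext i
      fin_cases i
      · exact h0
      · simpa [hη] using hpsi
      · exact h2
    · funext i
      fin_cases i
      · simp
      · simpa [hη] using hpsi
      · simpa using h2
  · rw [Affine.Point.add_self_of_Y_ne hy, Affine.Point.sym2x_some_zero]
    have hη : 2 * y + W.a₁ * x + W.a₃ ≠ 0 := by
      intro h0
      apply hy
      rw [Affine.negY]
      linear_combination h0
    have hη' : y - W.toAffine.negY x y = 2 * y + W.a₁ * x + W.a₃ := by
      rw [Affine.negY]; ring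
    obtain ⟨η, hηd⟩ : ∃ η, η = 2 * y + W.a₁ * x + W.a₃ := ⟨_, rfl⟩
    rw [← hηd] at hη hη' hpsi
    refine ⟨η ^ 2, pow_ne_zero 2 hη, ?_⟩
    rw [Affine.slope_of_Y_ne rfl hy, hη']
    funext i
    fin_cases i
    · simp only [asv, Fin.zero_eta, eval_addSubMap_zero, Affine.Point.sym2x_some_some,
        Pi.smul_apply, smul_eq_mul, Affine.addX, Matrix.cons_val_zero,
        Matrix.cons_val_one, Matrix.cons_val, b₄, b₆, b₈]
      field_simp
      subst hηd
      linear_combination (-(-8*x-W.a₁^2-4*W.a₂)) * e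
    · simpa using hpsi
    · simpa using h2

/-- the addition and subtraction map -/
theorem addSub [W.IsElliptic] (P Q : W.toAffine.Point) :
    Pr (asv W P Q) ((P + Q).sym2x (P - Q)) := by
  match P, Q with
  | .zero, .zero =>
    change Pr (asv W 0 0) ((0 + 0 : W.toAffine.Point).sym2x (0 - 0))
    rw [add_zero, sub_zero, Affine.Point.sym2x_zero_zero]
    refine ⟨1, one_ne_zero, ?_⟩
    funext i
    fin_cases i
    · simp [asv, eval_addSubMap_zero]
    · simp [asv, eval_addSubMap_one]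
    · simp [asv, eval_addSubMap_two]
  | .zero, .some x y h =>
    change Pr (asv W 0 _) ((0 + _ : W.toAffine.Point).sym2x (0 - _))
    rw [zero_add, zero_sub, Affine.Point.sym2x_neg_right, Affine.Point.sym2x_some_some]
    refine ⟨1, one_ne_zero, ?_⟩
    funext i
    fin_cases i
    · simp [asv, eval_addSubMap_zero]
      ring
    · simp [asv, eval_addSubMap_one]
      ring
    · simp [asv, eval_addSubMap_two]
  | .some x y h, .zero =>
    change Pr (asv W _ 0) ((_ + 0 : W.toAffine.Point).sym2x (_ - 0))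
    rw [add_zero, sub_zero, Affine.Point.sym2x_some_some]
    refine ⟨1, one_ne_zero, ?_⟩
    funext i
    fin_cases i
    · simp [asv, eval_addSubMap_zero]
      ring
    · simp [asv, eval_addSubMap_one]
      ring
    · simp [asv, eval_addSubMap_two]
  | .some x₁ y₁ h₁, .some x₂ y₂ h₂ =>
    by_cases hx : x₁ = x₂
    · rcases Affine.Point.X_eq_iff.1 hx with h | h
      · rw [h, sub_self]
        exact addSub_self W h₂
      · rw [h, neg_add_cancel, asv_comm, asv_neg, Affine.Point.sym2x_comm, ← neg_add',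
          Affine.Point.sym2x_neg_left]
        exact addSub_self W h₂
    · exact addSub_X_ne W h₁ h₂ hx

end

end Pool.Agent.LibBH2
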