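import Pool.Agent.LibBH2.HeightDefs
import Pool.Agent.LibBH2.AddSub

/-!
Approximate parallelogram law, Tate limit, finiteness of points of bounded height.
-/

set_option autoImplicit false

open Height WeierstrassCurve MvPolynomial
open scoped Classical

namespace Pool.Agent.LibBH2

section descent
variable {K : Type} {L : Type} [Field K] [Field L] [Algebra K L] (W : WeierstrassCurve K)

theorem eval_addSubMap_map (i : Fin 3) (v : Fin 3 → K) :
    (addSubMap (W⁄L) i).eval (fun j => algebraMap K L (v j)) =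
      algebraMap K L ((addSubMap W i).eval v) := by
  fin_cases i
  · simp only [Fin.zero_eta, eval_addSubMap_zero, baseChange, map_b₄, map_b₆, map_b₈,
      map_sub, map_mul, map_pow]
  · simp only [Fin.mk_one, eval_addSubMap_one, baseChange, map_b₂, map_b₄, map_b₆, map_add,
      map_mul, map_pow, map_ofNat]
  · simp only [Fin.reduceFinMk, eval_addSubMap_two,
      map_sub, map_mul, map_pow, map_ofNat]

instance instEll [W.IsElliptic] : (W⁄L).IsElliptic :=
  inferInstanceAs (W.map (algebraMap K L)).IsElliptic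

variable {W}

/-- `v` represents the `x`-coordinate of `R` -/
def Rep (R : (W⁄L).toAffine.Point) (v : Fin 2 → K) : Prop :=
  ∀ i, algebraMap K L (v i) = R.xRep i

theorem rep_zero : Rep (0 : (W⁄L).toAffine.Point) ![(1 : K), 0] := by
  intro i
  fin_cases i <;> simp

theorem XIn.exists_rep {R : (W⁄L).toAffine.Point} (h : XIn R) : ∃ v : Fin 2 → K, Rep R v := by
  rcases h with h | ⟨x, y, h, rfl⟩
  · subst h
    exact ⟨_, rep_zero⟩
  · refine ⟨![x, 1], fun i => ?_⟩
    fin_cases i <;> simp

theorem Rep.ne_zero {R : (W⁄L).toAffine.Point} {v : Fin 2 → K} (h : Rep R v) :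
    ![v 0, v 1] ≠ 0 := by
  intro h0
  apply Affine.Point.xRep_ne_zero R
  funext i
  have h00 : v 0 = 0 := congrFun h0 0
  have h01 : v 1 = 0 := congrFun h0 1
  fin_cases i
  · rw [← h, Fin.zero_eta, h00, map_zero]; rfl
  · rw [← h, Fin.mk_one, h01, map_zero]; rfl

/-- symmetric square of two vectors -/
def s2 (v w : Fin 2 → K) : Fin 3 → K := ![v 0 * w 0, v 0 * w 1 + v 1 * w 0, v 1 * w 1]

theorem rep_s2 {R S : (W⁄L).toAffine.Point} {v w : Fin 2 → K} (hv : Rep R v) (hw : Rep S w) :
    (fun j => algebraMap K L (s2 v w j)) = R.sym2x S := by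
  have hv0 : algebraMap K L (v 0) = R.xRep 0 := hv 0
  have hv1 : algebraMap K L (v 1) = R.xRep 1 := hv 1
  have hw0 : algebraMap K L (w 0) = S.xRep 0 := hw 0
  have hw1 : algebraMap K L (w 1) = S.xRep 1 := hw 1
  funext j
  fin_cases j
  · simp [s2, Affine.Point.sym2x, hv0, hw0]
  · simp [s2, Affine.Point.sym2x, hv0, hw0, hv1, hw1]
  · simp [s2, Affine.Point.sym2x, hv1, hw1]

theorem rep_asv {R S : (W⁄L).toAffine.Point} {v w : Fin 2 → K} (hv : Rep R v) (hw : Rep S w) :
    (fun j => algebraMap K L ((addSubMap W j).eval (s2 v w))) = asv (W⁄L) R S := by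
  funext j
  rw [asv, ← rep_s2 hv hw, eval_addSubMap_map]

theorem XIn.two {W : WeierstrassCurve K} [W.IsElliptic] {R : (W⁄L).toAffine.Point} (h : XIn R) :
    XIn (R + R) := by
  obtain ⟨v, hv⟩ := h.exists_rep
  obtain ⟨c, hc, he⟩ := addSub (W⁄L) R R
  rw [sub_self, ← rep_asv hv hv] at he
  generalize hS : R + R = S at he
  match S, hS with
  | .zero, hS => exact Or.inl rfl
  | .some x y h', hS =>
    have e0 := congrFun he 0
    have e1 := congrFun he 1
    rw [Affine.Point.sym2x_some_zero] at e0 e1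
    simp only [Pi.smul_apply, smul_eq_mul, Matrix.cons_val_zero, Matrix.cons_val_one,
      mul_one] at e0 e1
    have hx : x = algebraMap K L ((addSubMap W 0).eval (s2 v v) / (addSubMap W 1).eval (s2 v v)) := by
      rw [map_div₀, e0, e1]
      field_simp
    exact Or.inr ⟨_, y, hx ▸ h', by subst hx; rfl⟩

end descent

section heights
variable {K : Type} [Field K] [AdmissibleAbsValues K]

theorem Rep.nh_eq {L : Type} [Field L] [Algebra K L] {W : WeierstrassCurve K}
    {R : (W⁄L).toAffine.Point} {v : Fin 2 → K} (h : Rep R v) : nh R = logHeight ![v 0, v 1] := by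
  have hinj := (algebraMap K L).injective
  match R, h with
  | .zero, h =>
    have h0' : algebraMap K L (v 0) = 1 := h 0
    have h1' : algebraMap K L (v 1) = 0 := h 1
    have h0 : v 0 = 1 := hinj (by rw [h0', map_one])
    have h1 : v 1 = 0 := hinj (by rw [h1', map_zero])
    rw [h0, h1, ← logHeight₁_div_eq_logHeight]
    simp [nh]
  | .some x y h', h =>
    have h0 : algebraMap K L (v 0) = x := by simpa using h 0
    have h1 : v 1 = 1 := hinj (by simpa using h 1)
    have hex : ∃ x₀ : K, algebraMap K L x₀ = x := ⟨v 0, h0⟩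
    have : hex.choose = v 0 := hinj (hex.choose_spec.trans h0.symm)
    rw [h1, ← logHeight₁_eq_logHeight]
    simp only [nh, dif_pos hex, this]

theorem nh_zero' {L : Type} [Field L] [Algebra K L] {W : WeierstrassCurve K} :
    nh (0 : (W⁄L).toAffine.Point) = 0 := rfl

theorem nh_nonneg' {L : Type} [Field L] [Algebra K L] {W : WeierstrassCurve K}
    (R : (W⁄L).toAffine.Point) : 0 ≤ nh R := by
  match R with
  | .zero => exact le_rfl
  | .some x y h =>
    simp only [nh]
    split_ifs with h
    · exact zero_le_logHeight₁ _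
    · exact le_rfl

/-- approximate parallelogram law -/
theorem approxPar (W : WeierstrassCurve K) [W.IsElliptic] :
    ∃ C : ℝ, 0 ≤ C ∧ ∀ (L : Type) [Field L] [Algebra K L] (R S : (W⁄L).toAffine.Point),
      XIn R → XIn S → XIn (R + S) → XIn (R - S) →
      |nh (R + S) + nh (R - S) - 2 * nh R - 2 * nh S| ≤ C := by
  obtain ⟨C₁, hC₁⟩ := abs_logHeight_addSubMap_sub_two_mul_logHeight_le W
  obtain ⟨C₂, hC₂⟩ := abs_logHeight_sym2_sub_le K
  have key : ∀ (L : Type) [Field L] [Algebra K L] (R S : (W⁄L).toAffine.Point),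
      XIn R → XIn S → XIn (R + S) → XIn (R - S) →
      |nh (R + S) + nh (R - S) - 2 * nh R - 2 * nh S| ≤ C₁ + 3 * C₂ := by
    intro L _ _ R S hR hS hp hm
    obtain ⟨vR, hR⟩ := hR.exists_rep
    obtain ⟨vS, hS⟩ := hS.exists_rep
    obtain ⟨vp, hp⟩ := hp.exists_rep
    obtain ⟨vm, hm⟩ := hm.exists_rep
    obtain ⟨c, hc, he⟩ := addSub (W⁄L) R S
    rw [← rep_asv hR hS, ← rep_s2 hp hm] at he
    set a : Fin 3 → K := fun j => (addSubMap W j).eval (s2 vR vS) with ha
    have hinj := (algebraMap K L).injective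
    have hs'0 : s2 vp vm ≠ 0 := by
      intro h0
      apply Affine.Point.sym2x_ne_zero (R + S) (R - S)
      rw [← rep_s2 hp hm, h0]
      funext j
      simp
    obtain ⟨i, hi⟩ : ∃ i, s2 vp vm i ≠ 0 := by
      by_contra h
      push Not at h
      exact hs'0 (funext h)
    have hei := congrFun he i
    simp only [Pi.smul_apply, smul_eq_mul] at hei
    have hfi : algebraMap K L (s2 vp vm i) ≠ 0 := by
      rw [Ne, map_eq_zero]
      exact hi
    have hcK : c = algebraMap K L (a i / s2 vp vm i) := by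
      rw [map_div₀, eq_div_iff hfi]
      exact hei.symm
    have hc0 : a i / s2 vp vm i ≠ 0 := by
      intro h0
      rw [h0, map_zero] at hcK
      exact hc hcK
    have haK : a = (a i / s2 vp vm i) • s2 vp vm := by
      funext j
      apply hinj
      have := congrFun he j
      simp only [Pi.smul_apply, smul_eq_mul] at this ⊢
      rw [map_mul, ← hcK]
      exact this
    have hh : logHeight a = logHeight (s2 vp vm) := by
      rw [haK]
      exact logHeight_smul_eq_logHeight _ hc0
    have h1 := hC₁ (s2 vR vS)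
    change |logHeight a - 2 * logHeight (s2 vR vS)| ≤ C₁ at h1
    have h2 := hC₂ (a := vR 0) (b := vR 1) (c := vS 0) (d := vS 1) hR.ne_zero hS.ne_zero
    have h3 := hC₂ (a := vp 0) (b := vp 1) (c := vm 0) (d := vm 1) hp.ne_zero hm.ne_zero
    change |logHeight (s2 vR vS) - _| ≤ C₂ at h2
    change |logHeight (s2 vp vm) - _| ≤ C₂ at h3
    rw [hh] at h1
    rw [hR.nh_eq, hS.nh_eq, hp.nh_eq, hm.nh_eq]
    rw [abs_le] at *
    constructor <;> linarith
  have h0 := key K (0 : (W⁄K).toAffine.Point) 0 (Or.inl rfl) (Or.inl rfl)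
    (by rw [add_zero]; exact Or.inl rfl) (by rw [sub_zero]; exact Or.inl rfl)
  exact ⟨C₁ + 3 * C₂, (abs_nonneg _).trans h0, key⟩

end heights

section tate
variable {A : Type*} [AddCommGroup A]

theorem tate (C : ℝ) (hC : 0 ≤ C) (G : AddSubgroup A) (h : A → ℝ) (h0 : h 0 = 0)
    (hpar : ∀ R ∈ G, ∀ S ∈ G, |h (R + S) + h (R - S) - 2 * h R - 2 * h S| ≤ C)
    (hnn : ∀ R, 0 ≤ h R) :
    ∃ hh : A → ℝ, (∀ R ∈ G, |hh R - h R| ≤ C) ∧
      (∀ R ∈ G, ∀ S ∈ G, hh (R + S) + hh (R - S) = 2 * hh R + 2 * hh S) ∧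
      (∀ R ∈ G, 0 ≤ hh R) := by
  set u : A → ℕ → ℝ := fun R n => h ((2 ^ n) • R) / 4 ^ n with hu
  have hstep : ∀ R ∈ G, ∀ n, dist (u R n) (u R (n + 1)) ≤ C / 4 * (1 / 4) ^ n := by
    intro R hR n
    have hm : (2 ^ n) • R ∈ G := G.nsmul_mem hR _
    have h1 := hpar _ hm _ hm
    rw [sub_self, h0, ← two_nsmul, ← mul_nsmul] at h1
    have e : u R n - u R (n + 1) =
        -(h ((2 ^ n * 2) • R) + 0 - 2 * h ((2 ^ n) • R) - 2 * h ((2 ^ n) • R)) / 4 ^ (n + 1) := by
      simp only [hu, pow_succ]
      field_simp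
      ring
    rw [Real.dist_eq, e, abs_div, abs_neg, abs_of_pos (by positivity : (0:ℝ) < 4 ^ (n + 1)),
      div_le_iff₀ (by positivity)]
    refine h1.trans (le_of_eq ?_)
    have e4 : (1 / 4 : ℝ) ^ n * 4 ^ n = 1 := by
      rw [← mul_pow]
      norm_num
    rw [pow_succ]
    linear_combination (-C) * e4
  have hcau : ∀ R ∈ G, CauchySeq (u R) := fun R hR =>
    cauchySeq_of_le_geometric (1 / 4) (C / 4) (by norm_num) (hstep R hR)
  have hlim : ∀ R : A, ∃ l : ℝ, R ∈ G → Filter.Tendsto (u R) Filter.atTop (nhds l) := by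
    intro R
    by_cases hR : R ∈ G
    · obtain ⟨l, hl⟩ := cauchySeq_tendsto_of_complete (hcau R hR)
      exact ⟨l, fun _ => hl⟩
    · exact ⟨0, fun h => absurd h hR⟩
  choose hh hhl using hlim
  refine ⟨hh, ?_, ?_, ?_⟩
  · intro R hR
    have := dist_le_of_le_geometric_of_tendsto₀ (1 / 4) (C / 4) (by norm_num) (hstep R hR)
      (hhl R hR)
    rw [dist_comm, Real.dist_eq] at this
    have e : u R 0 = h R := by simp [hu]
    rw [e] at this
    refine this.trans ?_
    have e3 : C / 4 / (1 - 1 / 4) = C / 3 := by ring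
    rw [e3]
    linarith
  · intro R hR S hS
    have hp := hhl _ (G.add_mem hR hS)
    have hm := hhl _ (G.sub_mem hR hS)
    have hlim1 := ((hp.add hm).sub ((hhl _ hR).const_mul 2)).sub ((hhl _ hS).const_mul 2)
    have hzero : Filter.Tendsto (fun n : ℕ => C / 4 ^ n) Filter.atTop (nhds 0) := by
      have := tendsto_pow_atTop_nhds_zero_of_lt_one (r := (1 / 4 : ℝ)) (by norm_num) (by norm_num)
      have h2 := this.const_mul C
      rw [mul_zero] at h2
      refine h2.congr fun n => ?_
      rw [one_div, inv_pow, ← div_eq_mul_inv]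
    have hsq : Filter.Tendsto (fun n => u (R + S) n + u (R - S) n - 2 * u R n - 2 * u S n)
        Filter.atTop (nhds 0) := by
      refine squeeze_zero_norm (fun n => ?_) hzero
      have h1 := hpar _ (G.nsmul_mem hR (2 ^ n)) _ (G.nsmul_mem hS (2 ^ n))
      rw [← nsmul_add, ← nsmul_sub] at h1
      have e : u (R + S) n + u (R - S) n - 2 * u R n - 2 * u S n =
          (h ((2 ^ n) • (R + S)) + h ((2 ^ n) • (R - S)) - 2 * h ((2 ^ n) • R) -
            2 * h ((2 ^ n) • S)) / 4 ^ n := by
        simp only [hu]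
        ring
      rw [Real.norm_eq_abs, e, abs_div, abs_of_pos (by positivity : (0:ℝ) < 4 ^ n)]
      exact div_le_div_of_nonneg_right h1 (by positivity)
    have := tendsto_nhds_unique hlim1 hsq
    linarith
  · intro R hR
    refine ge_of_tendsto' (hhl R hR) fun n => ?_
    exact div_nonneg (hnn _) (by positivity)

end tate

section northcott
variable {K : Type} [Field K] [NumberField K]

/-- points of bounded height with `x` in `K` are finite in number -/
theorem finite_nh_le {W : WeierstrassCurve K} {L : Type} [Field L] [Algebra K L] (B : ℝ) :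
    {R : (W⁄L).toAffine.Point | XIn R ∧ nh R ≤ B}.Finite := by
  have hfin : {x : K | logHeight₁ x ≤ B}.Finite := NumberField.finite_setOfPred_logHeight₁_le K B
  set T : Set (Fin 2 → L) := insert ![1, 0]
    ((fun x : K => ![algebraMap K L x, 1]) '' {x : K | logHeight₁ x ≤ B}) with hT
  have hTfin : T.Finite := (hfin.image _).insert _
  refine Set.Finite.subset (Set.Finite.preimage' (f := fun R : (W⁄L).toAffine.Point => R.xRep)
    hTfin ?_) ?_
  · intro t _
    by_cases hne : (((fun R : (W⁄L).toAffine.Point => R.xRep)) ⁻¹' {t}).Nonempty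
    · obtain ⟨P, hP⟩ := hne
      refine (Set.toFinite {P, -P}).subset fun Q hQ => ?_
      have hPQ : Q.xRep = P.xRep := by
        have h1 : P.xRep = t := hP
        have h2 : Q.xRep = t := hQ
        rw [h1, h2]
      exact Affine.Point.eq_or_eq_neg_of_xRep_eq_xRep hPQ
    · rw [Set.not_nonempty_iff_eq_empty.1 hne]
      exact Set.finite_empty
  · rintro R ⟨hX, hR⟩
    rcases hX with rfl | ⟨x, y, h, rfl⟩
    · exact Set.mem_insert _ _
    · refine Set.mem_insert_of_mem _ ⟨x, ?_, rfl⟩
      have hrep : Rep (Affine.Point.some (W' := (W⁄L).toAffine) (algebraMap K L x) y h) ![x, 1] := by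
        intro i
        fin_cases i <;> simp
      rw [hrep.nh_eq] at hR
      rw [Set.mem_ofPred_eq, logHeight₁_eq_logHeight]
      exact hR

end northcott

end Pool.Agent.LibBH2
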