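import Pool.Agent.LibBH2.Stmts
import Pool.Agent.LibBH2.ApproxPar

/-!
Tools for Theorems B and D: base change of points is a homomorphism, the twist becomes isomorphic
over the algebraic closure, points with large parameter are not torsion.
-/

set_option autoImplicit false

open Height WeierstrassCurve Polynomial
open scoped Classical

namespace Pool.Agent.LibBH2

theorem bc_nons (L : Type) [Field L] {K : Type} [Field K] [Algebra K L]
    (W : WeierstrassCurve K) {x y : K} (h : W.toAffine.Nonsingular x y) :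
    (W⁄L).toAffine.Nonsingular (algebraMap K L x) (algebraMap K L y) :=
  (WeierstrassCurve.Affine.map_nonsingular W (algebraMap K L).injective x y).2 h

theorem constPt_some (L : Type) [Field L] {K : Type} [Field K] [Algebra K L]
    (W : WeierstrassCurve K) {x y : K} (h : W.toAffine.Nonsingular x y) :
    (constPt L (Affine.Point.some x y h) : (W⁄L).toAffine.Point) =
      Affine.Point.some (algebraMap K L x) (algebraMap K L y) (bc_nons L W h) := rfl

/-- base change of points, as a homomorphism -/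
noncomputable def constHom (L : Type) [Field L] [DecidableEq L] {K : Type} [Field K]
    [DecidableEq K] [Algebra K L] (W : WeierstrassCurve K) : W.toAffine.Point →+ (W⁄L).toAffine.Point where
  toFun := constPt L
  map_zero' := rfl
  map_add' := by
    rintro (_ | ⟨x₁, y₁, h₁⟩) (_ | ⟨x₂, y₂, h₂⟩)
    any_goals rfl
    by_cases hxy : x₁ = x₂ ∧ y₁ = W.toAffine.negY x₂ y₂
    · rw [Affine.Point.add_of_Y_eq hxy.left hxy.right]
      have hy : algebraMap K L y₁ =
          (W⁄L).toAffine.negY (algebraMap K L x₂) (algebraMap K L y₂) := by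
        rw [hxy.right]; exact (Affine.map_negY (W' := W) (algebraMap K L) x₂ y₂).symm
      exact (Affine.Point.add_of_Y_eq (W := (W⁄L).toAffine) (h₁ := bc_nons L W h₁)
        (h₂ := bc_nons L W h₂) (congr_arg _ hxy.left) hy).symm
    · have hxy' : ¬(algebraMap K L x₁ = algebraMap K L x₂ ∧
          algebraMap K L y₁ = (W⁄L).toAffine.negY (algebraMap K L x₂) (algebraMap K L y₂)) := by
        rintro ⟨h1, h2⟩
        apply hxy
        refine ⟨(algebraMap K L).injective h1, (algebraMap K L).injective ?_⟩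
        rw [h2]
        exact Affine.map_negY (W' := W) (algebraMap K L) x₂ y₂
      rw [Affine.Point.add_some hxy]
      refine Eq.trans ?_ (Affine.Point.add_some (W := (W⁄L).toAffine) (h₁ := bc_nons L W h₁)
        (h₂ := bc_nons L W h₂) hxy').symm
      have hs : (W⁄L).toAffine.slope (algebraMap K L x₁) (algebraMap K L x₂) (algebraMap K L y₁)
          (algebraMap K L y₂) = algebraMap K L (W.toAffine.slope x₁ x₂ y₁ y₂) :=
        Affine.map_slope (W := W) (algebraMap K L) x₁ x₂ y₁ y₂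
      rw [constPt_some]
      simp only [hs, Affine.Point.some.injEq]
      exact ⟨(Affine.map_addX (W' := W) (algebraMap K L) x₁ x₂ _).symm,
        (Affine.map_addY (W' := W) (algebraMap K L) x₁ y₁ x₂ _).symm⟩

theorem constHom_apply (L : Type) [Field L] [DecidableEq L] {K : Type} [Field K]
    [DecidableEq K] [Algebra K L] (W : WeierstrassCurve K) (P : W.toAffine.Point) : constHom L W P = constPt L P := rfl

theorem constPt_injective (L : Type) [Field L] [DecidableEq L] {K : Type} [Field K]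
    [DecidableEq K] [Algebra K L] (W : WeierstrassCurve K) : Function.Injective (constHom L W) := by
  rintro (_ | ⟨x₁, y₁, h₁⟩) (_ | ⟨x₂, y₂, h₂⟩) h
  · rfl
  · rw [constHom_apply, constHom_apply] at h; simp [constPt] at h
  · rw [constHom_apply, constHom_apply] at h; simp [constPt] at h
  · rw [constHom_apply, constHom_apply, constPt_some, constPt_some, Affine.Point.some.injEq] at h
    have h1 := (algebraMap K L).injective h.1
    have h2 := (algebraMap K L).injective h.2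
    subst h1 h2
    rfl

/-- scaling homomorphism with free curves -/
theorem scale_hom (hs1 : TaskS1) {L : Type} [Field L] (W₁ W₂ : WeierstrassCurve L) (A B l : L)
    (hl : l ≠ 0) (h1 : W₁ = ⟨0, 0, 0, A, B⟩) (h2 : W₂ = ⟨0, 0, 0, A * l ^ 4, B * l ^ 6⟩) :
    ∃ e : W₁.toAffine.Point →+ W₂.toAffine.Point, Function.Injective e ∧
      ∀ x y h, ∃ h', e (Affine.Point.some x y h) = Affine.Point.some (l ^ 2 * x) (l ^ 3 * y) h' := by
  subst h1 h2
  obtain ⟨e, he⟩ := hs1 L A B l hl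
  exact ⟨e.toAddMonoidHom, e.injective, he⟩

/-- over the algebraic closure, the twist becomes isomorphic to the original curve -/
theorem tw_hom (hs1 : TaskS1) (a b D : ℚ) (hD : D ≠ 0) :
    ∃ φ : (tw a b D).toAffine.Point →+
        ((⟨0, 0, 0, a, b⟩ : WeierstrassCurve ℚ)⁄Qb).toAffine.Point,
      Function.Injective φ ∧ ∀ x y h, ∃ y' h', φ (Affine.Point.some x y h) =
        Affine.Point.some (algebraMap ℚ Qb (x / D)) y' h' := by
  obtain ⟨m, hm⟩ := IsAlgClosed.exists_pow_nat_eq (algebraMap ℚ Qb D) (n := 2) (by norm_num)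
  have hD' : algebraMap ℚ Qb D ≠ 0 := by
    rw [Ne, map_eq_zero_iff _ (algebraMap ℚ Qb).injective]; exact hD
  have hm0 : m ≠ 0 := by
    rintro rfl
    apply hD'
    rw [← hm]; ring
  have hml : m⁻¹ ≠ 0 := inv_ne_zero hm0
  obtain ⟨e, he, hes⟩ := scale_hom hs1 ((tw a b D)⁄Qb)
    ((⟨0, 0, 0, a, b⟩ : WeierstrassCurve ℚ)⁄Qb) (algebraMap ℚ Qb (a * D ^ 2))
    (algebraMap ℚ Qb (b * D ^ 3)) m⁻¹ hml
    (by simp [tw, WeierstrassCurve.baseChange, WeierstrassCurve.map])
    (by
      simp only [WeierstrassCurve.baseChange, WeierstrassCurve.map, map_zero, map_mul, map_pow,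
        ← hm, WeierstrassCurve.mk.injEq, true_and]
      constructor <;> field_simp)
  refine ⟨e.comp (constHom Qb (tw a b D)), ?_, fun x y h => ?_⟩
  · exact he.comp (constPt_injective _ _)
  · obtain ⟨h', hh⟩ := hes (algebraMap ℚ Qb x) (algebraMap ℚ Qb y)
      ((WeierstrassCurve.Affine.map_nonsingular (tw a b D) (algebraMap ℚ Qb).injective x y).2 h)
    have e1 : m⁻¹ ^ 2 * algebraMap ℚ Qb x = algebraMap ℚ Qb (x / D) := by
      rw [map_div₀, ← hm]
      field_simp
    have : ∃ y' : Qb, ∃ h'' : ((⟨0, 0, 0, a, b⟩ : WeierstrassCurve ℚ)⁄Qb).toAffine.Nonsingular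
        (algebraMap ℚ Qb (x / D)) y', Affine.Point.some (m⁻¹ ^ 2 * algebraMap ℚ Qb x)
          (m⁻¹ ^ 3 * algebraMap ℚ Qb y) h' = Affine.Point.some (algebraMap ℚ Qb (x / D)) y' h'' := by
      rw [← e1]
      exact ⟨_, h', by rfl⟩
    obtain ⟨y', h'', h3⟩ := this
    exact ⟨y', h'', by rw [← h3, ← hh]; rfl⟩

theorem nh_some {K : Type} {L : Type} [Field K] [AdmissibleAbsValues K] [Field L]
    [Algebra K L] {W : WeierstrassCurve K} (x : K) (y : L)
    (h : (W⁄L).toAffine.Nonsingular (algebraMap K L x) y) :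
    nh (Affine.Point.some (algebraMap K L x) y h) = logHeight₁ x := by
  have hex : ∃ x₀ : K, algebraMap K L x₀ = algebraMap K L x := ⟨x, rfl⟩
  have h1 : hex.choose = x := (algebraMap K L).injective hex.choose_spec
  unfold nh
  simp only
  rw [dif_pos hex, h1]

/-- a nonconstant rational function takes values of bounded height at finitely many integers -/
theorem eventually_height (p q : ℚ[X]) (hpq : ∀ v : ℚ, p - C v * q ≠ 0) (B : ℝ) :
    ∃ n₀ : ℕ, ∀ n : ℕ, n₀ ≤ n → q.eval (n : ℚ) ≠ 0 →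
      B < logHeight₁ (p.eval (n : ℚ) / q.eval (n : ℚ)) := by
  have hfin : {x : ℚ | logHeight₁ x ≤ B}.Finite := NumberField.finite_setOfPred_logHeight₁_le ℚ B
  have hbad : {n : ℕ | q.eval (n : ℚ) ≠ 0 ∧
      logHeight₁ (p.eval (n : ℚ) / q.eval (n : ℚ)) ≤ B}.Finite := by
    have h1 : (⋃ v ∈ {x : ℚ | logHeight₁ x ≤ B}, {r : ℚ | (p - C v * q).IsRoot r}).Finite :=
      hfin.biUnion fun v _ => Polynomial.finite_setOfPred_isRoot (hpq v)
    refine Set.Finite.subset (h1.preimage (f := fun n : ℕ => (n : ℚ))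
      (Nat.cast_injective.injOn)) ?_
    rintro n ⟨hn, hB⟩
    simp only [Set.mem_preimage, Set.mem_iUnion, Set.mem_ofPred_eq, exists_prop]
    refine ⟨_, hB, ?_⟩
    rw [IsRoot, eval_sub, eval_mul, eval_C, div_mul_cancel₀ _ hn, sub_self]
  obtain ⟨M, hM⟩ := hbad.bddAbove
  refine ⟨M + 1, fun n hn hq => ?_⟩
  by_contra hcon
  have := hM ⟨hq, not_lt.1 hcon⟩
  omega

theorem short_Δ {k : Type} [Field k] (A B : k) :
    (⟨0, 0, 0, A, B⟩ : WeierstrassCurve k).Δ = -16 * (4 * A ^ 3 + 27 * B ^ 2) := by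
  simp only [WeierstrassCurve.Δ, WeierstrassCurve.b₂, WeierstrassCurve.b₄, WeierstrassCurve.b₆,
    WeierstrassCurve.b₈]
  ring

theorem short_ell {k : Type} [Field k] [CharZero k] {A B : k} (h : 4 * A ^ 3 + 27 * B ^ 2 ≠ 0) :
    (⟨0, 0, 0, A, B⟩ : WeierstrassCurve k).IsElliptic := by
  refine ⟨?_⟩
  rw [short_Δ, isUnit_iff_ne_zero]
  exact mul_ne_zero (by norm_num) h

theorem short_nons {k : Type} [Field k] [CharZero k] {A B : k} (h : 4 * A ^ 3 + 27 * B ^ 2 ≠ 0)
    {x y : k} (hxy : y ^ 2 = x ^ 3 + A * x + B) :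
    (⟨0, 0, 0, A, B⟩ : WeierstrassCurve k).toAffine.Nonsingular x y := by
  rw [← Affine.equation_iff_nonsingular_of_Δ_ne_zero (by
    rw [short_Δ]; exact mul_ne_zero (by norm_num) h), Affine.equation_iff]
  simpa using hxy

theorem tw_disc {a b D : ℚ} (h : 4 * a ^ 3 + 27 * b ^ 2 ≠ 0) (hD : D ≠ 0) :
    4 * (a * D ^ 2) ^ 3 + 27 * (b * D ^ 3) ^ 2 ≠ 0 := by
  have : 4 * (a * D ^ 2) ^ 3 + 27 * (b * D ^ 3) ^ 2 = D ^ 6 * (4 * a ^ 3 + 27 * b ^ 2) := by ring
  rw [this]
  exact mul_ne_zero (pow_ne_zero _ hD) h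

/-- points of twists with `x / D` a value of a nonconstant rational function at a large integer
are not torsion -/
theorem eventually_nontorsion (ht4 : TaskT4) (hs1 : TaskS1) (a b : ℚ)
    (hab : 4 * a ^ 3 + 27 * b ^ 2 ≠ 0) (p q : ℚ[X]) (hpq : ∀ v : ℚ, p - C v * q ≠ 0) :
    ∃ n₀ : ℕ, ∀ n : ℕ, n₀ ≤ n → q.eval (n : ℚ) ≠ 0 → ∀ D : ℚ, D ≠ 0 → ∀ x y h,
      x = D * (p.eval (n : ℚ) / q.eval (n : ℚ)) →
      ¬ IsOfFinAddOrder (Affine.Point.some x y h : (tw a b D).toAffine.Point) := by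
  have := short_ell hab
  obtain ⟨B, hB⟩ := ht4 ℚ ⟨0, 0, 0, a, b⟩
  obtain ⟨n₀, hn₀⟩ := eventually_height p q hpq B
  refine ⟨n₀, fun n hn hq D hD x y h hx htor => ?_⟩
  obtain ⟨φ, -, hφ⟩ := tw_hom hs1 a b D hD
  obtain ⟨y', h', h3⟩ := hφ x y h
  have h4 := hB Qb (φ (Affine.Point.some x y h)) (Or.inr ⟨_, y', h', h3⟩)
    (AddMonoidHom.isOfFinAddOrder φ htor)
  rw [h3, nh_some] at h4
  have h5 : x / D = p.eval (n : ℚ) / q.eval (n : ℚ) := by
    rw [hx]; field_simp
  rw [h5] at h4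
  exact absurd h4 (not_le.2 (hn₀ n hn hq))

/-- Task KW with free curves -/
theorem kw_free (hkw : TaskKW) {k : Type} [Field k] [CharZero k] [IsAlgClosed k]
    (W₁ W₂ : WeierstrassCurve k) (a b c d : k) (h1 : W₁ = ⟨0, 0, 0, a, b⟩)
    (h2 : W₂ = ⟨0, 0, 0, c, d⟩) (hab : 4 * a ^ 3 + 27 * b ^ 2 ≠ 0)
    (hcd : 4 * c ^ 3 + 27 * d ^ 2 ≠ 0) (hac : ¬ (a = 0 ∧ c = 0)) (hbd : ¬ (b = 0 ∧ d = 0))
    (s x y x' y' : k) (h : W₁.toAffine.Nonsingular x y) (h' : W₂.toAffine.Nonsingular x' y')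
    (hx : x' = s ^ 2 * x) (hy : y' = s ^ 3 * y) (hs : s ≠ 0) (has : a * s ^ 4 ≠ c) :
    2 • (zc (Affine.Point.some x y h) (Affine.Point.some x' y' h') : CH0 W₁ W₂) = 0 := by
  subst h1 h2 hx hy
  have := short_ell hab
  have := short_ell hcd
  exact hkw k a b c d hac hbd s x y h h' hs has

end Pool.Agent.LibBH2
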