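import Pool.Agent.LibBH2.Curves

/-!
Statements of the polynomial, height and independence tasks (zero-cycles on products of two
elliptic curves).
-/

open Height WeierstrassCurve
open scoped Classical

namespace Pool.Agent.LibBH2

/-- Task B1: no nonconstant rational parametrisation of an elliptic curve. -/
def TaskB1 : Prop := ∀ (k : Type) [Field k] [IsAlgClosed k] [CharZero k] (a b : k),
  4 * a ^ 3 + 27 * b ^ 2 ≠ 0 → ∀ r G : RatFunc k,
    G ^ 2 = r ^ 3 + RatFunc.C a * r + RatFunc.C b → ∃ c : k, r = RatFunc.C c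

/-- Task B2: the values of a polynomial which is not a constant times a square lie in infinitely
many square classes. -/
def TaskB2 : Prop := ∀ H : Polynomial ℚ,
  (∀ (κ : ℚ) (G : Polynomial ℚ), H ≠ Polynomial.C κ * G ^ 2) → ∀ n₀ : ℕ,
    {D : ℤ | Squarefree D ∧ ∃ n : ℕ, n₀ ≤ n ∧ H.eval (n : ℚ) ≠ 0 ∧
      IsSquare ((D : ℚ) * H.eval (n : ℚ))}.Infinite

/-- Task H0: height of the values of a rational function of degree `max (deg p) (deg q)`. -/
def TaskH0 : Prop := ∀ (K : Type) [Field K] [NumberField K] (p q : Polynomial K),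
  IsCoprime p q → ∃ C : ℝ, ∀ x : K, q.eval x ≠ 0 →
    |logHeight₁ (p.eval x / q.eval x) - (max p.natDegree q.natDegree : ℕ) * logHeight₁ x| ≤ C

/-- Task C1: the two obvious points of `fam t u v` are independent for many `t`. -/
def TaskC1 : Prop := ∀ u v : ℤ, 0 < u → u < v → ∃ T : ℤ, ∀ t : ℤ, T ≤ t →
  (∃ l : ℕ, l.Prime ∧ l ≠ 2 ∧ (l : ℤ) ∣ t ∧ ¬ ((l : ℤ) ^ 2 ∣ t) ∧
    ¬ ((l : ℤ) ∣ u * v * (u ^ 4 + u ^ 2 * v ^ 2 + v ^ 4))) →
  (∃ q : ℕ, q.Prime ∧ (q : ℤ) ∣ t - 1 ∧ ¬ ((q : ℤ) ^ 2 ∣ t - 1) ∧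
    ¬ ((q : ℤ) ∣ u * v * (u ^ 2 + v ^ 2))) →
  (fam t u v).Δ ≠ 0 ∧ ∃ (h₁ : (fam t u v).toAffine.Nonsingular (t * u ^ 2) (t * u ^ 3))
    (h₂ : (fam t u v).toAffine.Nonsingular (t * v ^ 2) (t * v ^ 3)),
    LinearIndependent ℤ ![Affine.Point.some _ _ h₁, Affine.Point.some _ _ h₂]

/-- Task S1: scaling `(x, y) ↦ (l ^ 2 x, l ^ 3 y)` is an isomorphism of groups of points of
short Weierstrass curves. -/
def TaskS1 : Prop := ∀ (L : Type) [Field L] (A B l : L), l ≠ 0 →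
  ∃ e : (⟨0, 0, 0, A, B⟩ : WeierstrassCurve L).toAffine.Point ≃+
      (⟨0, 0, 0, A * l ^ 4, B * l ^ 6⟩ : WeierstrassCurve L).toAffine.Point,
    ∀ (x y : L) (h : (⟨0, 0, 0, A, B⟩ : WeierstrassCurve L).toAffine.Nonsingular x y),
      ∃ h', e (Affine.Point.some x y h) = Affine.Point.some (l ^ 2 * x) (l ^ 3 * y) h'

end Pool.Agent.LibBH2
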