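import Mathlib
import Pool.Agent.LibBH2.PolyDefs

set_option autoImplicit false

open Polynomial

namespace Pool.Agent.LibBH2

section Descent

variable {k : Type} [Field k] [IsAlgClosed k] [CharZero k]

theorem sq_of_coprime_mul {A B S : k[X]} (h : IsCoprime A B) (hS : A * B = S ^ 2) :
    ∃ T, A = T ^ 2 := by
  obtain ⟨d, hd⟩ := exists_associated_pow_of_mul_eq_pow' h hS
  obtain ⟨u, hu⟩ := hd
  obtain ⟨c, hc, hcu⟩ := Polynomial.isUnit_iff.1 u.isUnit
  obtain ⟨z, hz⟩ := IsAlgClosed.exists_pow_nat_eq c (n := 2) (by norm_num)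
  refine ⟨C z * d, ?_⟩
  rw [← hu, ← hcu, mul_pow, ← C_pow, hz]
  ring

theorem coprime_comb {p q : k[X]} (h : IsCoprime p q) {a b c d : k} (hd : a * d - b * c ≠ 0) :
    IsCoprime (C a * p + C b * q) (C c * p + C d * q) := by
  obtain ⟨x, y, hxy⟩ := h
  set e := (a * d - b * c)⁻¹ with he
  have hee : C e * (C a * C d - C b * C c) = (1 : k[X]) := by
    rw [← C_mul, ← C_mul, ← C_sub, ← C_mul, he, inv_mul_cancel₀ hd, C_1]
  refine ⟨C e * (C d * x - C c * y), C e * (C a * y - C b * x), ?_⟩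
  linear_combination (p * x + y * q) * hee + hxy

theorem descent (n : ℕ) : ∀ (p q : k[X]), p.natDegree ≤ n → q.natDegree ≤ n → IsCoprime p q →
    ∀ a b : Fin 4 → k, (∀ i j, i ≠ j → a i * b j - b i * a j ≠ 0) →
    (∀ i, ∃ S : k[X], C (a i) * p + C (b i) * q = S ^ 2) → p.natDegree = 0 ∧ q.natDegree = 0 := by
  induction n using Nat.strong_induction_on with
  | _ n ih =>
  intro p q hp hq hpq a b hab hsq
  rcases Nat.eq_zero_or_pos n with rfl | hn
  · omega
  obtain ⟨u, hu⟩ := hsq 0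
  obtain ⟨v, hv⟩ := hsq 1
  have h01 := hab 0 1 (by decide)
  have hcop := coprime_comb hpq h01
  rw [hu, hv] at hcop
  have huv : IsCoprime u v := (IsCoprime.pow_iff (by norm_num) (by norm_num)).1 hcop
  set e := (a 0 * b 1 - b 0 * a 1)⁻¹ with he
  have hee : C e * (C (a 0) * C (b 1) - C (b 0) * C (a 1)) = (1 : k[X]) := by
    rw [← C_mul, ← C_mul, ← C_sub, ← C_mul, he, inv_mul_cancel₀ h01, C_1]
  have hpe : p = C e * (C (b 1) * u ^ 2 - C (b 0) * v ^ 2) := by
    rw [← hu, ← hv]; linear_combination (-p) * hee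
  have hqe : q = C e * (C (a 0) * v ^ 2 - C (a 1) * u ^ 2) := by
    rw [← hu, ← hv]; linear_combination (-q) * hee
  -- degrees
  have hdeg : ∀ α β : k, (C α * p + C β * q).natDegree ≤ n := by
    intro α β
    refine (natDegree_add_le _ _).trans (max_le ?_ ?_)
    · exact (natDegree_C_mul_le _ _).trans hp
    · exact (natDegree_C_mul_le _ _).trans hq
  have hu2 : 2 * u.natDegree ≤ n := by
    have := hdeg (a 0) (b 0)
    rwa [hu, natDegree_pow] at this
  have hv2 : 2 * v.natDegree ≤ n := by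
    have := hdeg (a 1) (b 1)
    rwa [hv, natDegree_pow] at this
  -- the other two members in terms of u², v²
  have key : ∀ i : Fin 4, i ≠ 0 → i ≠ 1 → ∃ γ δ : k, γ ^ 2 = (a i * b 1 - b i * a 1) ∧
      δ ^ 2 = (a i * b 0 - b i * a 0) ∧
      (∃ S : k[X], C γ * u + C δ * v = S ^ 2) ∧ (∃ S : k[X], C γ * u + C (-δ) * v = S ^ 2) := by
    intro i hi0 hi1
    obtain ⟨γ, hγ⟩ := IsAlgClosed.exists_pow_nat_eq (a i * b 1 - b i * a 1) (n := 2) (by norm_num)
    obtain ⟨δ, hδ⟩ := IsAlgClosed.exists_pow_nat_eq (a i * b 0 - b i * a 0) (n := 2) (by norm_num)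
    have hγ0 : γ ≠ 0 := by
      rintro rfl
      exact hab i 1 hi1 (by rw [← hγ]; ring)
    have hδ0 : δ ≠ 0 := by
      rintro rfl
      exact hab i 0 hi0 (by rw [← hδ]; ring)
    obtain ⟨S, hS⟩ := hsq i
    obtain ⟨z, hz⟩ := IsAlgClosed.exists_pow_nat_eq e⁻¹ (n := 2) (by norm_num)
    have he0 : e ≠ 0 := inv_ne_zero h01
    have hmul : (C γ * u + C δ * v) * (C γ * u + C (-δ) * v) = (C z * S) ^ 2 := by
      have h1 : C e * (C z) ^ 2 = (1 : k[X]) := by
        rw [← C_pow, hz, ← C_mul, mul_inv_cancel₀ he0, C_1]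
      have h2 : (C γ : k[X]) ^ 2 = C (a i) * C (b 1) - C (b i) * C (a 1) := by
        rw [← C_pow, hγ]; simp
      have h3 : (C δ : k[X]) ^ 2 = C (a i) * C (b 0) - C (b i) * C (a 0) := by
        rw [← C_pow, hδ]; simp
      have h4 : (C z) ^ 2 * S ^ 2 = (C (a i) * C (b 1) - C (b i) * C (a 1)) * u ^ 2
          - (C (a i) * C (b 0) - C (b i) * C (a 0)) * v ^ 2 := by
        rw [← hS, hpe, hqe]
        linear_combination ((C (a i) * (C (b 1) * u ^ 2 - C (b 0) * v ^ 2)) +
          C (b i) * (C (a 0) * v ^ 2 - C (a 1) * u ^ 2)) * h1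
      rw [mul_pow, h4, C_neg]
      linear_combination u ^ 2 * h2 - v ^ 2 * h3
    have hcop2 : IsCoprime (C γ * u + C δ * v) (C γ * u + C (-δ) * v) := by
      apply coprime_comb huv
      have : γ * -δ - δ * γ = - 2 * (γ * δ) := by ring
      rw [this]
      exact mul_ne_zero (by norm_num) (mul_ne_zero hγ0 hδ0)
    refine ⟨γ, δ, hγ, hδ, sq_of_coprime_mul hcop2 hmul, ?_⟩
    exact sq_of_coprime_mul hcop2.symm (by rw [mul_comm, hmul])
  obtain ⟨γ₁, δ₁, hγ₁, hδ₁, hs1, hs2⟩ := key 2 (by decide) (by decide)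
  obtain ⟨γ₂, δ₂, hγ₂, hδ₂, hs3, hs4⟩ := key 3 (by decide) (by decide)
  have hlt : n / 2 < n := by omega
  have hγ₁0 : γ₁ ≠ 0 := by
    rintro rfl
    exact hab 2 1 (by decide) (by rw [← hγ₁]; ring)
  have hδ₁0 : δ₁ ≠ 0 := by
    rintro rfl
    exact hab 2 0 (by decide) (by rw [← hδ₁]; ring)
  have hγ₂0 : γ₂ ≠ 0 := by
    rintro rfl
    exact hab 3 1 (by decide) (by rw [← hγ₂]; ring)
  have hδ₂0 : δ₂ ≠ 0 := by
    rintro rfl
    exact hab 3 0 (by decide) (by rw [← hδ₂]; ring)
  have hcross : γ₁ ^ 2 * δ₂ ^ 2 - δ₁ ^ 2 * γ₂ ^ 2 ≠ 0 := by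
    rw [hγ₁, hδ₁, hγ₂, hδ₂]
    have : (a 2 * b 1 - b 2 * a 1) * (a 3 * b 0 - b 3 * a 0) -
        (a 2 * b 0 - b 2 * a 0) * (a 3 * b 1 - b 3 * a 1) =
        - (a 0 * b 1 - b 0 * a 1) * (a 2 * b 3 - b 2 * a 3) := by ring
    rw [this]
    exact mul_ne_zero (neg_ne_zero.2 h01) (hab 2 3 (by decide))
  have hc1 : γ₁ * δ₂ - δ₁ * γ₂ ≠ 0 := by
    intro h
    apply hcross
    linear_combination (γ₁ * δ₂ + δ₁ * γ₂) * h
  have hc2 : γ₁ * δ₂ + δ₁ * γ₂ ≠ 0 := by
    intro h
    apply hcross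
    linear_combination (γ₁ * δ₂ - δ₁ * γ₂) * h
  have h2 : (2 : k) ≠ 0 := by norm_num
  obtain ⟨hu0, hv0⟩ := ih (n / 2) hlt u v (by omega) (by omega) huv
    ![γ₁, γ₁, γ₂, γ₂] ![δ₁, -δ₁, δ₂, -δ₂] (by
      intro i j hij
      fin_cases i <;> fin_cases j <;> simp at hij ⊢ <;> intro h
      · exact mul_ne_zero h2 (mul_ne_zero hγ₁0 hδ₁0) (by linear_combination -h)
      · exact hc1 h
      · exact hc2 (by first | linear_combination h | linear_combination -h)
      · exact mul_ne_zero h2 (mul_ne_zero hγ₁0 hδ₁0) (by linear_combination h)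
      · exact hc2 (by first | linear_combination h | linear_combination -h)
      · exact hc1 (by linear_combination -h)
      · exact hc1 (by linear_combination -h)
      · exact hc2 (by first | linear_combination h | linear_combination -h)
      · exact mul_ne_zero h2 (mul_ne_zero hγ₂0 hδ₂0) (by linear_combination -h)
      · exact hc2 (by first | linear_combination h | linear_combination -h)
      · exact hc1 (by linear_combination h)
      · exact mul_ne_zero h2 (mul_ne_zero hγ₂0 hδ₂0) (by linear_combination h)) (by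
      intro i
      fin_cases i
      · exact hs1
      · exact hs2
      · exact hs3
      · exact hs4)
  have hpd : p.natDegree ≤ 0 := by
    rw [hpe]
    refine (natDegree_C_mul_le _ _).trans ((natDegree_sub_le _ _).trans (max_le ?_ ?_))
    · refine (natDegree_C_mul_le _ _).trans ?_
      rw [natDegree_pow, hu0]
    · refine (natDegree_C_mul_le _ _).trans ?_
      rw [natDegree_pow, hv0]
  have hqd : q.natDegree ≤ 0 := by
    rw [hqe]
    refine (natDegree_C_mul_le _ _).trans ((natDegree_sub_le _ _).trans (max_le ?_ ?_))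
    · refine (natDegree_C_mul_le _ _).trans ?_
      rw [natDegree_pow, hv0]
    · refine (natDegree_C_mul_le _ _).trans ?_
      rw [natDegree_pow, hu0]
  omega

end Descent

theorem b1 : TaskB1 := by
  intro k _ _ _ a b hdisc r G hG
  -- the roots
  obtain ⟨e₁, he₁⟩ : ∃ e : k, e ^ 3 + a * e + b = 0 := by
    have hdeg : (X ^ 3 + C a * X + C b : k[X]).degree = 3 := by
      compute_degree!
    obtain ⟨e, he⟩ := IsAlgClosed.exists_root (X ^ 3 + C a * X + C b : k[X]) (by
      rw [hdeg]; norm_num)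
    exact ⟨e, by simpa using he⟩
  obtain ⟨s, hs⟩ := IsAlgClosed.exists_pow_nat_eq (-3 * e₁ ^ 2 - 4 * a) (n := 2) (by norm_num)
  have h2 : (2 : k) ≠ 0 := by norm_num
  obtain ⟨e₂, he₂⟩ : ∃ e₂, 2 * e₂ = -e₁ + s := ⟨(-e₁ + s) / 2, by field_simp⟩
  obtain ⟨e₃, he₃⟩ : ∃ e₃, e₃ = -e₁ - e₂ := ⟨_, rfl⟩
  have hA : e₁ * e₂ + e₁ * e₃ + e₂ * e₃ = a := by
    have h4 : (4 : k) ≠ 0 := by norm_num
    apply mul_left_cancel₀ h4
    rw [he₃]
    linear_combination (-1) * hs + (-2 * e₁ - 2 * e₂ + e₁ - s) * he₂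
  have hB : e₁ * e₂ * e₃ = -b := by
    have h1 : e₂ * e₃ = a + e₁ ^ 2 := by
      rw [← hA, he₃]; ring
    linear_combination e₁ * h1 + he₁
  have h12 : e₁ ≠ e₂ := by
    rintro rfl
    apply hdisc
    have hb : b = -(e₁ * e₁ * e₃) := by rw [hB]; ring
    rw [hb, ← hA, he₃]; ring
  have h13 : e₁ ≠ e₃ := by
    intro h
    have he2 : e₂ = -2 * e₁ := by linear_combination he₃ + h
    apply hdisc
    have hb : b = -(e₁ * e₂ * e₃) := by rw [hB]; ring
    rw [hb, ← hA, ← h, he2]; ring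
  have h23 : e₂ ≠ e₃ := by
    intro h
    have he1 : e₁ = -2 * e₂ := by linear_combination he₃ + h
    apply hdisc
    have hb : b = -(e₁ * e₂ * e₃) := by rw [hB]; ring
    rw [hb, ← hA, ← h, he1]; ring
  -- numerators and denominators
  set p := r.num with hp
  set q := r.denom with hq
  set g := G.num with hg
  set h := G.denom with hh
  have hcop : IsCoprime p q := r.isCoprime_num_denom
  have hq0 : q ≠ 0 := r.denom_ne_zero
  have hh0 : h ≠ 0 := G.denom_ne_zero
  have hr : r = algebraMap k[X] (RatFunc k) p / algebraMap k[X] (RatFunc k) q :=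
    (r.num_div_denom).symm
  have hGe : G = algebraMap k[X] (RatFunc k) g / algebraMap k[X] (RatFunc k) h :=
    (G.num_div_denom).symm
  have hinj : Function.Injective (algebraMap k[X] (RatFunc k)) :=
    RatFunc.algebraMap_injective k
  have hq0' : algebraMap k[X] (RatFunc k) q ≠ 0 := by
    intro hz; exact hq0 (hinj (by rw [hz, map_zero]))
  have hh0' : algebraMap k[X] (RatFunc k) h ≠ 0 := by
    intro hz; exact hh0 (hinj (by rw [hz, map_zero]))
  have hmain : g ^ 2 * q ^ 3 = h ^ 2 * ((p - C e₁ * q) * (p - C e₂ * q) * (p - C e₃ * q)) := by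
    have h1 : (p - C e₁ * q) * (p - C e₂ * q) * (p - C e₃ * q) =
        p ^ 3 + C a * p * q ^ 2 + C b * q ^ 3 := by
      have hA' : (C e₁ * C e₂ + C e₁ * C e₃ + C e₂ * C e₃ : k[X]) = C a := by
        rw [← hA]; simp
      have hB' : (C e₁ * C e₂ * C e₃ : k[X]) = - C b := by
        rw [← C_neg, ← hB]; simp
      have hS' : (C e₁ + C e₂ + C e₃ : k[X]) = 0 := by
        rw [he₃]; simp
      linear_combination p * q ^ 2 * hA' - q ^ 3 * hB' - p ^ 2 * q * hS'
    rw [h1]
    apply hinj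
    simp only [map_mul, map_pow, map_add]
    rw [hr, hGe] at hG
    rw [show algebraMap k[X] (RatFunc k) (C a) = RatFunc.C a from RatFunc.algebraMap_C a,
      show algebraMap k[X] (RatFunc k) (C b) = RatFunc.C b from RatFunc.algebraMap_C b]
    field_simp at hG
    linear_combination hG
  -- h ∣ g q²
  set N := (p - C e₁ * q) * (p - C e₂ * q) * (p - C e₃ * q) with hN
  have hdvd : h ∣ g * q ^ 2 := by
    have : h ^ 2 ∣ (g * q ^ 2) ^ 2 := ⟨N * q, by linear_combination q * hmain⟩
    exact (IsIntegrallyClosed.pow_dvd_pow_iff (by norm_num)).1 this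
  obtain ⟨s', hs'⟩ := hdvd
  have hsq : N * q = s' ^ 2 := by
    have : h ^ 2 * (N * q) = h ^ 2 * s' ^ 2 := by
      have h3 : (g * q ^ 2) ^ 2 = (h * s') ^ 2 := by rw [hs']
      linear_combination (-q) * hmain + h3
    exact mul_left_cancel₀ (pow_ne_zero 2 hh0) this
  -- pairwise coprime factors
  have c0 : ∀ e : k, IsCoprime (p - C e * q) q := by
    intro e
    have := coprime_comb hcop (a := 1) (b := -e) (c := 0) (d := 1) (by simp)
    simpa [sub_eq_add_neg] using this
  have c1 : ∀ e e' : k, e ≠ e' → IsCoprime (p - C e * q) (p - C e' * q) := by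
    intro e e' hee
    have := coprime_comb hcop (a := 1) (b := -e) (c := 1) (d := -e') (by
      intro h; apply hee; first | linear_combination h | linear_combination -h)
    simpa [sub_eq_add_neg] using this
  have d1 : ∃ T, p - C e₁ * q = T ^ 2 := by
    refine sq_of_coprime_mul (B := (p - C e₂ * q) * (p - C e₃ * q) * q) (S := s') ?_ ?_
    · exact ((c1 _ _ h12).mul_right (c1 _ _ h13)).mul_right (c0 _)
    · rw [← hsq, hN]; ring
  have d2 : ∃ T, p - C e₂ * q = T ^ 2 := by
    refine sq_of_coprime_mul (B := (p - C e₁ * q) * (p - C e₃ * q) * q) (S := s') ?_ ?_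
    · exact ((c1 _ _ h12.symm).mul_right (c1 _ _ h23)).mul_right (c0 _)
    · rw [← hsq, hN]; ring
  have d3 : ∃ T, p - C e₃ * q = T ^ 2 := by
    refine sq_of_coprime_mul (B := (p - C e₁ * q) * (p - C e₂ * q) * q) (S := s') ?_ ?_
    · exact ((c1 _ _ h13.symm).mul_right (c1 _ _ h23.symm)).mul_right (c0 _)
    · rw [← hsq, hN]; ring
  have d0 : ∃ T, q = T ^ 2 := by
    refine sq_of_coprime_mul (B := (p - C e₁ * q) * (p - C e₂ * q) * (p - C e₃ * q)) (S := s') ?_ ?_
    · exact (((c0 _).symm).mul_right (c0 _).symm).mul_right (c0 _).symm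
    · rw [← hsq, hN]; ring
  obtain ⟨hp0, hq0d⟩ := descent (max p.natDegree q.natDegree) p q (le_max_left _ _)
    (le_max_right _ _) hcop ![0, 1, 1, 1] ![1, -e₁, -e₂, -e₃] (by
      intro i j hij
      fin_cases i <;> fin_cases j <;> simp at hij ⊢ <;> intro h
      · exact h12 (by first | linear_combination h | linear_combination -h)
      · exact h13 (by first | linear_combination h | linear_combination -h)
      · exact h12 (by first | linear_combination h | linear_combination -h)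
      · exact h23 (by first | linear_combination h | linear_combination -h)
      · exact h13 (by first | linear_combination h | linear_combination -h)
      · exact h23 (by first | linear_combination h | linear_combination -h)) (by
      intro i
      fin_cases i
      · simpa using d0
      · simpa [sub_eq_add_neg] using d1
      · simpa [sub_eq_add_neg] using d2
      · simpa [sub_eq_add_neg] using d3)
  obtain ⟨c, hc⟩ : ∃ c, p = C c := ⟨_, eq_C_of_natDegree_eq_zero hp0⟩
  obtain ⟨d, hd⟩ : ∃ c, q = C c := ⟨_, eq_C_of_natDegree_eq_zero hq0d⟩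
  have hd0 : d ≠ 0 := by
    rintro rfl
    apply hq0; rw [hd, C_0]
  refine ⟨c / d, ?_⟩
  rw [hr, hc, hd, RatFunc.algebraMap_C, RatFunc.algebraMap_C, ← map_div₀]

end Pool.Agent.LibBH2
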