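import Pool.Agent.LibBH2.Exist

/-!
The automorphism `s ↦ 1/s` of `k(s)` and the presentation of a double cover at infinity.
-/

open scoped Classical
open Polynomial

namespace Pool.Agent.LibBH2

variable {k : Type} [Field k]

theorem transcendental_X : Transcendental k (RatFunc.X : RatFunc k) := by
  rw [transcendental_iff_injective]
  have : (aeval (RatFunc.X : RatFunc k) : k[X] →ₐ[k] RatFunc k) =
      IsScalarTower.toAlgHom k k[X] (RatFunc k) := by
    apply Polynomial.algHom_ext
    simp [RatFunc.algebraMap_X]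
  rw [this]
  exact RatFunc.algebraMap_injective k

theorem transcendental_X_inv : Transcendental k (RatFunc.X⁻¹ : RatFunc k) := by
  intro h
  exact transcendental_X (IsAlgebraic.inv_iff.1 h)

/-- the automorphism `s ↦ 1 / s` -/
noncomputable def invHom : RatFunc k →ₐ[k] RatFunc k :=
  RatFunc.liftAlgHom (aeval (RatFunc.X⁻¹ : RatFunc k))
    (nonZeroDivisors_le_comap_nonZeroDivisors_of_injective _
      (transcendental_iff_injective.1 transcendental_X_inv))

theorem invHom_poly (P : k[X]) :
    invHom (algebraMap k[X] (RatFunc k) P) = aeval (RatFunc.X⁻¹ : RatFunc k) P := by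
  have := RatFunc.liftAlgHom_apply_div (aeval (RatFunc.X⁻¹ : RatFunc k))
    (nonZeroDivisors_le_comap_nonZeroDivisors_of_injective _
      (transcendental_iff_injective.1 transcendental_X_inv)) P 1
  simpa [invHom] using this

theorem invHom_X : invHom (RatFunc.X : RatFunc k) = RatFunc.X⁻¹ := by
  rw [← RatFunc.algebraMap_X, invHom_poly, aeval_X, RatFunc.algebraMap_X]

theorem invHom_invHom (r : RatFunc k) : invHom (invHom r) = r := by
  have h1 : ∀ P : k[X], invHom (invHom (algebraMap k[X] (RatFunc k) P)) =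
      algebraMap k[X] (RatFunc k) P := by
    intro P
    have h2 : (invHom.comp (invHom.comp (IsScalarTower.toAlgHom k k[X] (RatFunc k)))) =
        IsScalarTower.toAlgHom k k[X] (RatFunc k) := by
      apply Polynomial.algHom_ext
      simp only [AlgHom.comp_apply, IsScalarTower.coe_toAlgHom', RatFunc.algebraMap_X]
      rw [invHom_X, map_inv₀, invHom_X, inv_inv]
    exact DFunLike.congr_fun h2 P
  rw [← RatFunc.num_div_denom r, map_div₀, map_div₀, h1, h1]

variable {K : Type} [Field K] [Algebra k K]

/-- presentation of the same field with parameter `1 / s`: `w' = w / s ^ m`, where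
`F'(s) = s ^ (2 m) F(1 / s)`. -/
noncomputable def DC.atInf (D : DC k K) (m : ℕ) (F' : k[X])
    (hF' : aeval (RatFunc.X⁻¹ : RatFunc k) F' * RatFunc.X ^ (2 * m) =
      algebraMap k[X] (RatFunc k) D.F) : DC k K where
  ι := D.ι.comp invHom
  w := D.w / D.s ^ m
  F := F'
  hw := by
    have hs : D.s ≠ 0 := by
      have := D.s_sub_ne_zero 0
      simpa using this
    rw [AlgHom.comp_apply, invHom_poly, div_pow, div_eq_iff (pow_ne_zero _ (pow_ne_zero _ hs)),
      D.hw, ← hF', map_mul, map_pow, ← pow_mul, mul_comm m 2]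
    rfl
  gen := by
    intro g
    obtain ⟨a, b, rfl⟩ := D.gen g
    have hs : D.s ≠ 0 := by
      have := D.s_sub_ne_zero 0
      simpa using this
    refine ⟨invHom a, invHom (b * RatFunc.X ^ m), ?_⟩
    rw [AlgHom.comp_apply, AlgHom.comp_apply, invHom_invHom, invHom_invHom, map_mul, map_pow]
    have : D.ι RatFunc.X = D.s := rfl
    rw [this]
    field_simp

theorem DC.atInf_s (D : DC k K) (m : ℕ) (F' : k[X]) (hF') :
    (D.atInf m F' hF').s = D.s⁻¹ := by
  change D.ι (invHom RatFunc.X) = (D.ι RatFunc.X)⁻¹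
  rw [invHom_X, map_inv₀]

/-- the ring homomorphism `ι` is finite -/
theorem DC.finite (D : DC k K) : D.ι.toRingHom.Finite := by
  let _ := D.ι.toRingHom.toAlgebra
  change Module.Finite (RatFunc k) K
  refine ⟨⟨{1, D.w}, ?_⟩⟩
  rw [eq_top_iff]
  intro g _
  obtain ⟨a, b, rfl⟩ := D.gen g
  have h1 : D.ι a = a • (1 : K) := by rw [Algebra.smul_def, mul_one]; rfl
  have h2 : D.ι b * D.w = b • D.w := by rw [Algebra.smul_def]; rfl
  rw [h1, h2]
  apply Submodule.add_mem
  · exact Submodule.smul_mem _ _ (Submodule.subset_span (by simp))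
  · exact Submodule.smul_mem _ _ (Submodule.subset_span (by simp))

/-- the concrete quadratic field -/
noncomputable def DC.ofQuad (F : k[X]) [Fact (Irreducible (quadPoly F))] :
    DC k (AdjoinRoot (quadPoly F)) where
  ι := IsScalarTower.toAlgHom k (RatFunc k) (AdjoinRoot (quadPoly F))
  w := AdjoinRoot.root _
  F := F
  hw := by
    have h1 := AdjoinRoot.eval₂_root (quadPoly F)
    simp only [quadPoly, eval₂_sub, eval₂_pow, eval₂_X, eval₂_C, sub_eq_zero] at h1
    exact h1
  gen := by
    intro g
    obtain ⟨p, rfl⟩ := AdjoinRoot.mk_surjective g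
    have hm : (quadPoly F).Monic := monic_X_pow_sub_C _ two_ne_zero
    have h1 : AdjoinRoot.mk (quadPoly F) p = AdjoinRoot.mk (quadPoly F) (p %ₘ quadPoly F) := by
      rw [AdjoinRoot.mk_eq_mk]
      refine ⟨p /ₘ quadPoly F, ?_⟩
      rw [sub_eq_iff_eq_add, add_comm]
      exact (modByMonic_add_div p (quadPoly F)).symm
    have h2 : (p %ₘ quadPoly F).natDegree ≤ 1 := by
      have h3 := natDegree_modByMonic_lt p hm (by
        intro h
        have h4 := natDegree_X_pow_sub_C (R := RatFunc k) (n := 2)
          (r := algebraMap k[X] (RatFunc k) F)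
        rw [show (X ^ 2 - C (algebraMap k[X] (RatFunc k) F)) = quadPoly F from rfl, h] at h4
        simp at h4)
      rw [show (quadPoly F).natDegree = 2 from natDegree_X_pow_sub_C] at h3
      omega
    obtain ⟨a, b, hab⟩ := exists_eq_X_add_C_of_natDegree_le_one h2
    refine ⟨b, a, ?_⟩
    rw [h1, hab]
    simp only [map_add, map_mul, AdjoinRoot.mk_C, AdjoinRoot.mk_X]
    rw [add_comm]
    rfl

theorem not_isSquare_of_odd {F : k[X]} (hF : Odd F.natDegree) :
    ¬ IsSquare (algebraMap k[X] (RatFunc k) F) := by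
  rintro ⟨r, hr⟩
  have hF0 : F ≠ 0 := by rintro rfl; simp at hF
  have hr0 : r ≠ 0 := by
    rintro rfl
    rw [mul_zero] at hr
    exact hF0 (by simpa using hr)
  have h1 := congrArg RatFunc.intDegree hr
  rw [RatFunc.intDegree_polynomial, RatFunc.intDegree_mul hr0 hr0] at h1
  obtain ⟨m, hm⟩ := hF
  omega

/-- nonsquare transfers to the presentation at infinity -/
theorem DC.atInf_not_isSquare (D : DC k K) (m : ℕ) (F' : k[X]) (hF')
    (h : ¬ IsSquare (algebraMap k[X] (RatFunc k) D.F)) :
    ¬ IsSquare (algebraMap k[X] (RatFunc k) (D.atInf m F' hF').F) := by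
  rintro ⟨r, hr⟩
  apply h
  refine ⟨invHom r * RatFunc.X ^ m, ?_⟩
  have h1 : aeval (RatFunc.X⁻¹ : RatFunc k) F' = invHom r * invHom r := by
    rw [← map_mul, ← invHom_poly]
    exact congrArg invHom hr
  rw [← hF', h1]
  ring

end Pool.Agent.LibBH2
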