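import Pool.Agent.LibBH2.PolyDefs

/-!
Task B2: the values of a polynomial over the rationals which is not a constant times a square lie
in infinitely many square classes.
-/

open Polynomial

namespace Pool.Agent.LibBH2
namespace B2

/-- Schur's theorem: a nonconstant integer polynomial has values divisible by arbitrarily large
primes. -/
theorem schur (h : ℤ[X]) (hd : 0 < h.natDegree) (N : ℕ) :
    ∃ l : ℕ, l.Prime ∧ N < l ∧ ∃ n : ℤ, (l : ℤ) ∣ h.eval n := by
  by_cases h0 : h.eval 0 = 0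
  · obtain ⟨l, hl, hp⟩ := Nat.exists_infinite_primes (N + 1)
    exact ⟨l, hp, hl, 0, by simp [h0]⟩
  set a := h.eval 0 with ha
  have hne : (h - C a) * (h + C a) ≠ 0 := by
    apply mul_ne_zero
    · intro hh
      have : h = C a := sub_eq_zero.mp hh
      rw [this] at hd; simp at hd
    · intro hh
      have : h = C (-a) := by rw [C_neg]; exact eq_neg_of_add_eq_zero_left hh
      rw [this] at hd; simp at hd
  have hfin : {x : ℤ | ((h - C a) * (h + C a)).IsRoot x}.Finite :=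
    Polynomial.finite_setOfPred_isRoot hne
  have hN : (N.factorial : ℤ) ≠ 0 := by exact_mod_cast N.factorial_ne_zero
  have hinf : (Set.range fun m : ℕ => a * (N.factorial : ℤ) * m).Infinite := by
    apply Set.infinite_range_of_injective
    intro m m' hmm
    have := mul_left_cancel₀ (mul_ne_zero h0 hN) hmm
    exact_mod_cast this
  obtain ⟨y, ⟨m, hm⟩, hy⟩ := hinf.exists_notMem_finite hfin
  obtain ⟨g, hg⟩ : (y : ℤ) ∣ h.eval y - a := by simpa using sub_dvd_eval_sub y 0 h
  simp only at hm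
  have hval : h.eval y = a * (1 + N.factorial * (m * g)) := by
    have : h.eval y = a + y * g := by linarith
    rw [this, ← hm]; ring
  set w : ℤ := 1 + N.factorial * (m * g) with hw
  have hw1 : w.natAbs ≠ 1 := by
    intro hh
    apply hy
    simp only [Set.mem_ofPred_eq, IsRoot.def, eval_mul, eval_sub, eval_add, eval_C, hval]
    rcases Int.natAbs_eq w with h1 | h1 <;> rw [hh] at h1 <;> rw [h1] <;> push_cast <;> ring
  obtain ⟨p, hp, hpd⟩ := Nat.exists_prime_and_dvd hw1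
  have hpd' : (p : ℤ) ∣ w := Int.natCast_dvd.mpr hpd
  refine ⟨p, hp, ?_, y, hval ▸ Dvd.dvd.mul_left hpd' a⟩
  by_contra hle
  push Not at hle
  have h1 : (p : ℤ) ∣ N.factorial := by
    exact_mod_cast (hp.dvd_factorial).mpr hle
  have h2 : (p : ℤ) ∣ 1 := by
    have h3 : (p : ℤ) ∣ N.factorial * (m * g) := Dvd.dvd.mul_right h1 _
    have h4 := dvd_sub hpd' h3
    rw [hw] at h4
    simpa using h4
  have h5 : p ∣ 1 := by exact_mod_cast h2
  exact hp.one_lt.ne' (Nat.dvd_one.mp h5)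

/-- Clearing denominators. -/
theorem clear (P : ℚ[X]) : ∃ (c : ℤ) (h : ℤ[X]), c ≠ 0 ∧
    h.map (Int.castRingHom ℚ) = C (c : ℚ) * P := by
  obtain ⟨b, hbm, hb⟩ := IsLocalization.integerNormalization_spec (nonZeroDivisors ℤ) P
  refine ⟨b, IsLocalization.integerNormalization (nonZeroDivisors ℤ) P,
    nonZeroDivisors.ne_zero hbm, ?_⟩
  have : (Int.castRingHom ℚ) = algebraMap ℤ ℚ := rfl
  rw [this, hb]
  ext i
  simp [Algebra.smul_def]

/-- Every nonzero polynomial is a square times a squarefree polynomial. -/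
theorem sq_mul (n : ℕ) : ∀ P : ℚ[X], P ≠ 0 → P.natDegree = n →
    ∃ G H₀ : ℚ[X], P = G ^ 2 * H₀ ∧ Squarefree H₀ := by
  induction n using Nat.strong_induction_on with
  | _ n ih =>
    intro P hP hn
    by_cases hs : Squarefree P
    · exact ⟨1, P, by simp, hs⟩
    · unfold Squarefree at hs
      push Not at hs
      obtain ⟨x, ⟨y, hy⟩, hx⟩ := hs
      have hx0 : x ≠ 0 := by rintro rfl; apply hP; simp [hy]
      have hy0 : y ≠ 0 := by rintro rfl; apply hP; simp [hy]
      have hxd : 0 < x.natDegree := by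
        rcases Nat.eq_zero_or_pos x.natDegree with h | h
        · exfalso; apply hx
          rw [Polynomial.isUnit_iff_degree_eq_zero]
          rw [Polynomial.degree_eq_natDegree hx0, h]; rfl
        · exact h
      have hdeg : P.natDegree = x.natDegree + x.natDegree + y.natDegree := by
        rw [hy, natDegree_mul (mul_ne_zero hx0 hx0) hy0, natDegree_mul hx0 hx0]
      obtain ⟨G, H₀, h1, h2⟩ := ih y.natDegree (by omega) y hy0 rfl
      exact ⟨x * G, H₀, by rw [hy, h1]; ring, h2⟩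

/-- The squarefree part of a nonzero rational number. -/
theorem sqf_part (r : ℚ) (hr : r ≠ 0) : ∃ D : ℤ, Squarefree D ∧ IsSquare ((D : ℚ) * r) := by
  have hnum : r.num ≠ 0 := Rat.num_ne_zero.mpr hr
  have hden : r.den ≠ 0 := r.den_ne_zero
  obtain ⟨a, b, hab, hsf⟩ := Nat.sq_mul_squarefree (r.num.natAbs * r.den)
  have hsgn : ((r.num.sign : ℤ) : ℚ) * r.num = (r.num.natAbs : ℚ) := by
    have := Int.sign_mul_self_eq_abs r.num
    have h2 : ((r.num.sign * r.num : ℤ) : ℚ) = ((|r.num| : ℤ) : ℚ) := by rw [this]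
    push_cast at h2
    rw [h2]
    rw [Nat.cast_natAbs]; push_cast; rfl
  have hsu : IsUnit r.num.sign := by
    rcases lt_trichotomy r.num 0 with h | h | h
    · rw [Int.sign_eq_neg_one_of_neg h]; exact isUnit_one.neg
    · exact absurd h hnum
    · rw [Int.sign_eq_one_of_pos h]; exact isUnit_one
  refine ⟨r.num.sign * a, ?_, (a * b / r.den : ℚ), ?_⟩
  · rw [← Int.squarefree_natAbs, Int.natAbs_mul, Int.isUnit_iff_natAbs_eq.mp hsu, one_mul,
      Int.natAbs_natCast]
    exact hsf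
  · have h1 : (b : ℚ) ^ 2 * a = r.num.natAbs * r.den := by exact_mod_cast hab
    have hd : (r.den : ℚ) ≠ 0 := by exact_mod_cast hden
    have h3 : r = r.num / r.den := (Rat.num_div_den r).symm
    push_cast
    have h4 : (r.num.sign : ℚ) * a * r =
        a * ((r.num.sign : ℚ) * r.num) / r.den := by
      conv_lhs => rw [show (r.num.sign : ℚ) * a * r = (a * (r.num.sign : ℚ)) * r by ring]
      have h5 : (a * (r.num.sign : ℚ)) * r = (a * (r.num.sign : ℚ)) * (r.num / r.den) :=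
        congrArg _ h3
      rw [h5]; ring
    rw [h4, hsgn]
    field_simp
    linear_combination (-(a : ℚ)) * h1

/-- If `l` is a prime not dividing `c`, `l` divides `v` exactly once and
`D * c * v` is a rational square, then `l` divides `D`. -/
theorem dvd_of_square (l : ℕ) (hl : l.Prime) (D c v : ℤ) (hc : ¬ (l : ℤ) ∣ c)
    (hv : (l : ℤ) ∣ v) (hv2 : ¬ (l : ℤ) ^ 2 ∣ v) (hsq : IsSquare (((D * c * v : ℤ)) : ℚ)) :
    (l : ℤ) ∣ D := by
  by_contra hlD
  have hlp : Prime (l : ℤ) := Nat.prime_iff_prime_int.mp hl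
  rw [Rat.isSquare_intCast_iff] at hsq
  obtain ⟨r, hr⟩ := hsq
  obtain ⟨w, hw⟩ := hv
  have h1 : (l : ℤ) ∣ r * r := by rw [← hr, hw]; exact ⟨D * c * w, by ring⟩
  have h2 : (l : ℤ) ∣ r := by rcases hlp.dvd_or_dvd h1 with h | h <;> exact h
  obtain ⟨s, hs⟩ := h2
  have hl0 : (l : ℤ) ≠ 0 := hlp.ne_zero
  have h3 : D * c * w = l * s * s := by
    apply mul_left_cancel₀ hl0
    rw [hw, hs] at hr
    linarith
  have h4 : (l : ℤ) ∣ D * c * w := by rw [h3]; exact ⟨s * s, by ring⟩
  rcases hlp.dvd_or_dvd h4 with h | h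
  · rcases hlp.dvd_or_dvd h with h | h
    · exact hlD h
    · exact hc h
  · obtain ⟨z, hz⟩ := h
    exact hv2 ⟨z, by rw [hw, hz]; ring⟩

theorem main (H : ℚ[X]) (hH : ∀ (κ : ℚ) (G : ℚ[X]), H ≠ C κ * G ^ 2) (n₀ N : ℕ) :
    ∃ l : ℕ, l.Prime ∧ N < l ∧ ∃ n : ℕ, n₀ ≤ n ∧ H.eval (n : ℚ) ≠ 0 ∧
      ∀ D : ℤ, D ≠ 0 → IsSquare ((D : ℚ) * H.eval (n : ℚ)) → (l : ℤ) ∣ D := by
  have hH0 : H ≠ 0 := by intro h; exact hH 0 1 (by simp [h])
  obtain ⟨G, H₀, hGH, hsf⟩ := sq_mul _ H hH0 rfl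
  have hG0 : G ≠ 0 := by rintro rfl; apply hH0; simp [hGH]
  have hH00 : H₀ ≠ 0 := hsf.ne_zero
  have hdeg : 0 < H₀.natDegree := by
    rcases Nat.eq_zero_or_pos H₀.natDegree with h | h
    · exfalso
      apply hH (H₀.coeff 0) G
      rw [hGH, ← eq_C_of_natDegree_eq_zero h, mul_comm]
    · exact h
  have hsep : H₀.Separable := PerfectField.separable_iff_squarefree.mpr hsf
  obtain ⟨a, b, hab⟩ := hsep
  obtain ⟨c, h, hc, hh⟩ := clear H₀
  obtain ⟨e, A, he, hA⟩ := clear a
  obtain ⟨f, B, hf, hB⟩ := clear b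
  have hinj : Function.Injective (Polynomial.map (Int.castRingHom ℚ)) :=
    Polynomial.map_injective _ Int.cast_injective
  have hbez : (C f * A) * h + (C e * B) * derivative h = C (e * f * c) := by
    apply hinj
    rw [Polynomial.map_add, Polynomial.map_mul, Polynomial.map_mul, Polynomial.map_mul,
      Polynomial.map_mul, ← derivative_map, hh, hA, hB, Polynomial.map_C, Polynomial.map_C,
      Polynomial.map_C, derivative_C_mul]
    simp only [eq_intCast, Int.cast_mul, C_mul]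
    linear_combination (C (e : ℚ) * C (f : ℚ) * C (c : ℚ)) * hab
  have hhd : 0 < h.natDegree := by
    have h1 : (h.map (Int.castRingHom ℚ)).natDegree = h.natDegree :=
      natDegree_map_eq_of_injective Int.cast_injective h
    rw [← h1, hh, natDegree_C_mul (by exact_mod_cast hc)]
    exact hdeg
  obtain ⟨l, hl, hlN, m, hm⟩ := schur h hhd (max N (e * f * c).natAbs)
  have hefc : e * f * c ≠ 0 := mul_ne_zero (mul_ne_zero he hf) hc
  have hlp : Prime (l : ℤ) := Nat.prime_iff_prime_int.mp hl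
  have hlefc : ¬ (l : ℤ) ∣ e * f * c := by
    intro hd
    have h1 := Int.natAbs_dvd_natAbs.mpr hd
    rw [Int.natAbs_natCast] at h1
    have h2 := Nat.le_of_dvd (Int.natAbs_pos.mpr hefc) h1
    have h3 := le_max_right N (e * f * c).natAbs
    omega
  have hlc : ¬ (l : ℤ) ∣ c := fun hd => hlefc (Dvd.dvd.mul_left hd _)
  -- roots of `H`
  have hfin : {x : ℚ | H.IsRoot x}.Finite := Polynomial.finite_setOfPred_isRoot hH0
  obtain ⟨M, hM⟩ : ∃ M : ℕ, ∀ n : ℕ, M ≤ n → H.eval (n : ℚ) ≠ 0 := by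
    have hfin' : {n : ℕ | H.IsRoot (n : ℚ)}.Finite :=
      Set.Finite.preimage (fun x _ y _ hxy => by exact_mod_cast hxy) hfin
    obtain ⟨M, hM⟩ := hfin'.bddAbove
    refine ⟨M + 1, fun n hn h0 => ?_⟩
    have := hM (show n ∈ {n : ℕ | H.IsRoot (n : ℚ)} from h0)
    omega
  -- a large solution of the congruence
  set k : ℤ := |m| + n₀ + M with hk
  set y : ℤ := m + l * k with hy
  have hk0 : 0 ≤ k := by positivity
  have hl1 : (1 : ℤ) ≤ l := by exact_mod_cast hl.one_lt.le
  have hyb : (n₀ : ℤ) + M ≤ y := by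
    have h1 : k ≤ l * k := by nlinarith
    have h2 : -|m| ≤ m := neg_abs_le m
    rw [hy]
    linarith
  have hyd : (l : ℤ) ∣ h.eval y := by
    have h1 : y - m ∣ h.eval y - h.eval m := sub_dvd_eval_sub y m h
    have h2 : (l : ℤ) ∣ y - m := ⟨k, by rw [hy]; ring⟩
    have h3 := dvd_add (h2.trans h1) hm
    simpa using h3
  -- choose the multiplicity
  obtain ⟨z, hz, hzd, hzd2⟩ : ∃ z : ℤ, (n₀ : ℤ) + M ≤ z ∧ (l : ℤ) ∣ h.eval z ∧
      ¬ (l : ℤ) ^ 2 ∣ h.eval z := by
    by_cases h2 : (l : ℤ) ^ 2 ∣ h.eval y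
    · refine ⟨y + l, by linarith, ?_, ?_⟩
      · have h1 : (y + l) - y ∣ h.eval (y + l) - h.eval y := sub_dvd_eval_sub _ _ h
        have h3 : (l : ℤ) ∣ (y + l) - y := ⟨1, by ring⟩
        have h4 := dvd_add (h3.trans h1) hyd
        simpa using h4
      · intro h3
        obtain ⟨t, ht⟩ := Polynomial.binomExpansion h y (l : ℤ)
        have h4 : (l : ℤ) ^ 2 ∣ (derivative h).eval y * l := by
          have h5 : (derivative h).eval y * l = h.eval (y + l) - h.eval y - t * (l : ℤ) ^ 2 := by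
            rw [ht]; ring
          rw [h5]
          exact dvd_sub (dvd_sub h3 h2) (Dvd.intro_left t rfl)
        have h5 : (l : ℤ) ∣ (derivative h).eval y := by
          obtain ⟨s, hs⟩ := h4
          refine ⟨s, ?_⟩
          apply mul_right_cancel₀ hlp.ne_zero
          rw [hs]; ring
        apply hlefc
        have h6 := congrArg (Polynomial.eval y) hbez
        simp only [eval_add, eval_mul, eval_C] at h6
        rw [← h6]
        exact dvd_add (Dvd.dvd.mul_left hyd _) (Dvd.dvd.mul_left h5 _)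
    · exact ⟨y, hyb, hyd, h2⟩
  have hz0 : 0 ≤ z := by
    have : (0 : ℤ) ≤ (n₀ : ℤ) + M := by positivity
    linarith
  obtain ⟨n, rfl⟩ := Int.eq_ofNat_of_zero_le hz0
  have hn1 : n₀ ≤ n := by
    have : (n₀ : ℤ) ≤ n := by
      have : (0 : ℤ) ≤ (M : ℤ) := by positivity
      linarith
    exact_mod_cast this
  have hn2 : M ≤ n := by
    have : (M : ℤ) ≤ n := by
      have : (0 : ℤ) ≤ (n₀ : ℤ) := by positivity
      linarith
    exact_mod_cast this
  have hHn := hM n hn2
  refine ⟨l, hl, lt_of_le_of_lt (le_max_left _ _) hlN, n, hn1, hHn, fun D hD hsq => ?_⟩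
  apply dvd_of_square l hl D c (h.eval (n : ℤ)) hlc hzd hzd2
  have hev : ((h.eval (n : ℤ) : ℤ) : ℚ) = c * H₀.eval (n : ℚ) := by
    have h1 := congrArg (Polynomial.eval (n : ℚ)) hh
    rw [eval_mul, eval_C] at h1
    rw [← h1]
    have h2 := Polynomial.eval_intCast_map (Int.castRingHom ℚ) h (n : ℤ)
    simp only [eq_intCast, Int.cast_natCast] at h2
    exact h2.symm
  have hGn : G.eval (n : ℚ) ≠ 0 := by
    intro h0
    apply hHn
    rw [hGH, eval_mul, eval_pow, h0]; simp
  obtain ⟨r, hr⟩ := hsq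
  rw [hGH, eval_mul, eval_pow] at hr
  refine ⟨c * r / G.eval (n : ℚ), ?_⟩
  have hfin : ((c : ℚ) * r / G.eval (n : ℚ)) * (c * r / G.eval (n : ℚ)) =
      c ^ 2 * (r * r) / G.eval (n : ℚ) ^ 2 := by ring
  rw [hfin, ← hr]
  push_cast
  rw [hev, eq_div_iff (pow_ne_zero 2 hGn)]
  ring

end B2

theorem b2 : TaskB2 := by
  intro H hH n₀
  by_contra hfin
  rw [Set.not_infinite] at hfin
  set P : ℤ := ∏ D ∈ hfin.toFinset, D with hP
  have hP0 : P ≠ 0 := by
    rw [hP, Finset.prod_ne_zero_iff]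
    intro D hD
    have := (hfin.mem_toFinset.mp hD).1
    exact this.ne_zero
  obtain ⟨l, hl, hlN, n, hn, hne, hdiv⟩ := B2.main H hH n₀ P.natAbs
  obtain ⟨D, hD, hDsq⟩ := B2.sqf_part _ hne
  have h1 := hdiv D hD.ne_zero hDsq
  have hmem : D ∈ hfin.toFinset := hfin.mem_toFinset.mpr ⟨hD, n, hn, hne, hDsq⟩
  have h2 : (l : ℤ) ∣ P := h1.trans (Finset.dvd_prod_of_mem _ hmem)
  have h3 := Int.natAbs_dvd_natAbs.mpr h2
  rw [Int.natAbs_natCast] at h3
  have h4 := Nat.le_of_dvd (Int.natAbs_pos.mpr hP0) h3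
  omega

end Pool.Agent.LibBH2
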