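import Pool.Agent.LibBH2.TwTools

/-!
Theorem B: for infinitely many squarefree `D` the twists of `y² = x³ + a x + b` and
`y² = x³ + c x + d` by `D` have points `P`, `Q` of infinite order with `2 z(P, Q) = 0`.
-/

set_option autoImplicit false

open Height WeierstrassCurve Polynomial
open scoped Classical

namespace Pool.Agent.LibBH2

namespace Bf

section general
variable {k : Type} [Field k] (a b c d : k)

/-- numerator of `x₁` -/
noncomputable def num : k[X] := C d - C b * X ^ 6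

/-- denominator of `x₁` -/
noncomputable def den : k[X] := X ^ 2 * (C a * X ^ 4 - C c)

theorem num_eval (t : k) : (num b d).eval t = d - b * t ^ 6 := by simp [num]

theorem den_eval (t : k) : (den a c).eval t = t ^ 2 * (a * t ^ 4 - c) := by simp [den]

theorem den_ne (hac : ¬ (a = 0 ∧ c = 0)) : den a c ≠ 0 := by
  intro h
  have h1 : (den a c) = C a * X ^ 6 - C c * X ^ 2 := by rw [den]; ring
  rw [h1] at h
  apply hac
  constructor
  · have := congrArg (fun p => coeff p 6) h
    simpa [coeff_X_pow] using this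
  · have := congrArg (fun p => coeff p 2) h
    simpa [coeff_X_pow] using this

theorem nonconst (hcd : 4 * c ^ 3 + 27 * d ^ 2 ≠ 0) (hbd : ¬ (b = 0 ∧ d = 0)) (v : k) :
    num b d - C v * den a c ≠ 0 := by
  intro h
  have h1 : num b d - C v * den a c = C d - C b * X ^ 6 - C (v * a) * X ^ 6 + C (v * c) * X ^ 2 := by
    rw [num, den, C_mul, C_mul]; ring
  rw [h1] at h
  have e0 : d = 0 := by
    have := congrArg (fun p => coeff p 0) h
    simpa [coeff_X_pow] using this
  have e2 : v * c = 0 := by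
    have := congrArg (fun p => coeff p 2) h
    generalize v * c = u at this ⊢
    generalize v * a = u' at this ⊢
    simpa [coeff_X_pow, coeff_C] using this
  have e6 : b = - (v * a) := by
    have := congrArg (fun p => coeff p 6) h
    generalize v * c = u at this ⊢
    generalize v * a = u' at this ⊢
    simp [coeff_X_pow, coeff_C] at this
    linear_combination -this
  rw [mul_eq_zero] at e2
  rcases e2 with e2 | e2
  · apply hbd
    rw [e6, e2]
    exact ⟨by ring, e0⟩
  · apply hcd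
    rw [e2, e0]; ring

theorem nonconst2 (hab : 4 * a ^ 3 + 27 * b ^ 2 ≠ 0) (hbd : ¬ (b = 0 ∧ d = 0)) (v : k) :
    X ^ 2 * num b d - C v * den a c ≠ 0 := by
  intro h
  have h1 : X ^ 2 * num b d - C v * den a c =
      C (d + v * c) * X ^ 2 - C b * X ^ 8 - C (v * a) * X ^ 6 := by
    rw [num, den, C_add, C_mul, C_mul]; ring
  rw [h1] at h
  have e8 : b = 0 := by
    have := congrArg (fun p => coeff p 8) h
    generalize d + v * c = u at this ⊢
    generalize v * a = u' at this ⊢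
    simpa [coeff_X_pow] using this
  have e6 : v * a = 0 := by
    have := congrArg (fun p => coeff p 6) h
    generalize d + v * c = u at this ⊢
    generalize v * a = u' at this ⊢
    simpa [coeff_X_pow] using this
  have e2 : d + v * c = 0 := by
    have := congrArg (fun p => coeff p 2) h
    generalize d + v * c = u at this ⊢
    generalize v * a = u' at this ⊢
    simpa [coeff_X_pow] using this
  rw [mul_eq_zero] at e6
  rcases e6 with e6 | e6
  · apply hbd
    rw [e6] at e2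
    exact ⟨e8, by linear_combination e2⟩
  · apply hab
    rw [e8, e6]; ring

/-- `H = den ^ 4 * f (num / den)` -/
noncomputable def HH : k[X] :=
  den a c * (num b d ^ 3 + C a * num b d * den a c ^ 2 + C b * den a c ^ 3)

theorem HH_eval (t : k) : (HH a b c d).eval t = (den a c).eval t *
    ((num b d).eval t ^ 3 + a * (num b d).eval t * (den a c).eval t ^ 2 +
      b * (den a c).eval t ^ 3) := by
  simp [HH]

theorem not_sq_alg [IsAlgClosed k] [CharZero k] (hb1 : TaskB1)
    (hab : 4 * a ^ 3 + 27 * b ^ 2 ≠ 0) (hcd : 4 * c ^ 3 + 27 * d ^ 2 ≠ 0)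
    (hac : ¬ (a = 0 ∧ c = 0)) (hbd : ¬ (b = 0 ∧ d = 0)) (κ : k) (G : k[X]) :
    HH a b c d ≠ C κ * G ^ 2 := by
  intro h
  obtain ⟨m, hm⟩ := IsAlgClosed.exists_pow_nat_eq κ (n := 2) (by norm_num)
  have hden : (algebraMap k[X] (RatFunc k) (den a c)) ≠ 0 := by
    rw [Ne, FaithfulSMul.algebraMap_eq_zero_iff]
    exact den_ne a c hac
  set N : RatFunc k := algebraMap k[X] (RatFunc k) (num b d) with hN
  set M : RatFunc k := algebraMap k[X] (RatFunc k) (den a c) with hM
  have h2 : M * (N ^ 3 + RatFunc.C a * N * M ^ 2 + RatFunc.C b * M ^ 3) =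
      (RatFunc.C m * algebraMap k[X] (RatFunc k) G) ^ 2 := by
    have := congrArg (algebraMap k[X] (RatFunc k)) h
    rw [HH, ← hm] at this
    simp only [map_mul, map_add, map_pow, RatFunc.algebraMap_C] at this
    rw [← hN, ← hM] at this
    rw [this]; ring
  obtain ⟨v, hv⟩ := hb1 k a b hab (N / M) (RatFunc.C m * algebraMap k[X] (RatFunc k) G / M ^ 2) (by
    rw [div_pow, ← h2]
    field_simp)
  have h3 : N = RatFunc.C v * M := by
    rw [← hv]; field_simp
  have h4 : num b d = C v * den a c := by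
    apply FaithfulSMul.algebraMap_injective k[X] (RatFunc k)
    rw [map_mul, RatFunc.algebraMap_C]
    exact h3
  exact nonconst a b c d hcd hbd v (by rw [h4, sub_self])

end general

theorem map_HH (a b c d : ℚ) : (HH a b c d).map (algebraMap ℚ Qb) =
    HH (algebraMap ℚ Qb a) (algebraMap ℚ Qb b) (algebraMap ℚ Qb c) (algebraMap ℚ Qb d) := by
  simp only [HH, num, den, Polynomial.map_mul, Polynomial.map_add, Polynomial.map_sub,
    Polynomial.map_pow, Polynomial.map_X, Polynomial.map_C]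

theorem inj0 {x : ℚ} : algebraMap ℚ Qb x = 0 ↔ x = 0 :=
  map_eq_zero_iff _ (algebraMap ℚ Qb).injective

theorem disc_map {a b : ℚ} (h : 4 * a ^ 3 + 27 * b ^ 2 ≠ 0) :
    4 * (algebraMap ℚ Qb a) ^ 3 + 27 * (algebraMap ℚ Qb b) ^ 2 ≠ 0 := by
  intro h'
  apply h
  rw [← inj0]
  simpa using h'

/-- `HH a b c d` is not a constant times a square -/
theorem not_sq (hb1 : TaskB1) (a b c d : ℚ)
    (hab : 4 * a ^ 3 + 27 * b ^ 2 ≠ 0) (hcd : 4 * c ^ 3 + 27 * d ^ 2 ≠ 0)
    (hac : ¬ (a = 0 ∧ c = 0)) (hbd : ¬ (b = 0 ∧ d = 0)) (κ : ℚ) (G : ℚ[X]) :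
    HH a b c d ≠ C κ * G ^ 2 := by
  intro h
  have h1 := congrArg (Polynomial.map (algebraMap ℚ Qb)) h
  rw [map_HH, Polynomial.map_mul, Polynomial.map_C, Polynomial.map_pow] at h1
  refine not_sq_alg _ _ _ _ hb1 (disc_map hab) (disc_map hcd) ?_ ?_ _ _ h1
  · rw [inj0, inj0]; exact hac
  · rw [inj0, inj0]; exact hbd

theorem tw_bc (a b D : ℚ) : (tw a b D)⁄Qb =
    ⟨0, 0, 0, algebraMap ℚ Qb (a * D ^ 2), algebraMap ℚ Qb (b * D ^ 3)⟩ := by
  simp [tw, WeierstrassCurve.baseChange, WeierstrassCurve.map]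

/-- the two points for one `D`, with their relation -/
theorem points (hkw : TaskKW) (a b c d : ℚ)
    (hab : 4 * a ^ 3 + 27 * b ^ 2 ≠ 0) (hcd : 4 * c ^ 3 + 27 * d ^ 2 ≠ 0)
    (hac : ¬ (a = 0 ∧ c = 0)) (hbd : ¬ (b = 0 ∧ d = 0)) (D t z : ℚ) (hD : D ≠ 0)
    (hH : (HH a b c d).eval t ≠ 0) (hz : D * (HH a b c d).eval t = z * z) :
    t ≠ 0 ∧ (den a c).eval t ≠ 0 ∧ ∃ (x y : ℚ) (h : (tw a b D).toAffine.Nonsingular x y)
      (h' : (tw c d D).toAffine.Nonsingular (t ^ 2 * x) (t ^ 3 * y)),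
      x = D * ((num b d).eval t / (den a c).eval t) ∧ y ≠ 0 ∧
      2 • (zc (constPt Qb (Affine.Point.some x y h))
        (constPt Qb (Affine.Point.some (t ^ 2 * x) (t ^ 3 * y) h')) :
        CH0 ((tw a b D)⁄Qb) ((tw c d D)⁄Qb)) = 0 := by
  rw [HH_eval] at hH hz
  have hden : (den a c).eval t ≠ 0 := left_ne_zero_of_mul hH
  have hden' := hden
  rw [den_eval] at hden'
  have ht : t ≠ 0 := by
    rintro rfl
    apply hden'; ring
  have hac' : a * t ^ 4 - c ≠ 0 := right_ne_zero_of_mul hden'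
  set N := (num b d).eval t with hN
  set M := (den a c).eval t with hM
  have hz0 : z ≠ 0 := by
    rintro rfl
    rw [mul_zero] at hz
    exact (mul_ne_zero hD hH) hz
  have hsq : (z / M ^ 2) ^ 2 = D * ((N / M) ^ 3 + a * (N / M) + b) := by
    have : (z / M ^ 2) ^ 2 = z * z / M ^ 4 := by
      field_simp
    rw [this, ← hz]
    field_simp
  have hrel : t ^ 2 * (a * t ^ 4 - c) * (N / M) = d - b * t ^ 6 := by
    have h1 : M = t ^ 2 * (a * t ^ 4 - c) := den_eval a c t
    have h2 : N = d - b * t ^ 6 := num_eval b d t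
    rw [← h1, ← h2]
    field_simp
  have h1 : (tw a b D).toAffine.Nonsingular (D * (N / M)) (D * (z / M ^ 2)) :=
    short_nons (tw_disc hab hD) (by linear_combination D ^ 2 * hsq)
  have h2 : (tw c d D).toAffine.Nonsingular (t ^ 2 * (D * (N / M))) (t ^ 3 * (D * (z / M ^ 2))) :=
    short_nons (tw_disc hcd hD) (by
      linear_combination t ^ 6 * D ^ 2 * hsq + D ^ 3 * hrel)
  refine ⟨ht, hden, _, _, h1, h2, rfl, mul_ne_zero hD (div_ne_zero hz0 (pow_ne_zero _ hden)), ?_⟩
  refine kw_free hkw _ _ _ _ _ _ (tw_bc a b D) (tw_bc c d D) (disc_map (tw_disc hab hD))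
    (disc_map (tw_disc hcd hD)) ?_ ?_ (algebraMap ℚ Qb t) _ _ _ _ _ _ ?_ ?_ ?_ ?_
  · rw [inj0, inj0]
    rintro ⟨h3, h4⟩
    exact hac ⟨by simpa [hD] using h3, by simpa [hD] using h4⟩
  · rw [inj0, inj0]
    rintro ⟨h3, h4⟩
    exact hbd ⟨by simpa [hD] using h3, by simpa [hD] using h4⟩
  · rw [map_mul, map_pow]
  · rw [map_mul, map_pow]
  · rw [Ne, inj0]; exact ht
  · rw [← map_pow, ← map_mul, Ne, (algebraMap ℚ Qb).injective.eq_iff]
    intro h3
    have h4 : D ^ 2 * (a * t ^ 4 - c) = 0 := by linear_combination h3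
    exact (mul_ne_zero (pow_ne_zero _ hD) hac') h4

end Bf

open Bf in
theorem bf (hkw : TaskKW) (hb1 : TaskB1) (hb2 : TaskB2) (ht4 : TaskT4) (hs1 : TaskS1) :
    TaskBf := by
  intro a b c d hab hcd hac hbd
  obtain ⟨n₁, hn₁⟩ := eventually_nontorsion ht4 hs1 a b hab (num b d) (den a c)
    (nonconst a b c d hcd hbd)
  obtain ⟨n₂, hn₂⟩ := eventually_nontorsion ht4 hs1 c d hcd (X ^ 2 * num b d) (den a c)
    (nonconst2 a b c d hab hbd)
  refine (hb2 (HH a b c d) (not_sq hb1 a b c d hab hcd hac hbd) (max n₁ n₂)).mono ?_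
  rintro D ⟨hDs, n, hn, hH, z, hz⟩
  have hD : (D : ℚ) ≠ 0 := Int.cast_ne_zero.2 hDs.ne_zero
  obtain ⟨-, hden, x, y, h, h', hx, -, hzc⟩ := points hkw a b c d hab hcd hac hbd D n z hD hH hz
  refine ⟨hDs, _, _, ?_, ?_, hzc⟩
  · exact hn₁ n ((le_max_left _ _).trans hn) hden D hD x y h hx
  · refine hn₂ n ((le_max_right _ _).trans hn) hden D hD _ _ h' ?_
    rw [hx, eval_mul, eval_pow, eval_X]
    ring

end Pool.Agent.LibBH2
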