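import Pool.Agent.LibBH2.Rel

/-!
Bilinearity of `zc`.
-/

open scoped Classical
open Polynomial WeierstrassCurve

namespace Pool.Agent.LibBH2

variable {k : Type} [Field k] [CharZero k] [IsAlgClosed k]
variable {W₁ W₂ : WeierstrassCurve k} [W₁.IsElliptic] [W₂.IsElliptic]

omit [IsAlgClosed k] [W₂.IsElliptic] in
/-- the inclusion `P ↦ (P, Q)` -/
noncomputable def morL (W₁ : WeierstrassCurve k) [W₁.IsElliptic] {W₂ : WeierstrassCurve k}
    (Q : W₂.toAffine.Point) : Mor W₁ W₁ W₂ where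
  T₁ := genPt W₁
  T₂ := constPt _ Q
  j₁ := id
  j₂ := fun _ => Q
  spec v _ h := ⟨h, spec_const v Q⟩

omit [IsAlgClosed k] [W₁.IsElliptic] in
/-- the inclusion `Q ↦ (P, Q)` -/
noncomputable def morR (W₂ : WeierstrassCurve k) [W₂.IsElliptic] {W₁ : WeierstrassCurve k}
    (P : W₁.toAffine.Point) : Mor W₂ W₁ W₂ where
  T₁ := constPt _ P
  T₂ := genPt W₂
  j₁ := fun _ => P
  j₂ := id
  spec v _ h := ⟨spec_const v P, h⟩

omit [W₂.IsElliptic] in
theorem pt_add_left (P P' : W₁.toAffine.Point) (Q : W₂.toAffine.Point) :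
    (pt (P + P') Q : CH0 W₁ W₂) + pt 0 Q = pt P Q + pt P' Q :=
  (morL W₁ Q).add P P'

omit [W₁.IsElliptic] in
theorem pt_add_right (P : W₁.toAffine.Point) (Q Q' : W₂.toAffine.Point) :
    (pt P (Q + Q') : CH0 W₁ W₂) + pt P 0 = pt P Q + pt P Q' :=
  (morR W₂ P).add Q Q'

omit [W₂.IsElliptic] in
theorem zc_add_left (P P' : W₁.toAffine.Point) (Q : W₂.toAffine.Point) :
    (zc (P + P') Q : CH0 W₁ W₂) = zc P Q + zc P' Q := by
  have h1 := pt_add_left P P' Q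
  have h2 := pt_add_left P P' (0 : W₂.toAffine.Point)
  rw [← eq_sub_iff_add_eq] at h1 h2
  unfold zc
  rw [h1, h2]
  abel

omit [W₁.IsElliptic] in
theorem zc_add_right (P : W₁.toAffine.Point) (Q Q' : W₂.toAffine.Point) :
    (zc P (Q + Q') : CH0 W₁ W₂) = zc P Q + zc P Q' := by
  have h1 := pt_add_right P Q Q'
  have h2 := pt_add_right (0 : W₁.toAffine.Point) Q Q'
  rw [← eq_sub_iff_add_eq] at h1 h2
  unfold zc
  rw [h1, h2]
  abel

/-- `z` as a bilinear map -/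
noncomputable def zHom (W₁ W₂ : WeierstrassCurve k) [W₁.IsElliptic] [W₂.IsElliptic] :
    W₁.toAffine.Point →+ W₂.toAffine.Point →+ CH0 W₁ W₂ :=
  AddMonoidHom.mk' (fun P => AddMonoidHom.mk' (fun Q => zc P Q) (zc_add_right P))
    (fun P P' => by ext Q; exact zc_add_left P P' Q)

theorem zHom_apply (P : W₁.toAffine.Point) (Q : W₂.toAffine.Point) :
    zHom W₁ W₂ P Q = zc P Q := rfl

theorem zc_nsmul_left (n : ℕ) (P : W₁.toAffine.Point) (Q : W₂.toAffine.Point) :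
    (zc (n • P) Q : CH0 W₁ W₂) = n • zc P Q := by
  exact DFunLike.congr_fun (map_nsmul (zHom W₁ W₂) n P) Q

theorem zc_nsmul_right (n : ℕ) (P : W₁.toAffine.Point) (Q : W₂.toAffine.Point) :
    (zc P (n • Q) : CH0 W₁ W₂) = n • zc P Q :=
  map_nsmul (zHom W₁ W₂ P) n Q

theorem zc_neg_left (P : W₁.toAffine.Point) (Q : W₂.toAffine.Point) :
    (zc (-P) Q : CH0 W₁ W₂) = - zc P Q := by
  exact DFunLike.congr_fun (map_neg (zHom W₁ W₂) P) Q

theorem zc_neg_right (P : W₁.toAffine.Point) (Q : W₂.toAffine.Point) :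
    (zc P (-Q) : CH0 W₁ W₂) = - zc P Q :=
  map_neg (zHom W₁ W₂ P) Q

theorem pt_neg_left (P : W₁.toAffine.Point) (Q : W₂.toAffine.Point) :
    (pt P Q : CH0 W₁ W₂) + pt (-P) Q = pt 0 Q + pt 0 Q := (morL W₁ Q).vert P

theorem pt_neg_right (P : W₁.toAffine.Point) (Q : W₂.toAffine.Point) :
    (pt P Q : CH0 W₁ W₂) + pt P (-Q) = pt P 0 + pt P 0 := (morR W₂ P).vert Q

/-- if `[(P,Q)] + [(-P,-Q)] = 2[(O,O)]` then `2 z(P,Q) = 0` -/
theorem two_zc_of (P : W₁.toAffine.Point) (Q : W₂.toAffine.Point)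
    (h : (pt P Q : CH0 W₁ W₂) + pt (-P) (-Q) = pt 0 0 + pt 0 0) :
    2 • (zc P Q : CH0 W₁ W₂) = 0 := by
  have h1 : (zc (-P) (-Q) : CH0 W₁ W₂) = zc P Q := by
    rw [zc_neg_left, zc_neg_right, neg_neg]
  have h2 : 2 • (zc P Q : CH0 W₁ W₂) = zc P Q + zc (-P) (-Q) := by rw [h1, two_nsmul]
  rw [h2]
  have h3 := pt_neg_left P (0 : W₂.toAffine.Point)
  have h4 := pt_neg_right (0 : W₁.toAffine.Point) Q
  unfold zc
  have h5 : (pt P Q - pt P 0 - pt 0 Q + pt 0 0 + (pt (-P) (-Q) - pt (-P) 0 - pt 0 (-Q) + pt 0 0) :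
      CH0 W₁ W₂) = (pt P Q + pt (-P) (-Q)) - (pt P 0 + pt (-P) 0) - (pt 0 Q + pt 0 (-Q))
      + (pt 0 0 + pt 0 0) := by abel
  rw [h5, h, h3, h4]
  abel

end Pool.Agent.LibBH2
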