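import Pool.Agent.LibBH2.PolyDefs

/-!
Task C1: the two obvious points of `fam t u v` are independent for many `t`.
-/

open WeierstrassCurve
open scoped Classical

namespace Pool.Agent.LibBH2.C1

/-- two elements of a group without 2-torsion are independent if none of `P`, `Q`, `P + Q` is
divisible by two -/
theorem indep {G : Type*} [AddCommGroup G] (h0 : ∀ R : G, R + R = 0 → R = 0) (P Q : G)
    (h1 : ∀ R, R + R ≠ P) (h2 : ∀ R, R + R ≠ Q) (h3 : ∀ R, R + R ≠ P + Q) :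
    LinearIndependent ℤ ![P, Q] := by
  rw [LinearIndependent.pair_iff]
  suffices ∀ n : ℕ, ∀ s t : ℤ, s.natAbs + t.natAbs ≤ n → s • P + t • Q = 0 → s = 0 ∧ t = 0 from
    fun s t h => this _ s t le_rfl h
  intro n
  induction n with
  | zero =>
    intro s t h _
    constructor <;> omega
  | succ n ih =>
    intro s t hst h
    obtain ⟨a, ha | ha⟩ := s.even_or_odd' <;> obtain ⟨b, hb | hb⟩ := t.even_or_odd'
    · have h4 : (a • P + b • Q) + (a • P + b • Q) = 0 := by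
        rw [← h, ha, hb, two_mul, two_mul, add_smul, add_smul]
        abel
      by_cases h5 : s.natAbs + t.natAbs = 0
      · constructor <;> omega
      · obtain ⟨h6, h7⟩ := ih a b (by omega) (h0 _ h4)
        subst h6 h7
        simp [ha, hb]
    · exfalso
      refine h2 (-(a • P + b • Q)) ?_
      rw [ha, hb, two_mul, two_mul, add_smul, add_smul, add_smul, one_smul] at h
      refine (sub_eq_zero.1 ?_).symm
      rw [← h]
      abel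
    · exfalso
      refine h1 (-(a • P + b • Q)) ?_
      rw [ha, hb, two_mul, two_mul, add_smul, add_smul, add_smul, one_smul] at h
      refine (sub_eq_zero.1 ?_).symm
      rw [← h]
      abel
    · exfalso
      refine h3 (-(a • P + b • Q)) ?_
      rw [ha, hb, two_mul, two_mul, add_smul, add_smul, add_smul, add_smul, one_smul,
        one_smul] at h
      refine (sub_eq_zero.1 ?_).symm
      rw [← h]
      abel

/-- short Weierstrass curve -/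
abbrev sw (A B : ℚ) : WeierstrassCurve ℚ := ⟨0, 0, 0, A, B⟩

theorem eqn {A B x y : ℚ} (h : (sw A B).toAffine.Nonsingular x y) :
    y ^ 2 = x ^ 3 + A * x + B := by
  have := (Affine.equation_iff _ _).1 h.1
  simpa using this

theorem negY {A B : ℚ} (x y : ℚ) : (sw A B).toAffine.negY x y = -y := by
  simp [Affine.negY]

theorem nonsing {A B x y : ℚ} (hy : y ≠ 0) (h : y ^ 2 = x ^ 3 + A * x + B) :
    (sw A B).toAffine.Nonsingular x y := by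
  rw [Affine.nonsingular_iff]
  refine ⟨(Affine.equation_iff _ _).2 (by simpa using h), Or.inr ?_⟩
  have h2 : y ≠ -y := fun h3 => hy (by linarith)
  simpa using h2

/-- the duplication formula -/
theorem dbl {A B : ℚ} (R : (sw A B).toAffine.Point) {X Y : ℚ}
    {h : (sw A B).toAffine.Nonsingular X Y} (hR : R + R = .some X Y h) :
    ∃ x y : ℚ, y ≠ 0 ∧ y ^ 2 = x ^ 3 + A * x + B ∧
      4 * (x ^ 3 + A * x + B) * X = x ^ 4 - 2 * A * x ^ 2 - 8 * B * x + A ^ 2 := by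
  rcases R with _ | ⟨x, y, hxy⟩
  · exact absurd (hR.symm) (Affine.Point.some_ne_zero _)
  · have he := eqn hxy
    by_cases hy : y = (sw A B).toAffine.negY x y
    · rw [Affine.Point.add_self_of_Y_eq hy] at hR
      exact absurd (hR.symm) (Affine.Point.some_ne_zero _)
    · rw [Affine.Point.add_self_of_Y_ne hy] at hR
      have hX := (Affine.Point.some.inj hR).1
      rw [Affine.slope_of_Y_ne rfl hy] at hX
      have hy0 : y ≠ 0 := by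
        rintro rfl
        exact hy (by rw [negY]; simp)
      refine ⟨x, y, hy0, he, ?_⟩
      rw [negY] at hX
      have h2 : y - -y ≠ 0 := by
        intro h3
        exact hy0 (by linarith)
      simp only [Affine.addX] at hX
      have h5 : (y - -y)⁻¹ * (2 * y) = 1 := by
        rw [show y - -y = 2 * y by ring]
        exact inv_mul_cancel₀ (by simpa using hy0)
      have h6 : ((3 * x ^ 2 + 2 * 0 * x + A - 0 * y) / (y - -y)) * (2 * y) = 3 * x ^ 2 + A := by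
        rw [div_mul_eq_mul_div, div_eq_iff h2]
        ring
      generalize ((3 * x ^ 2 + 2 * 0 * x + A - 0 * y) / (y - -y)) = L at hX h6
      rw [← hX, ← he]
      have h7 : B = y ^ 2 - x ^ 3 - A * x := by linarith
      have h8 : 4 * y ^ 2 * L ^ 2 = (3 * x ^ 2 + A) ^ 2 := by rw [← h6]; ring
      rw [h7]
      linear_combination h8

theorem no2 {A B : ℚ} (hno : ∀ x : ℚ, x ^ 3 + A * x + B ≠ 0) (R : (sw A B).toAffine.Point)
    (hR : R + R = 0) : R = 0 := by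
  rcases R with _ | ⟨x, y, hxy⟩
  · rfl
  · exfalso
    by_cases hy : y = (sw A B).toAffine.negY x y
    · rw [negY] at hy
      have hy0 : y = 0 := by linarith
      have := eqn hxy
      rw [hy0] at this
      exact hno x (by rw [← this]; norm_num)
    · rw [Affine.Point.add_self_of_Y_ne hy] at hR
      exact absurd hR (Affine.Point.some_ne_zero _)

section padic

variable {p : ℕ} [hp : Fact p.Prime]

theorem lt3 {a b c : ℚ_[p]} {K : ℝ} (ha : ‖a‖ < K) (hb : ‖b‖ < K) (hc : ‖c‖ < K) :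
    ‖a + b + c‖ < K :=
  (Padic.nonarchimedean _ _).trans_lt
    (max_lt ((Padic.nonarchimedean _ _).trans_lt (max_lt ha hb)) hc)

theorem lt4 {a b c d : ℚ_[p]} {K : ℝ} (ha : ‖a‖ < K) (hb : ‖b‖ < K) (hc : ‖c‖ < K)
    (hd : ‖d‖ < K) : ‖a + b + c + d‖ < K :=
  (Padic.nonarchimedean _ _).trans_lt (max_lt (lt3 ha hb hc) hd)

theorem le3 {a b c : ℚ_[p]} {K : ℝ} (ha : ‖a‖ ≤ K) (hb : ‖b‖ ≤ K) (hc : ‖c‖ ≤ K) :
    ‖a + b + c‖ ≤ K :=
  (Padic.nonarchimedean _ _).trans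
    (max_le ((Padic.nonarchimedean _ _).trans (max_le ha hb)) hc)

theorem r_pos : 0 < (p : ℝ)⁻¹ := by
  have := hp.out.pos
  positivity

theorem r_lt : (p : ℝ)⁻¹ < 1 := by
  apply inv_lt_one_of_one_lt₀
  exact_mod_cast hp.out.one_lt

theorem disc {x : ℚ_[p]} (hx : ‖x‖ < 1) : ‖x‖ ≤ (p : ℝ)⁻¹ := by
  have h := (Padic.norm_lt_pow_iff_norm_le_pow_sub_one x 0).1 (by simpa using hx)
  simpa using h

theorem norm_le_of_dvd {k : ℤ} (h : (p : ℤ) ∣ k) : ‖(k : ℚ_[p])‖ ≤ (p : ℝ)⁻¹ :=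
  disc (Padic.norm_intCast_lt_one_iff.2 h)

theorem norm_le_of_dvd2 {k : ℤ} (h : (p : ℤ) ^ 2 ∣ k) : ‖(k : ℚ_[p])‖ ≤ (p : ℝ)⁻¹ ^ 2 := by
  have h := (Padic.norm_int_le_pow_iff_dvd k 2).2 (by exact_mod_cast h)
  have h2 : (p : ℝ) ^ (-((2 : ℕ) : ℤ)) = (p : ℝ)⁻¹ ^ 2 := by
    rw [zpow_neg, zpow_natCast, inv_pow]
  rwa [h2] at h

theorem norm_gt_of_not_dvd2 {k : ℤ} (h : ¬ (p : ℤ) ^ 2 ∣ k) : (p : ℝ)⁻¹ ≤ ‖(k : ℚ_[p])‖ := by
  by_contra h3
  push Not at h3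
  apply h
  have h4 := (Padic.norm_lt_pow_iff_norm_le_pow_sub_one (k : ℚ_[p]) (-1)).1 (by simpa using h3)
  have h5 := (Padic.norm_int_le_pow_iff_dvd k 2).1 (by simpa using h4)
  exact_mod_cast h5

/-- an Eisenstein cubic has no root -/
theorem noroot {A B x : ℚ_[p]} (hA : ‖A‖ ≤ (p : ℝ)⁻¹) (hB : ‖B‖ = (p : ℝ)⁻¹) :
    x ^ 3 + A * x + B ≠ 0 := by
  intro h
  have r0 : 0 < (p : ℝ)⁻¹ := r_pos
  have r1 : (p : ℝ)⁻¹ < 1 := r_lt
  set r := (p : ℝ)⁻¹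
  rcases lt_or_ge ‖x‖ 1 with hx | hx
  · have hx' := disc hx
    have h1 : B = -(x ^ 3) + -(A * x) := by linear_combination h
    have h2 : ‖B‖ ≤ max ‖-(x ^ 3)‖ ‖-(A * x)‖ := by
      conv_lhs => rw [h1]
      exact Padic.nonarchimedean _ _
    rw [norm_neg, norm_neg, norm_pow, norm_mul, hB] at h2
    have h3 : ‖x‖ ^ 3 < r := by
      have := norm_nonneg x
      calc ‖x‖ ^ 3 ≤ r ^ 3 := by gcongr
        _ < r := by nlinarith [mul_pos r0 r0]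
    have h4 : ‖A‖ * ‖x‖ < r := by
      calc ‖A‖ * ‖x‖ ≤ r * r := by gcongr
        _ < r := by nlinarith
    exact absurd h2 (not_le.2 (max_lt h3 h4))
  · have h1 : x ^ 3 = -(A * x) + -B := by linear_combination h
    have h2 : ‖x ^ 3‖ ≤ max ‖-(A * x)‖ ‖-B‖ := by
      rw [h1]
      exact Padic.nonarchimedean _ _
    rw [norm_neg, norm_neg, norm_pow, norm_mul, hB] at h2
    have h3 : ‖A‖ * ‖x‖ < ‖x‖ ^ 3 := by
      calc ‖A‖ * ‖x‖ ≤ r * ‖x‖ := by gcongr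
        _ < ‖x‖ ^ 3 := by nlinarith [mul_self_nonneg (‖x‖ - 1)]
    have h4 : r < ‖x‖ ^ 3 := by nlinarith [mul_self_nonneg (‖x‖ - 1)]
    exact absurd h2 (not_le.2 (max_lt h3 h4))

/-- the `x`-coordinate of the double of a point is not divisible by `p` -/
theorem dblnorm {A B x X : ℚ_[p]} (hA : ‖A‖ = (p : ℝ)⁻¹) (hB : ‖B‖ ≤ (p : ℝ)⁻¹ ^ 2)
    (h : 4 * (x ^ 3 + A * x + B) * X = x ^ 4 - 2 * A * x ^ 2 - 8 * B * x + A ^ 2) :
    1 ≤ ‖X‖ := by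
  have r0 : 0 < (p : ℝ)⁻¹ := r_pos
  have r1 : (p : ℝ)⁻¹ < 1 := r_lt
  set r := (p : ℝ)⁻¹
  have n2 : ‖(2 : ℚ_[p])‖ ≤ 1 := by exact_mod_cast Padic.norm_int_le_one (p := p) 2
  have n4 : ‖(4 : ℚ_[p])‖ ≤ 1 := by exact_mod_cast Padic.norm_int_le_one (p := p) 4
  have n8 : ‖(8 : ℚ_[p])‖ ≤ 1 := by exact_mod_cast Padic.norm_int_le_one (p := p) 8
  have hx0 := norm_nonneg x
  have e1 : ‖2 * A * x ^ 2‖ ≤ r * ‖x‖ ^ 2 := by
    rw [norm_mul, norm_mul, norm_pow, hA]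
    have : ‖(2 : ℚ_[p])‖ * r ≤ r := mul_le_of_le_one_left r0.le n2
    gcongr
  have e2 : ‖8 * B * x‖ ≤ r ^ 2 * ‖x‖ := by
    rw [norm_mul, norm_mul]
    have : ‖(8 : ℚ_[p])‖ * ‖B‖ ≤ r ^ 2 := (mul_le_of_le_one_left (norm_nonneg _) n8).trans hB
    gcongr
  have e3 : ‖A ^ 2‖ = r ^ 2 := by rw [norm_pow, hA]
  have e4 : ‖4 * (x ^ 3 + A * x + B) * X‖ ≤ ‖x ^ 3 + A * x + B‖ * ‖X‖ := by
    rw [norm_mul, norm_mul]
    have := norm_nonneg X
    have := mul_le_of_le_one_left (norm_nonneg (x ^ 3 + A * x + B)) n4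
    gcongr
  rw [h] at e4
  rcases lt_or_ge ‖x‖ 1 with hx | hx
  · have hx' := disc hx
    have h1 : r ^ 2 ≤ ‖x ^ 4 - 2 * A * x ^ 2 - 8 * B * x + A ^ 2‖ := by
      by_contra h2
      push Not at h2
      have h3 : A ^ 2 = (x ^ 4 - 2 * A * x ^ 2 - 8 * B * x + A ^ 2) + -(x ^ 4) + 2 * A * x ^ 2 +
        8 * B * x := by ring
      have h4 : ‖A ^ 2‖ < r ^ 2 := by
        rw [h3]
        refine lt4 h2 ?_ (e1.trans_lt ?_) (e2.trans_lt ?_)
        · rw [norm_neg, norm_pow]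
          calc ‖x‖ ^ 4 ≤ r ^ 4 := by gcongr
            _ < r ^ 2 := pow_lt_pow_right_of_lt_one₀ r0 r1 (by norm_num)
        · calc r * ‖x‖ ^ 2 ≤ r * r ^ 2 := by gcongr
            _ < r ^ 2 := by nlinarith [mul_pos r0 r0]
        · calc r ^ 2 * ‖x‖ ≤ r ^ 2 * r := by gcongr
            _ < r ^ 2 := by nlinarith [mul_pos r0 r0]
      rw [e3] at h4
      exact lt_irrefl _ h4
    have h2 : ‖x ^ 3 + A * x + B‖ ≤ r ^ 2 := by
      refine le3 ?_ ?_ hB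
      · rw [norm_pow]
        calc ‖x‖ ^ 3 ≤ r ^ 3 := by gcongr
          _ ≤ r ^ 2 := by nlinarith [mul_pos r0 r0]
      · rw [norm_mul, hA]
        calc r * ‖x‖ ≤ r * r := by gcongr
          _ = r ^ 2 := by ring
    have h3 : r ^ 2 * 1 ≤ r ^ 2 * ‖X‖ := by
      rw [mul_one]
      exact h1.trans (e4.trans (mul_le_mul_of_nonneg_right h2 (norm_nonneg _)))
    exact le_of_mul_le_mul_left h3 (by positivity)
  · have hn3 : ‖x‖ ≤ ‖x‖ ^ 3 := by nlinarith [mul_self_nonneg (‖x‖ - 1)]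
    have hn2 : 1 ≤ ‖x‖ ^ 2 := by nlinarith
    have hn1 : 1 ≤ ‖x‖ ^ 3 := hx.trans hn3
    have hn4 : ‖x‖ ^ 2 ≤ ‖x‖ ^ 4 := by nlinarith
    have h1 : ‖x‖ ^ 4 ≤ ‖x ^ 4 - 2 * A * x ^ 2 - 8 * B * x + A ^ 2‖ := by
      by_contra h2
      push Not at h2
      have h3 : x ^ 4 = (x ^ 4 - 2 * A * x ^ 2 - 8 * B * x + A ^ 2) + 2 * A * x ^ 2 +
        8 * B * x + -(A ^ 2) := by ring
      have h4 : ‖x ^ 4‖ < ‖x‖ ^ 4 := by
        conv_lhs => rw [h3]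
        refine lt4 h2 (e1.trans_lt ?_) (e2.trans_lt ?_) ?_
        · nlinarith
        · have : r ^ 2 < 1 := by nlinarith
          nlinarith [mul_self_nonneg (‖x‖ - 1), mul_nonneg hx0 hx0]
        · rw [norm_neg, e3]
          have : r ^ 2 < 1 := by nlinarith
          linarith
      rw [norm_pow] at h4
      exact lt_irrefl _ h4
    have h2 : ‖x ^ 3 + A * x + B‖ ≤ ‖x‖ ^ 3 := by
      refine le3 ?_ ?_ (hB.trans ?_)
      · rw [norm_pow]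
      · rw [norm_mul, hA]
        nlinarith
      · nlinarith
    have h3 : ‖x‖ ^ 3 * ‖x‖ ≤ ‖x‖ ^ 3 * ‖X‖ := by
      have := h1.trans (e4.trans (mul_le_mul_of_nonneg_right h2 (norm_nonneg _)))
      calc ‖x‖ ^ 3 * ‖x‖ = ‖x‖ ^ 4 := by ring
        _ ≤ _ := this
    exact hx.trans (le_of_mul_le_mul_left h3 (by linarith))

end padic

/-- the `x`-coordinate of a double is at least the largest real root -/
theorem realpart {A B x y X X0 : ℝ} (hy : y ≠ 0) (hxy : y ^ 2 = x ^ 3 + A * x + B)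
    (h : 4 * (x ^ 3 + A * x + B) * X = x ^ 4 - 2 * A * x ^ 2 - 8 * B * x + A ^ 2)
    (h0 : X0 ^ 3 + A * X0 + B < 0) : X0 ≤ X := by
  obtain ⟨e, he, he0⟩ : ∃ e, X0 ≤ e ∧ e ^ 3 + A * e + B = 0 := by
    set M := 1 + |A| + |B| + |X0| with hM
    have hA := abs_nonneg A
    have hB := abs_nonneg B
    have hX := abs_nonneg X0
    have h1 : X0 ≤ M := by linarith [le_abs_self X0]
    have h2 : 0 ≤ M ^ 3 + A * M + B := by
      have h3 : 1 ≤ M := by linarith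
      have h4 : -|A| ≤ A := neg_abs_le A
      have h5 : -|B| ≤ B := neg_abs_le B
      have h6 : -|A| * M ≤ A * M := mul_le_mul_of_nonneg_right h4 (by linarith)
      have h7 : M ^ 3 ≥ M ^ 2 := by nlinarith
      have h8 : M * (M - |A|) ≥ M * 1 := mul_le_mul_of_nonneg_left (by linarith) (by linarith)
      nlinarith
    obtain ⟨e, he, he0⟩ := intermediate_value_Icc h1 (f := fun z : ℝ => z ^ 3 + A * z + B)
      (by fun_prop) ⟨h0.le, h2⟩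
    exact ⟨e, he.1, he0⟩
  refine he.trans ?_
  have h1 : 4 * y ^ 2 * (X - e) = (x ^ 2 - 2 * e * x - 2 * e ^ 2 - A) ^ 2 := by
    have hB : B = -e ^ 3 - A * e := by linarith
    have h2 : 4 * y ^ 2 * X = x ^ 4 - 2 * A * x ^ 2 - 8 * B * x + A ^ 2 := by rw [hxy]; exact h
    have h3 : 4 * y ^ 2 * e = 4 * (x ^ 3 + A * x + B) * e := by rw [hxy]
    rw [mul_sub, h2, h3, hB]
    ring
  have h2 : 0 < 4 * y ^ 2 := by positivity
  by_contra h3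
  push Not at h3
  nlinarith [sq_nonneg (x ^ 2 - 2 * e * x - 2 * e ^ 2 - A)]

/-- a point whose `x`-coordinate is divisible by `p` is not a double -/
theorem not_dbl {p : ℕ} (hp : p.Prime) {A B X : ℤ} (hA : (p : ℤ) ∣ A) (hA2 : ¬ (p : ℤ) ^ 2 ∣ A)
    (hB : (p : ℤ) ^ 2 ∣ B) (hX : (p : ℤ) ∣ X) {Y : ℚ}
    {h : (sw A B).toAffine.Nonsingular X Y} (R : (sw A B).toAffine.Point) :
    R + R ≠ .some (X : ℚ) Y h := by
  have := Fact.mk hp
  intro hR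
  obtain ⟨x, y, -, -, h1⟩ := dbl R hR
  have h2 : (4 * ((x : ℚ_[p]) ^ 3 + (A : ℚ_[p]) * x + (B : ℚ_[p])) * (X : ℚ_[p])) =
      (x : ℚ_[p]) ^ 4 - 2 * (A : ℚ_[p]) * (x : ℚ_[p]) ^ 2 - 8 * (B : ℚ_[p]) * x +
        (A : ℚ_[p]) ^ 2 := by
    exact_mod_cast congrArg (fun z : ℚ => (z : ℚ_[p])) h1
  have h3 := dblnorm (p := p) (le_antisymm (norm_le_of_dvd hA) (norm_gt_of_not_dvd2 hA2))
    (norm_le_of_dvd2 hB) h2
  exact absurd h3 (not_le.2 (Padic.norm_intCast_lt_one_iff.2 hX))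

theorem noroot' {p : ℕ} (hp : p.Prime) {A B : ℤ} (hA : (p : ℤ) ∣ A) (hB : (p : ℤ) ∣ B)
    (hB2 : ¬ (p : ℤ) ^ 2 ∣ B) (x : ℚ) : x ^ 3 + (A : ℚ) * x + (B : ℚ) ≠ 0 := by
  have := Fact.mk hp
  intro h
  refine noroot (p := p) (A := (A : ℚ_[p])) (B := (B : ℚ_[p])) (x := (x : ℚ_[p]))
    (norm_le_of_dvd hA) (le_antisymm (norm_le_of_dvd hB) (norm_gt_of_not_dvd2 hB2)) ?_
  exact_mod_cast congrArg (fun z : ℚ => (z : ℚ_[p])) h

theorem not_dvd_sq {p : ℕ} (hp : p.Prime) {a m : ℤ} (ha : ¬ (p : ℤ) ^ 2 ∣ a)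
    (hm : ¬ (p : ℤ) ∣ m) : ¬ (p : ℤ) ^ 2 ∣ a * m := by
  intro h
  have h1 : IsCoprime (p : ℤ) m :=
    ((Nat.prime_iff_prime_int.1 hp).coprime_iff_not_dvd).2 hm
  exact ha ((h1.pow_left (m := 2)).dvd_of_dvd_mul_right h)

theorem main (u v t : ℤ) (hu : 0 < u) (huv : u < v)
    (ht : 4 * (u ^ 4 + u ^ 2 * v ^ 2 + v ^ 4) ^ 3 + (u ^ 2 + v ^ 2) ^ 2 + 2 ≤ t)
    (A B : ℤ) (hA : A = - t * (t - 1) * (u ^ 4 + u ^ 2 * v ^ 2 + v ^ 4))
    (hB : B = t ^ 2 * (t - 1) * u ^ 2 * v ^ 2 * (u ^ 2 + v ^ 2))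
    {l : ℕ} (hl : l.Prime) (hlt : (l : ℤ) ∣ t) (hlt2 : ¬ ((l : ℤ) ^ 2 ∣ t))
    (hluv : ¬ ((l : ℤ) ∣ u * v * (u ^ 4 + u ^ 2 * v ^ 2 + v ^ 4)))
    {q : ℕ} (hq : q.Prime) (hqt : (q : ℤ) ∣ t - 1) (hqt2 : ¬ ((q : ℤ) ^ 2 ∣ t - 1))
    (hquv : ¬ ((q : ℤ) ∣ u * v * (u ^ 2 + v ^ 2))) :
    (sw A B).Δ ≠ 0 ∧ ∃ (h₁ : (sw A B).toAffine.Nonsingular ((t * u ^ 2 : ℤ) : ℚ) (t * u ^ 3))
    (h₂ : (sw A B).toAffine.Nonsingular ((t * v ^ 2 : ℤ) : ℚ) (t * v ^ 3)),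
    LinearIndependent ℤ ![Affine.Point.some _ _ h₁, Affine.Point.some _ _ h₂] := by
  have hlp := Nat.prime_iff_prime_int.1 hl
  have hqp := Nat.prime_iff_prime_int.1 hq
  have ht2 : 2 ≤ t := by
    have h1 : 0 ≤ 4 * (u ^ 4 + u ^ 2 * v ^ 2 + v ^ 4) ^ 3 := by positivity
    have h2 : 0 ≤ (u ^ 2 + v ^ 2) ^ 2 := by positivity
    linarith
  have hv : 0 < v := hu.trans huv
  -- divisibility
  have hlt1 : ¬ (l : ℤ) ∣ t - 1 := by
    intro h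
    have h1 : (l : ℤ) ∣ 1 := by
      have := dvd_sub hlt h
      simpa using this
    exact hlp.not_isUnit (isUnit_of_dvd_one h1)
  have hqt1 : ¬ (q : ℤ) ∣ t := by
    intro h
    have h1 : (q : ℤ) ∣ 1 := by
      have := dvd_sub h hqt
      simpa using this
    exact hqp.not_isUnit (isUnit_of_dvd_one h1)
  have hla : ¬ (l : ℤ) ∣ u ^ 4 + u ^ 2 * v ^ 2 + v ^ 4 := fun h => hluv (h.mul_left _)
  have hAl : (l : ℤ) ∣ A := by
    rw [hA]
    exact ((hlt.neg_right.mul_right _).mul_right _)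
  have hAl2 : ¬ (l : ℤ) ^ 2 ∣ A := by
    have h1 : A = (-t) * ((t - 1) * (u ^ 4 + u ^ 2 * v ^ 2 + v ^ 4)) := by rw [hA]; ring
    rw [h1]
    refine not_dvd_sq hl (by rwa [dvd_neg]) ?_
    intro h
    rcases hlp.dvd_or_dvd h with h | h
    · exact hlt1 h
    · exact hla h
  have hBl : (l : ℤ) ^ 2 ∣ B := by
    rw [hB]
    have h1 : (l : ℤ) ^ 2 ∣ t ^ 2 := pow_dvd_pow_of_dvd hlt 2
    exact (((h1.mul_right _).mul_right _).mul_right _).mul_right _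
  have hAq : (q : ℤ) ∣ A := by
    rw [hA]
    exact ((hqt.mul_left _).mul_right _)
  have hBq : (q : ℤ) ∣ B := by
    rw [hB]
    exact (((hqt.mul_left _).mul_right _).mul_right _).mul_right _
  have hqu : ¬ (q : ℤ) ∣ u := fun h => hquv ((h.mul_right _).mul_right _)
  have hqv : ¬ (q : ℤ) ∣ v := fun h => hquv ((h.mul_left _).mul_right _)
  have hqs : ¬ (q : ℤ) ∣ u ^ 2 + v ^ 2 := fun h => hquv (h.mul_left _)
  have hBq2 : ¬ (q : ℤ) ^ 2 ∣ B := by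
    have h1 : B = (t - 1) * (t ^ 2 * u ^ 2 * v ^ 2 * (u ^ 2 + v ^ 2)) := by rw [hB]; ring
    rw [h1]
    refine not_dvd_sq hq hqt2 ?_
    intro h
    rcases hqp.dvd_or_dvd h with h | h
    · rcases hqp.dvd_or_dvd h with h | h
      · rcases hqp.dvd_or_dvd h with h | h
        · exact hqt1 (hqp.dvd_of_dvd_pow h)
        · exact hqu (hqp.dvd_of_dvd_pow h)
      · exact hqv (hqp.dvd_of_dvd_pow h)
    · exact hqs h
  -- rational versions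
  have hAQ : (A : ℚ) = - t * (t - 1) * (u ^ 4 + u ^ 2 * v ^ 2 + v ^ 4) := by
    rw [hA]; push_cast; ring
  have hBQ : (B : ℚ) = t ^ 2 * (t - 1) * u ^ 2 * v ^ 2 * (u ^ 2 + v ^ 2) := by
    rw [hB]; push_cast; ring
  have tQ : (0 : ℚ) < t := by exact_mod_cast (by linarith : (0 : ℤ) < t)
  have uQ : (0 : ℚ) < u := by exact_mod_cast hu
  have vQ : (0 : ℚ) < v := by exact_mod_cast hv
  have h₁ : (sw A B).toAffine.Nonsingular ((t * u ^ 2 : ℤ) : ℚ) (t * u ^ 3) := by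
    refine nonsing (by positivity) ?_
    rw [hAQ, hBQ]
    push_cast
    ring
  have h₂ : (sw A B).toAffine.Nonsingular ((t * v ^ 2 : ℤ) : ℚ) (t * v ^ 3) := by
    refine nonsing (by positivity) ?_
    rw [hAQ, hBQ]
    push_cast
    ring
  refine ⟨?_, h₁, h₂, ?_⟩
  · -- discriminant
    have h1 : (sw A B).Δ = ((-16 * (4 * A ^ 3 + 27 * B ^ 2) : ℤ) : ℚ) := by
      simp only [WeierstrassCurve.Δ, WeierstrassCurve.b₂, WeierstrassCurve.b₄,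
        WeierstrassCurve.b₆, WeierstrassCurve.b₈]
      push_cast
      ring
    rw [h1]
    refine Int.cast_ne_zero.2 ?_
    have h2 : 4 * A ^ 3 + 27 * B ^ 2 = - (t ^ 3 * (t - 1) ^ 2 *
        (t * ((u ^ 2 - v ^ 2) * (2 * u ^ 2 + v ^ 2) * (u ^ 2 + 2 * v ^ 2)) ^ 2 -
          4 * (u ^ 4 + u ^ 2 * v ^ 2 + v ^ 4) ^ 3)) := by
      rw [hA, hB]; ring
    have h3 : 1 ≤ ((u ^ 2 - v ^ 2) * (2 * u ^ 2 + v ^ 2) * (u ^ 2 + 2 * v ^ 2)) ^ 2 := by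
      have h4 : u ^ 2 - v ^ 2 ≠ 0 := by nlinarith
      have h5 : (2 * u ^ 2 + v ^ 2) ≠ 0 := by positivity
      have h6 : (u ^ 2 + 2 * v ^ 2) ≠ 0 := by positivity
      have h7 : (u ^ 2 - v ^ 2) * (2 * u ^ 2 + v ^ 2) * (u ^ 2 + 2 * v ^ 2) ≠ 0 :=
        mul_ne_zero (mul_ne_zero h4 h5) h6
      have h8 : 0 < ((u ^ 2 - v ^ 2) * (2 * u ^ 2 + v ^ 2) * (u ^ 2 + 2 * v ^ 2)) ^ 2 := by
        positivity
      linarith
    have h4 : 0 < t * ((u ^ 2 - v ^ 2) * (2 * u ^ 2 + v ^ 2) * (u ^ 2 + 2 * v ^ 2)) ^ 2 -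
          4 * (u ^ 4 + u ^ 2 * v ^ 2 + v ^ 4) ^ 3 := by
      have h5 : 0 ≤ (u ^ 2 + v ^ 2) ^ 2 := by positivity
      have h6 := mul_le_mul_of_nonneg_left h3 (by linarith : (0 : ℤ) ≤ t)
      rw [mul_one] at h6
      linarith
    have h5 : 0 < t ^ 3 * (t - 1) ^ 2 := by
      have : 0 < t - 1 := by linarith
      positivity
    have h6 := mul_pos h5 h4
    intro h7
    rw [h2] at h7
    linarith
  · refine indep (fun R hR => no2 (noroot' hq hAq hBq hBq2) R hR) _ _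
      (fun R => not_dbl hl hAl hAl2 hBl (hlt.mul_right _) R)
      (fun R => not_dbl hl hAl hAl2 hBl (hlt.mul_right _) R) ?_
    intro R hR
    have hne : ((t * u ^ 2 : ℤ) : ℚ) ≠ ((t * v ^ 2 : ℤ) : ℚ) := by
      intro h
      have h1 : t * u ^ 2 = t * v ^ 2 := by exact_mod_cast h
      have h2 : u ^ 2 = v ^ 2 := mul_left_cancel₀ (by linarith : t ≠ 0) h1
      nlinarith
    rw [Affine.Point.add_of_X_ne hne] at hR
    obtain ⟨x, y, hy, hxy, hd⟩ := dbl R hR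
    rw [Affine.slope_of_X_ne hne] at hd
    simp only [Affine.addX] at hd
    -- the slope
    have hL : (((t : ℚ) * u ^ 3 - t * v ^ 3) / (((t * u ^ 2 : ℤ) : ℚ) - ((t * v ^ 2 : ℤ) : ℚ))) *
        (u + v) = u ^ 2 + u * v + v ^ 2 := by
      rw [div_mul_eq_mul_div, div_eq_iff (sub_ne_zero.2 hne)]
      push_cast
      ring
    generalize (((t : ℚ) * u ^ 3 - t * v ^ 3) /
      (((t * u ^ 2 : ℤ) : ℚ) - ((t * v ^ 2 : ℤ) : ℚ))) = L at hd hL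
    set X : ℚ := L ^ 2 + 0 * L - 0 - ((t * u ^ 2 : ℤ) : ℚ) - ((t * v ^ 2 : ℤ) : ℚ) with hX
    have hL0 : 0 < L := by
      by_contra h
      push Not at h
      have h1 : L * (u + v) ≤ 0 := mul_nonpos_of_nonpos_of_nonneg h (by positivity)
      rw [hL] at h1
      have h2 : (0 : ℚ) < u ^ 2 + u * v + v ^ 2 := by positivity
      linarith
    have hL1 : L < u + v := by
      have h1 : L * (u + v) < (u + v) * (u + v) := by
        rw [hL]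
        nlinarith [mul_pos uQ vQ]
      exact lt_of_mul_lt_mul_right h1 (by positivity)
    have hXlt : X < t * (u ^ 2 + v ^ 2) / 2 := by
      have h1 : L ^ 2 < (u + v) ^ 2 := by gcongr
      have h2 : (2 : ℚ) ≤ t := by exact_mod_cast ht2
      have h3 : ((u : ℚ) + v) ^ 2 ≤ 2 * (u ^ 2 + v ^ 2) := by nlinarith [sq_nonneg ((u : ℚ) - v)]
      have h4 : 2 * ((u : ℚ) ^ 2 + v ^ 2) ≤ t * (u ^ 2 + v ^ 2) :=
        mul_le_mul_of_nonneg_right h2 (by positivity)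
      have h5 : (0 : ℚ) < (u : ℚ) ^ 2 + v ^ 2 := by positivity
      have h6 : (0 : ℚ) < t * ((u : ℚ) ^ 2 + v ^ 2) := by positivity
      rw [hX]
      push_cast
      nlinarith
    have hneg : ((t * (u ^ 2 + v ^ 2) / 2 : ℚ)) ^ 3 + A * (t * (u ^ 2 + v ^ 2) / 2 : ℚ) + B < 0 := by
      rw [hAQ, hBQ]
      have h1 : ((t * (u ^ 2 + v ^ 2) / 2 : ℚ)) ^ 3 +
          (- t * (t - 1) * (u ^ 4 + u ^ 2 * v ^ 2 + v ^ 4)) * (t * (u ^ 2 + v ^ 2) / 2 : ℚ) +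
          t ^ 2 * (t - 1) * u ^ 2 * v ^ 2 * (u ^ 2 + v ^ 2) =
          - (t ^ 2 * ((u ^ 2 + v ^ 2) / 8) *
            (3 * (t - 1) * (v ^ 2 - u ^ 2) ^ 2 - (u ^ 2 + v ^ 2) ^ 2)) := by
        ring
      rw [h1]
      have h2 : (0 : ℤ) < 3 * (t - 1) * (v ^ 2 - u ^ 2) ^ 2 - (u ^ 2 + v ^ 2) ^ 2 := by
        have h3 : 1 ≤ (v ^ 2 - u ^ 2) ^ 2 := by
          have h4 : v ^ 2 - u ^ 2 ≠ 0 := by nlinarith
          have h8 : 0 < (v ^ 2 - u ^ 2) ^ 2 := by positivity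
          linarith
        have h5 : 0 ≤ 4 * (u ^ 4 + u ^ 2 * v ^ 2 + v ^ 4) ^ 3 := by positivity
        have h6 : 0 ≤ (u ^ 2 + v ^ 2) ^ 2 := by positivity
        have h7 := mul_le_mul_of_nonneg_left h3 (by linarith : (0 : ℤ) ≤ 3 * (t - 1))
        rw [mul_one] at h7
        linarith
      have h3 : (0 : ℚ) < 3 * (t - 1) * (v ^ 2 - u ^ 2) ^ 2 - (u ^ 2 + v ^ 2) ^ 2 := by
        exact_mod_cast h2
      have h4 : (0 : ℚ) < t ^ 2 * ((u ^ 2 + v ^ 2) / 8) := by positivity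
      have h5 := mul_pos h4 h3
      linarith
    have hfin := realpart (A := (A : ℝ)) (B := (B : ℝ)) (x := (x : ℝ)) (y := (y : ℝ))
      (X := (X : ℝ)) (X0 := ((t * (u ^ 2 + v ^ 2) / 2 : ℚ) : ℝ)) (by exact_mod_cast hy)
      (by exact_mod_cast hxy) (by exact_mod_cast hd) (by exact_mod_cast hneg)
    have : ((t * (u ^ 2 + v ^ 2) / 2 : ℚ)) ≤ X := by exact_mod_cast hfin
    linarith

theorem main2 (u v t : ℤ) (hu : 0 < u) (huv : u < v)
    (ht : 4 * (u ^ 4 + u ^ 2 * v ^ 2 + v ^ 4) ^ 3 + (u ^ 2 + v ^ 2) ^ 2 + 2 ≤ t)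
    (A' B' X₁ X₂ : ℚ) (A B : ℤ) (hA' : A' = A) (hB' : B' = B) (hX₁ : X₁ = ((t * u ^ 2 : ℤ) : ℚ))
    (hX₂ : X₂ = ((t * v ^ 2 : ℤ) : ℚ)) (hA : A = - t * (t - 1) * (u ^ 4 + u ^ 2 * v ^ 2 + v ^ 4))
    (hB : B = t ^ 2 * (t - 1) * u ^ 2 * v ^ 2 * (u ^ 2 + v ^ 2))
    {l : ℕ} (hl : l.Prime) (hlt : (l : ℤ) ∣ t) (hlt2 : ¬ ((l : ℤ) ^ 2 ∣ t))
    (hluv : ¬ ((l : ℤ) ∣ u * v * (u ^ 4 + u ^ 2 * v ^ 2 + v ^ 4)))
    {q : ℕ} (hq : q.Prime) (hqt : (q : ℤ) ∣ t - 1) (hqt2 : ¬ ((q : ℤ) ^ 2 ∣ t - 1))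
    (hquv : ¬ ((q : ℤ) ∣ u * v * (u ^ 2 + v ^ 2))) :
    (sw A' B').Δ ≠ 0 ∧ ∃ (h₁ : (sw A' B').toAffine.Nonsingular X₁ (t * u ^ 3))
    (h₂ : (sw A' B').toAffine.Nonsingular X₂ (t * v ^ 3)),
    LinearIndependent ℤ ![Affine.Point.some _ _ h₁, Affine.Point.some _ _ h₂] := by
  subst hA' hB' hX₁ hX₂
  exact main u v t hu huv ht A B hA hB hl hlt hlt2 hluv hq hqt hqt2 hquv

end Pool.Agent.LibBH2.C1

namespace Pool.Agent.LibBH2

theorem c1 : TaskC1 := by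
  intro u v hu huv
  refine ⟨4 * (u ^ 4 + u ^ 2 * v ^ 2 + v ^ 4) ^ 3 + (u ^ 2 + v ^ 2) ^ 2 + 2, ?_⟩
  rintro t ht ⟨l, hl, -, hlt, hlt2, hluv⟩ ⟨q, hq, hqt, hqt2, hquv⟩
  exact C1.main2 u v t hu huv ht _ _ _ _ _ _ (by push_cast; ring) (by push_cast; ring)
    (by push_cast; ring) (by push_cast; ring) rfl rfl hl hlt hlt2 hluv hq hqt hqt2 hquv

end Pool.Agent.LibBH2
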