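import Pool.Agent.LibBH2.TwTools

/-!
Theorem C: the family `fam`.
-/

set_option autoImplicit false

open WeierstrassCurve
open scoped Classical

namespace Pool.Agent.LibBH2

/-- `u ^ 4 + u ^ 2 v ^ 2 + v ^ 4` -/
def cfA (u v : ℤ) : ℤ := u ^ 4 + u ^ 2 * v ^ 2 + v ^ 4

/-- `u ^ 2 v ^ 2 (u ^ 2 + v ^ 2)` -/
def cfB (u v : ℤ) : ℤ := u ^ 2 * v ^ 2 * (u ^ 2 + v ^ 2)

/-- square root of `4 A ^ 3 - 27 B ^ 2` -/
def cfD (u v : ℤ) : ℤ := (v ^ 2 - u ^ 2) * (2 * u ^ 2 + v ^ 2) * (u ^ 2 + 2 * v ^ 2)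

theorem cf_disc (u v : ℤ) : 4 * cfA u v ^ 3 - 27 * cfB u v ^ 2 = cfD u v ^ 2 := by
  unfold cfA cfB cfD; ring

theorem cfA_pos {u v : ℤ} (hu : 0 < u) (huv : u < v) : 0 < cfA u v := by
  have hv : 0 < v := hu.trans huv
  unfold cfA; positivity

theorem cfB_pos {u v : ℤ} (hu : 0 < u) (huv : u < v) : 0 < cfB u v := by
  have hv : 0 < v := hu.trans huv
  unfold cfB; positivity

theorem cfD_pos {u v : ℤ} (hu : 0 < u) (huv : u < v) : 0 < cfD u v := by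
  have hv : 0 < v := hu.trans huv
  have h1 : 0 < v ^ 2 - u ^ 2 := by nlinarith
  unfold cfD; positivity

theorem fam_c4 (t u v : ℤ) : (fam t u v).c₄ = 48 * t * (t - 1) * (cfA u v : ℤ) := by
  simp only [fam, WeierstrassCurve.c₄, WeierstrassCurve.b₂, WeierstrassCurve.b₄, cfA]
  push_cast
  ring

theorem fam_disc (t u v : ℤ) :
    (fam t u v).Δ = 16 * t ^ 3 * (t - 1) ^ 2 * ((t * cfD u v ^ 2 - 4 * cfA u v ^ 3 : ℤ) : ℚ) := by
  simp only [fam, WeierstrassCurve.Δ, WeierstrassCurve.b₂, WeierstrassCurve.b₄,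
    WeierstrassCurve.b₆, WeierstrassCurve.b₈, cfA, cfD]
  push_cast
  ring

theorem fam_j (t u v : ℤ) (ht : t ≠ 0) (ht1 : t ≠ 1) :
    (fam t u v).c₄ ^ 3 / (fam t u v).Δ =
      ((6912 * (t - 1) * cfA u v ^ 3 : ℤ) : ℚ) / ((t * cfD u v ^ 2 - 4 * cfA u v ^ 3 : ℤ) : ℚ) := by
  rw [fam_c4, fam_disc]
  have h0 : (t : ℚ) ≠ 0 := by exact_mod_cast ht
  have h1 : (t : ℚ) - 1 ≠ 0 := by
    rw [sub_ne_zero]; exact_mod_cast ht1
  by_cases h2 : ((t * cfD u v ^ 2 - 4 * cfA u v ^ 3 : ℤ) : ℚ) = 0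
  · rw [h2]; simp
  · push_cast at h2 ⊢
    field_simp
    ring

/-- bilinearity on subgroups -/
theorem closure_zc (W₁ W₂ : WeierstrassCurve ℚ) (h₁ : (W₁⁄Qb).IsElliptic) (h₂ : (W₂⁄Qb).IsElliptic)
    (S₁ : Set W₁.toAffine.Point) (S₂ : Set W₂.toAffine.Point)
    (h : ∀ P ∈ S₁, ∀ Q ∈ S₂, 2 • (zc (constPt Qb P) (constPt Qb Q) : CH0 (W₁⁄Qb) (W₂⁄Qb)) = 0) :
    ∀ P ∈ AddSubgroup.closure S₁, ∀ Q ∈ AddSubgroup.closure S₂,
      2 • (zc (constPt Qb P) (constPt Qb Q) : CH0 (W₁⁄Qb) (W₂⁄Qb)) = 0 := by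
  have key : ∀ P ∈ AddSubgroup.closure S₁, ∀ Q ∈ S₂,
      2 • (zc (constPt Qb P) (constPt Qb Q) : CH0 (W₁⁄Qb) (W₂⁄Qb)) = 0 := by
    intro P hP Q hQ
    induction hP using AddSubgroup.closure_induction with
    | mem x hx => exact h x hx Q hQ
    | zero =>
      have h0 : (constPt Qb (0 : W₁.toAffine.Point) : (W₁⁄Qb).toAffine.Point) = 0 := rfl
      rw [h0]
      have := congrArg (fun f => f (constPt Qb Q)) (map_zero (zHom (W₁⁄Qb) (W₂⁄Qb)))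
      simp only [zHom_apply] at this
      rw [this]; simp
    | add x y _ _ hx hy =>
      have h0 := map_add (constHom Qb W₁) x y
      simp only [constHom_apply] at h0
      rw [h0, zc_add_left, smul_add, hx, hy, add_zero]
    | neg x _ hx =>
      have h0 := map_neg (constHom Qb W₁) x
      simp only [constHom_apply] at h0
      rw [h0, zc_neg_left, smul_neg, hx, neg_zero]
  intro P hP Q hQ
  induction hQ using AddSubgroup.closure_induction with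
  | mem x hx => exact key P hP x hx
  | zero =>
    have h0 : (constPt Qb (0 : W₂.toAffine.Point) : (W₂⁄Qb).toAffine.Point) = 0 := rfl
    rw [h0, ← zHom_apply, map_zero, smul_zero]
  | add x y _ _ hx hy =>
    have h0 := map_add (constHom Qb W₂) x y
    simp only [constHom_apply] at h0
    rw [h0, zc_add_right, smul_add, hx, hy, add_zero]
  | neg x _ hx =>
    have h0 := map_neg (constHom Qb W₂) x
    simp only [constHom_apply] at h0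
    rw [h0, zc_neg_right, smul_neg, hx, neg_zero]

theorem fam_bc (t u v : ℚ) : (fam t u v)⁄Qb = (⟨0, 0, 0,
    algebraMap ℚ Qb (- t * (t - 1) * (u ^ 4 + u ^ 2 * v ^ 2 + v ^ 4)),
    algebraMap ℚ Qb (t ^ 2 * (t - 1) * u ^ 2 * v ^ 2 * (u ^ 2 + v ^ 2))⟩ : WeierstrassCurve Qb) := by
  simp [fam, WeierstrassCurve.baseChange, WeierstrassCurve.map]

/-- the relation for one pair of points -/
theorem kw_fam (hkw : TaskKW) (t u v u' v' w w' : ℤ) (ht : t ≠ 0) (ht1 : t ≠ 1)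
    (hu : 0 < u) (huv : u < v) (hu' : 0 < u') (huv' : u' < v') (hw : 0 < w) (hw' : 0 < w')
    (hne : cfA u v * w' ^ 4 ≠ cfA u' v' * w ^ 4)
    (hΔ : (fam t u v).Δ ≠ 0) (hΔ' : (fam t u' v').Δ ≠ 0)
    (h : (fam t u v).toAffine.Nonsingular (t * w ^ 2) (t * w ^ 3))
    (h' : (fam t u' v').toAffine.Nonsingular (t * w' ^ 2) (t * w' ^ 3)) :
    2 • (zc (constPt Qb (Affine.Point.some _ _ h)) (constPt Qb (Affine.Point.some _ _ h')) :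
      CH0 ((fam t u v)⁄Qb) ((fam t u' v')⁄Qb)) = 0 := by
  have inj := (algebraMap ℚ Qb).injective
  have hv := hu.trans huv
  have hv' := hu'.trans huv'
  have h0 : (t : ℚ) ≠ 0 := by exact_mod_cast ht
  have h1 : (t : ℚ) - 1 ≠ 0 := by
    rw [sub_ne_zero]; exact_mod_cast ht1
  have hu0 : (u : ℚ) ≠ 0 := by exact_mod_cast hu.ne'
  have hv0 : (v : ℚ) ≠ 0 := by exact_mod_cast hv.ne'
  have hw0 : (w : ℚ) ≠ 0 := by exact_mod_cast hw.ne'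
  have hw0' : (w' : ℚ) ≠ 0 := by exact_mod_cast hw'.ne'
  have hA0 : ((u : ℚ) ^ 4 + u ^ 2 * v ^ 2 + v ^ 4) ≠ 0 := by
    have := (cfA_pos hu huv).ne'
    unfold cfA at this
    exact_mod_cast this
  have hB0 : ((u : ℚ) ^ 2 + v ^ 2) ≠ 0 := by positivity
  have hd : ∀ a b : ℤ, (fam t a b).Δ ≠ 0 →
      4 * (algebraMap ℚ Qb (- (t : ℚ) * (t - 1) * ((a : ℚ) ^ 4 + a ^ 2 * b ^ 2 + b ^ 4))) ^ 3 +
      27 * (algebraMap ℚ Qb ((t : ℚ) ^ 2 * (t - 1) * a ^ 2 * b ^ 2 * (a ^ 2 + b ^ 2))) ^ 2 ≠ 0 := by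
    intro a b hab
    unfold fam at hab
    rw [short_Δ] at hab
    have hab' := right_ne_zero_of_mul hab
    have e4 : algebraMap ℚ Qb 4 = 4 := map_ofNat _ 4
    have e27 : algebraMap ℚ Qb 27 = 27 := map_ofNat _ 27
    rw [← e4, ← e27, ← map_pow, ← map_pow, ← map_mul, ← map_mul, ← map_add, Ne,
      map_eq_zero_iff _ inj]
    exact hab'
  rw [constPt_some, constPt_some]
  refine kw_free hkw _ _ _ _ _ _ (fam_bc t u v) (fam_bc t u' v') (hd u v hΔ) (hd u' v' hΔ') ?_ ?_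
    (algebraMap ℚ Qb (w' / w)) _ _ _ _ _ _ ?_ ?_ ?_ ?_
  · rintro ⟨h2, -⟩
    rw [map_eq_zero_iff _ inj] at h2
    exact (mul_ne_zero (mul_ne_zero (neg_ne_zero.2 h0) h1) hA0) h2
  · rintro ⟨h2, -⟩
    rw [map_eq_zero_iff _ inj] at h2
    exact (mul_ne_zero (mul_ne_zero (mul_ne_zero (mul_ne_zero (pow_ne_zero _ h0) h1)
      (pow_ne_zero _ hu0)) (pow_ne_zero _ hv0)) hB0) h2
  · rw [← map_pow, ← map_mul]
    congr 1
    field_simp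
  · rw [← map_pow, ← map_mul]
    congr 1
    field_simp
  · rw [Ne, map_eq_zero_iff _ inj]
    exact div_ne_zero hw0' hw0
  · rw [← map_pow, ← map_mul]
    intro h2
    have h3 := inj h2
    apply hne
    have h4 : ((cfA u v * w' ^ 4 : ℤ) : ℚ) = ((cfA u' v' * w ^ 4 : ℤ) : ℚ) := by
      unfold cfA
      push_cast
      rw [div_pow, mul_div_assoc', div_eq_iff (pow_ne_zero 4 hw0)] at h3
      have h5 : (-(t : ℚ) * (t - 1)) ≠ 0 := mul_ne_zero (neg_ne_zero.2 h0) h1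
      apply mul_left_cancel₀ h5
      linear_combination h3
    exact_mod_cast h4

theorem cf_crt (m n a b : ℤ) (h : IsCoprime m n) : ∃ t : ℤ, m ∣ t - a ∧ n ∣ t - b := by
  obtain ⟨x, y, hxy⟩ := h
  refine ⟨a * (y * n) + b * (x * m), ⟨x * (b - a), ?_⟩, ⟨y * (a - b), ?_⟩⟩
  · linear_combination a * hxy
  · linear_combination b * hxy

theorem cf_not_dvd {r : ℕ} {K : ℤ} (hK : K ≠ 0) (hr : K.natAbs < r) {a : ℤ} (ha : a ∣ K) :
    ¬ ((r : ℤ) ∣ a) := by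
  intro h
  have h1 : r ∣ K.natAbs := Int.natCast_dvd.1 (h.trans ha)
  have h2 : 0 < K.natAbs := Int.natAbs_pos.2 hK
  exact absurd (Nat.le_of_dvd h2 h1) (not_le.2 hr)

/-- the valuation condition -/
theorem cf_val (t u v u' v' : ℤ) (ht : t ≠ 0) (ht1 : t ≠ 1)
    (hu : 0 < u) (huv : u < v) (hu' : 0 < u') (huv' : u' < v')
    (hΔ : (fam t u v).Δ ≠ 0) (hΔ' : (fam t u' v').Δ ≠ 0) (r : ℕ) (hr : r.Prime)
    (h6 : ¬ ((r : ℤ) ∣ 6912)) (hA : ¬ ((r : ℤ) ∣ cfA u v)) (hB : ¬ ((r : ℤ) ∣ cfB u v))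
    (hE : ¬ ((r : ℤ) ∣ cfA u v ^ 3 * cfD u' v' ^ 2 - cfA u' v' ^ 3 * cfD u v ^ 2))
    (_hD : ¬ ((r : ℤ) ∣ cfD u v))
    (hr' : (r : ℤ) ∣ t * cfD u v ^ 2 - 4 * cfA u v ^ 3) :
    padicValRat r ((fam t u v).c₄ ^ 3 / (fam t u v).Δ) < 0 ∧
      0 ≤ padicValRat r ((fam t u' v').c₄ ^ 3 / (fam t u' v').Δ) := by
  have hpr : Prime (r : ℤ) := Nat.prime_iff_prime_int.1 hr
  have : Fact r.Prime := ⟨hr⟩
  have h27 : ¬ ((r : ℤ) ∣ 27) := fun h => h6 (h.trans ⟨256, by norm_num⟩)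
  have h4 : ¬ ((r : ℤ) ∣ 4) := fun h => h6 (h.trans ⟨1728, by norm_num⟩)
  have hden : ∀ a b : ℤ, (fam t a b).Δ ≠ 0 → t * cfD a b ^ 2 - 4 * cfA a b ^ 3 ≠ 0 := by
    intro a b hab h
    apply hab
    rw [fam_disc, h]; simp
  have hnum : ∀ a b : ℤ, 0 < a → a < b → 6912 * (t - 1) * cfA a b ^ 3 ≠ 0 := by
    intro a b ha hab
    exact mul_ne_zero (mul_ne_zero (by norm_num) (sub_ne_zero.2 ht1))
      (pow_ne_zero _ (cfA_pos ha hab).ne')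
  have hcast : ∀ z : ℤ, z ≠ 0 → ((z : ℤ) : ℚ) ≠ 0 := fun z hz => by exact_mod_cast hz
  constructor
  · rw [fam_j t u v ht ht1, padicValRat.div (hcast _ (hnum u v hu huv)) (hcast _ (hden u v hΔ)),
      padicValRat.of_int, padicValRat.of_int]
    have h1 : padicValInt r (6912 * (t - 1) * cfA u v ^ 3) = 0 := by
      apply padicValInt.eq_zero_of_not_dvd
      intro h
      rcases hpr.dvd_or_dvd h with h | h
      · rcases hpr.dvd_or_dvd h with h | h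
        · exact h6 h
        · -- `r ∣ t - 1`
          have h2 : (r : ℤ) ∣ 27 * cfB u v ^ 2 := by
            have h3 : 27 * cfB u v ^ 2 = (t - 1) * cfD u v ^ 2 -
                (t * cfD u v ^ 2 - 4 * cfA u v ^ 3) := by
              linear_combination - cf_disc u v
            rw [h3]
            exact dvd_sub (Dvd.dvd.mul_right h _) hr'
          rcases hpr.dvd_or_dvd h2 with h2 | h2
          · exact h27 h2
          · exact hB (hpr.dvd_of_dvd_pow h2)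
      · exact hA (hpr.dvd_of_dvd_pow h)
    have h2 : 1 ≤ padicValInt r (t * cfD u v ^ 2 - 4 * cfA u v ^ 3) := by
      have h3 := (padicValInt_dvd_iff (p := r) 1 (t * cfD u v ^ 2 - 4 * cfA u v ^ 3)).1 (by
        simpa using hr')
      exact h3.resolve_left (hden u v hΔ)
    rw [h1]
    have : (1 : ℤ) ≤ (padicValInt r (t * cfD u v ^ 2 - 4 * cfA u v ^ 3) : ℤ) := by
      exact_mod_cast h2
    push_cast
    linarith
  · rw [fam_j t u' v' ht ht1, padicValRat.div (hcast _ (hnum u' v' hu' huv'))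
      (hcast _ (hden u' v' hΔ')), padicValRat.of_int, padicValRat.of_int]
    have h2 : padicValInt r (t * cfD u' v' ^ 2 - 4 * cfA u' v' ^ 3) = 0 := by
      apply padicValInt.eq_zero_of_not_dvd
      intro h
      have h3 : (r : ℤ) ∣ 4 * (cfA u v ^ 3 * cfD u' v' ^ 2 - cfA u' v' ^ 3 * cfD u v ^ 2) := by
        have h4 : 4 * (cfA u v ^ 3 * cfD u' v' ^ 2 - cfA u' v' ^ 3 * cfD u v ^ 2) =
            (t * cfD u' v' ^ 2 - 4 * cfA u' v' ^ 3) * cfD u v ^ 2 -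
            (t * cfD u v ^ 2 - 4 * cfA u v ^ 3) * cfD u' v' ^ 2 := by ring
        rw [h4]
        exact dvd_sub (Dvd.dvd.mul_right h _) (Dvd.dvd.mul_right hr' _)
      rcases hpr.dvd_or_dvd h3 with h3 | h3
      · exact h4 h3
      · exact hE h3
    rw [h2]
    simp

/-- infinitely many good parameters -/
theorem cf_params (u v u' v' : ℤ) (hu : 0 < u) (huv : u < v) (hu' : 0 < u') (huv' : u' < v')
    (hE : cfA u v ^ 3 * cfD u' v' ^ 2 - cfA u' v' ^ 3 * cfD u v ^ 2 ≠ 0) (T : ℤ) :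
    ∃ t : ℤ, T ≤ t ∧
      (∃ l : ℕ, l.Prime ∧ l ≠ 2 ∧ (l : ℤ) ∣ t ∧ ¬ ((l : ℤ) ^ 2 ∣ t) ∧
        ¬ ((l : ℤ) ∣ u * v * (u ^ 4 + u ^ 2 * v ^ 2 + v ^ 4)) ∧
        ¬ ((l : ℤ) ∣ u' * v' * (u' ^ 4 + u' ^ 2 * v' ^ 2 + v' ^ 4))) ∧
      (∃ q : ℕ, q.Prime ∧ (q : ℤ) ∣ t - 1 ∧ ¬ ((q : ℤ) ^ 2 ∣ t - 1) ∧
        ¬ ((q : ℤ) ∣ u * v * (u ^ 2 + v ^ 2)) ∧ ¬ ((q : ℤ) ∣ u' * v' * (u' ^ 2 + v' ^ 2))) ∧
      (∃ r : ℕ, r.Prime ∧ ¬ ((r : ℤ) ∣ 6912) ∧ ¬ ((r : ℤ) ∣ cfA u v) ∧ ¬ ((r : ℤ) ∣ cfB u v) ∧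
        ¬ ((r : ℤ) ∣ cfA u v ^ 3 * cfD u' v' ^ 2 - cfA u' v' ^ 3 * cfD u v ^ 2) ∧
        ¬ ((r : ℤ) ∣ cfD u v) ∧ (r : ℤ) ∣ t * cfD u v ^ 2 - 4 * cfA u v ^ 3) := by
  have hv := hu.trans huv
  have hv' := hu'.trans huv'
  have hA := (cfA_pos hu huv).ne'
  have hB := (cfB_pos hu huv).ne'
  have hD := (cfD_pos hu huv).ne'
  have hA' := (cfA_pos hu' huv').ne'
  have hB' : u' ^ 2 + v' ^ 2 ≠ 0 := by positivity
  have hB1 : u ^ 2 + v ^ 2 ≠ 0 := by positivity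
  set K : ℤ := 6912 * (u * v * (u ^ 4 + u ^ 2 * v ^ 2 + v ^ 4)) *
    (u' * v' * (u' ^ 4 + u' ^ 2 * v' ^ 2 + v' ^ 4)) * (u * v * (u ^ 2 + v ^ 2)) *
    (u' * v' * (u' ^ 2 + v' ^ 2)) * cfA u v * cfB u v * cfD u v *
    (cfA u v ^ 3 * cfD u' v' ^ 2 - cfA u' v' ^ 3 * cfD u v ^ 2) with hK
  have hAA : u ^ 4 + u ^ 2 * v ^ 2 + v ^ 4 ≠ 0 := hA
  have hAA' : u' ^ 4 + u' ^ 2 * v' ^ 2 + v' ^ 4 ≠ 0 := hA'
  have hK0 : K ≠ 0 := by
    rw [hK]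
    exact mul_ne_zero (mul_ne_zero (mul_ne_zero (mul_ne_zero (mul_ne_zero (mul_ne_zero (mul_ne_zero
      (mul_ne_zero (by norm_num) (mul_ne_zero (mul_ne_zero hu.ne' hv.ne') hAA))
      (mul_ne_zero (mul_ne_zero hu'.ne' hv'.ne') hAA'))
      (mul_ne_zero (mul_ne_zero hu.ne' hv.ne') hB1))
      (mul_ne_zero (mul_ne_zero hu'.ne' hv'.ne') hB')) hA) hB) hD) hE
  obtain ⟨l, hl1, hl⟩ := Nat.exists_infinite_primes (K.natAbs + 3)
  obtain ⟨q, hq1, hq⟩ := Nat.exists_infinite_primes (l + 1)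
  obtain ⟨r, hr1, hr⟩ := Nat.exists_infinite_primes (q + 1)
  have d1 : (6912 : ℤ) ∣ K :=
    ⟨(u * v * (u ^ 4 + u ^ 2 * v ^ 2 + v ^ 4)) *
    (u' * v' * (u' ^ 4 + u' ^ 2 * v' ^ 2 + v' ^ 4)) * (u * v * (u ^ 2 + v ^ 2)) *
    (u' * v' * (u' ^ 2 + v' ^ 2)) * cfA u v * cfB u v * cfD u v *
    (cfA u v ^ 3 * cfD u' v' ^ 2 - cfA u' v' ^ 3 * cfD u v ^ 2), by rw [hK]; ring⟩
  have d2 : u * v * (u ^ 4 + u ^ 2 * v ^ 2 + v ^ 4) ∣ K :=
    ⟨6912 * (u' * v' * (u' ^ 4 + u' ^ 2 * v' ^ 2 + v' ^ 4)) * (u * v * (u ^ 2 + v ^ 2)) *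
    (u' * v' * (u' ^ 2 + v' ^ 2)) * cfA u v * cfB u v * cfD u v *
    (cfA u v ^ 3 * cfD u' v' ^ 2 - cfA u' v' ^ 3 * cfD u v ^ 2), by rw [hK]; ring⟩
  have d3 : u' * v' * (u' ^ 4 + u' ^ 2 * v' ^ 2 + v' ^ 4) ∣ K :=
    ⟨6912 * (u * v * (u ^ 4 + u ^ 2 * v ^ 2 + v ^ 4)) * (u * v * (u ^ 2 + v ^ 2)) *
    (u' * v' * (u' ^ 2 + v' ^ 2)) * cfA u v * cfB u v * cfD u v *
    (cfA u v ^ 3 * cfD u' v' ^ 2 - cfA u' v' ^ 3 * cfD u v ^ 2), by rw [hK]; ring⟩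
  have d4 : u * v * (u ^ 2 + v ^ 2) ∣ K :=
    ⟨6912 * (u * v * (u ^ 4 + u ^ 2 * v ^ 2 + v ^ 4)) *
    (u' * v' * (u' ^ 4 + u' ^ 2 * v' ^ 2 + v' ^ 4)) *
    (u' * v' * (u' ^ 2 + v' ^ 2)) * cfA u v * cfB u v * cfD u v *
    (cfA u v ^ 3 * cfD u' v' ^ 2 - cfA u' v' ^ 3 * cfD u v ^ 2), by rw [hK]; ring⟩
  have d5 : u' * v' * (u' ^ 2 + v' ^ 2) ∣ K :=
    ⟨6912 * (u * v * (u ^ 4 + u ^ 2 * v ^ 2 + v ^ 4)) *
    (u' * v' * (u' ^ 4 + u' ^ 2 * v' ^ 2 + v' ^ 4)) * (u * v * (u ^ 2 + v ^ 2)) *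
    cfA u v * cfB u v * cfD u v *
    (cfA u v ^ 3 * cfD u' v' ^ 2 - cfA u' v' ^ 3 * cfD u v ^ 2), by rw [hK]; ring⟩
  have d6 : cfA u v ∣ K :=
    ⟨6912 * (u * v * (u ^ 4 + u ^ 2 * v ^ 2 + v ^ 4)) *
    (u' * v' * (u' ^ 4 + u' ^ 2 * v' ^ 2 + v' ^ 4)) * (u * v * (u ^ 2 + v ^ 2)) *
    (u' * v' * (u' ^ 2 + v' ^ 2)) * cfB u v * cfD u v *
    (cfA u v ^ 3 * cfD u' v' ^ 2 - cfA u' v' ^ 3 * cfD u v ^ 2), by rw [hK]; ring⟩
  have d7 : cfB u v ∣ K :=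
    ⟨6912 * (u * v * (u ^ 4 + u ^ 2 * v ^ 2 + v ^ 4)) *
    (u' * v' * (u' ^ 4 + u' ^ 2 * v' ^ 2 + v' ^ 4)) * (u * v * (u ^ 2 + v ^ 2)) *
    (u' * v' * (u' ^ 2 + v' ^ 2)) * cfA u v * cfD u v *
    (cfA u v ^ 3 * cfD u' v' ^ 2 - cfA u' v' ^ 3 * cfD u v ^ 2), by rw [hK]; ring⟩
  have d8 : cfD u v ∣ K :=
    ⟨6912 * (u * v * (u ^ 4 + u ^ 2 * v ^ 2 + v ^ 4)) *
    (u' * v' * (u' ^ 4 + u' ^ 2 * v' ^ 2 + v' ^ 4)) * (u * v * (u ^ 2 + v ^ 2)) *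
    (u' * v' * (u' ^ 2 + v' ^ 2)) * cfA u v * cfB u v *
    (cfA u v ^ 3 * cfD u' v' ^ 2 - cfA u' v' ^ 3 * cfD u v ^ 2), by rw [hK]; ring⟩
  have d9 : cfA u v ^ 3 * cfD u' v' ^ 2 - cfA u' v' ^ 3 * cfD u v ^ 2 ∣ K := Dvd.intro_left _ rfl
  clear_value K
  have hKl : K.natAbs < l := by omega
  have hKq : K.natAbs < q := by omega
  have hKr : K.natAbs < r := by omega
  have hlq : IsCoprime ((l : ℤ) ^ 2) ((q : ℤ) ^ 2) := by
    apply IsCoprime.pow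
    rw [Nat.isCoprime_iff_coprime, Nat.coprime_primes hl hq]
    omega
  have hlr : IsCoprime ((l : ℤ) ^ 2) (r : ℤ) := by
    apply IsCoprime.pow_left
    rw [Nat.isCoprime_iff_coprime, Nat.coprime_primes hl hr]
    omega
  have hqr : IsCoprime ((q : ℤ) ^ 2) (r : ℤ) := by
    apply IsCoprime.pow_left
    rw [Nat.isCoprime_iff_coprime, Nat.coprime_primes hq hr]
    omega
  have hpr : Prime (r : ℤ) := Nat.prime_iff_prime_int.1 hr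
  have hDr : IsCoprime (cfD u v ^ 2) (r : ℤ) := by
    apply IsCoprime.pow_left
    exact ((Prime.coprime_iff_not_dvd hpr).2 (cf_not_dvd hK0 hKr d8)).symm
  obtain ⟨x, y, hxy⟩ := hDr
  obtain ⟨t1, ht1, ht2⟩ := cf_crt _ _ (l : ℤ) (1 + q) hlq
  obtain ⟨t0, ht3, ht4⟩ := cf_crt _ _ t1 (4 * cfA u v ^ 3 * x) (IsCoprime.mul_left hlr hqr)
  have hl2 : (1 : ℤ) ≤ (l : ℤ) := by exact_mod_cast hl.one_lt.le
  have hq2 : (1 : ℤ) ≤ (q : ℤ) := by exact_mod_cast hq.one_lt.le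
  have hr2 : (1 : ℤ) ≤ (r : ℤ) := by exact_mod_cast hr.one_lt.le
  set N : ℤ := (l : ℤ) ^ 2 * (q : ℤ) ^ 2 * r with hN
  have hN1 : 1 ≤ N := by
    rw [hN]
    exact one_le_mul_of_one_le_of_one_le (one_le_mul_of_one_le_of_one_le (one_le_pow₀ hl2)
      (one_le_pow₀ hq2)) hr2
  have hl3 : (l : ℤ) ^ 2 ∣ (t0 + (|T| + |t0|) * N) - l := by
    have e : (t0 + (|T| + |t0|) * N) - l = (t0 - t1) + (t1 - l) + (|T| + |t0|) * N := by ring
    rw [e]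
    refine dvd_add (dvd_add ((Dvd.intro _ rfl).trans ht3) ht1) (Dvd.dvd.mul_left ?_ _)
    exact ⟨(q : ℤ) ^ 2 * r, by rw [hN]; ring⟩
  have hq3 : (q : ℤ) ^ 2 ∣ (t0 + (|T| + |t0|) * N) - (1 + q) := by
    have e : (t0 + (|T| + |t0|) * N) - (1 + q) =
        (t0 - t1) + (t1 - (1 + q)) + (|T| + |t0|) * N := by ring
    rw [e]
    refine dvd_add (dvd_add ((Dvd.intro_left _ rfl).trans ht3) ht2) (Dvd.dvd.mul_left ?_ _)
    exact ⟨(l : ℤ) ^ 2 * r, by rw [hN]; ring⟩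
  have hr3 : (r : ℤ) ∣ (t0 + (|T| + |t0|) * N) * cfD u v ^ 2 - 4 * cfA u v ^ 3 := by
    have e : (t0 + (|T| + |t0|) * N) * cfD u v ^ 2 - 4 * cfA u v ^ 3 =
        (t0 - 4 * cfA u v ^ 3 * x) * cfD u v ^ 2 + ((|T| + |t0|) * cfD u v ^ 2) * N
        - 4 * cfA u v ^ 3 * y * r := by
      linear_combination (4 * cfA u v ^ 3) * hxy
    rw [e]
    refine dvd_sub (dvd_add (Dvd.dvd.mul_right ht4 _) (Dvd.dvd.mul_left ?_ _)) (Dvd.intro_left _ rfl)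
    exact ⟨(l : ℤ) ^ 2 * (q : ℤ) ^ 2, by rw [hN]; ring⟩
  refine ⟨t0 + (|T| + |t0|) * N, ?_, ⟨l, hl, by omega, ?_, ?_, cf_not_dvd hK0 hKl d2,
    cf_not_dvd hK0 hKl d3⟩, ⟨q, hq, ?_, ?_, cf_not_dvd hK0 hKq d4, cf_not_dvd hK0 hKq d5⟩,
    ⟨r, hr, cf_not_dvd hK0 hKr d1, cf_not_dvd hK0 hKr d6, cf_not_dvd hK0 hKr d7,
      cf_not_dvd hK0 hKr d9, cf_not_dvd hK0 hKr d8, hr3⟩⟩
  · have h1 : |T| + |t0| ≤ (|T| + |t0|) * N :=
      le_mul_of_one_le_right (add_nonneg (abs_nonneg _) (abs_nonneg _)) hN1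
    have h2 := neg_abs_le t0
    have h3 := le_abs_self T
    linarith
  · have h1 := (dvd_pow_self (l : ℤ) two_ne_zero).trans hl3
    have h2 := dvd_add h1 (dvd_refl (l : ℤ))
    rwa [sub_add_cancel] at h2
  · intro h
    have h1 := dvd_sub h hl3
    rw [sub_sub_cancel] at h1
    have h2 : l ^ 2 ∣ l := by exact_mod_cast h1
    have h3 := Nat.le_of_dvd hl.pos h2
    have h4 := hl.two_le
    nlinarith
  · have h1 := (dvd_pow_self (q : ℤ) two_ne_zero).trans hq3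
    have h2 := dvd_add h1 (dvd_refl (q : ℤ))
    have e : t0 + (|T| + |t0|) * N - (1 + (q : ℤ)) + q = t0 + (|T| + |t0|) * N - 1 := by ring
    rwa [e] at h2
  · intro h
    have h1 := dvd_sub h hq3
    have e : t0 + (|T| + |t0|) * N - 1 - (t0 + (|T| + |t0|) * N - (1 + (q : ℤ))) = q := by ring
    rw [e] at h1
    have h2 : q ^ 2 ∣ q := by exact_mod_cast h1
    have h3 := Nat.le_of_dvd hq.pos h2
    have h4 := hq.two_le
    nlinarith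

/-- `A(u, v) / w ^ 4` for `w = u` -/
theorem cf_ne_same {u v u' v' : ℤ} (hu : 0 < u) (huv : u < v) (hu' : 0 < u') (huv' : u' < v')
    (hE : cfA u v ^ 3 * cfD u' v' ^ 2 - cfA u' v' ^ 3 * cfD u v ^ 2 ≠ 0) :
    cfA u v * u' ^ 4 ≠ cfA u' v' * u ^ 4 ∧ cfA u v * v' ^ 4 ≠ cfA u' v' * v ^ 4 := by
  have hv := hu.trans huv
  have hv' := hu'.trans huv'
  have key : u * v' = u' * v → False := by
    intro h
    apply hE
    -- homogeneity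
    have hu4 : u ^ 24 ≠ 0 := pow_ne_zero _ hu.ne'
    apply mul_left_cancel₀ hu4
    have e1 : u ^ 4 * cfA u' v' = u' ^ 4 * cfA u v := by
      have : u ^ 4 * cfA u' v' = u ^ 4 * u' ^ 4 + u' ^ 2 * u ^ 2 * (u * v') ^ 2 + (u * v') ^ 4 := by
        unfold cfA; ring
      rw [this, h]; unfold cfA; ring
    have e2 : u ^ 6 * cfD u' v' = u' ^ 6 * cfD u v := by
      have : u ^ 6 * cfD u' v' = ((u * v') ^ 2 - u ^ 2 * u' ^ 2) * (2 * u ^ 2 * u' ^ 2 + (u * v') ^ 2)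
          * (u ^ 2 * u' ^ 2 + 2 * (u * v') ^ 2) := by
        unfold cfD; ring
      rw [this, h]; unfold cfD; ring
    have : u ^ 24 * (cfA u v ^ 3 * cfD u' v' ^ 2 - cfA u' v' ^ 3 * cfD u v ^ 2) =
        u ^ 12 * cfA u v ^ 3 * (u ^ 6 * cfD u' v') ^ 2 -
        u ^ 12 * (u ^ 4 * cfA u' v') ^ 3 * cfD u v ^ 2 := by ring
    rw [this, e1, e2]
    ring
  constructor
  · intro h
    apply key
    have h1 : ((u * v') ^ 2 - (u' * v) ^ 2) * ((u * v') ^ 2 + (u' * v) ^ 2 + (u * u') ^ 2) = 0 := by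
      unfold cfA at h
      linear_combination - h
    rcases mul_eq_zero.1 h1 with h2 | h2
    · rw [sub_eq_zero, sq_eq_sq₀ (by positivity) (by positivity)] at h2
      exact h2
    · exfalso; have : 0 < (u * v') ^ 2 + (u' * v) ^ 2 + (u * u') ^ 2 := by positivity
      exact this.ne' h2
  · intro h
    apply key
    have h1 : ((u * v') ^ 2 - (u' * v) ^ 2) * ((u * v') ^ 2 + (u' * v) ^ 2 + (v * v') ^ 2) = 0 := by
      unfold cfA at h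
      linear_combination h
    rcases mul_eq_zero.1 h1 with h2 | h2
    · rw [sub_eq_zero, sq_eq_sq₀ (by positivity) (by positivity)] at h2
      exact h2
    · exfalso; have : 0 < (u * v') ^ 2 + (u' * v) ^ 2 + (v * v') ^ 2 := by positivity
      exact this.ne' h2

theorem cf_lt {u v u' v' : ℤ} (hu : 0 < u) (huv : u < v) (hu' : 0 < u') (huv' : u' < v') :
    cfA u' v' * u ^ 4 < cfA u v * v' ^ 4 := by
  have hv := hu.trans huv
  have hv' := hu'.trans huv'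
  have h1 : cfA u' v' < 3 * v' ^ 4 := by
    have h2 : u' ^ 2 < v' ^ 2 := by nlinarith
    have h3 : 0 < u' ^ 2 := by positivity
    unfold cfA
    nlinarith
  have h2 : 3 * u ^ 4 < cfA u v := by
    have h2 : u ^ 2 < v ^ 2 := by nlinarith
    have h3 : 0 < u ^ 2 := by positivity
    unfold cfA
    nlinarith
  have h3 : 0 < u ^ 4 := by positivity
  have h4 : 0 < v' ^ 4 := by positivity
  calc cfA u' v' * u ^ 4 < 3 * v' ^ 4 * u ^ 4 := mul_lt_mul_of_pos_right h1 h3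
    _ = 3 * u ^ 4 * v' ^ 4 := by ring
    _ < cfA u v * v' ^ 4 := mul_lt_mul_of_pos_right h2 h4

/-- Theorem C -/
theorem cf (hkw : TaskKW) (hc1 : TaskC1) : TaskCf := by
  intro u v u' v' hu huv hu' huv' hne
  have hv := hu.trans huv
  have hv' := hu'.trans huv'
  have hE : cfA u v ^ 3 * cfD u' v' ^ 2 - cfA u' v' ^ 3 * cfD u v ^ 2 ≠ 0 := sub_ne_zero.2 hne
  obtain ⟨T₁, hT₁⟩ := hc1 u v hu huv
  obtain ⟨T₂, hT₂⟩ := hc1 u' v' hu' huv'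
  apply Set.infinite_of_not_bddAbove
  rintro ⟨M, hM⟩
  obtain ⟨t, htT, ⟨l, hl, hl2, hlt, hlt2, hlA, hlA'⟩, ⟨q, hq, hqt, hqt2, hqB, hqB'⟩,
    ⟨r, hr, h6, hrA, hrB, hrE, hrD, hrt⟩⟩ :=
    cf_params u v u' v' hu huv hu' huv' hE (max (max T₁ T₂) (max (M + 1) 2))
  have ht1 : T₁ ≤ t := (le_max_left _ _).trans ((le_max_left _ _).trans htT)
  have ht2 : T₂ ≤ t := (le_max_right _ _).trans ((le_max_left _ _).trans htT)
  have ht3 : M + 1 ≤ t := (le_max_left _ _).trans ((le_max_right _ _).trans htT)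
  have ht4 : 2 ≤ t := (le_max_right _ _).trans ((le_max_right _ _).trans htT)
  obtain ⟨hΔ, h₁, h₂, hli⟩ := hT₁ t ht1 ⟨l, hl, hl2, hlt, hlt2, hlA⟩ ⟨q, hq, hqt, hqt2, hqB⟩
  obtain ⟨hΔ', h₁', h₂', hli'⟩ := hT₂ t ht2 ⟨l, hl, hl2, hlt, hlt2, hlA'⟩ ⟨q, hq, hqt, hqt2, hqB'⟩
  have htM : t ≤ M := by
    apply hM
    refine ⟨hΔ, hΔ', ⟨r, hr, cf_val t u v u' v' (by omega) (by omega) hu huv hu' huv' hΔ hΔ' r hr
      h6 hrA hrB hrE hrD hrt⟩, _, _, _, _, hli, hli', ?_⟩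
    have hell : ∀ a b : ℤ, (fam t a b).Δ ≠ 0 → ((fam t a b)⁄Qb).IsElliptic := by
      intro a b hab
      refine ⟨?_⟩
      rw [WeierstrassCurve.baseChange, WeierstrassCurve.map_Δ, isUnit_iff_ne_zero, Ne,
        map_eq_zero_iff _ (algebraMap ℚ Qb).injective]
      exact hab
    apply closure_zc _ _ (hell u v hΔ) (hell u' v' hΔ')
    obtain ⟨n1, n2⟩ := cf_ne_same hu huv hu' huv' hE
    have n3 := cf_lt hu huv hu' huv'
    have n4 := cf_lt hu' huv' hu huv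
    intro P hP Q hQ
    simp only [Set.mem_insert_iff, Set.mem_singleton_iff] at hP hQ
    rcases hP with rfl | rfl <;> rcases hQ with rfl | rfl
    · exact kw_fam hkw t u v u' v' u u' (by omega) (by omega) hu huv hu' huv' hu hu' n1 hΔ hΔ' _ _
    · exact kw_fam hkw t u v u' v' u v' (by omega) (by omega) hu huv hu' huv' hu hv' n3.ne' hΔ hΔ' _ _
    · exact kw_fam hkw t u v u' v' v u' (by omega) (by omega) hu huv hu' huv' hv hu' n4.ne hΔ hΔ' _ _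
    · exact kw_fam hkw t u v u' v' v v' (by omega) (by omega) hu huv hu' huv' hv hv' n2 hΔ hΔ' _ _
  omega

end Pool.Agent.LibBH2
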