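import Pool.Agent.LibBH2.Place

/-!
Places of a field generated over `k(s)` by a square root `w` of a polynomial in `s`.
-/

open scoped Classical
open Polynomial

namespace Pool.Agent.LibBH2

/-- Presentation of `K` as `k(s)(w)`, `w ^ 2 = F(s)`. -/
structure DC (k K : Type) [Field k] [Field K] [Algebra k K] where
  ι : RatFunc k →ₐ[k] K
  w : K
  F : Polynomial k
  hw : w ^ 2 = ι (algebraMap (Polynomial k) (RatFunc k) F)
  gen : ∀ g : K, ∃ a b : RatFunc k, g = ι a + ι b * w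

variable {k K : Type} [Field k] [Field K] [Algebra k K]

theorem ratfunc_pair (s₀ : k) (a b : RatFunc k) (hab : a ≠ 0 ∨ b ≠ 0) :
    ∃ (n : ℤ) (A B Q : Polynomial k), Q.eval s₀ ≠ 0 ∧ (A.eval s₀ ≠ 0 ∨ B.eval s₀ ≠ 0) ∧
      a = (algebraMap (Polynomial k) (RatFunc k) (X - C s₀)) ^ n *
        (algebraMap (Polynomial k) (RatFunc k) A / algebraMap (Polynomial k) (RatFunc k) Q) ∧
      b = (algebraMap (Polynomial k) (RatFunc k) (X - C s₀)) ^ n *
        (algebraMap (Polynomial k) (RatFunc k) B / algebraMap (Polynomial k) (RatFunc k) Q) := by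
  set A₁ := a.num * b.denom with hA₁
  set B₁ := b.num * a.denom with hB₁
  set Q₁ := a.denom * b.denom with hQ₁
  have hQ₁0 : Q₁ ≠ 0 := mul_ne_zero a.denom_ne_zero b.denom_ne_zero
  have hAB : A₁ ≠ 0 ∨ B₁ ≠ 0 := by
    rcases hab with h | h
    · left; exact mul_ne_zero (by simpa using h) b.denom_ne_zero
    · right; exact mul_ne_zero (by simpa using h) a.denom_ne_zero
  set G := gcd A₁ B₁ with hG
  have hG0 : G ≠ 0 := by
    intro h
    rw [hG, gcd_eq_zero_iff] at h
    rcases hAB with h' | h'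
    · exact h' h.1
    · exact h' h.2
  obtain ⟨A₂, hA₂⟩ : G ∣ A₁ := gcd_dvd_left _ _
  obtain ⟨B₂, hB₂⟩ : G ∣ B₁ := gcd_dvd_right _ _
  have hcop : IsUnit (gcd A₂ B₂) := by
    have h1 : gcd (G * A₂) (G * B₂) = normalize G * gcd A₂ B₂ := gcd_mul_left _ _ _
    rw [← hA₂, ← hB₂, ← hG] at h1
    have h2 : normalize G = G := by rw [hG, normalize_gcd]
    rw [h2] at h1
    have h3 : G * 1 = G * gcd A₂ B₂ := by rw [mul_one]; exact h1
    rw [← mul_left_cancel₀ hG0 h3]
    exact isUnit_one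
  have hev : A₂.eval s₀ ≠ 0 ∨ B₂.eval s₀ ≠ 0 := by
    by_contra hcon
    push Not at hcon
    have h1 : (X - C s₀) ∣ gcd A₂ B₂ :=
      dvd_gcd (dvd_iff_isRoot.2 hcon.1) (dvd_iff_isRoot.2 hcon.2)
    exact (not_isUnit_X_sub_C s₀) (isUnit_of_dvd_unit h1 hcop)
  obtain ⟨G', hG', hG'nd⟩ := exists_eq_pow_rootMultiplicity_mul_and_not_dvd G hG0 s₀
  obtain ⟨Q', hQ', hQ'nd⟩ := exists_eq_pow_rootMultiplicity_mul_and_not_dvd Q₁ hQ₁0 s₀
  set m := rootMultiplicity s₀ G
  set l := rootMultiplicity s₀ Q₁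
  have hG'e : G'.eval s₀ ≠ 0 := fun h => hG'nd (dvd_iff_isRoot.2 h)
  have hQ'e : Q'.eval s₀ ≠ 0 := fun h => hQ'nd (dvd_iff_isRoot.2 h)
  have hX : algebraMap (Polynomial k) (RatFunc k) (X - C s₀) ≠ 0 :=
    RatFunc.algebraMap_ne_zero (X_sub_C_ne_zero s₀)
  have hQ'0 : algebraMap (Polynomial k) (RatFunc k) Q' ≠ 0 := by
    have : Q' ≠ 0 := by rintro rfl; simp at hQ'e
    simpa using this
  have ha : a = algebraMap _ (RatFunc k) A₁ / algebraMap _ (RatFunc k) Q₁ := by
    have hd1 : algebraMap (Polynomial k) (RatFunc k) a.denom ≠ 0 := by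
      simpa using a.denom_ne_zero
    have hd2 : algebraMap (Polynomial k) (RatFunc k) b.denom ≠ 0 := by
      simpa using b.denom_ne_zero
    rw [hA₁, hQ₁, map_mul, map_mul, mul_div_mul_right _ _ hd2, RatFunc.num_div_denom]
  have hb : b = algebraMap _ (RatFunc k) B₁ / algebraMap _ (RatFunc k) Q₁ := by
    have hd1 : algebraMap (Polynomial k) (RatFunc k) a.denom ≠ 0 := by
      simpa using a.denom_ne_zero
    rw [hB₁, hQ₁, map_mul, map_mul, mul_comm (algebraMap _ (RatFunc k) a.denom),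
      mul_div_mul_right _ _ hd1, RatFunc.num_div_denom]
  refine ⟨(m : ℤ) - l, G' * A₂, G' * B₂, Q', hQ'e, ?_, ?_, ?_⟩
  · rcases hev with h | h
    · left; rw [eval_mul]; exact mul_ne_zero hG'e h
    · right; rw [eval_mul]; exact mul_ne_zero hG'e h
  · have e1 : A₁ = (X - C s₀) ^ m * (G' * A₂) := by rw [hA₂]; conv_lhs => rw [hG']
                                                    ring
    rw [ha, hQ', e1]
    simp only [map_mul, map_pow]
    rw [zpow_sub₀ hX, zpow_natCast, zpow_natCast]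
    field_simp
  · have e1 : B₁ = (X - C s₀) ^ m * (G' * B₂) := by rw [hB₂]; conv_lhs => rw [hG']
                                                    ring
    rw [hb, hQ', e1]
    simp only [map_mul, map_pow]
    rw [zpow_sub₀ hX, zpow_natCast, zpow_natCast]
    field_simp

namespace DC

variable (D : DC k K)

/-- the parameter -/
noncomputable def s : K := D.ι RatFunc.X

theorem ι_poly (P : Polynomial k) :
    D.ι (algebraMap (Polynomial k) (RatFunc k) P) = aeval D.s P := by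
  have : D.ι.comp (IsScalarTower.toAlgHom k (Polynomial k) (RatFunc k)) =
      (aeval D.s : Polynomial k →ₐ[k] K) := by
    apply Polynomial.algHom_ext
    simp [DC.s, RatFunc.algebraMap_X]
  exact DFunLike.congr_fun this P

theorem ι_inj : Function.Injective D.ι := D.ι.toRingHom.injective

theorem aeval_ne_zero {P : Polynomial k} (hP : P ≠ 0) : aeval D.s P ≠ 0 := by
  rw [← D.ι_poly]
  intro h
  rw [map_eq_zero] at h
  exact hP (by simpa using h)

theorem s_sub_ne_zero (s₀ : k) : D.s - algebraMap k K s₀ ≠ 0 := by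
  have := D.aeval_ne_zero (X_sub_C_ne_zero s₀)
  simpa using this

/-- every element near `s₀` -/
theorem local_form (s₀ : k) (g : K) (hg : g ≠ 0) :
    ∃ (n : ℤ) (A B Q : Polynomial k), Q.eval s₀ ≠ 0 ∧ (A.eval s₀ ≠ 0 ∨ B.eval s₀ ≠ 0) ∧
      g = (D.s - algebraMap k K s₀) ^ n * ((aeval D.s A + aeval D.s B * D.w) / aeval D.s Q) := by
  obtain ⟨a, b, rfl⟩ := D.gen g
  have hab : a ≠ 0 ∨ b ≠ 0 := by
    by_contra h
    push Not at h
    exact hg (by simp [h.1, h.2])
  obtain ⟨n, A, B, Q, hQ, hAB, ha, hb⟩ := ratfunc_pair s₀ a b hab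
  refine ⟨n, A, B, Q, hQ, hAB, ?_⟩
  rw [ha, hb]
  simp only [map_mul, map_div₀, map_zpow₀, D.ι_poly]
  have : aeval D.s (X - C s₀) = D.s - algebraMap k K s₀ := by simp
  rw [this]
  ring

theorem aeval_F : D.w ^ 2 = aeval D.s D.F := by rw [D.hw, D.ι_poly]

theorem ord_poly {v : Place k K} {s₀ : k} (h : v.Zer (D.s - algebraMap k K s₀))
    {P : Polynomial k} (hP : P.eval s₀ ≠ 0) : v.ord (aeval D.s P) = 0 :=
  Place.ord_eq_zero_of_val (Place.val_aeval h P) hP

theorem ord_poly_mult {v : Place k K} {s₀ : k} (h : v.Zer (D.s - algebraMap k K s₀))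
    {P : Polynomial k} (hP : P ≠ 0) : v.ord (aeval D.s P) =
      (rootMultiplicity s₀ P : ℤ) * v.ord (D.s - algebraMap k K s₀) := by
  obtain ⟨P', hP', hP'nd⟩ := exists_eq_pow_rootMultiplicity_mul_and_not_dvd P hP s₀
  have hP'e : P'.eval s₀ ≠ 0 := fun h => hP'nd (dvd_iff_isRoot.2 h)
  have hP'0 : P' ≠ 0 := by rintro rfl; simp at hP'e
  conv_lhs => rw [hP']
  rw [map_mul, map_pow]
  have h1 : aeval D.s (X - C s₀) = D.s - algebraMap k K s₀ := by simp
  rw [h1, v.ord_mul _ _ (pow_ne_zero _ (D.s_sub_ne_zero s₀)) (D.aeval_ne_zero hP'0), v.ord_pow,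
    D.ord_poly h hP'e, add_zero]

/-- unramified case: all orders at places over `(s₀, y₀)` are determined -/
theorem unram_ord (h2 : (2 : k) ≠ 0) {s₀ y₀ : k} (hy : y₀ ≠ 0) (g : K) (hg : g ≠ 0) :
    ∃ N : ℤ, ∀ v : Place k K, v.Zer (D.s - algebraMap k K s₀) → v.Zer (D.w - algebraMap k K y₀) →
      v.ord g = N * v.ord (D.s - algebraMap k K s₀) := by
  obtain ⟨n, A, B, Q, hQ, hAB, rfl⟩ := D.local_form s₀ g hg
  have hQ0 : Q ≠ 0 := by rintro rfl; simp at hQ
  have hE0 : aeval D.s A + aeval D.s B * D.w ≠ 0 := by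
    intro h; exact hg (by rw [h]; simp)
  have key : ∃ M : ℤ, ∀ v : Place k K, v.Zer (D.s - algebraMap k K s₀) →
      v.Zer (D.w - algebraMap k K y₀) →
      v.ord (aeval D.s A + aeval D.s B * D.w) = M * v.ord (D.s - algebraMap k K s₀) := by
    by_cases hval : A.eval s₀ + B.eval s₀ * y₀ = 0
    · -- use the conjugate
      have hB : B.eval s₀ ≠ 0 := by
        intro hB
        rw [hB, zero_mul, add_zero] at hval
        rcases hAB with h | h
        · exact h hval
        · exact h hB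
      have hconj : A.eval s₀ + (-B.eval s₀) * y₀ ≠ 0 := by
        intro h
        have : 2 * (B.eval s₀ * y₀) = 0 := by linear_combination hval - h
        exact (mul_ne_zero h2 (mul_ne_zero hB hy)) this
      have hprod : (aeval D.s A + aeval D.s B * D.w) * (aeval D.s A + (-aeval D.s B) * D.w) =
          aeval D.s (A ^ 2 - B ^ 2 * D.F) := by
        rw [map_sub, map_mul, map_pow, map_pow, ← D.aeval_F]; ring
      by_cases hE' : aeval D.s A + (-aeval D.s B) * D.w = 0
      · -- then no such place exists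
        refine ⟨0, fun v hv hw => ?_⟩
        exfalso
        have h1 := Place.val_add (Place.val_aeval hv A)
          (Place.val_mul (Place.val_neg (Place.val_aeval hv B)) hw)
        exact Place.ne_zero_of_val h1 hconj hE'
      have hP0 : A ^ 2 - B ^ 2 * D.F ≠ 0 := by
        intro h
        rw [h, map_zero] at hprod
        exact (mul_ne_zero hE0 hE') hprod
      refine ⟨rootMultiplicity s₀ (A ^ 2 - B ^ 2 * D.F), fun v hv hw => ?_⟩
      have h1 := Place.val_add (Place.val_aeval hv A)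
          (Place.val_mul (Place.val_neg (Place.val_aeval hv B)) hw)
      have h2 := Place.ord_eq_zero_of_val h1 hconj
      have h3 := v.ord_mul _ _ hE0 hE'
      rw [h2, add_zero, hprod] at h3
      rw [← h3, D.ord_poly_mult hv hP0]
    · refine ⟨0, fun v hv hw => ?_⟩
      rw [zero_mul]
      exact Place.ord_eq_zero_of_val (Place.val_add (Place.val_aeval hv A)
        (Place.val_mul (Place.val_aeval hv B) hw)) hval
  obtain ⟨M, hM⟩ := key
  refine ⟨n + M, fun v hv hw => ?_⟩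
  rw [v.ord_mul _ _ (zpow_ne_zero _ (D.s_sub_ne_zero s₀)) (div_ne_zero hE0 (D.aeval_ne_zero hQ0)),
    v.ord_div _ _ hE0 (D.aeval_ne_zero hQ0), v.ord_zpow, D.ord_poly hv hQ, hM v hv hw]
  ring

theorem unram_e (h2 : (2 : k) ≠ 0) {s₀ y₀ : k} (hy : y₀ ≠ 0) (v : Place k K)
    (hv : v.Zer (D.s - algebraMap k K s₀)) (hw : v.Zer (D.w - algebraMap k K y₀)) :
    v.ord (D.s - algebraMap k K s₀) = 1 := by
  obtain ⟨t, ht⟩ := v.exists_uniformizer
  have ht0 : t ≠ 0 := by rintro rfl; rw [v.ord_zero] at ht; exact zero_ne_one ht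
  obtain ⟨N, hN⟩ := D.unram_ord h2 hy t ht0
  have h1 := hN v hv hw
  rw [ht] at h1
  have hpos := hv.resolve_left (D.s_sub_ne_zero s₀)
  have : v.ord (D.s - algebraMap k K s₀) ∣ 1 := ⟨N, by rw [mul_comm]; exact h1⟩
  rcases Int.isUnit_iff.1 (isUnit_of_dvd_one this) with h | h
  · exact h
  · rw [h] at hpos; omega

theorem unram_unique (h2 : (2 : k) ≠ 0) {s₀ y₀ : k} (hy : y₀ ≠ 0) (v v' : Place k K)
    (hv : v.Zer (D.s - algebraMap k K s₀)) (hw : v.Zer (D.w - algebraMap k K y₀))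
    (hv' : v'.Zer (D.s - algebraMap k K s₀)) (hw' : v'.Zer (D.w - algebraMap k K y₀)) :
    v = v' := by
  apply Place.ext'
  intro f
  by_cases hf : f = 0
  · rw [hf, v.ord_zero, v'.ord_zero]
  obtain ⟨N, hN⟩ := D.unram_ord h2 hy f hf
  rw [hN v hv hw, hN v' hv' hw', D.unram_e h2 hy v hv hw, D.unram_e h2 hy v' hv' hw']

/-- the sign: over `s₀` with `F(s₀) = y₀ ^ 2`, `w` has value `± y₀` -/
theorem w_val {s₀ y₀ : k} (hF : D.F.eval s₀ = y₀ ^ 2) (v : Place k K)
    (hv : v.Zer (D.s - algebraMap k K s₀)) :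
    v.Zer (D.w - algebraMap k K y₀) ∨ v.Zer (D.w - algebraMap k K (-y₀)) := by
  have h1 := Place.val_aeval hv D.F
  rw [← D.aeval_F, hF] at h1
  have h3 : D.w ^ 2 - algebraMap k K (y₀ ^ 2) =
      (D.w - algebraMap k K y₀) * (D.w - algebraMap k K (-y₀)) := by
    rw [map_pow, map_neg]; ring
  rw [h3] at h1
  rcases h1 with h1 | h1
  · rcases mul_eq_zero.1 h1 with h | h
    · exact Or.inl (Or.inl h)
    · exact Or.inr (Or.inl h)
  · by_cases ha : D.w - algebraMap k K y₀ = 0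
    · exact Or.inl (Or.inl ha)
    by_cases hb : D.w - algebraMap k K (-y₀) = 0
    · exact Or.inr (Or.inl hb)
    rw [v.ord_mul _ _ ha hb] at h1
    by_cases hc : 0 < v.ord (D.w - algebraMap k K y₀)
    · exact Or.inl (Or.inr hc)
    · exact Or.inr (Or.inr (by omega))

section ram

variable {s₀ : k} (hF0 : D.F.eval s₀ = 0) (hF1 : D.F.derivative.eval s₀ ≠ 0)

include hF0 hF1

theorem ram_factor : ∃ G : Polynomial k, G.eval s₀ ≠ 0 ∧ D.F = (X - C s₀) * G := by
  obtain ⟨G, hG⟩ := dvd_iff_isRoot.2 hF0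
  refine ⟨G, ?_, hG⟩
  rw [hG, derivative_mul, eval_add, eval_mul, eval_mul] at hF1
  simpa using hF1

theorem ram_s (v : Place k K) (hv : v.Zer (D.s - algebraMap k K s₀)) :
    v.ord (D.s - algebraMap k K s₀) = 2 * v.ord D.w ∧ 0 < v.ord D.w ∧ D.w ≠ 0 := by
  obtain ⟨G, hG, hFG⟩ := D.ram_factor hF0 hF1
  have hG0 : G ≠ 0 := by rintro rfl; simp at hG
  have h1 := D.aeval_F
  rw [hFG, map_mul] at h1
  have h3 : aeval D.s (X - C s₀) = D.s - algebraMap k K s₀ := by simp
  rw [h3] at h1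
  have hpos := hv.resolve_left (D.s_sub_ne_zero s₀)
  have h4 : v.ord (D.w ^ 2) = v.ord (D.s - algebraMap k K s₀) := by
    rw [h1, v.ord_mul _ _ (D.s_sub_ne_zero s₀) (D.aeval_ne_zero hG0), D.ord_poly hv hG, add_zero]
  rw [v.ord_pow] at h4
  have hw0 : D.w ≠ 0 := by
    intro h
    rw [h, v.ord_zero] at h4
    omega
  refine ⟨?_, ?_, hw0⟩
  · rw [← h4]; norm_cast
  · by_contra hcon
    push_cast at h4
    omega

theorem ram_ord (g : K) (hg : g ≠ 0) :
    ∃ N : ℤ, ∀ v : Place k K, v.Zer (D.s - algebraMap k K s₀) → v.ord g = N * v.ord D.w := by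
  obtain ⟨n, A, B, Q, hQ, hAB, rfl⟩ := D.local_form s₀ g hg
  have hQ0 : Q ≠ 0 := by rintro rfl; simp at hQ
  have hE0 : aeval D.s A + aeval D.s B * D.w ≠ 0 := by
    intro h; exact hg (by rw [h]; simp)
  have key : ∃ M : ℤ, ∀ v : Place k K, v.Zer (D.s - algebraMap k K s₀) →
      v.ord (aeval D.s A + aeval D.s B * D.w) = M * v.ord D.w := by
    by_cases hA : A.eval s₀ = 0
    · have hB : B.eval s₀ ≠ 0 := by
        rcases hAB with h | h
        · exact absurd hA h
        · exact h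
      have hB0 : B ≠ 0 := by rintro rfl; simp at hB
      refine ⟨1, fun v hv => ?_⟩
      obtain ⟨hs2, hwpos, hw0⟩ := D.ram_s hF0 hF1 v hv
      rw [one_mul]
      have hordB : v.ord (aeval D.s B * D.w) = v.ord D.w := by
        rw [v.ord_mul _ _ (D.aeval_ne_zero hB0) hw0, D.ord_poly hv hB, zero_add]
      by_cases hA0 : A = 0
      · rw [hA0, map_zero, zero_add, hordB]
      have hordA : v.ord D.w < v.ord (aeval D.s A) := by
        rw [D.ord_poly_mult hv hA0, hs2]
        have : 1 ≤ rootMultiplicity s₀ A := by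
          rw [Nat.one_le_iff_ne_zero]
          intro h0
          rw [rootMultiplicity_eq_zero_iff] at h0
          exact hA0 (h0 hA)
        have h5 : (1 : ℤ) ≤ (rootMultiplicity s₀ A : ℤ) := by exact_mod_cast this
        nlinarith
      rw [add_comm, (Place.ord_add_of_lt (mul_ne_zero (D.aeval_ne_zero hB0) hw0)
        (D.aeval_ne_zero hA0) (by rw [hordB]; exact hordA)).2, hordB]
    · refine ⟨0, fun v hv => ?_⟩
      rw [zero_mul]
      obtain ⟨hs2, hwpos, hw0⟩ := D.ram_s hF0 hF1 v hv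
      have hwz : v.Zer (D.w - algebraMap k K 0) := by
        rw [map_zero, sub_zero]; exact Or.inr hwpos
      have h1 := Place.val_add (Place.val_aeval hv A) (Place.val_mul (Place.val_aeval hv B) hwz)
      exact Place.ord_eq_zero_of_val h1 (by simpa using hA)
  obtain ⟨M, hM⟩ := key
  refine ⟨2 * n + M, fun v hv => ?_⟩
  rw [v.ord_mul _ _ (zpow_ne_zero _ (D.s_sub_ne_zero s₀)) (div_ne_zero hE0 (D.aeval_ne_zero hQ0)),
    v.ord_div _ _ hE0 (D.aeval_ne_zero hQ0), v.ord_zpow, D.ord_poly hv hQ, hM v hv,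
    (D.ram_s hF0 hF1 v hv).1]
  ring

theorem ram_e (v : Place k K) (hv : v.Zer (D.s - algebraMap k K s₀)) : v.ord D.w = 1 := by
  obtain ⟨t, ht⟩ := v.exists_uniformizer
  have ht0 : t ≠ 0 := by rintro rfl; rw [v.ord_zero] at ht; exact zero_ne_one ht
  obtain ⟨N, hN⟩ := D.ram_ord hF0 hF1 t ht0
  have h1 := hN v hv
  rw [ht] at h1
  have hpos := (D.ram_s hF0 hF1 v hv).2.1
  have : v.ord D.w ∣ 1 := ⟨N, by rw [mul_comm]; exact h1⟩
  rcases Int.isUnit_iff.1 (isUnit_of_dvd_one this) with h | h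
  · exact h
  · rw [h] at hpos; omega

theorem ram_unique (v v' : Place k K) (hv : v.Zer (D.s - algebraMap k K s₀))
    (hv' : v'.Zer (D.s - algebraMap k K s₀)) : v = v' := by
  apply Place.ext'
  intro f
  by_cases hf : f = 0
  · rw [hf, v.ord_zero, v'.ord_zero]
  obtain ⟨N, hN⟩ := D.ram_ord hF0 hF1 f hf
  rw [hN v hv, hN v' hv', D.ram_e hF0 hF1 v hv, D.ram_e hF0 hF1 v' hv']

end ram

end DC

end Pool.Agent.LibBH2
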