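import Pool.Agent.LibBH2.DoubleCover

/-!
Existence of places of `k(s)(w)`, `w ^ 2 = F(s)`, via embeddings in Laurent series.
-/

open scoped Classical
open Polynomial

namespace Pool.Agent.LibBH2

/-- square roots of power series -/
theorem exists_sqrt_powerSeries {k : Type} [Field k] [CharZero k] (G : PowerSeries k) (y : k)
    (hy : y ≠ 0) (hG : PowerSeries.constantCoeff G = y ^ 2) :
    ∃ W : PowerSeries k, W ^ 2 = G ∧ PowerSeries.constantCoeff W = y := by
  let B : PowerSeries k := PowerSeries.binomialSeries k (1 / 2 : ℚ)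
  have hB : B ^ 2 = 1 + PowerSeries.X := by
    have h1 := PowerSeries.binomialSeries_add (A := k) (1 / 2 : ℚ) (1 / 2 : ℚ)
    have h2 := PowerSeries.binomialSeries_nat (R := ℚ) (A := k) 1
    rw [pow_one] at h2
    rw [sq, ← h2, ← h1]
    norm_num
  have hBc : PowerSeries.constantCoeff B = 1 := PowerSeries.binomialSeries_constantCoeff _
  let U : PowerSeries k := PowerSeries.C ((y ^ 2)⁻¹) * G - 1
  have hU : PowerSeries.constantCoeff U = 0 := by
    simp only [U, map_sub, map_mul, map_one, PowerSeries.constantCoeff_C, hG]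
    rw [inv_mul_cancel₀ (pow_ne_zero 2 hy), sub_self]
  have hs : PowerSeries.HasSubst U := PowerSeries.HasSubst.of_constantCoeff_zero' hU
  refine ⟨PowerSeries.C y * PowerSeries.subst U B, ?_, ?_⟩
  · rw [mul_pow, ← PowerSeries.subst_pow hs, hB, PowerSeries.subst_add hs, PowerSeries.subst_X hs]
    have h1 : PowerSeries.subst U (1 : PowerSeries k) = 1 := by
      rw [← PowerSeries.coe_substAlgHom hs, map_one]
    rw [h1]
    have h3 : (1 : PowerSeries k) + U = PowerSeries.C ((y ^ 2)⁻¹) * G := by simp [U]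
    rw [h3, ← mul_assoc, ← map_pow, ← map_mul, mul_inv_cancel₀ (pow_ne_zero 2 hy), map_one, one_mul]
  · rw [map_mul, PowerSeries.constantCoeff_C]
    have h4 : PowerSeries.subst U (B - PowerSeries.C 1) = PowerSeries.subst U B - 1 := by
      rw [PowerSeries.subst_sub hs]
      congr 1
      rw [map_one, ← PowerSeries.coe_substAlgHom hs, map_one]
    have h5 : PowerSeries.constantCoeff (PowerSeries.subst U (B - PowerSeries.C 1)) = 0 := by
      have := PowerSeries.constantCoeff_subst_eq_zero (a := U) hU (B - PowerSeries.C 1) (by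
        rw [map_sub, hBc]; simp)
      exact this
    rw [h4, map_sub, map_one, sub_eq_zero] at h5
    rw [h5, mul_one]

variable {k K : Type} [Field k] [Field K] [Algebra k K]

/-- the place given by an embedding in Laurent series -/
noncomputable def Place.ofHom (ψ : K →+* LaurentSeries k)
    (hc : ∀ c : k, ψ (algebraMap k K c) = HahnSeries.C c) (ht : ∃ t : K, (ψ t).order = 1) :
    Place k K where
  ord f := (ψ f).order
  ord_zero := by simp
  ord_mul f g hf hg := by
    rw [map_mul, HahnSeries.order_mul]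
    · exact (map_ne_zero ψ).2 hf
    · exact (map_ne_zero ψ).2 hg
  ord_add f g hf hg hfg := by
    rw [map_add]
    apply HahnSeries.min_order_le_order_add
    rw [← map_add]
    exact (map_ne_zero ψ).2 hfg
  ord_const c _ := by rw [hc, HahnSeries.order_C]
  exists_uniformizer := ht

theorem Place.ofHom_ord (ψ : K →+* LaurentSeries k)
    (hc : ∀ c : k, ψ (algebraMap k K c) = HahnSeries.C c) (ht : ∃ t : K, (ψ t).order = 1) (f : K) :
    (Place.ofHom ψ hc ht).ord f = (ψ f).order := rfl

/-- `s ↦ s₀ + t ^ e` on polynomials -/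
noncomputable def polyHom (s₀ : k) (e : ℕ) : k[X] →+* LaurentSeries k :=
  (HahnSeries.ofPowerSeries ℤ k).comp
    ((Polynomial.coeToPowerSeries.ringHom).comp (Polynomial.compRingHom (C s₀ + X ^ e)))

theorem polyHom_apply (s₀ : k) (e : ℕ) (P : k[X]) :
    polyHom s₀ e P = HahnSeries.ofPowerSeries ℤ k ((P.comp (C s₀ + X ^ e) : k[X]) : PowerSeries k) :=
  rfl

theorem polyHom_injective (s₀ : k) {e : ℕ} (he : 0 < e) : Function.Injective (polyHom s₀ e) := by
  rw [injective_iff_map_eq_zero]
  intro P hP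
  rw [polyHom_apply] at hP
  have h1 := (map_eq_zero_iff _ HahnSeries.ofPowerSeries_injective).1 hP
  have h2 : P.comp (C s₀ + X ^ e) = 0 := by
    have := Polynomial.coe_injective k (a₁ := P.comp (C s₀ + X ^ e)) (a₂ := 0)
    apply this
    rw [h1]; simp
  rw [comp_eq_zero_iff] at h2
  rcases h2 with h2 | h2
  · exact h2
  · exfalso
    have h3 : (C s₀ + X ^ e : k[X]).coeff e = (C (coeff (C s₀ + X ^ e) 0) : k[X]).coeff e := by
      rw [← h2.2]
    rw [coeff_add, coeff_X_pow, if_pos rfl, coeff_C, coeff_C, if_neg he.ne', if_neg he.ne'] at h3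
    simp at h3

noncomputable def ratHom (s₀ : k) (e : ℕ) (he : 0 < e) : RatFunc k →+* LaurentSeries k :=
  RatFunc.liftRingHom (polyHom s₀ e)
    (nonZeroDivisors_le_comap_nonZeroDivisors_of_injective _ (polyHom_injective s₀ he))

theorem ratHom_poly (s₀ : k) (e : ℕ) (he : 0 < e) (P : k[X]) :
    ratHom s₀ e he (algebraMap _ _ P) = polyHom s₀ e P :=
  RatFunc.liftRingHom_algebraMap _ _ _

/-- the quadratic field -/
noncomputable abbrev quadPoly (F : k[X]) : (RatFunc k)[X] :=
  X ^ 2 - C (algebraMap k[X] (RatFunc k) F)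

theorem quadPoly_irreducible {F : k[X]} (hF : ¬ IsSquare (algebraMap k[X] (RatFunc k) F)) :
    Irreducible (quadPoly F) := by
  apply Polynomial.irreducible_of_degree_le_three_of_not_isRoot
  · rw [Finset.mem_Icc]
    have : (quadPoly F).natDegree = 2 := natDegree_X_pow_sub_C
    omega
  · intro x hx
    rw [IsRoot.def, quadPoly, eval_sub, eval_pow, eval_X, eval_C, sub_eq_zero] at hx
    exact hF ⟨x, by rw [← hx, sq]⟩

/-- a field presented as double cover is generated as expected: homomorphisms to a field `L`. -/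
theorem DC.exists_hom (D : DC k K) (hF : ¬ IsSquare (algebraMap k[X] (RatFunc k) D.F))
    {L : Type} [Field L] (φ : RatFunc k →+* L) (W : L)
    (hW : W ^ 2 = φ (algebraMap k[X] (RatFunc k) D.F)) :
    ∃ ψ : K →+* L, (∀ r, ψ (D.ι r) = φ r) ∧ ψ D.w = W := by
  have : Fact (Irreducible (quadPoly D.F)) := ⟨quadPoly_irreducible hF⟩
  let e : AdjoinRoot (quadPoly D.F) →+* K := AdjoinRoot.lift D.ι.toRingHom D.w (by
    have := D.hw
    simp only [quadPoly, eval₂_sub, eval₂_pow, eval₂_X, eval₂_C]
    rw [this]; simp)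
  have he : Function.Bijective e := by
    refine ⟨e.injective, fun g => ?_⟩
    obtain ⟨a, b, rfl⟩ := D.gen g
    refine ⟨AdjoinRoot.of _ a + AdjoinRoot.of _ b * AdjoinRoot.root _, ?_⟩
    simp only [map_add, map_mul, e, AdjoinRoot.lift_of, AdjoinRoot.lift_root]
    rfl
  let e' : AdjoinRoot (quadPoly D.F) ≃+* K := RingEquiv.ofBijective e he
  let ψ₀ : AdjoinRoot (quadPoly D.F) →+* L := AdjoinRoot.lift φ W (by
    simp only [quadPoly, eval₂_sub, eval₂_pow, eval₂_X, eval₂_C]
    rw [hW, sub_self])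
  refine ⟨ψ₀.comp e'.symm.toRingHom, fun r => ?_, ?_⟩
  · have : e'.symm (D.ι r) = AdjoinRoot.of _ r := by
      rw [RingEquiv.symm_apply_eq]
      simp only [e', RingEquiv.ofBijective_apply, e, AdjoinRoot.lift_of]
      rfl
    change ψ₀ (e'.symm (D.ι r)) = φ r
    rw [this]
    simp [ψ₀]
  · have : e'.symm D.w = AdjoinRoot.root _ := by
      rw [RingEquiv.symm_apply_eq]
      simp only [e', RingEquiv.ofBijective_apply, e, AdjoinRoot.lift_root]
    change ψ₀ (e'.symm D.w) = W
    rw [this]
    simp [ψ₀]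

theorem ofPowerSeries_order_pos {W : PowerSeries k} (h0 : PowerSeries.constantCoeff W = 0)
    (hW : W ≠ 0) : 0 < (HahnSeries.ofPowerSeries ℤ k W).order := by
  have hne : HahnSeries.ofPowerSeries ℤ k W ≠ 0 := by
    intro h
    exact hW ((map_eq_zero_iff _ HahnSeries.ofPowerSeries_injective).1 h)
  by_contra hcon
  push Not at hcon
  have h1 := mt HahnSeries.coeff_order_eq_zero.1 hne
  rcases hcon.lt_or_eq with h | h
  · apply h1
    generalize (HahnSeries.ofPowerSeries ℤ k W).order = m at h ⊢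
    rw [HahnSeries.ofPowerSeries_apply]
    apply HahnSeries.embDomain_of_notMem_range
    rintro ⟨n, hn⟩
    have : (n : ℤ) = m := by simpa using hn
    omega
  · apply h1
    rw [h]
    have := HahnSeries.ofPowerSeries_apply_coeff (Γ := ℤ) (R := k) W 0
    rw [Nat.cast_zero] at this
    rw [this]
    simpa using h0

variable [CharZero k]

theorem DC.exists_unram (D : DC k K) (hF : ¬ IsSquare (algebraMap k[X] (RatFunc k) D.F))
    {s₀ y₀ : k} (hy : y₀ ≠ 0) (hF0 : D.F.eval s₀ = y₀ ^ 2) :
    ∃ v : Place k K, v.Zer (D.s - algebraMap k K s₀) ∧ v.Zer (D.w - algebraMap k K y₀) := by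
  obtain ⟨W, hW, hWc⟩ := exists_sqrt_powerSeries
    ((D.F.comp (C s₀ + X ^ 1) : k[X]) : PowerSeries k) y₀ hy (by
      rw [Polynomial.constantCoeff_coe, coeff_zero_eq_eval_zero, eval_comp]; simp [hF0])
  obtain ⟨ψ, hψ, hψw⟩ := D.exists_hom hF (ratHom s₀ 1 one_pos) (HahnSeries.ofPowerSeries ℤ k W) (by
    rw [ratHom_poly, polyHom_apply, ← map_pow, hW])
  have hconst : ∀ c : k, ψ (algebraMap k K c) = HahnSeries.C c := by
    intro c
    have h1 : algebraMap k K c = D.ι (algebraMap k[X] (RatFunc k) (C c)) := by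
      rw [D.ι_poly]; simp
    rw [h1, hψ, ratHom_poly, polyHom_apply]
    simp
  have hs : ψ (D.s - algebraMap k K s₀) = HahnSeries.single 1 1 := by
    have h1 : D.s - algebraMap k K s₀ = D.ι (algebraMap k[X] (RatFunc k) (X - C s₀)) := by
      rw [D.ι_poly]; simp
    rw [h1, hψ, ratHom_poly, polyHom_apply]
    have h2 : ((X - C s₀ : k[X]).comp (C s₀ + X ^ 1) : k[X]) = X := by simp
    rw [h2, Polynomial.coe_X, HahnSeries.ofPowerSeries_X]
  have hord : (ψ (D.s - algebraMap k K s₀)).order = 1 := by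
    rw [hs, HahnSeries.order_single one_ne_zero]
  refine ⟨Place.ofHom ψ hconst ⟨_, hord⟩, Or.inr ?_, ?_⟩
  · rw [Place.ofHom_ord, hord]; exact one_pos
  · by_cases h0 : D.w - algebraMap k K y₀ = 0
    · exact Or.inl h0
    · right
      have h1 : ψ (D.w - algebraMap k K y₀) =
          HahnSeries.ofPowerSeries ℤ k (W - PowerSeries.C y₀) := by
        rw [map_sub, hconst, hψw, map_sub, HahnSeries.ofPowerSeries_C]
      rw [Place.ofHom_ord, h1]
      apply ofPowerSeries_order_pos
      · rw [map_sub, hWc]; simp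
      · intro h
        rw [h, map_zero] at h1
        exact h0 ((map_eq_zero ψ).1 h1)

theorem DC.exists_ram (D : DC k K) (hF : ¬ IsSquare (algebraMap k[X] (RatFunc k) D.F))
    {s₀ : k} (hsq : ∀ c : k, IsSquare c) (hF0 : D.F.eval s₀ = 0)
    (hF1 : D.F.derivative.eval s₀ ≠ 0) :
    ∃ v : Place k K, v.Zer (D.s - algebraMap k K s₀) := by
  obtain ⟨G, hG, hFG⟩ := D.ram_factor hF0 hF1
  obtain ⟨y, hy⟩ := hsq (G.eval s₀)
  have hy0 : y ≠ 0 := by rintro rfl; exact hG (by rw [hy, mul_zero])
  obtain ⟨W, hW, hWc⟩ := exists_sqrt_powerSeries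
    ((G.comp (C s₀ + X ^ 2) : k[X]) : PowerSeries k) y hy0 (by
      rw [Polynomial.constantCoeff_coe, coeff_zero_eq_eval_zero, eval_comp]; simp [hy, sq])
  obtain ⟨ψ, hψ, hψw⟩ := D.exists_hom hF (ratHom s₀ 2 two_pos)
    (HahnSeries.ofPowerSeries ℤ k (PowerSeries.X * W)) (by
    rw [ratHom_poly, polyHom_apply, ← map_pow, mul_pow, hW, hFG]
    congr 1
    simp)
  have hconst : ∀ c : k, ψ (algebraMap k K c) = HahnSeries.C c := by
    intro c
    have h1 : algebraMap k K c = D.ι (algebraMap k[X] (RatFunc k) (C c)) := by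
      rw [D.ι_poly]; simp
    rw [h1, hψ, ratHom_poly, polyHom_apply]
    simp
  have hs : ψ (D.s - algebraMap k K s₀) = HahnSeries.single 2 1 := by
    have h1 : D.s - algebraMap k K s₀ = D.ι (algebraMap k[X] (RatFunc k) (X - C s₀)) := by
      rw [D.ι_poly]; simp
    rw [h1, hψ, ratHom_poly, polyHom_apply]
    have h2 : ((X - C s₀ : k[X]).comp (C s₀ + X ^ 2) : k[X]) = X ^ 2 := by simp
    rw [h2, Polynomial.coe_pow, Polynomial.coe_X, HahnSeries.ofPowerSeries_X_pow]
    norm_num
  have hords : (ψ (D.s - algebraMap k K s₀)).order = 2 := by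
    rw [hs, HahnSeries.order_single one_ne_zero]
  have hordw : (ψ D.w).order = 1 := by
    have hW0 : W ≠ 0 := by rintro rfl; exact hy0 (by rw [← hWc]; simp)
    have h3 : D.w ^ 2 = (D.s - algebraMap k K s₀) * aeval D.s G := by
      rw [D.aeval_F, hFG, map_mul]; simp
    have hG0 : G ≠ 0 := by rintro rfl; simp at hG
    rw [hψw, map_mul, HahnSeries.ofPowerSeries_X, HahnSeries.order_mul (by simp)
      ((map_ne_zero_iff _ HahnSeries.ofPowerSeries_injective).2 hW0),
      HahnSeries.order_single one_ne_zero]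
    have h4 : (HahnSeries.ofPowerSeries ℤ k W).order = 0 := by
      have h5 : HahnSeries.ofPowerSeries ℤ k W ≠ 0 :=
        (map_ne_zero_iff _ HahnSeries.ofPowerSeries_injective).2 hW0
      apply le_antisymm
      · apply HahnSeries.order_le_of_coeff_ne_zero
        have := HahnSeries.ofPowerSeries_apply_coeff (Γ := ℤ) (R := k) W 0
        rw [Nat.cast_zero] at this
        rw [this]
        simpa [hWc] using hy0
      · by_contra hcon
        push Not at hcon
        have h1 := mt HahnSeries.coeff_order_eq_zero.1 h5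
        apply h1
        clear h1
        generalize (HahnSeries.ofPowerSeries ℤ k W).order = m at hcon ⊢
        rw [HahnSeries.ofPowerSeries_apply]
        apply HahnSeries.embDomain_of_notMem_range
        rintro ⟨n, hn⟩
        have : (n : ℤ) = m := by simpa using hn
        omega
    rw [h4]; norm_num
  refine ⟨Place.ofHom ψ hconst ⟨_, hordw⟩, Or.inr ?_⟩
  rw [Place.ofHom_ord, hords]; exact two_pos

end Pool.Agent.LibBH2
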