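import Pool.Agent.LibBH2.PolyDefs

/-!
Task H0: heights of values of rational functions.
-/

open Height
open scoped Classical

namespace Pool.Agent.LibBH2

namespace H0

open Polynomial

variable {K : Type} [Field K]

/-- Bezout identity with a power of `X`, when `q` has the larger degree. -/
theorem bez_aux {p q u v : K[X]} (h : u * p + v * q = 1) (hq : q ≠ 0)
    (hpq : p.natDegree ≤ q.natDegree) (M : ℕ) (hM : q.natDegree ≤ M) :
    ∃ u' v' : K[X], u'.natDegree ≤ M ∧ v'.natDegree ≤ M ∧
      u' * p + v' * q = X ^ (M + q.natDegree) := by
  set N := q.natDegree with hN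
  set T : K[X] := X ^ (M + N) * u with hT
  refine ⟨T % q, (T / q) * p + X ^ (M + N) * v, ?_, ?_, ?_⟩
  · have : (T % q).natDegree ≤ q.natDegree := by
      rcases eq_or_ne N 0 with h0 | h0
      · have : (T % q) = 0 := by
          have hd := EuclideanDomain.mod_lt T hq
          have hq0 : q.degree = 0 := by
            rw [degree_eq_natDegree hq, ← hN, h0]; rfl
          have hd' : (T % q).degree < q.degree := hd
          rw [hq0] at hd'
          have := Polynomial.natDegree_lt_natDegree_iff (p := T % q) (q := q)
          by_contra hne
          have := zero_le_degree_iff.2 hne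
          exact absurd hd' (not_lt.2 this)
        rw [this]; simp
      · exact (natDegree_mod_lt T (by rw [← hN]; exact h0)).le
    omega
  · set v' := (T / q) * p + X ^ (M + N) * v with hv'
    have key : v' * q = X ^ (M + N) - (T % q) * p := by
      have h1 : q * (T / q) + T % q = T := EuclideanDomain.div_add_mod T q
      rw [hv']
      linear_combination p * h1 + X ^ (M + N) * h + p * hT
    rcases eq_or_ne v' 0 with h0 | h0
    · rw [h0]; simp
    · have h3 : (v' * q).natDegree = v'.natDegree + N := natDegree_mul h0 hq
      have h4 : (v' * q).natDegree ≤ M + N := by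
        rw [key]
        refine (natDegree_sub_le _ _).trans (max_le (natDegree_X_pow_le _) ?_)
        refine natDegree_mul_le.trans ?_
        have : (T % q).natDegree ≤ N := by
          rcases eq_or_ne N 0 with h0 | h0
          · have : (T % q) = 0 := by
              have hd' : (T % q).degree < q.degree := EuclideanDomain.mod_lt T hq
              have hq0 : q.degree = 0 := by
                rw [degree_eq_natDegree hq, ← hN, h0]; rfl
              rw [hq0] at hd'
              by_contra hne
              exact absurd hd' (not_lt.2 (zero_le_degree_iff.2 hne))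
            rw [this]; simp
          · exact (natDegree_mod_lt T (by rw [← hN]; exact h0)).le
        omega
      omega
  · have h1 : q * (T / q) + T % q = T := EuclideanDomain.div_add_mod T q
    calc (T % q) * p + ((T / q) * p + X ^ (M + N) * v) * q
        = (q * (T / q) + T % q) * p + X ^ (M + N) * v * q := by ring
      _ = X ^ (M + N) * (u * p + v * q) := by rw [h1, hT]; ring
      _ = _ := by rw [h, mul_one]

theorem bez {p q : K[X]} (h : IsCoprime p q) :
    ∃ (M : ℕ) (u v u' v' : K[X]), u.natDegree ≤ M ∧ v.natDegree ≤ M ∧ u'.natDegree ≤ M ∧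
      v'.natDegree ≤ M ∧ u * p + v * q = 1 ∧
      u' * p + v' * q = X ^ (M + max p.natDegree q.natDegree) := by
  obtain ⟨u, v, huv⟩ := h
  rcases le_total p.natDegree q.natDegree with hle | hle
  · by_cases hq : q = 0
    · subst hq
      have hp : p.natDegree = 0 := by simpa using hle
      refine ⟨u.natDegree + v.natDegree, u, v, X ^ (u.natDegree + v.natDegree) * u, 0, by omega,
        by omega, ?_, by simp, huv, ?_⟩
      · have hu : u.natDegree = 0 := by
          have : u * p = 1 := by simpa using huv
          have hu : IsUnit u := IsUnit.of_mul_eq_one _ this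
          exact natDegree_eq_zero_of_isUnit hu
        refine natDegree_mul_le.trans ?_
        have := natDegree_X_pow_le (R := K) (u.natDegree + v.natDegree)
        omega
      · have : u * p = 1 := by simpa using huv
        rw [hp]
        simp [mul_assoc, this]
    · obtain ⟨u', v', h1, h2, h3⟩ := bez_aux huv hq hle (q.natDegree + u.natDegree + v.natDegree)
        (by omega)
      refine ⟨q.natDegree + u.natDegree + v.natDegree, u, v, u', v', by omega, by omega, h1, h2,
        huv, ?_⟩
      rw [max_eq_right hle, h3]
  · by_cases hp : p = 0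
    · subst hp
      have hq : q.natDegree = 0 := by simpa using hle
      refine ⟨u.natDegree + v.natDegree, u, v, 0, X ^ (u.natDegree + v.natDegree) * v, by omega,
        by omega, by simp, ?_, huv, ?_⟩
      · have hv : v.natDegree = 0 := by
          have : v * q = 1 := by simpa using huv
          have hu : IsUnit v := IsUnit.of_mul_eq_one _ this
          exact natDegree_eq_zero_of_isUnit hu
        refine natDegree_mul_le.trans ?_
        have := natDegree_X_pow_le (R := K) (u.natDegree + v.natDegree)
        omega
      · have : v * q = 1 := by simpa using huv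
        rw [hq]
        simp [mul_assoc, this]
    · obtain ⟨u', v', h1, h2, h3⟩ := bez_aux (p := q) (q := p) (u := v) (v := u)
        (by rw [add_comm]; exact huv) hp hle (p.natDegree + u.natDegree + v.natDegree)
        (by omega)
      refine ⟨p.natDegree + u.natDegree + v.natDegree, u, v, v', u', by omega, by omega, h2, h1,
        huv, ?_⟩
      rw [max_eq_left hle, ← h3, add_comm]

theorem eval_hom {f : K[X]} {n : ℕ} (hn : f.natDegree ≤ n) (x : K) :
    MvPolynomial.eval ![x, 1] (f.homogenize n) = f.eval x := by
  rw [eval_homogenize hn _ (by simp)]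
  simp

end H0

open H0 Polynomial in
theorem h0 : TaskH0 := by
  intro K _ _ p q hpq
  obtain ⟨M, u, v, u', v', hu, hv, hu', hv', h1, h2⟩ := bez hpq
  set N := max p.natDegree q.natDegree with hN
  let P : Fin 2 → MvPolynomial (Fin 2) K := ![p.homogenize N, q.homogenize N]
  have hP : ∀ i, (P i).IsHomogeneous N := by
    intro i; fin_cases i
    · exact isHomogeneous_homogenize p
    · exact isHomogeneous_homogenize q
  let Q : Fin 2 × Fin 2 → MvPolynomial (Fin 2) K :=
    ![![u'.homogenize M, v'.homogenize M], ![u.homogenize M, v.homogenize M]].uncurry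
  have hQ : ∀ i, (Q i).IsHomogeneous M := by
    rintro ⟨i, j⟩; fin_cases i <;> fin_cases j <;> exact isHomogeneous_homogenize _
  obtain ⟨C₁, hC₁⟩ := logHeight_eval_le' hP
  obtain ⟨C₂, hC₂⟩ := logHeight_eval_ge' (N := N) hQ
  refine ⟨max C₁ (-C₂), fun x hx => ?_⟩
  have e : (fun j => MvPolynomial.eval ![x, 1] (P j)) = ![p.eval x, q.eval x] := by
    funext j
    fin_cases j
    · exact eval_hom (le_max_left _ _) x
    · exact eval_hom (le_max_right _ _) x
  have a1 := hC₁ ![x, 1]
  have a2 := hC₂ P (x := ![x, 1]) (by
    intro k
    fin_cases k
    · have : u'.eval x * p.eval x + v'.eval x * q.eval x = x ^ (M + N) := by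
        rw [← eval_mul, ← eval_mul, ← eval_add, h2, eval_pow, eval_X]
      rw [Fin.sum_univ_two]
      show MvPolynomial.eval ![x, 1] (u'.homogenize M) * MvPolynomial.eval ![x, 1] (p.homogenize N) +
        MvPolynomial.eval ![x, 1] (v'.homogenize M) * MvPolynomial.eval ![x, 1] (q.homogenize N) = _
      rw [eval_hom hu', eval_hom hv', eval_hom (le_max_left _ _), eval_hom (le_max_right _ _), this]
      simp
    · have : u.eval x * p.eval x + v.eval x * q.eval x = 1 := by
        rw [← eval_mul, ← eval_mul, ← eval_add, h1, eval_one]
      rw [Fin.sum_univ_two]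
      show MvPolynomial.eval ![x, 1] (u.homogenize M) * MvPolynomial.eval ![x, 1] (p.homogenize N) +
        MvPolynomial.eval ![x, 1] (v.homogenize M) * MvPolynomial.eval ![x, 1] (q.homogenize N) = _
      rw [eval_hom hu, eval_hom hv, eval_hom (le_max_left _ _), eval_hom (le_max_right _ _), this]
      simp)
  rw [e, ← logHeight₁_div_eq_logHeight, ← logHeight₁_eq_logHeight] at a1
  rw [e, ← logHeight₁_eq_logHeight, ← logHeight₁_div_eq_logHeight] at a2
  rw [abs_le]
  constructor
  · have := le_max_right C₁ (-C₂); linarith
  · have := le_max_left C₁ (-C₂); linarith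

end Pool.Agent.LibBH2
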