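import Mathlib

/-!
Naive x-height of points of a Weierstrass curve over an extension whose x-coordinate lies in the
base field, and statements of the height tasks.
-/

open Height WeierstrassCurve
open scoped Classical

namespace Pool.Agent.LibBH2

universe u v

/-- The point `R` of `W` over the extension `L` of `K` has its `x`-coordinate in `K`
(or is the point at infinity). -/
def XIn {K : Type u} {L : Type v} [Field K] [Field L] [Algebra K L] {W : WeierstrassCurve K}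
    (R : (W⁄L).toAffine.Point) : Prop :=
  R = 0 ∨ ∃ (x : K) (y : L) (h : (W⁄L).toAffine.Nonsingular (algebraMap K L x) y),
    R = Affine.Point.some (algebraMap K L x) y h

/-- Naive (logarithmic, relative to `K`) height of the `x`-coordinate of a point of `W` over an
extension `L` of `K`, for points whose `x`-coordinate is in `K`; `0` at the point at infinity
(and at the other points). -/
noncomputable def nh {K : Type u} {L : Type v} [Field K] [AdmissibleAbsValues K] [Field L]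
    [Algebra K L] {W : WeierstrassCurve K} (R : (W⁄L).toAffine.Point) : ℝ :=
  match R with
  | Affine.Point.zero => 0
  | Affine.Point.some x _ _ => if h : ∃ x₀ : K, algebraMap K L x₀ = x then logHeight₁ h.choose else 0

/-- Task T1: canonical height, with a constant that does not depend on the extension `L`
or on the group `G`. -/
def TaskT1 : Prop := ∀ (K : Type) [Field K] [NumberField K] (W : WeierstrassCurve K) [W.IsElliptic],
  ∃ C : ℝ, ∀ (L : Type) [Field L] [Algebra K L] (G : AddSubgroup (W⁄L).toAffine.Point),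
    (∀ R ∈ G, XIn R) →
    ∃ hh : (W⁄L).toAffine.Point → ℝ, (∀ R ∈ G, |hh R - nh R| ≤ C) ∧
      (∀ R ∈ G, ∀ S ∈ G, hh (R + S) + hh (R - S) = 2 * hh R + 2 * hh S) ∧
      (∀ R ∈ G, 0 ≤ hh R) ∧ (∀ R ∈ G, hh R = 0 → IsOfFinAddOrder R)

/-- Task T4: the `x`-coordinates (in `K`) of torsion points have bounded height. -/
def TaskT4 : Prop := ∀ (K : Type) [Field K] [NumberField K] (W : WeierstrassCurve K) [W.IsElliptic],
  ∃ C : ℝ, ∀ (L : Type) [Field L] [Algebra K L] (R : (W⁄L).toAffine.Point), XIn R →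
    IsOfFinAddOrder R → nh R ≤ C

/-- Task T2: the gap inequality. -/
def TaskT2 : Prop := ∀ (K : Type) [Field K] [NumberField K] (c₀ c₁ c₂ c₃ : K), c₀ ≠ 0 → c₃ ≠ 0 →
  (∀ (F : Polynomial K), F = Polynomial.C c₃ * Polynomial.X ^ 3 + Polynomial.C c₂ * Polynomial.X ^ 2
    + Polynomial.C c₁ * Polynomial.X + Polynomial.C c₀ → IsCoprime F (Polynomial.derivative F)) →
  ∃ C : ℝ, ∀ z₁ z₂ Y u w : K, z₁ ≠ 0 → z₂ ≠ 0 → z₁ ^ 2 ≠ z₂ ^ 2 →
    Y ^ 2 = (c₃ * z₁ ^ 6 + c₂ * z₁ ^ 4 + c₁ * z₁ ^ 2 + c₀) *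
      (c₃ * z₂ ^ 6 + c₂ * z₂ ^ 4 + c₁ * z₂ ^ 2 + c₀) →
    (z₁ ^ 2 - z₂ ^ 2) ^ 2 * u = c₃ * (z₁ * z₂) ^ 2 * (z₁ ^ 2 + z₂ ^ 2) + 2 * c₂ * (z₁ * z₂) ^ 2
      + c₁ * (z₁ ^ 2 + z₂ ^ 2) + 2 * c₀ + 2 * Y →
    (z₁ ^ 2 - z₂ ^ 2) ^ 2 * w = 2 * c₃ * (z₁ * z₂) ^ 4 + c₂ * (z₁ * z₂) ^ 2 * (z₁ ^ 2 + z₂ ^ 2)
      + 2 * c₁ * (z₁ * z₂) ^ 2 + c₀ * (z₁ ^ 2 + z₂ ^ 2) + 2 * Y * (z₁ * z₂) →
    2 * logHeight₁ z₁ + 2 * logHeight₁ z₂ ≤ logHeight₁ u + logHeight₁ w + C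

/-- Task T3: core of the infinite rank statement. -/
def TaskT3 : Prop := ∀ (K : Type) [Field K] [NumberField K] (V₁ V₂ : WeierstrassCurve K)
    [V₁.IsElliptic] [V₂.IsElliptic] (a m κ ν : K), κ ≠ 0 → ν ≠ 0 →
  (∀ t : K, 4 * (m * t + κ) ^ 3 + V₂.b₂ * (m * t + κ) ^ 2 * t + 2 * V₂.b₄ * (m * t + κ) * t ^ 2
      + V₂.b₆ * t ^ 3
    = ν ^ 2 * (4 * (a + t) ^ 3 + V₁.b₂ * (a + t) ^ 2 + 2 * V₁.b₄ * (a + t) + V₁.b₆)) →
  ∀ (P : (V₁⁄K).toAffine.Point), (∀ n : ℕ, 0 < n → n • P ≠ 0) →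
  ∀ (n₀ : ℕ) (z : ℕ → K) (Q : ℕ → (V₂⁄K).toAffine.Point),
  (∀ n : ℕ, n₀ ≤ n → z n ≠ 0 ∧ ∃ x y h x' y' h', n • P = Affine.Point.some x y h ∧
    Q n = Affine.Point.some x' y' h' ∧ x = a + z n ^ 2 ∧ x' = m + κ / z n ^ 2 ∧
    (2 * y' + V₂.a₁ * x' + V₂.a₃) * z n ^ 3 = ν * (2 * y + V₁.a₁ * x + V₁.a₃)) →
  ∀ r : ℕ, ∃ N : ℕ, n₀ ≤ N ∧ LinearIndependent ℤ (fun i : Fin r => Q (N + i))

end Pool.Agent.LibBH2
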