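import Pool.Agent.LibBH2.ApproxPar

/-! Task T1: canonical height -/

set_option autoImplicit false

open Height WeierstrassCurve MvPolynomial
open scoped Classical

namespace Pool.Agent.LibBH2

theorem t1 : TaskT1 := by
  intro K _ _ W _
  obtain ⟨C, hC0, hC⟩ := approxPar W
  refine ⟨C, fun L _ _ G hG => ?_⟩
  obtain ⟨hh, h1, h2, h3⟩ := tate C hC0 G (fun R : (W⁄L).toAffine.Point => nh R) nh_zero'
    (fun R hR S hS => hC L R S (hG R hR) (hG S hS) (hG _ (G.add_mem hR hS))
      (hG _ (G.sub_mem hR hS))) nh_nonneg'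
  refine ⟨hh, h1, h2, h3, fun R hR hR0 => ?_⟩
  have hzero : hh 0 = 0 := by
    have := h2 0 G.zero_mem 0 G.zero_mem
    rw [add_zero, sub_zero] at this
    linarith
  have hmul : ∀ n : ℕ, hh (n • R) = 0 ∧ hh ((n + 1) • R) = 0 := by
    intro n
    induction n with
    | zero => simpa using ⟨hzero, hR0⟩
    | succ n ih =>
      refine ⟨ih.2, ?_⟩
      have e := h2 _ (G.nsmul_mem hR (n + 1)) R hR
      have e1 : (n + 1) • R + R = (n + 1 + 1) • R := (succ_nsmul R (n + 1)).symm
      have e2 : (n + 1) • R - R = n • R := by rw [succ_nsmul]; abel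
      rw [e1, e2, ih.1, ih.2, hR0] at e
      linarith
  have hfin := finite_nh_le (W := W) (L := L) C
  rw [← finite_multiples]
  refine hfin.subset ?_
  rintro S ⟨n, rfl⟩
  refine ⟨hG _ (G.nsmul_mem hR n), ?_⟩
  have := h1 _ (G.nsmul_mem hR n)
  rw [(hmul n).1, abs_le] at this
  change nh (n • R) ≤ C
  linarith [this.1]

end Pool.Agent.LibBH2
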