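import Pool.Agent.LibBH2.HeightDefs

/-!
Task T2: the gap inequality for the genus-two curve `y ^ 2 = F (z ^ 2)`.
-/

open Height
open scoped Classical

namespace Pool.Agent.LibBH2

section Bezout

open Polynomial

variable {K : Type} [Field K]

/-- The cubic `F`. -/
private noncomputable def t2F (c₀ c₁ c₂ c₃ : K) : K[X] :=
  C c₃ * X ^ 3 + C c₂ * X ^ 2 + C c₁ * X + C c₀

/-- The polynomial `X * N`. -/
private noncomputable def t2G (c₀ c₁ c₂ c₃ : K) : K[X] :=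
  X * ((C c₃ * X ^ 2 - C c₁) ^ 2 - 4 * C c₀ * (C c₂ + 2 * C c₃ * X))

private lemma t2_coprime (c₀ c₁ c₂ c₃ : K) (h₀ : c₀ ≠ 0)
    (hF : IsCoprime (t2F c₀ c₁ c₂ c₃) (derivative (t2F c₀ c₁ c₂ c₃))) :
    IsCoprime (t2F c₀ c₁ c₂ c₃) (t2G c₀ c₁ c₂ c₃) := by
  unfold t2G
  refine IsCoprime.mul_right ?_ ?_
  · refine ⟨C c₀⁻¹, -C c₀⁻¹ * (C c₃ * X ^ 2 + C c₂ * X + C c₁), ?_⟩
    have : C c₀⁻¹ * C c₀ = (1 : K[X]) := by rw [← C_mul, inv_mul_cancel₀ h₀, C_1]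
    unfold t2F
    linear_combination this
  · have hder : derivative (t2F c₀ c₁ c₂ c₃) = 3 * C c₃ * X ^ 2 + 2 * C c₂ * X + C c₁ := by
      unfold t2F
      simp only [derivative_add, derivative_mul, derivative_C, derivative_X_pow, derivative_X]
      simp only [Nat.cast_ofNat, C_ofNat]
      ring
    have h2 : IsCoprime (t2F c₀ c₁ c₂ c₃) (derivative (t2F c₀ c₁ c₂ c₃) ^ 2) := hF.pow_right
    have heq : (C c₃ * X ^ 2 - C c₁) ^ 2 - 4 * C c₀ * (C c₂ + 2 * C c₃ * X) =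
        derivative (t2F c₀ c₁ c₂ c₃) ^ 2 + t2F c₀ c₁ c₂ c₃ * (-4 * (2 * C c₃ * X + C c₂)) := by
      rw [hder]
      unfold t2F
      ring
    rw [heq]
    exact h2.add_mul_left_right _

private lemma t2_bezout (c₀ c₁ c₂ c₃ : K) (h₀ : c₀ ≠ 0) (h₃ : c₃ ≠ 0)
    (hF : IsCoprime (t2F c₀ c₁ c₂ c₃) (derivative (t2F c₀ c₁ c₂ c₃))) (H : K[X])
    (hH : H.natDegree ≤ 8) :
    ∃ A B : K[X], A * t2F c₀ c₁ c₂ c₃ + B * t2G c₀ c₁ c₂ c₃ = H ∧ A.natDegree ≤ 5 ∧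
      B.natDegree ≤ 2 := by
  obtain ⟨A, B, hAB⟩ := t2_coprime c₀ c₁ c₂ c₃ h₀ hF
  set F := t2F c₀ c₁ c₂ c₃ with hFdef
  set G := t2G c₀ c₁ c₂ c₃ with hGdef
  have hFdeg : F.natDegree = 3 := by
    rw [hFdef]; unfold t2F; compute_degree!
  have hF0 : F ≠ 0 := by
    intro h; rw [h] at hFdeg; simp at hFdeg
  have hGdeg : G.natDegree ≤ 5 := by
    rw [hGdef]; unfold t2G; compute_degree
  refine ⟨A * H + G * (B * H / F), B * H % F, ?_, ?_, ?_⟩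
  · have := EuclideanDomain.div_add_mod (B * H) F
    linear_combination H * hAB + G * this
  · have hdiv := EuclideanDomain.div_add_mod (B * H) F
    have hmod : (B * H % F).natDegree ≤ 2 := by
      have := Polynomial.natDegree_mod_lt (B * H) (q := F) (by rw [hFdeg]; norm_num)
      omega
    have hprod : (A * H + G * (B * H / F)) * F = H - (B * H % F) * G := by
      linear_combination H * hAB + G * hdiv
    by_cases hz : A * H + G * (B * H / F) = 0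
    · rw [hz]; simp
    have h1 := Polynomial.natDegree_mul hz hF0
    rw [hprod, hFdeg] at h1
    have h2 : (H - (B * H % F) * G).natDegree ≤ 8 := by
      refine (natDegree_sub_le _ _).trans (max_le hH ?_)
      refine natDegree_mul_le.trans ?_
      omega
    omega
  · have := Polynomial.natDegree_mod_lt (B * H) (q := F) (by rw [hFdeg]; norm_num)
    omega

end Bezout

section Hom

open MvPolynomial

variable {K : Type} [Field K]

private noncomputable def t2hom (n : ℕ) (P : Polynomial K) : MvPolynomial (Fin 3) K :=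
  ∑ i ∈ Finset.range (n + 1), C (P.coeff i) * (-X 0) ^ i * X 2 ^ (n - i)

private lemma t2hom_isHomogeneous (n : ℕ) (P : Polynomial K) : (t2hom n P).IsHomogeneous n := by
  unfold t2hom
  refine IsHomogeneous.sum _ _ _ fun i hi ↦ ?_
  have hi' : i ≤ n := by simpa [Nat.lt_succ_iff] using hi
  have h1 : ((-X 0 : MvPolynomial (Fin 3) K) ^ i).IsHomogeneous i := by
    simpa using (isHomogeneous_X K (0 : Fin 3)).neg.pow i
  have h2 : ((X 2 : MvPolynomial (Fin 3) K) ^ (n - i)).IsHomogeneous (n - i) := by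
    simpa using (isHomogeneous_X K (2 : Fin 3)).pow (n - i)
  have := ((isHomogeneous_C (Fin 3) (P.coeff i)).mul h1).mul h2
  convert! this using 1
  omega

private lemma t2hom_eval (n : ℕ) (P : Polynomial K) (hP : P.natDegree ≤ n) (p q : K) :
    (t2hom n P).eval ![p, q, 1] = P.eval (-p) := by
  unfold t2hom
  rw [Polynomial.eval_eq_sum_range' (Nat.lt_succ_of_le hP)]
  simp [map_sum]

/-- The row of the matrix of homogeneous polynomials of degree `6`. -/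
private noncomputable def t2row (c₀ c₁ c₂ c₃ : K) (A B : Polynomial K) :
    Fin 4 → MvPolynomial (Fin 3) K :=
  ![X 2 * (X 1 ^ 2 - 4 * X 0 * X 2) * t2hom 3 B,
    -X 0 * t2hom 5 A - (C c₃ * X 0 ^ 3 + C c₂ * X 0 ^ 2 * X 2 + C c₁ * X 0 * X 2 ^ 2
      + C c₀ * X 2 ^ 3) * t2hom 3 B,
    X 2 * t2hom 5 A,
    C (-4 * c₀ * c₃) * X 0 * X 2 ^ 2 * t2hom 3 B]

private lemma t2row_isHomogeneous (c₀ c₁ c₂ c₃ : K) (A B : Polynomial K) (j : Fin 4) :
    (t2row c₀ c₁ c₂ c₃ A B j).IsHomogeneous 6 := by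
  have h0 : (X 0 : MvPolynomial (Fin 3) K).IsHomogeneous 1 := isHomogeneous_X K 0
  have h1 : (X 1 : MvPolynomial (Fin 3) K).IsHomogeneous 1 := isHomogeneous_X K 1
  have h2 : (X 2 : MvPolynomial (Fin 3) K).IsHomogeneous 1 := isHomogeneous_X K 2
  have hC : ∀ a : K, (C a : MvPolynomial (Fin 3) K).IsHomogeneous 0 := isHomogeneous_C (Fin 3)
  have hA := t2hom_isHomogeneous 5 A
  have hB := t2hom_isHomogeneous 3 B
  fin_cases j
  · have h3 : ((X 1 : MvPolynomial (Fin 3) K) ^ 2 - 4 * X 0 * X 2).IsHomogeneous 2 := by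
      have h4 := ((hC 4).mul h0).mul h2
      rw [show (C (4 : K) : MvPolynomial (Fin 3) K) = 4 from map_ofNat C 4] at h4
      exact (by simpa using h1.pow 2 : IsHomogeneous _ 2).sub h4
    exact (h2.mul h3).mul hB
  · have h3 : (C c₃ * X 0 ^ 3 + C c₂ * X 0 ^ 2 * X 2 + C c₁ * X 0 * X 2 ^ 2
      + C c₀ * X 2 ^ 3 : MvPolynomial (Fin 3) K).IsHomogeneous 3 := by
      have e1 := (hC c₃).mul (h0.pow 3)
      have e2 := ((hC c₂).mul (h0.pow 2)).mul h2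
      have e3 := ((hC c₁).mul h0).mul (h2.pow 2)
      have e4 := (hC c₀).mul (h2.pow 3)
      exact ((e1.add e2).add e3).add e4
    exact (h0.neg.mul hA).sub (h3.mul hB)
  · exact h2.mul hA
  · exact (((hC _).mul h0).mul (h2.pow 2)).mul hB

private lemma t2row_eval (c₀ c₁ c₂ c₃ : K) (A B H : Polynomial K) (hA : A.natDegree ≤ 5)
    (hB : B.natDegree ≤ 2) (hH : A * t2F c₀ c₁ c₂ c₃ + B * t2G c₀ c₁ c₂ c₃ = H)
    (p q m₀ m₁ m₂ m₃ : K)
    (I1 : m₂ - p * m₁ = c₃ * (-p) ^ 3 + c₂ * (-p) ^ 2 + c₁ * (-p) + c₀)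
    (I2 : (q ^ 2 - 4 * p) * m₀ - (c₃ * p ^ 3 + c₂ * p ^ 2 + c₁ * p + c₀) * m₁
      - 4 * c₀ * c₃ * p * m₃ =
      (-p) * ((c₃ * (-p) ^ 2 - c₁) ^ 2 - 4 * c₀ * (c₂ + 2 * c₃ * (-p)))) :
    ∑ j, (t2row c₀ c₁ c₂ c₃ A B j).eval ![p, q, 1] * ![m₀, m₁, m₂, m₃] j = H.eval (-p) := by
  have eA := t2hom_eval 5 A hA p q
  have eB := t2hom_eval 3 B (by omega) p q
  rw [← hH]
  simp only [Fin.sum_univ_four, t2row, Matrix.cons_val_zero, Matrix.cons_val_one,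
    Matrix.cons_val, map_mul, map_add, map_sub, map_pow, map_neg, eval_X, eval_C, eA, eB,
    map_ofNat, t2F, t2G, Polynomial.eval_add, Polynomial.eval_mul, Polynomial.eval_sub,
    Polynomial.eval_pow, Polynomial.eval_C, Polynomial.eval_X, Polynomial.eval_ofNat]
  linear_combination A.eval (-p) * I1 + B.eval (-p) * I2

end Hom

/-- **Task T2**: the gap inequality. -/
theorem t2 : TaskT2 := by
  intro K _ _ c₀ c₁ c₂ c₃ h₀ h₃ hF
  have hF' := hF _ rfl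
  obtain ⟨A₀, B₀, hAB₀, hA₀, hB₀⟩ := t2_bezout c₀ c₁ c₂ c₃ h₀ h₃ hF' 1 (by simp)
  obtain ⟨A₁, B₁, hAB₁, hA₁, hB₁⟩ := t2_bezout c₀ c₁ c₂ c₃ h₀ h₃ hF' (Polynomial.X ^ 8) (by simp)
  let Q : Fin 3 × Fin 4 → MvPolynomial (Fin 3) K := fun a ↦
    ![t2row c₀ c₁ c₂ c₃ A₁ B₁, ![0, 0, 0, MvPolynomial.X 1 ^ 6], t2row c₀ c₁ c₂ c₃ A₀ B₀] a.1 a.2
  have hQ : ∀ a, (Q a).IsHomogeneous 6 := by
    rintro ⟨i, j⟩
    fin_cases i
    · exact t2row_isHomogeneous _ _ _ _ _ _ j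
    · fin_cases j
      · exact MvPolynomial.isHomogeneous_zero _ _ _
      · exact MvPolynomial.isHomogeneous_zero _ _ _
      · exact MvPolynomial.isHomogeneous_zero _ _ _
      · simpa [Q] using (MvPolynomial.isHomogeneous_X K (1 : Fin 3)).pow 6
    · exact t2row_isHomogeneous _ _ _ _ _ _ j
  obtain ⟨C₁, hC₁⟩ := logHeight_eval_ge' (M := 6) (N := 2) hQ
  obtain ⟨C₂, hC₂⟩ := logHeight_sym2_ge K
  refine ⟨-C₁ - 2 * C₂, ?_⟩
  intro z₁ z₂ Y u w hz₁ hz₂ hz hY hu hw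
  have hne : z₁ - z₂ ≠ 0 := by
    intro h; apply hz; linear_combination (z₁ + z₂) * h
  have hne' : z₁ + z₂ ≠ 0 := by
    intro h; apply hz; linear_combination (z₁ - z₂) * h
  have hne2 : (z₁ - z₂) ^ 2 ≠ 0 := pow_ne_zero _ hne
  have hΔ : (z₁ ^ 2 - z₂ ^ 2) ^ 2 ≠ 0 := pow_ne_zero _ (sub_ne_zero.mpr hz)
  set q := z₁ + z₂ with hq
  set p := z₁ * z₂ with hp
  -- the two identities
  have I1 : q ^ 2 * w - p * (q ^ 2 * u) = c₃ * (-p) ^ 3 + c₂ * (-p) ^ 2 + c₁ * (-p) + c₀ := by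
    apply mul_left_cancel₀ hne2
    rw [hp, hq]
    linear_combination hw - z₁ * z₂ * hu
  have I2 : (q ^ 2 - 4 * p) * (q ^ 2 * (u * w))
      - (c₃ * p ^ 3 + c₂ * p ^ 2 + c₁ * p + c₀) * (q ^ 2 * u)
      - 4 * c₀ * c₃ * p * q ^ 2 =
      (-p) * ((c₃ * (-p) ^ 2 - c₁) ^ 2 - 4 * c₀ * (c₂ + 2 * c₃ * (-p))) := by
    apply mul_left_cancel₀ hΔ
    rw [hp, hq]
    linear_combination ((z₁ ^ 2 - z₂ ^ 2) ^ 2 * w) * hu
      + (c₃ * (z₁ * z₂) ^ 2 * (z₁ ^ 2 + z₂ ^ 2) + 2 * c₂ * (z₁ * z₂) ^ 2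
        + c₁ * (z₁ ^ 2 + z₂ ^ 2) + 2 * c₀ + 2 * Y) * hw
      - (c₃ * (z₁ * z₂) ^ 3 + c₂ * (z₁ * z₂) ^ 2 + c₁ * (z₁ * z₂) + c₀) * (z₁ + z₂) ^ 2 * hu
      + 4 * (z₁ * z₂) * hY
  -- heights
  have hm := hC₁ (fun j ↦ MvPolynomial.C (![q ^ 2 * (u * w), q ^ 2 * u, q ^ 2 * w, q ^ 2] j))
    (x := ![p, q, 1]) (by
      intro k
      simp only [MvPolynomial.eval_C]
      fin_cases k
      · have := t2row_eval c₀ c₁ c₂ c₃ A₁ B₁ _ hA₁ hB₁ hAB₁ p q _ _ _ _ I1 I2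
        refine this.trans ?_
        simp [Even.neg_pow (by decide : Even 8)]
      · simp [Q, Fin.sum_univ_four]
        ring
      · have := t2row_eval c₀ c₁ c₂ c₃ A₀ B₀ _ hA₀ hB₀ hAB₀ p q _ _ _ _ I1 I2
        refine this.trans ?_
        simp)
  simp only [MvPolynomial.eval_C] at hm
  have hq2 : q ^ 2 ≠ 0 := pow_ne_zero _ hne'
  have hsm : (fun j ↦ ![q ^ 2 * (u * w), q ^ 2 * u, q ^ 2 * w, q ^ 2] j) =
      q ^ 2 • ![u * w, u * 1, 1 * w, 1 * 1] := by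
    ext j; fin_cases j <;> simp
  rw [hsm, logHeight_smul_eq_logHeight _ hq2] at hm
  have huw : logHeight ![u * w, u * 1, 1 * w, 1 * 1] = logHeight₁ u + logHeight₁ w := by
    rw [logHeight₁_eq_logHeight, logHeight₁_eq_logHeight, logHeight_eq_log_mulHeight,
      ← mulHeight_mul_mulHeight (by simp) (by simp), Real.log_mul (mulHeight_ne_zero _)
      (mulHeight_ne_zero _)]
    rfl
  rw [huw] at hm
  have hs := hC₂ (a := z₁) (b := 1) (c := z₂) (d := 1) (by simp) (by simp)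
  have hxx : ![z₁ * z₂, z₁ * 1 + 1 * z₂, 1 * 1] = ![p, q, 1] := by
    simp [hp, hq]
  rw [hxx, ← logHeight₁_eq_logHeight, ← logHeight₁_eq_logHeight] at hs
  push_cast at hm
  linarith

end Pool.Agent.LibBH2
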