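import Pool.Agent.LibBH2.HeightDefs

/-!
Task T3: the core of the infinite rank statement (diagonally dominant Gram matrix).
-/

open Height WeierstrassCurve
open scoped Classical

namespace Pool.Agent.LibBH2

section Gram

variable {A : Type*} [AddCommGroup A] {q : A → ℝ}

/-- The symmetric form attached to a map satisfying the parallelogram law. -/
def bform (q : A → ℝ) (R S : A) : ℝ := q (R + S) - q R - q S

lemma par_zero (hq : ∀ R S : A, q (R + S) + q (R - S) = 2 * q R + 2 * q S) : q 0 = 0 := by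
  have := hq 0 0
  simp at this
  linarith

lemma par_neg (hq : ∀ R S : A, q (R + S) + q (R - S) = 2 * q R + 2 * q S) (S : A) :
    q (-S) = q S := by
  have := hq 0 S
  have h0 := par_zero hq
  simp at this
  linarith

lemma bform_add (hq : ∀ R S : A, q (R + S) + q (R - S) = 2 * q R + 2 * q S) (R S T : A) :
    bform q R (S + T) = bform q R S + bform q R T := by
  have h1 := hq (R + S) T
  have h2 := hq (R + T) S
  have h3 := hq (S + T) R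
  have h4 := hq R (S - T)
  have h5 := hq S (R - T)
  have h6 := hq T (R - S)
  have h7 := hq R S
  have h8 := hq R T
  have h9 := hq S T
  have e1 : R + T + S = R + S + T := by abel
  have e2 : S + T + R = R + S + T := by abel
  have e3 : q (R + T - S) = q (R - (S - T)) := by congr 1; abel
  have e4 : q (S + T - R) = q (S - (R - T)) := by congr 1; abel
  have e5 : q (R + S - T) = q (R + (S - T)) := by congr 1; abel
  have e6 : q (T + (R - S)) = q (R - (S - T)) := by congr 1; abel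
  have e7 : q (T - (R - S)) = q (S - (R - T)) := by congr 1; abel
  have e8 : q (S + (R - T)) = q (R + (S - T)) := by congr 1; abel
  have e9 : q (R + (S + T)) = q (R + S + T) := by congr 1; abel
  rw [e1, e3] at h2
  rw [e2, e4] at h3
  rw [e5] at h1
  rw [e8] at h5
  rw [e6, e7] at h6
  unfold bform
  rw [e9]
  linarith

lemma bform_zero (hq : ∀ R S : A, q (R + S) + q (R - S) = 2 * q R + 2 * q S) (R : A) :
    bform q R 0 = 0 := by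
  have h0 := par_zero hq
  simp [bform, h0]

lemma bform_sub_eq (hq : ∀ R S : A, q (R + S) + q (R - S) = 2 * q R + 2 * q S) (R S : A) :
    q (R - S) = q R + q S - bform q R S := by
  have := hq R S
  unfold bform
  linarith

lemma bform_self (hq : ∀ R S : A, q (R + S) + q (R - S) = 2 * q R + 2 * q S) (R : A) :
    bform q R R = 2 * q R := by
  have := hq R R
  have h0 := par_zero hq
  simp [h0] at this
  unfold bform
  linarith

/-- `bform` as a homomorphism in the second variable. -/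
noncomputable def bhom (hq : ∀ R S : A, q (R + S) + q (R - S) = 2 * q R + 2 * q S) (R : A) :
    A →+ ℝ :=
  AddMonoidHom.mk' (bform q R) (bform_add hq R)

lemma q_nsmul (hq : ∀ R S : A, q (R + S) + q (R - S) = 2 * q R + 2 * q S) (P : A) (n : ℕ) :
    q (n • P) = (n : ℝ) ^ 2 * q P := by
  induction n with
  | zero => simp [par_zero hq]
  | succ n ih =>
    have h1 : bform q P (n • P) = (n : ℝ) * (2 * q P) := by
      have : bhom hq P (n • P) = n • bhom hq P P := map_nsmul _ _ _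
      have e : bhom hq P P = 2 * q P := bform_self hq P
      rw [e] at this
      have e2 : bhom hq P (n • P) = bform q P (n • P) := rfl
      rw [← e2, this]; simp
    have h2 : q (P + n • P) = bform q P (n • P) + q P + q (n • P) := by
      unfold bform; ring
    rw [succ_nsmul', h2, h1, ih]
    push_cast
    ring

/-- Diagonally dominant Gram matrix. -/
theorem gram_indep (hq : ∀ R S : A, q (R + S) + q (R - S) = 2 * q R + 2 * q S)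
    (Q : ℕ → A) (n₀ : ℕ) (c C₁ C₂ : ℝ) (hc : 0 < c)
    (h1 : ∀ n, n₀ ≤ n → |q (Q n) - (n : ℝ) ^ 2 * c| ≤ C₁)
    (h2 : ∀ n m, n₀ ≤ n → n₀ ≤ m → n ≠ m →
      (n : ℝ) ^ 2 * c + (m : ℝ) ^ 2 * c ≤ ((n : ℝ) - m) ^ 2 * c + q (Q n - Q m) + C₂)
    (h3 : ∀ n m, n₀ ≤ n → n₀ ≤ m → n ≠ m →
      (n : ℝ) ^ 2 * c + (m : ℝ) ^ 2 * c ≤ ((n : ℝ) - m) ^ 2 * c + q (Q n + Q m) + C₂)
    (r : ℕ) : ∃ N : ℕ, n₀ ≤ N ∧ LinearIndependent ℤ (fun i : Fin r => Q (N + i)) := by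
  have hoff : ∀ n m, n₀ ≤ n → n₀ ≤ m → n ≠ m →
      |bform q (Q n) (Q m)| ≤ ((n : ℝ) - m) ^ 2 * c + (2 * C₁ + C₂) := by
    intro n m hn hm hnm
    have a1 := h2 n m hn hm hnm
    have a2 := h3 n m hn hm hnm
    have a3 := abs_le.mp (h1 n hn)
    have a4 := abs_le.mp (h1 m hm)
    rw [bform_sub_eq hq] at a1
    have a5 : q (Q n + Q m) = bform q (Q n) (Q m) + q (Q n) + q (Q m) := by unfold bform; ring
    rw [a5] at a2
    rw [abs_le]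
    constructor <;> linarith [a3.1, a3.2, a4.1, a4.2]
  set D : ℝ := (r : ℝ) ^ 2 * c + |2 * C₁ + C₂| with hD
  have hD0 : 0 ≤ D := by positivity
  obtain ⟨N₁, hN₁⟩ := exists_nat_gt ((r * D + 2 * C₁) / (2 * c))
  set N := max n₀ (max N₁ 1) with hN
  refine ⟨N, le_max_left _ _, ?_⟩
  have hN1 : (1 : ℝ) ≤ N := by
    have : 1 ≤ N := le_trans (le_max_right N₁ 1) (le_max_right _ _)
    exact_mod_cast this
  have hNN : (N₁ : ℝ) ≤ N := by
    have : N₁ ≤ N := le_trans (le_max_left N₁ 1) (le_max_right _ _)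
    exact_mod_cast this
  have hbig : r * D < 2 * (N : ℝ) ^ 2 * c - 2 * C₁ := by
    rw [div_lt_iff₀ (by positivity)] at hN₁
    have : (N₁ : ℝ) ≤ (N : ℝ) ^ 2 := by nlinarith
    nlinarith
  rw [Fintype.linearIndependent_iff]
  intro g hg
  by_contra hne
  push Not at hne
  obtain ⟨i₁, hi₁⟩ := hne
  have : Nonempty (Fin r) := ⟨i₁⟩
  obtain ⟨i₀, -, hi₀⟩ := Finset.exists_max_image (Finset.univ : Finset (Fin r))
    (fun i => |(g i : ℝ)|) Finset.univ_nonempty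
  have hpos : 0 < |(g i₀ : ℝ)| := by
    refine lt_of_lt_of_le ?_ (hi₀ i₁ (Finset.mem_univ _))
    rw [abs_pos]
    exact_mod_cast hi₁
  have hsum : ∑ i, (g i : ℝ) * bform q (Q (N + i₀)) (Q (N + i)) = 0 := by
    have := congrArg (bhom hq (Q (N + i₀))) hg
    rw [map_sum, map_zero] at this
    rw [← this]
    refine Finset.sum_congr rfl fun i _ => ?_
    rw [map_zsmul]
    simp [bhom]
  rw [← Finset.add_sum_erase _ _ (Finset.mem_univ i₀)] at hsum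
  have hdiag : 2 * (N : ℝ) ^ 2 * c - 2 * C₁ ≤ bform q (Q (N + i₀)) (Q (N + i₀)) := by
    rw [bform_self hq]
    have a3 := (abs_le.mp (h1 (N + i₀) (le_trans (le_max_left _ _) (Nat.le_add_right _ _)))).1
    have : (N : ℝ) ^ 2 ≤ ((N + i₀ : ℕ) : ℝ) ^ 2 := by
      push_cast
      have : (0 : ℝ) ≤ (i₀ : ℕ) := Nat.cast_nonneg _
      nlinarith
    nlinarith
  have hrest : |∑ i ∈ Finset.univ.erase i₀, (g i : ℝ) * bform q (Q (N + i₀)) (Q (N + i))|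
      ≤ r * (|(g i₀ : ℝ)| * D) := by
    refine (Finset.abs_sum_le_sum_abs _ _).trans ?_
    refine (Finset.sum_le_card_nsmul _ _ (|(g i₀ : ℝ)| * D) ?_).trans ?_
    · intro i hi
      rw [abs_mul]
      refine mul_le_mul (hi₀ i (Finset.mem_univ _)) ?_ (abs_nonneg _) (abs_nonneg _)
      have hne : N + (i₀ : ℕ) ≠ N + (i : ℕ) := by
        intro h
        apply (Finset.mem_erase.mp hi).1
        exact Fin.ext (by omega)
      refine (hoff _ _ (le_trans (le_max_left _ _) (Nat.le_add_right _ _))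
        (le_trans (le_max_left _ _) (Nat.le_add_right _ _)) hne).trans ?_
      have hi1 : ((i : ℕ) : ℝ) ≤ r := by exact_mod_cast i.2.le
      have hi2 : ((i₀ : ℕ) : ℝ) ≤ r := by exact_mod_cast i₀.2.le
      have hi3 : (0 : ℝ) ≤ ((i : ℕ) : ℝ) := Nat.cast_nonneg _
      have hi4 : (0 : ℝ) ≤ ((i₀ : ℕ) : ℝ) := Nat.cast_nonneg _
      have h5 : (((N + (i₀ : ℕ) : ℕ) : ℝ) - ((N + (i : ℕ) : ℕ) : ℝ)) ^ 2 ≤ (r : ℝ) ^ 2 := by
        push_cast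
        rw [show (N : ℝ) + (i₀ : ℕ) - (N + (i : ℕ)) = (i₀ : ℕ) - (i : ℕ) by ring]
        apply sq_le_sq'
        · linarith
        · linarith
      have h6 := le_abs_self (2 * C₁ + C₂)
      have h7 := mul_le_mul_of_nonneg_right h5 hc.le
      rw [hD]
      linarith
    · rw [nsmul_eq_mul]
      refine mul_le_mul_of_nonneg_right ?_ (by positivity)
      have : (Finset.univ.erase i₀ : Finset (Fin r)).card ≤ r := by
        refine (Finset.card_le_univ _).trans ?_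
        simp
      exact_mod_cast this
  have hkey : |(g i₀ : ℝ)| * bform q (Q (N + i₀)) (Q (N + i₀)) ≤ r * (|(g i₀ : ℝ)| * D) := by
    refine le_trans ?_ hrest
    have e : (g i₀ : ℝ) * bform q (Q (N + i₀)) (Q (N + i₀))
        = - ∑ i ∈ Finset.univ.erase i₀, (g i : ℝ) * bform q (Q (N + i₀)) (Q (N + i)) := by
      linarith
    rw [← abs_neg (∑ i ∈ Finset.univ.erase i₀, (g i : ℝ) * bform q (Q (N + i₀)) (Q (N + i))), ← e,
      abs_mul]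
    exact mul_le_mul_of_nonneg_left (le_abs_self _) (abs_nonneg _)
  have : |(g i₀ : ℝ)| * (r * D) < |(g i₀ : ℝ)| * bform q (Q (N + i₀)) (Q (N + i₀)) :=
    mul_lt_mul_of_pos_left (lt_of_lt_of_le hbig hdiag) hpos
  linarith

end Gram

section Curve

variable {K : Type} [Field K] (W : WeierstrassCurve K)

/-- `2 y + a₁ x + a₃`. -/
def etaV (x y : K) : K := 2 * y + W.a₁ * x + W.a₃

lemma etaV_sq {x y : K} (h : (W⁄K).toAffine.Nonsingular x y) :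
    etaV W x y ^ 2 = 4 * x ^ 3 + W.b₂ * x ^ 2 + 2 * W.b₄ * x + W.b₆ := by
  have h1 := ((W⁄K).toAffine.equation_iff x y).mp h.1
  have h2 : y ^ 2 + W.a₁ * x * y + W.a₃ * y = x ^ 3 + W.a₂ * x ^ 2 + W.a₄ * x + W.a₆ := h1
  simp only [etaV, WeierstrassCurve.b₂, WeierstrassCurve.b₄, WeierstrassCurve.b₆]
  linear_combination 4 * h2

lemma add_x [CharZero K] {x₁ y₁ x₂ y₂ : K} (h₁ : (W⁄K).toAffine.Nonsingular x₁ y₁)
    (h₂ : (W⁄K).toAffine.Nonsingular x₂ y₂) (hx : x₁ ≠ x₂) :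
    ∃ x₃ y₃ h₃, Affine.Point.some x₁ y₁ h₁ + Affine.Point.some x₂ y₂ h₂
        = (Affine.Point.some x₃ y₃ h₃ : (W⁄K).toAffine.Point) ∧
      4 * x₃ * (x₁ - x₂) ^ 2 = (etaV W x₁ y₁ - etaV W x₂ y₂) ^ 2
        - (W.b₂ + 4 * x₁ + 4 * x₂) * (x₁ - x₂) ^ 2 := by
  refine ⟨_, _, _, Affine.Point.add_of_X_ne hx, ?_⟩
  rw [Affine.slope_of_X_ne hx, Affine.addX]
  have hx' : x₁ - x₂ ≠ 0 := sub_ne_zero.mpr hx
  have e1 : (W⁄K).toAffine.a₁ = W.a₁ := rfl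
  have e2 : (W⁄K).toAffine.a₂ = W.a₂ := rfl
  rw [e1, e2]
  simp only [etaV, WeierstrassCurve.b₂]
  field_simp
  ring

lemma sub_x [CharZero K] {x₁ y₁ x₂ y₂ : K} (h₁ : (W⁄K).toAffine.Nonsingular x₁ y₁)
    (h₂ : (W⁄K).toAffine.Nonsingular x₂ y₂) (hx : x₁ ≠ x₂) :
    ∃ x₃ y₃ h₃, Affine.Point.some x₁ y₁ h₁ - Affine.Point.some x₂ y₂ h₂
        = (Affine.Point.some x₃ y₃ h₃ : (W⁄K).toAffine.Point) ∧
      4 * x₃ * (x₁ - x₂) ^ 2 = (etaV W x₁ y₁ + etaV W x₂ y₂) ^ 2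
        - (W.b₂ + 4 * x₁ + 4 * x₂) * (x₁ - x₂) ^ 2 := by
  obtain ⟨x₃, y₃, h₃, e, h⟩ := add_x W h₁ ((Affine.nonsingular_neg x₂ y₂).mpr h₂) hx
  refine ⟨x₃, y₃, h₃, ?_, ?_⟩
  · rw [sub_eq_add_neg, Affine.Point.neg_some]
    exact e
  · rw [h]
    have e1 : (W⁄K).toAffine.a₁ = W.a₁ := rfl
    have e2 : (W⁄K).toAffine.a₃ = W.a₃ := rfl
    simp only [etaV, Affine.negY, e1, e2]
    ring

lemma eq_or_neg {x y₁ y₂ : K} (h₁ : (W⁄K).toAffine.Nonsingular x y₁)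
    (h₂ : (W⁄K).toAffine.Nonsingular x y₂) :
    (Affine.Point.some x y₁ h₁ : (W⁄K).toAffine.Point) = Affine.Point.some x y₂ h₂ ∨
    (Affine.Point.some x y₁ h₁ : (W⁄K).toAffine.Point) = - Affine.Point.some x y₂ h₂ := by
  rcases Affine.Y_eq_of_X_eq h₁.1 h₂.1 rfl with h | h
  · left
    subst h
    rfl
  · right
    rw [Affine.Point.neg_some]
    subst h
    rfl

end Curve

section Heights

variable {K : Type} [Field K] [NumberField K]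

lemma h_affine (α β : K) : ∃ C : ℝ, ∀ x : K, logHeight₁ (α * x + β) ≤ logHeight₁ x + C := by
  refine ⟨totalWeight K * Real.log 2 + logHeight₁ α + logHeight₁ β, fun x => ?_⟩
  have h1 := logHeight₁_add_le (α * x) β
  have h2 := logHeight₁_mul_le α x
  linarith

lemma nh_some {W : WeierstrassCurve K} {x y : K} (h : (W⁄K).toAffine.Nonsingular x y) :
    nh (K := K) (L := K) (W := W) (Affine.Point.some x y h) = logHeight₁ x := by
  have hx : ∃ x₀ : K, algebraMap K K x₀ = x := ⟨x, rfl⟩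
  have e : hx.choose = x := hx.choose_spec
  unfold nh
  simp only [dif_pos hx]
  rw [e]

omit [NumberField K] in
lemma xin_all {W : WeierstrassCurve K} (R : (W⁄K).toAffine.Point) : XIn R := by
  rcases R with _ | ⟨x, y, h⟩
  · left; rfl
  · right; exact ⟨x, y, h, rfl⟩

end Heights

section Algebra

variable {K : Type} [Field K]

lemma coprime_cubic [CharZero K] (c₀ c₁ c₂ c₃ : K) (h3 : c₃ ≠ 0)
    (hD : c₂ ^ 2 * c₁ ^ 2 - 4 * c₃ * c₁ ^ 3 - 4 * c₂ ^ 3 * c₀ - 27 * c₃ ^ 2 * c₀ ^ 2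
      + 18 * c₃ * c₂ * c₁ * c₀ ≠ 0) (F : Polynomial K)
    (hF : F = Polynomial.C c₃ * Polynomial.X ^ 3 + Polynomial.C c₂ * Polynomial.X ^ 2
      + Polynomial.C c₁ * Polynomial.X + Polynomial.C c₀) :
    IsCoprime F (Polynomial.derivative F) := by
  set D := c₂ ^ 2 * c₁ ^ 2 - 4 * c₃ * c₁ ^ 3 - 4 * c₂ ^ 3 * c₀ - 27 * c₃ ^ 2 * c₀ ^ 2
      + 18 * c₃ * c₂ * c₁ * c₀ with hDd
  have hk : (-9 * c₃ * D) ≠ 0 := by
    refine mul_ne_zero (mul_ne_zero ?_ h3) hD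
    norm_num
  set α := 6 * c₃ * c₁ - 2 * c₂ ^ 2 with hα
  set β := 9 * c₃ * c₀ - c₁ * c₂ with hβ
  have hF' : Polynomial.derivative F = Polynomial.C (3 * c₃) * Polynomial.X ^ 2
      + Polynomial.C (2 * c₂) * Polynomial.X + Polynomial.C c₁ := by
    rw [hF]
    simp only [Polynomial.derivative_add, Polynomial.derivative_C_mul, Polynomial.derivative_X_pow,
      Polynomial.derivative_X, Polynomial.derivative_C]
    simp only [map_mul, map_ofNat, Nat.cast_ofNat]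
    norm_num
    ring
  obtain ⟨A, hA⟩ : ∃ A : Polynomial K, A = (Polynomial.C (-9 * c₃) * (Polynomial.C (3 * c₃ * α)
    * Polynomial.X + Polynomial.C (2 * c₂ * α - 3 * c₃ * β))) := ⟨_, rfl⟩
  obtain ⟨B, hB⟩ : ∃ B : Polynomial K, B = (Polynomial.C (α ^ 2) + (Polynomial.C (3 * c₃)
    * Polynomial.X + Polynomial.C c₂) *
      (Polynomial.C (3 * c₃ * α) * Polynomial.X + Polynomial.C (2 * c₂ * α - 3 * c₃ * β))) :=
    ⟨_, rfl⟩
  have key : A * F + B * Polynomial.derivative F = Polynomial.C (-9 * c₃ * D) := by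
    rw [hA, hB, hF', hF, hα, hβ, hDd]
    simp only [map_mul, map_sub, map_add, map_pow, map_neg, map_ofNat]
    ring
  refine ⟨Polynomial.C (-9 * c₃ * D)⁻¹ * A, Polynomial.C (-9 * c₃ * D)⁻¹ * B, ?_⟩
  have e : Polynomial.C (-9 * c₃ * D)⁻¹ * Polynomial.C (-9 * c₃ * D) = 1 := by
    rw [← Polynomial.C_mul, inv_mul_cancel₀ hk, Polynomial.C_1]
  linear_combination Polynomial.C (-9 * c₃ * D)⁻¹ * key + e

lemma w_relation {m κ ν b c₀ c₁ c₂ z₁ z₂ η₁ η₂ η₁' η₂' x₁ x₂ x₃ w : K} (hκ : κ ≠ 0)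
    (hν : ν ≠ 0) (hz₁ : z₁ ≠ 0) (hz₂ : z₂ ≠ 0)
    (r1 : x₁ * z₁ ^ 2 = m * z₁ ^ 2 + κ) (r2 : x₂ * z₂ ^ 2 = m * z₂ ^ 2 + κ)
    (r3 : η₁' * z₁ ^ 3 = ν * η₁) (r4 : η₂' * z₂ ^ 3 = ν * η₂)
    (r5 : 4 * κ ^ 3 = ν ^ 2 * c₀) (r6 : κ ^ 2 * (12 * m + b) = ν ^ 2 * c₁)
    (r7 : η₁ ^ 2 = 4 * z₁ ^ 6 + c₂ * z₁ ^ 4 + c₁ * z₁ ^ 2 + c₀)
    (r8 : η₂ ^ 2 = 4 * z₂ ^ 6 + c₂ * z₂ ^ 4 + c₁ * z₂ ^ 2 + c₀)
    (h3 : 4 * x₃ * (x₁ - x₂) ^ 2 = (η₁' + η₂') ^ 2 - (b + 4 * x₁ + 4 * x₂) * (x₁ - x₂) ^ 2)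
    (hw : κ * w = c₀ * (x₃ - m)) :
    (z₁ ^ 2 - z₂ ^ 2) ^ 2 * w = 2 * 4 * (z₁ * z₂) ^ 4 + c₂ * (z₁ * z₂) ^ 2 * (z₁ ^ 2 + z₂ ^ 2)
      + 2 * c₁ * (z₁ * z₂) ^ 2 + c₀ * (z₁ ^ 2 + z₂ ^ 2) + 2 * (η₁ * η₂) * (z₁ * z₂) := by
  have hw2 : ν ^ 2 * w = 4 * κ ^ 2 * (x₃ - m) := by
    apply mul_left_cancel₀ hκ
    linear_combination ν ^ 2 * hw - (x₃ - m) * r5
  have hx : (x₁ - x₂) * (z₁ * z₂) ^ 2 = κ * (z₂ ^ 2 - z₁ ^ 2) := by
    linear_combination z₂ ^ 2 * r1 - z₁ ^ 2 * r2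
  have hx2 : (x₁ - x₂) ^ 2 * (z₁ * z₂) ^ 4 = κ ^ 2 * (z₁ ^ 2 - z₂ ^ 2) ^ 2 := by
    linear_combination ((x₁ - x₂) * (z₁ * z₂) ^ 2 + κ * (z₂ ^ 2 - z₁ ^ 2)) * hx
  have hA : 4 * x₃ * (κ ^ 2 * (z₁ ^ 2 - z₂ ^ 2) ^ 2) = (z₁ * z₂) ^ 4 * (η₁' + η₂') ^ 2
      - (b + 4 * x₁ + 4 * x₂) * (κ ^ 2 * (z₁ ^ 2 - z₂ ^ 2) ^ 2) := by
    rw [← hx2]
    linear_combination (z₁ * z₂) ^ 4 * h3
  have hB : (η₁' + η₂') * (z₁ * z₂) ^ 3 = ν * (η₁ * z₂ ^ 3 + η₂ * z₁ ^ 3) := by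
    linear_combination z₂ ^ 3 * r3 + z₁ ^ 3 * r4
  have hB2 : (η₁' + η₂') ^ 2 * (z₁ * z₂) ^ 6 = ν ^ 2 * (η₁ * z₂ ^ 3 + η₂ * z₁ ^ 3) ^ 2 := by
    linear_combination ((η₁' + η₂') * (z₁ * z₂) ^ 3 + ν * (η₁ * z₂ ^ 3 + η₂ * z₁ ^ 3)) * hB
  have hS : (x₁ + x₂ - 2 * m) * (z₁ * z₂) ^ 2 = κ * (z₁ ^ 2 + z₂ ^ 2) := by
    linear_combination z₂ ^ 2 * r1 + z₁ ^ 2 * r2
  have hzz : ν ^ 2 * (z₁ * z₂) ^ 2 ≠ 0 :=
    mul_ne_zero (pow_ne_zero _ hν) (pow_ne_zero _ (mul_ne_zero hz₁ hz₂))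
  apply mul_left_cancel₀ hzz
  have hC : (z₁ * z₂) ^ 2 * (4 * (x₃ - m) * (κ ^ 2 * (z₁ ^ 2 - z₂ ^ 2) ^ 2))
      = ν ^ 2 * (η₁ * z₂ ^ 3 + η₂ * z₁ ^ 3) ^ 2
        - ν ^ 2 * (c₁ * (z₁ * z₂) ^ 2 + c₀ * (z₁ ^ 2 + z₂ ^ 2)) * (z₁ ^ 2 - z₂ ^ 2) ^ 2 := by
    linear_combination (z₁ * z₂) ^ 2 * hA + hB2
      - 4 * κ ^ 2 * (z₁ ^ 2 - z₂ ^ 2) ^ 2 * hS
      - (z₁ ^ 2 - z₂ ^ 2) ^ 2 * (z₁ * z₂) ^ 2 * r6 - (z₁ ^ 2 - z₂ ^ 2) ^ 2 * (z₁ ^ 2 + z₂ ^ 2) * r5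
  linear_combination hC + (z₁ * z₂) ^ 2 * (z₁ ^ 2 - z₂ ^ 2) ^ 2 * hw2
    + ν ^ 2 * z₂ ^ 6 * r7 + ν ^ 2 * z₁ ^ 6 * r8

end Algebra

/-- Task T3. -/
theorem t3 (h1 : TaskT1) (h2 : TaskT2) : TaskT3 := by
  intro K _ _ V₁ V₂ _ _ a m κ ν hκ hν hid P hP n₀ z Q hQ
  obtain ⟨c₂, hc₂⟩ : ∃ c, c = 12 * a + V₁.b₂ := ⟨_, rfl⟩
  obtain ⟨c₁, hc₁⟩ : ∃ c, c = 12 * a ^ 2 + 2 * V₁.b₂ * a + 2 * V₁.b₄ := ⟨_, rfl⟩
  obtain ⟨c₀, hc₀⟩ : ∃ c, c = 4 * a ^ 3 + V₁.b₂ * a ^ 2 + 2 * V₁.b₄ * a + V₁.b₆ := ⟨_, rfl⟩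
  have r5 : 4 * κ ^ 3 = ν ^ 2 * c₀ := by
    have := hid 0
    rw [hc₀]
    linear_combination this
  have r6 : κ ^ 2 * (12 * m + V₂.b₂) = ν ^ 2 * c₁ := by
    have e1 := hid 1
    have e2 := hid (-1)
    have e3 := hid 2
    have e4 := hid (-2)
    rw [hc₁]
    have h12 : (12 : K) ≠ 0 := by norm_num
    apply mul_left_cancel₀ h12
    linear_combination 8 * (e1 - e2) - (e3 - e4)
  have h4 : (4 : K) ≠ 0 := by norm_num
  have hc₀0 : c₀ ≠ 0 := by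
    intro h
    rw [h, mul_zero] at r5
    exact (mul_ne_zero h4 (pow_ne_zero 3 hκ)) r5
  have hD : c₂ ^ 2 * c₁ ^ 2 - 4 * 4 * c₁ ^ 3 - 4 * c₂ ^ 3 * c₀ - 27 * 4 ^ 2 * c₀ ^ 2
      + 18 * 4 * c₂ * c₁ * c₀ ≠ 0 := by
    have hΔ : V₁.Δ ≠ 0 := by
      have := V₁.isUnit_Δ
      exact this.ne_zero
    have e : c₂ ^ 2 * c₁ ^ 2 - 4 * 4 * c₁ ^ 3 - 4 * c₂ ^ 3 * c₀ - 27 * 4 ^ 2 * c₀ ^ 2
      + 18 * 4 * c₂ * c₁ * c₀ = 16 * V₁.Δ := by
      rw [hc₀, hc₁, hc₂]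
      simp only [WeierstrassCurve.Δ, WeierstrassCurve.b₂, WeierstrassCurve.b₄,
        WeierstrassCurve.b₆, WeierstrassCurve.b₈]
      ring
    rw [e]
    exact mul_ne_zero (by norm_num) hΔ
  obtain ⟨C, hC⟩ := h2 K c₀ c₁ c₂ 4 hc₀0 h4 (fun F hF => coprime_cubic c₀ c₁ c₂ 4 h4 hD F hF)
  -- canonical heights
  obtain ⟨D₁, hD₁⟩ := h1 K V₁
  obtain ⟨D₂, hD₂⟩ := h1 K V₂
  obtain ⟨q₁, ha₁, hp₁, hn₁, ht₁⟩ := hD₁ K ⊤ (fun R _ => xin_all R)
  obtain ⟨q₂, ha₂, hp₂, -, -⟩ := hD₂ K ⊤ (fun R _ => xin_all R)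
  replace hp₁ : ∀ R S, q₁ (R + S) + q₁ (R - S) = 2 * q₁ R + 2 * q₁ S := fun R S =>
    hp₁ R (AddSubgroup.mem_top R) S (AddSubgroup.mem_top S)
  replace hp₂ : ∀ R S, q₂ (R + S) + q₂ (R - S) = 2 * q₂ R + 2 * q₂ S := fun R S =>
    hp₂ R (AddSubgroup.mem_top R) S (AddSubgroup.mem_top S)
  replace ha₁ : ∀ R, |q₁ R - nh R| ≤ D₁ := fun R => ha₁ R (AddSubgroup.mem_top R)
  replace ha₂ : ∀ R, |q₂ R - nh R| ≤ D₂ := fun R => ha₂ R (AddSubgroup.mem_top R)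
  have hc : 0 < q₁ P := by
    refine lt_of_le_of_ne (hn₁ P (AddSubgroup.mem_top P)) fun h => ?_
    obtain ⟨n, hn, hn'⟩ := (ht₁ P (AddSubgroup.mem_top P) h.symm).exists_nsmul_eq_zero
    exact hP n hn hn'
  -- elementary height comparisons
  obtain ⟨A₁, hA₁⟩ := h_affine (1 : K) a
  obtain ⟨A₂, hA₂⟩ := h_affine (1 : K) (-a)
  obtain ⟨A₃, hA₃⟩ := h_affine (κ : K) m
  obtain ⟨A₄, hA₄⟩ := h_affine (κ⁻¹ : K) (-(κ⁻¹ * m))
  obtain ⟨A₅, hA₅⟩ := h_affine (4 : K) (-(4 * a))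
  obtain ⟨A₆, hA₆⟩ := h_affine (c₀ / κ : K) (-(c₀ / κ * m))
  -- the height of the points
  have hnP : ∀ n, n₀ ≤ n → |(n : ℝ) ^ 2 * q₁ P - 2 * logHeight₁ (z n)| ≤ D₁ + |A₁| + |A₂| := by
    intro n hn
    obtain ⟨hz, x, y, h, x', y', h', e1, e2, e3, e4, e5⟩ := hQ n hn
    have b1 := ha₁ (n • P)
    rw [q_nsmul hp₁, e1, nh_some] at b1
    have b2 := hA₁ (z n ^ 2)
    have b3 := hA₂ x
    have b4 : (1 : K) * z n ^ 2 + a = x := by rw [e3]; ring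
    have b5 : (1 : K) * x + -a = z n ^ 2 := by rw [e3]; ring
    rw [b4, logHeight₁_pow] at b2
    rw [b5, logHeight₁_pow] at b3
    push_cast at b2 b3
    have b6 := le_abs_self A₁
    have b7 := le_abs_self A₂
    have b8 := abs_nonneg A₁
    have b9 := abs_nonneg A₂
    rw [abs_le] at b1 ⊢
    constructor <;> linarith [b1.1, b1.2]
  have hnQ : ∀ n, n₀ ≤ n → |q₂ (Q n) - 2 * logHeight₁ (z n)| ≤ D₂ + |A₃| + |A₄| := by
    intro n hn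
    obtain ⟨hz, x, y, h, x', y', h', e1, e2, e3, e4, e5⟩ := hQ n hn
    have b1 := ha₂ (Q n)
    rw [e2, nh_some] at b1
    rw [← e2] at b1
    have b2 := hA₃ (z n ^ 2)⁻¹
    have b3 := hA₄ x'
    have b4 : κ * (z n ^ 2)⁻¹ + m = x' := by rw [e4]; ring
    have b5 : κ⁻¹ * x' + -(κ⁻¹ * m) = (z n ^ 2)⁻¹ := by rw [e4]; field_simp; ring
    rw [b4, logHeight₁_inv, logHeight₁_pow] at b2
    rw [b5, logHeight₁_inv, logHeight₁_pow] at b3
    push_cast at b2 b3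
    have b6 := le_abs_self A₃
    have b7 := le_abs_self A₄
    have b8 := abs_nonneg A₃
    have b9 := abs_nonneg A₄
    rw [abs_le] at b1 ⊢
    constructor <;> linarith [b1.1, b1.2]
  -- the gap inequality
  have hdiff : ∀ n k : ℕ, q₁ ((n : ℤ) • P - (k : ℤ) • P) = ((n : ℝ) - k) ^ 2 * q₁ P := by
    intro n k
    rw [← sub_smul]
    rcases le_total k n with hkn | hkn
    · obtain ⟨d, rfl⟩ := Nat.exists_eq_add_of_le hkn
      have : ((k + d : ℕ) : ℤ) - (k : ℤ) = (d : ℤ) := by push_cast; ring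
      rw [this, natCast_zsmul, q_nsmul hp₁]
      push_cast
      ring
    · obtain ⟨d, rfl⟩ := Nat.exists_eq_add_of_le hkn
      have : (n : ℤ) - ((n + d : ℕ) : ℤ) = -(d : ℤ) := by push_cast; ring
      rw [this, neg_smul, par_neg hp₁, natCast_zsmul, q_nsmul hp₁]
      push_cast
      ring
  have hgap : ∀ n k, n₀ ≤ n → n₀ ≤ k → n ≠ k →
      (2 * logHeight₁ (z n) + 2 * logHeight₁ (z k) ≤ q₁ (n • P - k • P) + q₂ (Q n - Q k)
        + (C + D₁ + D₂ + |A₅| + |A₆|)) ∧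
      (2 * logHeight₁ (z n) + 2 * logHeight₁ (z k) ≤ q₁ (n • P - k • P) + q₂ (Q n + Q k)
        + (C + D₁ + D₂ + |A₅| + |A₆|)) := by
    intro n k hn hk hnk
    obtain ⟨hz, x, y, h, x', y', h', e1, e2, e3, e4, e5⟩ := hQ n hn
    obtain ⟨gz, s, t, g, s', t', g', f1, f2, f3, f4, f5⟩ := hQ k hk
    have hxs : x ≠ s := by
      intro hxs
      subst hxs
      rcases eq_or_neg V₁ h g with hh | hh
      · rw [← e1, ← f1] at hh
        rcases lt_or_gt_of_ne hnk with hlt | hlt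
        · obtain ⟨d, rfl⟩ := Nat.exists_eq_add_of_lt hlt
          apply hP (d + 1) (by omega)
          have : (n + d + 1) • P = n • P + (d + 1) • P := by
            rw [add_assoc, add_nsmul]
          rw [this] at hh
          simpa using hh
        · obtain ⟨d, rfl⟩ := Nat.exists_eq_add_of_lt hlt
          apply hP (d + 1) (by omega)
          have : (k + d + 1) • P = k • P + (d + 1) • P := by
            rw [add_assoc, add_nsmul]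
          rw [this] at hh
          simpa using hh
      · rw [← e1, ← f1] at hh
        apply hP (n + k) (by omega)
        rw [add_nsmul, hh]
        simp
    have hzz : z n ^ 2 ≠ z k ^ 2 := by
      intro hh
      apply hxs
      rw [e3, f3, hh]
    have r7 : etaV V₁ x y ^ 2 = 4 * z n ^ 6 + c₂ * z n ^ 4 + c₁ * z n ^ 2 + c₀ := by
      rw [etaV_sq V₁ h, e3, hc₀, hc₁, hc₂]
      ring
    have r8 : etaV V₁ s t ^ 2 = 4 * z k ^ 6 + c₂ * z k ^ 4 + c₁ * z k ^ 2 + c₀ := by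
      rw [etaV_sq V₁ g, f3, hc₀, hc₁, hc₂]
      ring
    obtain ⟨x₃, y₃, h₃, p1, p2⟩ := sub_x V₁ h g hxs
    have hxs' : x' ≠ s' := by
      intro hh
      apply hzz
      rw [e4, f4] at hh
      have h5 : κ / z n ^ 2 = κ / z k ^ 2 := add_left_cancel hh
      rw [div_eq_div_iff (pow_ne_zero 2 hz) (pow_ne_zero 2 gz)] at h5
      exact (mul_left_cancel₀ hκ h5).symm
    obtain ⟨x₄, y₄, h₄, p3, p4⟩ := sub_x V₂ h' g' hxs'
    obtain ⟨x₅, y₅, h₅, p5, p6⟩ := add_x V₂ h' g' hxs'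
    have k1 : x' * z n ^ 2 = m * z n ^ 2 + κ := by rw [e4]; field_simp
    have k2 : s' * z k ^ 2 = m * z k ^ 2 + κ := by rw [f4]; field_simp
    have k3 : etaV V₂ x' y' * z n ^ 3 = ν * etaV V₁ x y := e5
    have k4 : etaV V₂ s' t' * z k ^ 3 = ν * etaV V₁ s t := f5
    have k5 : ∀ v : K, κ * (c₀ / κ * v + -(c₀ / κ * m)) = c₀ * (v - m) := by
      intro v; field_simp; ring
    have hu : (z n ^ 2 - z k ^ 2) ^ 2 * (4 * x₃ + -(4 * a)) = 4 * (z n * z k) ^ 2 *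
        (z n ^ 2 + z k ^ 2) + 2 * c₂ * (z n * z k) ^ 2
      + c₁ * (z n ^ 2 + z k ^ 2) + 2 * c₀ + 2 * (etaV V₁ x y * etaV V₁ s t) := by
      rw [e3, f3] at p2
      rw [e3] at r7 ⊢
      rw [f3] at r8 ⊢
      rw [hc₂] at r7 r8 ⊢
      linear_combination p2 + r7 + r8
    have w1 := w_relation hκ hν hz gz k1 k2 k3 k4 r5 r6 r7 r8 p4 (k5 x₄)
    have gz' : -z k ≠ 0 := neg_ne_zero.mpr gz
    have w2 := w_relation (z₂ := -z k) (η₂' := -etaV V₂ s' t') (x₂ := s') (η₂ := etaV V₁ s t)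
      (c₂ := c₂) (x₃ := x₅) hκ hν hz gz' k1
      (by linear_combination k2) k3 (by linear_combination k4) r5 r6 r7
      (by linear_combination r8) (by linear_combination p6) (k5 x₅)
    have hY : (etaV V₁ x y * etaV V₁ s t) ^ 2 = (4 * z n ^ 6 + c₂ * z n ^ 4 + c₁ * z n ^ 2 + c₀) *
      (4 * z k ^ 6 + c₂ * z k ^ 4 + c₁ * z k ^ 2 + c₀) := by
      rw [mul_pow, r7, r8]
    have G1 := hC (z n) (z k) (etaV V₁ x y * etaV V₁ s t) _ _ hz gz hzz hY hu w1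
    have G2 := hC (z n) (-z k) (etaV V₁ x y * etaV V₁ s t) (4 * x₃ + -(4 * a)) _ hz gz'
      (by rw [neg_sq]; exact hzz) (by linear_combination hY) (by linear_combination hu) w2
    rw [logHeight₁_neg] at G2
    have m1 := hA₅ x₃
    have m2 := hA₆ x₄
    have m3 := hA₆ x₅
    have m4 := ha₁ (n • P - k • P)
    have m5 := ha₂ (Q n - Q k)
    have m6 := ha₂ (Q n + Q k)
    rw [e1, f1, p1, nh_some] at m4
    rw [e2, f2, p3, nh_some] at m5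
    rw [e2, f2, p5, nh_some] at m6
    rw [e1, f1, e2, f2, p1, p3, p5]
    rw [abs_le] at m4 m5 m6
    have b6 := le_abs_self A₅
    have b7 := le_abs_self A₆
    constructor
    · linarith [m4.1, m4.2, m5.1, m5.2]
    · linarith [m4.1, m4.2, m6.1, m6.2]
  intro r
  refine gram_indep hp₂ Q n₀ (q₁ P) (D₁ + |A₁| + |A₂| + (D₂ + |A₃| + |A₄|))
    (2 * (D₁ + |A₁| + |A₂|) + (C + D₁ + D₂ + |A₅| + |A₆|)) hc ?_ ?_ ?_ r
  · intro n hn
    have a1 := hnP n hn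
    have a2 := hnQ n hn
    rw [abs_le] at a1 a2 ⊢
    constructor <;> linarith [a1.1, a1.2, a2.1, a2.2]
  · intro n k hn hk hnk
    have a1 := abs_le.mp (hnP n hn)
    have a2 := abs_le.mp (hnP k hk)
    have a3 := (hgap n k hn hk hnk).1
    have a4 := hdiff n k
    rw [natCast_zsmul, natCast_zsmul] at a4
    rw [a4] at a3
    linarith [a1.1, a1.2, a2.1, a2.2]
  · intro n k hn hk hnk
    have a1 := abs_le.mp (hnP n hn)
    have a2 := abs_le.mp (hnP k hk)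
    have a3 := (hgap n k hn hk hnk).2
    have a4 := hdiff n k
    rw [natCast_zsmul, natCast_zsmul] at a4
    rw [a4] at a3
    linarith [a1.1, a1.2, a2.1, a2.2]

end Pool.Agent.LibBH2
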