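import Pool.Agent.LibBH2.ApproxPar

/-! Task T4: torsion points have bounded height -/

set_option autoImplicit false

open Height WeierstrassCurve MvPolynomial
open scoped Classical

namespace Pool.Agent.LibBH2

theorem t4 : TaskT4 := by
  intro K _ _ W _
  obtain ⟨C, hC0, hC⟩ := approxPar W
  refine ⟨C, fun L _ _ R hX hR => ?_⟩
  have hXn : ∀ n : ℕ, XIn ((2 ^ n) • R) := by
    intro n
    induction n with
    | zero => simpa using hX
    | succ n ih =>
      have : (2 ^ (n + 1)) • R = (2 ^ n) • R + (2 ^ n) • R := by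
        rw [pow_succ, mul_nsmul, two_nsmul]
      rw [this]
      exact ih.two
  have hstep : ∀ n : ℕ, 4 * nh ((2 ^ n) • R) - C ≤ nh ((2 ^ (n + 1)) • R) := by
    intro n
    have h := hC L _ _ (hXn n) (hXn n) (hXn n).two (by rw [sub_self]; exact Or.inl rfl)
    rw [sub_self, nh_zero', ← two_nsmul, ← mul_nsmul, ← pow_succ, abs_le] at h
    linarith [h.1]
  have hfin : (Set.range fun n : ℕ => nh ((2 ^ n) • R)).Finite := by
    have h1 : ((AddSubmonoid.multiples R : Set (W⁄L).toAffine.Point)).Finite :=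
      finite_multiples.2 hR
    refine (h1.image fun S => nh S).subset ?_
    rintro _ ⟨n, rfl⟩
    exact ⟨(2 ^ n) • R, ⟨2 ^ n, rfl⟩, rfl⟩
  obtain ⟨M, ⟨n, hn⟩, hM⟩ := Set.exists_max_image _ (fun x : ℝ => x) hfin
    ⟨_, Set.mem_range_self 0⟩
  have h1 := hM _ (Set.mem_range_self (n + 1))
  have h0 := hM _ (Set.mem_range_self 0)
  have h2 := hstep n
  simp only [pow_zero, one_nsmul] at h0
  simp only at h1 hn
  rw [← hn] at h0 h1
  linarith

end Pool.Agent.LibBH2
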