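import Pool.Agent.LibBH2.Stmts
import Pool.Agent.LibBH2.T1
import Pool.Agent.LibBH2.T2
import Pool.Agent.LibBH2.T3
import Pool.Agent.LibBH2.T4

/-!
The group of all `Q` with `z(P, Q)` torsion has infinite rank.
-/

open WeierstrassCurve Height
open scoped Classical

namespace Pool.Agent.LibBH2

/-- the `x`-heights of the multiples of a point of infinite order tend to infinity -/
theorem nh_grow {K : Type} [Field K] [NumberField K] (V : WeierstrassCurve K) [V.IsElliptic]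
    (P : (V⁄K).toAffine.Point) (hP : ¬ IsOfFinAddOrder P) (B : ℝ) :
    ∃ n₀ : ℕ, ∀ n, n₀ ≤ n → B < nh (K := K) (n • P) := by
  obtain ⟨C, hC⟩ := t1 K V
  obtain ⟨hh, h1, h2, h3, h4⟩ := hC K ⊤ (fun R _ => xin_all R)
  have hq := q_nsmul (q := hh) (fun R S => h2 R trivial S trivial) P
  have hpos : 0 < hh P := lt_of_le_of_ne (h3 P trivial) (fun h => hP (h4 P trivial h.symm))
  obtain ⟨n₀, hn₀⟩ := exists_nat_gt ((B + C) / hh P)
  refine ⟨n₀ + 1, fun n hn => ?_⟩
  have h5 := h1 (n • P) trivial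
  rw [abs_le] at h5
  rw [div_lt_iff₀ hpos] at hn₀
  have h6 : (n₀ : ℝ) + 1 ≤ n := by exact_mod_cast hn
  have h7 : (n : ℝ) * hh P ≤ (n : ℝ) ^ 2 * hh P := by
    apply mul_le_mul_of_nonneg_right _ hpos.le
    nlinarith
  have h8 : (n₀ : ℝ) * hh P ≤ n * hh P := mul_le_mul_of_nonneg_right (by linarith) hpos.le
  have h9 := hq n
  linarith [h5.1, h5.2]

/-- a Möbius transformation changes the height by a bounded amount -/
theorem h_mobius {K : Type} [Field K] [NumberField K] (a m κ : K) (hκ : κ ≠ 0) :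
    ∃ C : ℝ, ∀ x : K, x ≠ a → logHeight₁ x ≤ logHeight₁ (m + κ / (x - a)) + C := by
  obtain ⟨C₁, h₁⟩ := h_affine (K := K) κ a
  obtain ⟨C₂, h₂⟩ := h_affine (K := K) 1 (-m)
  refine ⟨C₁ + C₂, fun x hx => ?_⟩
  have hxa : x - a ≠ 0 := sub_ne_zero.mpr hx
  set x' := m + κ / (x - a) with hx'
  have e : κ * (x' - m)⁻¹ + a = x := by
    have e1 : x' - m = κ / (x - a) := by rw [hx']; ring
    rw [e1, inv_div, mul_div_cancel₀ _ hκ]
    ring
  have h3 := h₁ (x' - m)⁻¹
  have h4 := h₂ x'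
  rw [e, logHeight₁_inv] at h3
  have e2 : 1 * x' + -m = x' - m := by ring
  rw [e2] at h4
  linarith

/-- descent of points with coordinates in the base field -/
theorem exists_descent {K L : Type} [Field K] [Field L] [Algebra K L] (V : WeierstrassCurve K)
    {x y : K} (h : (V⁄L).toAffine.Nonsingular (algebraMap K L x) (algebraMap K L y)) :
    ∃ h' : (V⁄K).toAffine.Nonsingular x y,
      Affine.Point.map (W' := V) (Algebra.ofId K L) (Affine.Point.some x y h' : (V⁄K).toAffine.Point) =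
        Affine.Point.some _ _ h :=
  ⟨(Affine.baseChange_nonsingular V (f := Algebra.ofId K L) (Algebra.ofId K L).injective x y).1 h,
    rfl⟩

/-- scaling by nonzero integers preserves linear independence -/
theorem linInd_zsmul {ι M : Type} [AddCommGroup M] {v : ι → M} (hv : LinearIndependent ℤ v)
    (c : ι → ℤ) (hc : ∀ i, c i ≠ 0) : LinearIndependent ℤ (fun i => c i • v i) := by
  rw [linearIndependent_iff'] at hv ⊢
  intro S g hg i hi
  have h1 := hv S (fun i => g i * c i) (by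
    rw [← hg]
    exact Finset.sum_congr rfl (fun i _ => mul_smul _ _ _)) i hi
  exact (mul_eq_zero.1 h1).resolve_right (hc i)

theorem alg_Qb : Algebra.IsAlgebraic ℚ Qb := by
  have h := AlgebraicClosure.isAlgebraic ℚ
  convert! h

/-- in characteristic zero, a square root outside of the base field has a conjugate `-z` -/
theorem exists_conj (K : Type) [Field K] [NumberField K] [Algebra K Qb] (z : Qb) (t : K)
    (hz : z ^ 2 = algebraMap K Qb t) (hK : ∀ z₀ : K, algebraMap K Qb z₀ ≠ z) :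
    ∃ σ : Qb →ₐ[K] Qb, σ z = -z := by
  have : IsScalarTower ℚ K Qb := inferInstance
  have := alg_Qb
  have hal : Algebra.IsAlgebraic K Qb := Algebra.IsAlgebraic.tower_top (K := ℚ) K
  have : IsAlgClosure K Qb := ⟨inferInstance, hal⟩
  have : IsGalois K Qb := inferInstance
  have h1 : z ∉ (⊥ : IntermediateField K Qb) := by
    rw [IntermediateField.mem_bot]
    rintro ⟨z₀, h0⟩
    exact hK z₀ h0
  rw [InfiniteGalois.mem_bot_iff_fixed] at h1
  push Not at h1
  obtain ⟨σ, hσ⟩ := h1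
  refine ⟨σ.toAlgHom, ?_⟩
  have h2 : (σ z) ^ 2 = z ^ 2 := by
    rw [← map_pow, hz]
    exact σ.commutes t
  rcases sq_eq_sq_iff_eq_or_eq_neg.1 h2 with h3 | h3
  · exact absurd h3 hσ
  · exact h3

theorem nh_some' {K L : Type} [Field K] [NumberField K] [Field L] [Algebra K L]
    {W : WeierstrassCurve K} {x : L} {y : L} (h : (W⁄L).toAffine.Nonsingular x y) (x₀ : K)
    (hx₀ : algebraMap K L x₀ = x) :
    nh (K := K) (L := L) (W := W) (Affine.Point.some x y h) = logHeight₁ x₀ := by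
  have hx : ∃ x₁ : K, algebraMap K L x₁ = x := ⟨x₀, hx₀⟩
  have e : hx.choose = x₀ := (algebraMap K L).injective (hx.choose_spec.trans hx₀.symm)
  unfold nh
  simp only [dif_pos hx]
  rw [e]

/-- the point `Q` matched to a point `(x, y)` with `x = a + z²` -/
theorem exists_match {k : Type} [Field k] [CharZero k] (W₁ W₂ : WeierstrassCurve k)
    [W₂.IsElliptic] (a m κ ν z : k)
    (hmatch : 4 * (m * z ^ 2 + κ) ^ 3 + W₂.b₂ * (m * z ^ 2 + κ) ^ 2 * z ^ 2 +
      2 * W₂.b₄ * (m * z ^ 2 + κ) * (z ^ 2) ^ 2 + W₂.b₆ * (z ^ 2) ^ 3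
      = ν ^ 2 * (4 * (a + z ^ 2) ^ 3 + W₁.b₂ * (a + z ^ 2) ^ 2 + 2 * W₁.b₄ * (a + z ^ 2) + W₁.b₆))
    (x y : k) (hz : z ≠ 0) (h : W₁.toAffine.Nonsingular x y) (hx : x = a + z ^ 2) :
    ∃ (y' : k) (h' : W₂.toAffine.Nonsingular (m + κ / z ^ 2) y'),
      (2 * y' + W₂.a₁ * (m + κ / z ^ 2) + W₂.a₃) * z ^ 3 = ν * (2 * y + W₁.a₁ * x + W₁.a₃) := by
  set x' := m + κ / z ^ 2 with hx'
  set η := 2 * y + W₁.a₁ * x + W₁.a₃ with hη
  have h1 := (W₁.toAffine.equation_iff x y).mp h.1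
  have h2 : η ^ 2 = 4 * x ^ 3 + W₁.b₂ * x ^ 2 + 2 * W₁.b₄ * x + W₁.b₆ := by
    simp only [hη, WeierstrassCurve.b₂, WeierstrassCurve.b₄, WeierstrassCurve.b₆]
    linear_combination 4 * h1
  refine ⟨(ν * η / z ^ 3 - W₂.a₁ * x' - W₂.a₃) / 2, ?_, ?_⟩
  · apply (Affine.equation_iff_nonsingular_of_Δ_ne_zero (W := W₂) W₂.isUnit_Δ.ne_zero).1
    rw [Affine.equation_iff]
    have h3 : (ν * η / z ^ 3) ^ 2 = 4 * x' ^ 3 + W₂.b₂ * x' ^ 2 + 2 * W₂.b₄ * x' + W₂.b₆ := by
      rw [div_pow, mul_pow, h2, hx, ← hmatch, hx']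
      field_simp
    simp only [WeierstrassCurve.b₂, WeierstrassCurve.b₄, WeierstrassCurve.b₆] at h3
    linear_combination h3 / 4
  · field_simp
    ring

theorem core (K : Type) [Field K] [NumberField K] [Algebra K Qb] (V₁ V₂ : WeierstrassCurve K)
    [V₁.IsElliptic] [V₂.IsElliptic] (a m κ ν : K) (hκ : κ ≠ 0) (hν : ν ≠ 0)
    (hmatch : ∀ t : K, 4 * (m * t + κ) ^ 3 + V₂.b₂ * (m * t + κ) ^ 2 * t +
      2 * V₂.b₄ * (m * t + κ) * t ^ 2 + V₂.b₆ * t ^ 3
      = ν ^ 2 * (4 * (a + t) ^ 3 + V₁.b₂ * (a + t) ^ 2 + 2 * V₁.b₄ * (a + t) + V₁.b₆))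
    (P : (V₁⁄K).toAffine.Point) (hP : ¬ IsOfFinAddOrder P)
    (s : Set (V₂⁄Qb).toAffine.Point) (hs : s.Finite)
    (hfix : ∀ R ∈ s, ∀ σ : Qb →ₐ[K] Qb, Affine.Point.map (W' := V₂) σ R = R)
    (H : ∀ n : ℕ, 0 < n → ∀ (z x y x' y' : Qb) (h : (V₁⁄Qb).toAffine.Nonsingular x y)
      (h' : (V₂⁄Qb).toAffine.Nonsingular x' y'), z ≠ 0 →
      n • Affine.Point.map (W' := V₁) (Algebra.ofId K Qb) P = Affine.Point.some x y h →
      x = algebraMap K Qb a + z ^ 2 → x' = algebraMap K Qb m + algebraMap K Qb κ / z ^ 2 →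
      (2 * y' + (V₂⁄Qb).a₁ * x' + (V₂⁄Qb).a₃) * z ^ 3 =
        algebraMap K Qb ν * (2 * y + (V₁⁄Qb).a₁ * x + (V₁⁄Qb).a₃) →
      ∃ c : ℤ, c ≠ 0 ∧
        c • (Affine.Point.some x' y' h' : (V₂⁄Qb).toAffine.Point) ∈ Submodule.span ℤ s) :
    False := by
  have hE₁ : (V₁⁄K).IsElliptic := inferInstance
  have hE₂ : (V₂⁄K).IsElliptic := inferInstance
  have hP0 : ∀ n : ℕ, 0 < n → n • P ≠ 0 := fun n hn h0 =>
    hP (isOfFinAddOrder_iff_nsmul_eq_zero.2 ⟨n, hn, h0⟩)
  obtain ⟨C₄, hC₄⟩ := t4 K V₂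
  obtain ⟨Cm, hCm⟩ := h_mobius a m κ hκ
  obtain ⟨n₀, hn₀⟩ := nh_grow V₁ P hP (max (logHeight₁ a) (C₄ + Cm))
  -- for large `n` the square root is in `K`
  have key : ∀ n, n₀ + 1 ≤ n → ∃ (z : K) (Q : (V₂⁄K).toAffine.Point), (z ≠ 0 ∧
      ∃ x y h x' y' h', n • P = Affine.Point.some x y h ∧
        Q = Affine.Point.some x' y' h' ∧ x = a + z ^ 2 ∧ x' = m + κ / z ^ 2 ∧
        (2 * y' + V₂.a₁ * x' + V₂.a₃) * z ^ 3 = ν * (2 * y + V₁.a₁ * x + V₁.a₃)) ∧
      ∃ c : ℤ, c ≠ 0 ∧ c • (Affine.Point.map (W' := V₂) (Algebra.ofId K Qb) Q) ∈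
        Submodule.span ℤ s := by
    intro n hn
    have hnpos : 0 < n := by omega
    have hB := hn₀ n (by omega)
    obtain ⟨x, y, h, hxy⟩ : ∃ x y h, n • P = Affine.Point.some x y h := by
      rcases hR : n • P with _ | ⟨x, y, h⟩
      · exact absurd hR (hP0 n hnpos)
      · exact ⟨x, y, h, rfl⟩
    rw [hxy, nh_some] at hB
    have hxa : x ≠ a := by
      rintro rfl
      exact absurd (le_max_left _ _) (not_le.2 hB)
    obtain ⟨z, hz⟩ := IsAlgClosed.exists_pow_nat_eq (algebraMap K Qb (x - a)) two_pos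
    have hz0 : z ≠ 0 := by
      rintro rfl
      rw [zero_pow two_ne_zero] at hz
      exact sub_ne_zero.2 hxa ((map_eq_zero _).1 hz.symm)
    have hxQ : n • Affine.Point.map (W' := V₁) (Algebra.ofId K Qb) P =
        Affine.Point.some _ _ ((Affine.baseChange_nonsingular V₁ (f := Algebra.ofId K Qb)
          (Algebra.ofId K Qb).injective x y).2 h) := by
      rw [← map_nsmul, hxy, Affine.Point.map_some]
    have hx1 : algebraMap K Qb x = algebraMap K Qb a + z ^ 2 := by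
      rw [hz, map_sub]; ring
    by_cases hzK : ∃ z₀ : K, algebraMap K Qb z₀ = z
    · obtain ⟨z₀, rfl⟩ := hzK
      have hz0' : z₀ ≠ 0 := by rintro rfl; exact hz0 (map_zero _)
      have hxz : x = a + z₀ ^ 2 := by
        apply (algebraMap K Qb).injective
        rw [hx1, map_add, map_pow]
      obtain ⟨y', h', e'⟩ := exists_match (V₁⁄K) (V₂⁄K) a m κ ν z₀ (hmatch (z₀ ^ 2)) x y hz0' h hxz
      refine ⟨z₀, .some _ _ h', ⟨hz0', x, y, h, _, y', h', hxy, rfl, hxz, rfl, e'⟩, ?_⟩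
      have e2 := congrArg (algebraMap K Qb) e'
      refine H n hnpos (algebraMap K Qb z₀) (algebraMap K Qb x) (algebraMap K Qb y) _
        (algebraMap K Qb y') _ _ hz0 hxQ hx1 ?_ ?_
      · change algebraMap K Qb (m + κ / z₀ ^ 2) = algebraMap K Qb m +
          algebraMap K Qb κ / (algebraMap K Qb z₀) ^ 2
        simp only [map_add, map_div₀, map_pow]
      · change (2 * algebraMap K Qb y' + algebraMap K Qb V₂.a₁ * algebraMap K Qb (m + κ / z₀ ^ 2) +
          algebraMap K Qb V₂.a₃) * (algebraMap K Qb z₀) ^ 3 = algebraMap K Qb ν *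
          (2 * algebraMap K Qb y + algebraMap K Qb V₁.a₁ * algebraMap K Qb x +
          algebraMap K Qb V₁.a₃)
        simp only [map_mul, map_add, map_pow, map_ofNat, map_div₀] at e2 ⊢
        exact e2
    · exfalso
      push Not at hzK
      obtain ⟨σ, hσ⟩ := exists_conj K z (x - a) hz hzK
      have hm := congrArg (algebraMap K Qb) (hmatch (x - a))
      simp only [map_mul, map_add, map_pow, map_ofNat] at hm
      rw [← hz] at hm
      obtain ⟨y', h', e'⟩ := exists_match (V₁⁄Qb) (V₂⁄Qb) (algebraMap K Qb a) (algebraMap K Qb m)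
        (algebraMap K Qb κ) (algebraMap K Qb ν) z (by
          simp only [baseChange, map_b₂, map_b₄, map_b₆]
          exact hm) (algebraMap K Qb x) (algebraMap K Qb y) hz0
        ((Affine.baseChange_nonsingular V₁ (f := Algebra.ofId K Qb)
          (Algebra.ofId K Qb).injective x y).2 h) hx1
      obtain ⟨c, hc0, hc⟩ := H n hnpos z _ _ _ y' _ h' hz0 hxQ hx1 rfl e'
      -- the conjugate of `Q` is `-Q`
      have hσQ : Affine.Point.map (W' := V₂) σ (Affine.Point.some _ _ h' : (V₂⁄Qb).toAffine.Point) =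
          - Affine.Point.some _ _ h' := by
        rw [Affine.Point.map_some, Affine.Point.neg_some]
        have hx' : σ (algebraMap K Qb m + algebraMap K Qb κ / z ^ 2) =
            algebraMap K Qb m + algebraMap K Qb κ / z ^ 2 := by
          rw [map_add, map_div₀, map_pow, hσ, σ.commutes, σ.commutes, neg_sq]
        have hy' : σ y' = (V₂⁄Qb).toAffine.negY (algebraMap K Qb m + algebraMap K Qb κ / z ^ 2) y' := by
          have e4 : (2 * y' + algebraMap K Qb V₂.a₁ * (algebraMap K Qb m + algebraMap K Qb κ / z ^ 2)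
            + algebraMap K Qb V₂.a₃) * z ^ 3 = algebraMap K Qb ν *
            (2 * algebraMap K Qb y + algebraMap K Qb V₁.a₁ * algebraMap K Qb x +
            algebraMap K Qb V₁.a₃) := e'
          have e5 := congrArg σ e4
          rw [map_mul, map_add, map_add, map_mul, map_mul, hx', map_pow, hσ] at e5
          simp only [map_mul, map_add, map_ofNat, σ.commutes] at e5
          rw [← e4] at e5
          change σ y' = -y' - algebraMap K Qb V₂.a₁ *
            (algebraMap K Qb m + algebraMap K Qb κ / z ^ 2) - algebraMap K Qb V₂.a₃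
          have hz3 : z ^ 3 ≠ 0 := pow_ne_zero 3 hz0
          apply mul_right_cancel₀ hz3
          linear_combination (-1 / 2) * e5
        simp only [Affine.Point.some.injEq]
        exact ⟨hx', hy'⟩
      have hspan : ∀ R ∈ Submodule.span ℤ s, Affine.Point.map (W' := V₂) σ R = R := by
        intro R hR
        induction hR using Submodule.span_induction with
        | mem R hR => exact hfix R hR σ
        | zero => exact map_zero _
        | add R S _ _ hR hS => rw [map_add, hR, hS]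
        | smul t R _ hR => rw [map_zsmul, hR]
      have h5 := hspan _ hc
      rw [map_zsmul, hσQ, smul_neg, neg_eq_iff_add_eq_zero, ← two_zsmul, ← mul_smul] at h5
      have h6 : IsOfFinAddOrder (Affine.Point.some _ _ h' : (V₂⁄Qb).toAffine.Point) :=
        isOfFinAddOrder_iff_zsmul_eq_zero.2 ⟨2 * c, mul_ne_zero two_ne_zero hc0, h5⟩
      have e3 : algebraMap K Qb (m + κ / (x - a)) =
          algebraMap K Qb m + algebraMap K Qb κ / z ^ 2 := by
        rw [hz, map_add, map_div₀]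
      have h7 := hC₄ Qb _ (Or.inr ⟨m + κ / (x - a), y', by rw [e3]; exact h', by
        congr 1
        exact e3.symm⟩) h6
      rw [nh_some' h' _ e3] at h7
      have h8 := hCm x hxa
      have h9 := lt_of_le_of_lt (le_max_right _ _) hB
      linarith
  choose! z Q hzQ using key
  obtain ⟨N, hN, hli⟩ := t3 t1 t2 K V₁ V₂ a m κ ν hκ hν hmatch P hP0 (n₀ + 1) z Q
    (fun n hn => (hzQ n hn).1) (hs.toFinset.card + 1)
  choose! c hc using fun n hn => (hzQ n hn).2
  have h1 : LinearIndependent ℤ (fun i : Fin (hs.toFinset.card + 1) =>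
      Affine.Point.map (W' := V₂) (Algebra.ofId K Qb) (Q (N + i))) := by
    have := hli.map' (Affine.Point.map (W' := V₂) (Algebra.ofId K Qb)).toIntLinearMap
      (LinearMap.ker_eq_bot.2 (Affine.Point.map_injective (W' := V₂) _))
    exact this
  have h2 := linInd_zsmul h1 (fun i => c (N + i)) (fun i => (hc _ (by omega)).1)
  have : Fintype s := hs.fintype
  have h3 := linearIndependent_le_span' _ h2 s (by
    rintro _ ⟨i, rfl⟩
    exact (hc _ (by omega)).2)
  rw [Cardinal.mk_fin] at h3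
  have h4 : hs.toFinset.card + 1 ≤ Fintype.card s := by exact_mod_cast h3
  rw [Set.Finite.card_toFinset] at h4
  omega

theorem elliptic_of_baseChange {K L : Type} [Field K] [Field L] [Algebra K L]
    (V : WeierstrassCurve K) (h : (V⁄L).IsElliptic) : V.IsElliptic := by
  refine ⟨isUnit_iff_ne_zero.2 fun h0 => h.isUnit.ne_zero ?_⟩
  rw [baseChange, map_Δ, h0, map_zero]

theorem infRank_aux (K : Type) [Field K] [NumberField K] [Algebra K Qb]
    (V₁ V₂ : WeierstrassCurve K) (a m κ ν : K) (W₁ W₂ : WeierstrassCurve Qb)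
    (e₁ : V₁⁄Qb = W₁) (e₂ : V₂⁄Qb = W₂) [W₁.IsElliptic] [W₂.IsElliptic]
    (hκ : algebraMap K Qb κ ≠ 0) (hν : algebraMap K Qb ν ≠ 0)
    (hmatch : ∀ t : Qb, 4 * (algebraMap K Qb m * t + algebraMap K Qb κ) ^ 3 +
      W₂.b₂ * (algebraMap K Qb m * t + algebraMap K Qb κ) ^ 2 * t +
      2 * W₂.b₄ * (algebraMap K Qb m * t + algebraMap K Qb κ) * t ^ 2 + W₂.b₆ * t ^ 3
      = algebraMap K Qb ν ^ 2 * (4 * (algebraMap K Qb a + t) ^ 3 +
        W₁.b₂ * (algebraMap K Qb a + t) ^ 2 + 2 * W₁.b₄ * (algebraMap K Qb a + t) + W₁.b₆))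
    (P : W₁.toAffine.Point) (hP : ¬ IsOfFinAddOrder P)
    (hPc : ∀ x y h, P = Affine.Point.some x y h →
      x ∈ Set.range (algebraMap K Qb) ∧ y ∈ Set.range (algebraMap K Qb))
    (s : Set W₂.toAffine.Point) (hs : s.Finite)
    (hsc : ∀ R ∈ s, ∀ x y h, R = Affine.Point.some x y h →
      x ∈ Set.range (algebraMap K Qb) ∧ y ∈ Set.range (algebraMap K Qb))
    (H : ∀ Q : W₂.toAffine.Point, IsOfFinAddOrder (zc P Q : CH0 W₁ W₂) →
      ∃ c : ℤ, c ≠ 0 ∧ c • Q ∈ Submodule.span ℤ s) : False := by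
  subst e₁ e₂
  have hE₁ : V₁.IsElliptic := elliptic_of_baseChange (L := Qb) V₁ inferInstance
  have hE₂ : V₂.IsElliptic := elliptic_of_baseChange (L := Qb) V₂ inferInstance
  have hdesc : ∃ P₀ : (V₁⁄K).toAffine.Point,
      Affine.Point.map (W' := V₁) (Algebra.ofId K Qb) P₀ = P := by
    rcases P with _ | ⟨x, y, h⟩
    · exact ⟨0, map_zero _⟩
    · obtain ⟨⟨x, rfl⟩, ⟨y, rfl⟩⟩ := hPc _ _ _ rfl
      obtain ⟨h', e⟩ := exists_descent V₁ h
      exact ⟨_, e⟩
  obtain ⟨P₀, rfl⟩ := hdesc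
  refine core K V₁ V₂ a m κ ν (fun h => hκ (by rw [h, map_zero]))
    (fun h => hν (by rw [h, map_zero])) ?_ P₀ ?_ s hs ?_ ?_
  · intro t
    apply (algebraMap K Qb).injective
    have := hmatch (algebraMap K Qb t)
    simp only [baseChange, map_b₂, map_b₄, map_b₆] at this
    simp only [map_mul, map_add, map_pow, map_ofNat]
    exact this
  · intro h
    exact hP ((Affine.Point.map (W' := V₁) (Algebra.ofId K Qb)).isOfFinAddOrder h)
  · intro R hR σ
    rcases R with _ | ⟨x, y, h⟩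
    · exact map_zero _
    · obtain ⟨⟨x, rfl⟩, ⟨y, rfl⟩⟩ := hsc _ hR _ _ _ rfl
      rw [Affine.Point.map_some]
      simp only [Affine.Point.some.injEq]
      exact ⟨σ.commutes x, σ.commutes y⟩
  · intro n hn z x y x' y' h h' hz hnP hx hx' hη
    apply H
    have h1 := genus2_zc (W₁ := V₁⁄Qb) (W₂ := V₂⁄Qb) _ _ _ _ hκ hν hmatch z hz h h' hx hx' hη
    rw [← hnP, zc_nsmul_left, ← mul_nsmul'] at h1
    exact isOfFinAddOrder_iff_nsmul_eq_zero.2 ⟨_, by positivity, h1⟩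

/-- coordinates of a point -/
def coords {k : Type} [Field k] {W : WeierstrassCurve k} : W.toAffine.Point → Set k
  | .zero => ∅
  | .some x y _ => {x, y}

theorem coords_finite {k : Type} [Field k] {W : WeierstrassCurve k} (P : W.toAffine.Point) :
    (coords P).Finite := by
  rcases P with _ | ⟨x, y, h⟩
  · exact Set.finite_empty
  · exact Set.toFinite {x, y}

/-- **Infinite rank.** For every point `P` of infinite order of `W₁`, the points `Q` of `W₂` for
which the zero-cycle `z(P, Q)` is torsion in the Chow group form a group of infinite rank. -/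
theorem infRank (htm : TaskM) (W₁ W₂ : WeierstrassCurve Qb) [W₁.IsElliptic] [W₂.IsElliptic]
    (P : W₁.toAffine.Point) (hP : ¬ IsOfFinAddOrder P) :
    ∃ A : AddSubgroup W₂.toAffine.Point,
      (∀ Q, Q ∈ A ↔ IsOfFinAddOrder (zc P Q : CH0 W₁ W₂)) ∧
      ∃ Q : ℕ → A, LinearIndependent ℤ Q := by
  obtain ⟨a, m, κ, ν, hκ, hν, hmatch⟩ := htm Qb W₁ W₂
  refine ⟨(AddCommGroup.torsion (CH0 W₁ W₂)).comap (zHom W₁ W₂ P), fun Q => Iff.rfl, ?_⟩
  set A := (AddCommGroup.torsion (CH0 W₁ W₂)).comap (zHom W₁ W₂ P) with hA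
  by_contra hcon
  push Not at hcon
  obtain ⟨s, hs1, hs2⟩ := exists_maximal_linearIndepOn ℤ (fun Q : A => (Q : W₂.toAffine.Point))
  have hfin : s.Finite := by
    by_contra hinf
    have hinf : s.Infinite := hinf
    let e := Set.Infinite.natEmbedding s hinf
    refine hcon (fun n => (e n : A)) ?_
    apply LinearIndependent.of_comp A.subtype.toIntLinearMap
    exact LinearIndependent.comp hs1 _ e.injective
  set S : Set W₂.toAffine.Point := (fun Q : A => (Q : W₂.toAffine.Point)) '' s with hS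
  have hSfin : S.Finite := hfin.image _
  set T : Set Qb := ({W₁.a₁, W₁.a₂, W₁.a₃, W₁.a₄, W₁.a₆, W₂.a₁, W₂.a₂, W₂.a₃, W₂.a₄, W₂.a₆,
    a, m, κ, ν} ∪ coords P) ∪ ⋃ R ∈ S, coords R with hT
  have hTfin : T.Finite := by
    refine Set.Finite.union (Set.Finite.union (Set.toFinite _) (coords_finite P)) ?_
    exact hSfin.biUnion (fun R _ => coords_finite R)
  have := hTfin.to_subtype
  have hal := alg_Qb
  let K := IntermediateField.adjoin ℚ T
  have hsub : T ⊆ K := IntermediateField.subset_adjoin ℚ T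
  have hfd : FiniteDimensional ℚ K :=
    IntermediateField.finiteDimensional_adjoin (fun x _ => (hal.isAlgebraic x).isIntegral)
  have hnf : NumberField K := ⟨⟩
  have hmem : ∀ x ∈ T, x ∈ K := fun x hx => hsub hx
  have hc : ∀ x ∈ ({W₁.a₁, W₁.a₂, W₁.a₃, W₁.a₄, W₁.a₆, W₂.a₁, W₂.a₂, W₂.a₃, W₂.a₄, W₂.a₆,
    a, m, κ, ν} : Set Qb), x ∈ K := fun x hx => hmem x (Or.inl (Or.inl hx))
  let V₁ : WeierstrassCurve K := ⟨⟨W₁.a₁, hc _ (by simp)⟩, ⟨W₁.a₂, hc _ (by simp)⟩,
    ⟨W₁.a₃, hc _ (by simp)⟩, ⟨W₁.a₄, hc _ (by simp)⟩, ⟨W₁.a₆, hc _ (by simp)⟩⟩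
  let V₂ : WeierstrassCurve K := ⟨⟨W₂.a₁, hc _ (by simp)⟩, ⟨W₂.a₂, hc _ (by simp)⟩,
    ⟨W₂.a₃, hc _ (by simp)⟩, ⟨W₂.a₄, hc _ (by simp)⟩, ⟨W₂.a₆, hc _ (by simp)⟩⟩
  refine infRank_aux K V₁ V₂ ⟨a, hc _ (by simp)⟩ ⟨m, hc _ (by simp)⟩ ⟨κ, hc _ (by simp)⟩
    ⟨ν, hc _ (by simp)⟩ W₁ W₂ rfl rfl hκ hν hmatch P hP ?_ S hSfin ?_ ?_
  · rintro x y h rfl
    have h1 : coords (Affine.Point.some x y h) ⊆ T := fun u hu => Or.inl (Or.inr hu)
    exact ⟨⟨⟨x, hmem _ (h1 (by simp [coords]))⟩, rfl⟩, ⟨⟨y, hmem _ (h1 (by simp [coords]))⟩, rfl⟩⟩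
  · rintro R hR x y h rfl
    have h1 : coords (Affine.Point.some x y h) ⊆ T :=
      fun u hu => Or.inr (Set.mem_biUnion hR hu)
    exact ⟨⟨⟨x, hmem _ (h1 (by simp [coords]))⟩, rfl⟩, ⟨⟨y, hmem _ (h1 (by simp [coords]))⟩, rfl⟩⟩
  · intro Q hQ
    by_cases hQs : (⟨Q, hQ⟩ : A) ∈ s
    · refine ⟨1, one_ne_zero, ?_⟩
      rw [one_smul]
      exact Submodule.subset_span ⟨_, hQs, rfl⟩
    · exact hs2 _ hQs

end Pool.Agent.LibBH2
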