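import Pool.Agent.LibBH2.Curve

/-!
Divisors of lines on a Weierstrass curve; the resulting relations in `CH0`.
-/

open scoped Classical
open Polynomial WeierstrassCurve

namespace Pool.Agent.LibBH2

theorem Place.zer_mul {k K : Type} [Field k] [Field K] [Algebra k K] {v : Place k K} {f g : K}
    (hf : v.Reg f) (hg : v.Reg g) (h : v.Zer (f * g)) : v.Zer f ∨ v.Zer g := by
  by_contra hcon
  push Not at hcon
  have h1 := Place.ord_eq_zero_of_reg hf hcon.1
  have h2 := Place.ord_eq_zero_of_reg hg hcon.2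
  have hf0 : f ≠ 0 := fun h0 => hcon.1 (Or.inl h0)
  have hg0 : g ≠ 0 := fun h0 => hcon.2 (Or.inl h0)
  have h3 := h.resolve_left (mul_ne_zero hf0 hg0)
  rw [v.ord_mul _ _ hf0 hg0, h1, h2] at h3
  omega

theorem Place.reg_of_sq {k K : Type} [Field k] [Field K] [Algebra k K] {v : Place k K} {f : K}
    (hf : v.Reg (f ^ 2)) : v.Reg f := by
  by_cases h0 : f = 0
  · exact Or.inl h0
  have h1 := hf.resolve_left (pow_ne_zero 2 h0)
  rw [v.ord_pow] at h1
  right
  push_cast at h1
  omega

theorem Place.zer_mul_const_aux {k K : Type} [Field k] [Field K] [Algebra k K] (v : Place k K)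
    (l : k) {f : K} (hf : v.Zer f) : v.Zer (algebraMap k K l * f) :=
  Place.Zer.reg_mul (v.reg_const l) hf

variable {k : Type} [Field k] [CharZero k] {W : WeierstrassCurve k} [W.IsElliptic]

theorem reg_w (v : Place k (KE W)) (h : v.Reg (DE W).s) : v.Reg (DE W).w := by
  apply Place.reg_of_sq
  rw [(DE W).aeval_F, DE_F, fpoly_aeval]
  have h1 := fun c : k => v.reg_const c
  exact (((h.pow 3).add ((h1 _).mul (h.pow 2))).add ((h1 _).mul h)).add (h1 _)

theorem ord_s_sub_const_of_neg {K : Type} [Field K] [Algebra k K] (v : Place k K) {s : K}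
    (h : v.ord s < 0) (c : k) : s - algebraMap k K c ≠ 0 ∧ v.ord (s - algebraMap k K c) = v.ord s := by
  have hs : s ≠ 0 := by rintro rfl; rw [v.ord_zero] at h; omega
  by_cases hc : c = 0
  · rw [hc, map_zero, sub_zero]; exact ⟨hs, rfl⟩
  · have h1 : v.ord (-algebraMap k K c) = 0 := by rw [Place.ord_neg, v.ord_const c hc]
    have h2 : -algebraMap k K c ≠ 0 := by simpa using hc
    rw [sub_eq_add_neg]
    exact Place.ord_add_of_lt hs h2 (by rw [h1]; exact h)

/-- orders of `s - x₀` -/
theorem ord_vert {x₀ y₀ : k} (h : W.toAffine.Nonsingular x₀ y₀) (v₁ v₂ v₃ : Place k (KE W))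
    (h₁ : Spec v₁ (genPt W) (.some x₀ y₀ h)) (h₂ : Spec v₂ (genPt W) (-.some x₀ y₀ h))
    (h₃ : Spec v₃ (genPt W) 0) (v : Place k (KE W)) :
    v.ord ((DE W).s - algebraMap k (KE W) x₀) =
      (if v = v₁ then 1 else 0) + (if v = v₂ then 1 else 0) - (if v = v₃ then 2 else 0) := by
  set p : W.toAffine.Point := .some x₀ y₀ h with hp
  have hp0 : p ≠ 0 := by rw [hp]; simp
  have hnp0 : -p ≠ 0 := neg_ne_zero.2 hp0
  have h13 : v₁ ≠ v₃ := by
    rintro rfl; exact hp0 (spec_injective _ _ _ h₁ h₃)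
  have h23 : v₂ ≠ v₃ := by
    rintro rfl; exact hnp0 (spec_injective _ _ _ h₂ h₃)
  by_cases hneg : v.ord (DE W).s < 0
  · have hv : v = v₃ := place_unique 0 v v₃ hneg h₃
    subst hv
    rw [if_neg h13.symm, if_neg h23.symm, if_pos rfl, (ord_s_sub_const_of_neg v hneg x₀).2,
      (ord_inf v hneg).1]
    norm_num
  have hreg : v.Reg (DE W).s := Or.inr (not_lt.1 hneg)
  have hv3 : v ≠ v₃ := by
    rintro rfl
    have h5 := (ord_inf _ h₃).1
    omega
  rw [if_neg hv3, sub_zero]
  have hnegp : -p = .some x₀ (W.toAffine.negY x₀ y₀) ((Affine.nonsingular_neg ..).2 h) := by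
    rw [hp, Affine.Point.neg_some]
  by_cases hz : v.Zer ((DE W).s - algebraMap k (KE W) x₀)
  · set η := y₀ + (W.a₁ * x₀ + W.a₃) / 2 with hη
    have hFx : (DE W).F.eval x₀ = η ^ 2 := eta_sq h
    have hw := (DE W).w_val hFx v hz
    have hetaneg : W.toAffine.negY x₀ y₀ + (W.a₁ * x₀ + W.a₃) / 2 = -η := by
      rw [hη, Affine.negY]; ring
    by_cases hη0 : η = 0
    · have hf : (DE W).F.eval x₀ = 0 := by rw [hFx, hη0]; ring
      have hf1 := fpoly_deriv_ne W hf
      have e1 : v = v₁ := (DE W).ram_unique hf hf1 v v₁ hz ((spec_some_iff v₁ h).1 h₁).1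
      have e2 : v = v₂ := (DE W).ram_unique hf hf1 v v₂ hz (by
        rw [hnegp] at h₂; exact ((spec_some_iff v₂ _).1 h₂).1)
      rw [if_pos e1, if_pos e2, ((DE W).ram_s hf hf1 v hz).1, (DE W).ram_e hf hf1 v hz]
      norm_num
    · rcases hw with hw | hw
      · have e1 : v = v₁ := place_unique p v v₁ ((spec_some_iff v h).2 ⟨hz, hw⟩) h₁
        have e2 : v ≠ v₂ := by
          rintro rfl
          rw [hnegp] at h₂
          have := ((spec_some_iff v _).1 h₂).2
          rw [hetaneg] at this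
          have h5 := Place.val_unique hw this
          exact hη0 (by linear_combination h5 / 2)
        rw [if_pos e1, if_neg e2, (DE W).unram_e two_ne hη0 v hz hw]
        norm_num
      · have e2 : v = v₂ := place_unique (-p) v v₂ (by
          rw [hnegp, spec_some_iff, hetaneg]; exact ⟨hz, hw⟩) h₂
        have e1 : v ≠ v₁ := by
          rintro rfl
          have := ((spec_some_iff v _).1 h₁).2
          have h5 := Place.val_unique hw this
          exact hη0 (by linear_combination - h5 / 2)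
        rw [if_neg e1, if_pos e2, (DE W).unram_e two_ne (neg_ne_zero.2 hη0) v hz hw]
        norm_num
  · have e1 : v ≠ v₁ := by
      rintro rfl; exact hz ((spec_some_iff v h).1 h₁).1
    have e2 : v ≠ v₂ := by
      rintro rfl
      rw [hnegp] at h₂
      exact hz ((spec_some_iff v _).1 h₂).1
    rw [if_neg e1, if_neg e2, add_zero]
    exact Place.ord_eq_zero_of_reg (hreg.sub (v.reg_const x₀)) hz

/-- orders of `w - λ s - μ` -/
theorem ord_line {l m x₁ x₂ x₃ y₁ y₂ y₃ : k}
    (hN : fpoly W - (C l * X + C m) ^ 2 = (X - C x₁) * (X - C x₂) * (X - C x₃))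
    (h₁ : W.toAffine.Nonsingular x₁ y₁) (h₂ : W.toAffine.Nonsingular x₂ y₂)
    (h₃ : W.toAffine.Nonsingular x₃ y₃)
    (e₁ : y₁ + (W.a₁ * x₁ + W.a₃) / 2 = l * x₁ + m)
    (e₂ : y₂ + (W.a₁ * x₂ + W.a₃) / 2 = l * x₂ + m)
    (e₃ : y₃ + (W.a₁ * x₃ + W.a₃) / 2 = l * x₃ + m)
    (v₁ v₂ v₃ v₄ : Place k (KE W))
    (s₁ : Spec v₁ (genPt W) (.some x₁ y₁ h₁)) (s₂ : Spec v₂ (genPt W) (.some x₂ y₂ h₂))
    (s₃ : Spec v₃ (genPt W) (.some x₃ y₃ h₃)) (s₄ : Spec v₄ (genPt W) 0) (v : Place k (KE W)) :
    v.ord ((DE W).w - algebraMap k (KE W) l * (DE W).s - algebraMap k (KE W) m) =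
      (if v = v₁ then 1 else 0) + (if v = v₂ then 1 else 0) + (if v = v₃ then 1 else 0)
        - (if v = v₄ then 3 else 0) := by
  set s := (DE W).s with hs
  set w := (DE W).w with hw
  set φ := w - algebraMap k (KE W) l * s - algebraMap k (KE W) m with hφ
  set ψ := w + algebraMap k (KE W) l * s + algebraMap k (KE W) m with hψ
  -- the product
  have hprod : φ * ψ = (s - algebraMap k (KE W) x₁) * (s - algebraMap k (KE W) x₂) *
      (s - algebraMap k (KE W) x₃) := by
    have h1 := congrArg (aeval s) hN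
    simp only [map_sub, map_mul, map_pow, map_add, aeval_X, aeval_C] at h1
    rw [← h1]
    have h2 : aeval s (fpoly W) = w ^ 2 := ((DE W).aeval_F).symm
    rw [h2, hφ, hψ]; ring
  have hne : ∀ x : k, s - algebraMap k (KE W) x ≠ 0 := fun x => (DE W).s_sub_ne_zero x
  have hφ0 : φ ≠ 0 := by
    intro h0; rw [h0, zero_mul] at hprod
    exact (mul_ne_zero (mul_ne_zero (hne x₁) (hne x₂)) (hne x₃)) hprod.symm
  have hψ0 : ψ ≠ 0 := by
    intro h0; rw [h0, mul_zero] at hprod
    exact (mul_ne_zero (mul_ne_zero (hne x₁) (hne x₂)) (hne x₃)) hprod.symm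
  have hordprod : v.ord φ + v.ord ψ = v.ord (s - algebraMap k (KE W) x₁) +
      v.ord (s - algebraMap k (KE W) x₂) + v.ord (s - algebraMap k (KE W) x₃) := by
    rw [← v.ord_mul _ _ hφ0 hψ0, hprod, v.ord_mul _ _ (mul_ne_zero (hne x₁) (hne x₂)) (hne x₃),
      v.ord_mul _ _ (hne x₁) (hne x₂)]
  -- infinite place
  have hinf : ∀ (x y : k) (h : W.toAffine.Nonsingular x y) (u : Place k (KE W)),
      Spec u (genPt W) (.some x y h) → u ≠ v₄ := by
    rintro x y h u hu rfl
    have := spec_injective _ _ _ hu s₄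
    exact absurd this (by simp)
  by_cases hneg : v.ord s < 0
  · have hv : v = v₄ := place_unique 0 v v₄ hneg s₄
    subst hv
    rw [if_neg (hinf _ _ _ _ s₁).symm, if_neg (hinf _ _ _ _ s₂).symm,
      if_neg (hinf _ _ _ _ s₃).symm, if_pos rfl]
    obtain ⟨o1, o2⟩ := ord_inf v hneg
    have hw0 : w ≠ 0 := by
      intro h0
      rw [← hw, h0, v.ord_zero] at o2; omega
    -- order of l s + m is at least -2
    have h5 : ∃ g : KE W, φ = w + g ∧ (g = 0 ∨ -2 ≤ v.ord g) := by
      refine ⟨-(algebraMap k (KE W) l * s + algebraMap k (KE W) m), by rw [hφ]; ring, ?_⟩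
      by_cases hl : l = 0
      · right
        rw [hl, map_zero, zero_mul, zero_add, Place.ord_neg]
        by_cases hm : m = 0
        · rw [hm, map_zero, v.ord_zero]; norm_num
        · rw [v.ord_const m hm]; norm_num
      · right
        rw [Place.ord_neg]
        have h6 := (ord_s_sub_const_of_neg v hneg (-m / l)).2
        have h7 : algebraMap k (KE W) l * s + algebraMap k (KE W) m =
            algebraMap k (KE W) l * (s - algebraMap k (KE W) (-m / l)) := by
          rw [mul_sub, ← map_mul]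
          have : l * (-m / l) = -m := by field_simp
          rw [this, map_neg]; ring
        rw [h7, v.ord_mul _ _ (by simpa using hl) (hne _), v.ord_const l hl, h6, o1]
        norm_num
    obtain ⟨g, hg, hg2⟩ := h5
    rcases hg2 with hg0 | hg2
    · rw [hg, hg0, add_zero, o2]; norm_num
    · by_cases hg0 : g = 0
      · rw [hg, hg0, add_zero, o2]; norm_num
      rw [hg, (Place.ord_add_of_lt hw0 hg0 (by rw [o2]; omega)).2, o2]; norm_num
  have hreg : v.Reg s := Or.inr (not_lt.1 hneg)
  have hregw : v.Reg w := reg_w v hreg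
  have hv4 : v ≠ v₄ := by
    rintro rfl
    have h5 := (ord_inf _ s₄).1
    rw [← hs] at h5
    omega
  rw [if_neg hv4, sub_zero]
  have hregx : ∀ x : k, v.Reg (s - algebraMap k (KE W) x) := fun x => hreg.sub (v.reg_const x)
  have hregφ : v.Reg φ := (hregw.sub ((v.reg_const l).mul hreg)).sub (v.reg_const m)
  -- value at v
  have hspecline : ∀ (x y : k) (h : W.toAffine.Nonsingular x y),
      y + (W.a₁ * x + W.a₃) / 2 = l * x + m → Spec v (genPt W) (.some x y h) → v.Zer φ := by
    intro x y h e hsp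
    have h1 := (spec_some_iff v h).1 hsp
    rw [e] at h1
    have h2 := Place.val_sub (Place.val_sub h1.2 (Place.val_mul (Place.val_const l) h1.1))
      (Place.val_const m)
    have h3 : l * x + m - l * x - m = 0 := by ring
    rw [h3, map_zero, sub_zero] at h2
    exact h2
  by_cases hz : v.Zer φ
  · -- the value of s
    have h1 : v.Zer ((s - algebraMap k (KE W) x₁) * (s - algebraMap k (KE W) x₂) *
      (s - algebraMap k (KE W) x₃)) := by
      rw [← hprod]
      apply hz.mul_reg
      exact (hregw.add ((v.reg_const l).mul hreg)).add (v.reg_const m)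
    obtain ⟨x₀, hx₀, y₀, hn₀, e₀, hc⟩ : ∃ x₀, v.Zer (s - algebraMap k (KE W) x₀) ∧
        ∃ (y₀ : k) (_ : W.toAffine.Nonsingular x₀ y₀), y₀ + (W.a₁ * x₀ + W.a₃) / 2 = l * x₀ + m ∧
        (x₀ = x₁ ∨ x₀ = x₂ ∨ x₀ = x₃) := by
      rcases Place.zer_mul ((hregx x₁).mul (hregx x₂)) (hregx x₃) h1 with h2 | h2
      · rcases Place.zer_mul (hregx x₁) (hregx x₂) h2 with h3 | h3
        · exact ⟨x₁, h3, y₁, h₁, e₁, Or.inl rfl⟩
        · exact ⟨x₂, h3, y₂, h₂, e₂, Or.inr (Or.inl rfl)⟩
      · exact ⟨x₃, h2, y₃, h₃, e₃, Or.inr (Or.inr rfl)⟩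
    have hwval : v.Zer (w - algebraMap k (KE W) (l * x₀ + m)) := by
      have h2 := hz.add ((Place.zer_mul_const_aux v l hx₀))
      convert h2 using 1
      rw [hφ, map_add, map_mul]; ring
    have hsp : Spec v (genPt W) (.some x₀ y₀ hn₀) := by
      rw [spec_some_iff, e₀]; exact ⟨hx₀, hwval⟩
    set e := v.ord (s - algebraMap k (KE W) x₀) with he
    have hcount : ∀ (x y : k) (h : W.toAffine.Nonsingular x y) (u : Place k (KE W)),
        y + (W.a₁ * x + W.a₃) / 2 = l * x + m → Spec u (genPt W) (.some x y h) →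
        ((if v = u then (1 : ℤ) else 0) = if x = x₀ then 1 else 0) ∧
        v.ord (s - algebraMap k (KE W) x) = (if x = x₀ then 1 else 0) * e := by
      intro x y h u hxy hu
      by_cases hx : x = x₀
      · subst hx
        have hy : y = y₀ := by linear_combination hxy - e₀
        subst hy
        have : v = u := place_unique _ v u hsp hu
        rw [if_pos this, if_pos rfl, one_mul]
        exact ⟨rfl, rfl⟩
      · have hvu : v ≠ u := by
          rintro rfl
          have := Place.val_unique ((spec_some_iff v h).1 hu).1 hx₀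
          exact hx this
        rw [if_neg hvu, if_neg hx, zero_mul]
        refine ⟨rfl, Place.ord_eq_zero_of_reg (hregx x) ?_⟩
        intro h5
        exact hx (Place.val_unique h5 hx₀)
    obtain ⟨c1, d1⟩ := hcount x₁ y₁ h₁ v₁ e₁ s₁
    obtain ⟨c2, d2⟩ := hcount x₂ y₂ h₂ v₂ e₂ s₂
    obtain ⟨c3, d3⟩ := hcount x₃ y₃ h₃ v₃ e₃ s₃
    rw [c1, c2, c3]
    rw [d1, d2, d3] at hordprod
    set n : ℤ := (if x₁ = x₀ then 1 else 0) + (if x₂ = x₀ then 1 else 0) +
      (if x₃ = x₀ then 1 else 0) with hn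
    have hordprod' : v.ord φ + v.ord ψ = n * e := by rw [hordprod, hn]; ring
    set η := l * x₀ + m with hη
    have hFx : (DE W).F.eval x₀ = η ^ 2 := by rw [← e₀]; exact eta_sq hn₀
    by_cases hη0 : η = 0
    · have hf : (DE W).F.eval x₀ = 0 := by rw [hFx, hη0]; ring
      have hf1 := fpoly_deriv_ne W hf
      have hw1 := (DE W).ram_e hf hf1 v hx₀
      have hs2 := ((DE W).ram_s hf hf1 v hx₀).1
      rw [hw1] at hs2
      have hw0 := ((DE W).ram_s hf hf1 v hx₀).2.2
      -- both orders are 1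
      have hboth : ∀ c : k, v.ord (w + algebraMap k (KE W) c * (s - algebraMap k (KE W) x₀)) = 1 := by
        intro c
        by_cases hc : c = 0
        · rw [hc, map_zero, zero_mul, add_zero]; exact hw1
        · have h6 : v.ord (algebraMap k (KE W) c * (s - algebraMap k (KE W) x₀)) = 2 := by
            rw [v.ord_mul _ _ (by simpa using hc) (hne _), v.ord_const c hc, hs, hs2]; norm_num
          rw [(Place.ord_add_of_lt hw0 (mul_ne_zero (by simpa using hc) (hne _))
            (by rw [h6]; change v.ord (DE W).w < 2; rw [hw1]; norm_num)).2]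
          exact hw1
      have hm' : algebraMap k (KE W) m = - (algebraMap k (KE W) l * algebraMap k (KE W) x₀) := by
        have h7 : m = -(l * x₀) := by linear_combination hη0
        rw [h7, map_neg, map_mul]
      have hφ1 : v.ord φ = 1 := by
        rw [← hboth (-l), hφ, hm', map_neg]; congr 1; ring
      have hψ1 : v.ord ψ = 1 := by
        rw [← hboth l, hψ, hm']; congr 1; ring
      have he2 : e = 2 := by rw [he, hs, hs2]; norm_num
      rw [hφ1, hψ1, he2] at hordprod'
      rw [hφ1]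
      omega
    · have he1 : e = 1 := (DE W).unram_e two_ne hη0 v hx₀ hwval
      have hψval : v.ord ψ = 0 := by
        have h6 := Place.val_add (Place.val_add hwval
          (Place.val_mul (Place.val_const l) hx₀)) (Place.val_const m)
        apply Place.ord_eq_zero_of_val h6
        intro h7
        apply hη0
        rw [hη] at h7 ⊢
        linear_combination h7 / 2
      rw [hψval, he1] at hordprod'
      omega
  · have g1 : v ≠ v₁ := by rintro rfl; exact hz (hspecline _ _ h₁ e₁ s₁)
    have g2 : v ≠ v₂ := by rintro rfl; exact hz (hspecline _ _ h₂ e₂ s₂)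
    have g3 : v ≠ v₃ := by rintro rfl; exact hz (hspecline _ _ h₃ e₃ s₃)
    rw [if_neg g1, if_neg g2, if_neg g3]
    exact Place.ord_eq_zero_of_reg hregφ hz

end Pool.Agent.LibBH2
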