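import Pool.Agent.LibBH2.Stmts

/-!
Task M: matching the two-torsion of two elliptic curves by a Möbius map.
-/

open WeierstrassCurve Polynomial
open scoped Classical

namespace Pool.Agent.LibBH2

section
variable {k : Type} [Field k] [CharZero k]

theorem cubic_roots [IsAlgClosed k] (A B C : k)
    (h : ∀ e : k, e ^ 3 + A * e ^ 2 + B * e + C = 0 → 3 * e ^ 2 + 2 * A * e + B ≠ 0) :
    ∃ e₁ e₂ e₃ : k, e₁ ≠ e₂ ∧ e₁ ≠ e₃ ∧ e₂ ≠ e₃ ∧ A = -(e₁ + e₂ + e₃) ∧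
      B = e₁ * e₂ + e₁ * e₃ + e₂ * e₃ ∧ C = -(e₁ * e₂ * e₃) := by
  obtain ⟨e₁, he₁⟩ : ∃ e : k, e ^ 3 + A * e ^ 2 + B * e + C = 0 := by
    have hdeg : (X ^ 3 + Polynomial.C A * X ^ 2 + Polynomial.C B * X + Polynomial.C C : k[X]).degree
        ≠ 0 := by
      have : (X ^ 3 + Polynomial.C A * X ^ 2 + Polynomial.C B * X + Polynomial.C C : k[X]).degree
          = 3 := by
        compute_degree!
      rw [this]; decide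
    obtain ⟨e, he⟩ := IsAlgClosed.exists_root _ hdeg
    refine ⟨e, ?_⟩
    simpa [IsRoot] using he
  obtain ⟨s, hs⟩ := IsAlgClosed.exists_pow_nat_eq
    ((A + e₁) ^ 2 - 4 * (B + e₁ * (A + e₁))) (n := 2) (by norm_num)
  obtain ⟨e₂, e₃, hA, hB, hC⟩ : ∃ e₂ e₃ : k, A = -(e₁ + e₂ + e₃) ∧
      B = e₁ * e₂ + e₁ * e₃ + e₂ * e₃ ∧ C = -(e₁ * e₂ * e₃) := by
    refine ⟨(-(A + e₁) + s) / 2, (-(A + e₁) - s) / 2, ?_, ?_, ?_⟩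
    · ring
    · linear_combination (1 / 4 : k) * hs
    · linear_combination (-e₁ / 4 : k) * hs + he₁
  subst hA hB hC
  refine ⟨e₁, e₂, e₃, ?_, ?_, ?_, rfl, rfl, rfl⟩
  · rintro rfl
    exact h e₁ (by ring) (by ring)
  · rintro rfl
    exact h e₁ (by ring) (by ring)
  · rintro rfl
    exact h e₂ (by ring) (by ring)

omit [CharZero k] in
/-- The Möbius map through three points, when it does not fix infinity. -/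
theorem moebius_match (e₁ e₂ e₃ f₁ f₂ f₃ : k) (h12 : e₁ ≠ e₂) (h13 : e₁ ≠ e₃) (h23 : e₂ ≠ e₃)
    (g12 : f₁ ≠ f₂) (g13 : f₁ ≠ f₃) (g23 : f₂ ≠ f₃)
    (hρ : (f₁ - f₂) * (e₃ - e₁) ≠ (f₁ - f₃) * (e₂ - e₁)) :
    ∃ a m κ : k, κ ≠ 0 ∧ a ≠ e₁ ∧ a ≠ e₂ ∧ a ≠ e₃ ∧
      (m - f₁) * (a - e₁) = κ ∧ (m - f₂) * (a - e₂) = κ ∧ (m - f₃) * (a - e₃) = κ := by
  -- `P = (f₁ - f₂) (e₃ - e₁)`, `Q = (f₁ - f₃) (e₂ - e₁)`, `a = (Q e₃ - P e₂) / (Q - P)`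
  have hQP : (f₁ - f₃) * (e₂ - e₁) - (f₁ - f₂) * (e₃ - e₁) ≠ 0 :=
    sub_ne_zero.2 (Ne.symm hρ)
  have e21 : e₂ - e₁ ≠ 0 := sub_ne_zero.2 h12.symm
  have e31 : e₃ - e₁ ≠ 0 := sub_ne_zero.2 h13.symm
  have e32 : e₃ - e₂ ≠ 0 := sub_ne_zero.2 h23.symm
  have f12 : f₁ - f₂ ≠ 0 := sub_ne_zero.2 g12
  have f13 : f₁ - f₃ ≠ 0 := sub_ne_zero.2 g13
  have f23 : f₂ - f₃ ≠ 0 := sub_ne_zero.2 g23
  set D := (f₁ - f₃) * (e₂ - e₁) - (f₁ - f₂) * (e₃ - e₁) with hD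
  obtain ⟨a, ha⟩ : ∃ a : k, a * D = (f₁ - f₃) * (e₂ - e₁) * e₃ - (f₁ - f₂) * (e₃ - e₁) * e₂ :=
    ⟨((f₁ - f₃) * (e₂ - e₁) * e₃ - (f₁ - f₂) * (e₃ - e₁) * e₂) / D, div_mul_cancel₀ _ hQP⟩
  have ha1 : (a - e₁) * D = (e₂ - e₁) * (e₃ - e₁) * (f₂ - f₃) := by
    rw [sub_mul, ha, hD]; ring
  have ha2 : (a - e₂) * D = (f₁ - f₃) * (e₂ - e₁) * (e₃ - e₂) := by
    rw [sub_mul, ha, hD]; ring
  have ha3 : (a - e₃) * D = (f₁ - f₂) * (e₃ - e₁) * (e₃ - e₂) := by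
    rw [sub_mul, ha, hD]; ring
  have na1 : a - e₁ ≠ 0 := by
    intro h0; rw [h0, zero_mul] at ha1
    exact mul_ne_zero (mul_ne_zero e21 e31) f23 ha1.symm
  have na2 : a - e₂ ≠ 0 := by
    intro h0; rw [h0, zero_mul] at ha2
    exact mul_ne_zero (mul_ne_zero f13 e21) e32 ha2.symm
  have na3 : a - e₃ ≠ 0 := by
    intro h0; rw [h0, zero_mul] at ha3
    exact mul_ne_zero (mul_ne_zero f12 e31) e32 ha3.symm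
  obtain ⟨κ, hκ⟩ : ∃ κ : k, κ * (e₂ - e₁) = (f₁ - f₂) * (a - e₁) * (a - e₂) :=
    ⟨(f₁ - f₂) * (a - e₁) * (a - e₂) / (e₂ - e₁), div_mul_cancel₀ _ e21⟩
  obtain ⟨m, hm⟩ : ∃ m : k, (m - f₁) * (a - e₁) = κ :=
    ⟨κ / (a - e₁) + f₁, by rw [add_sub_cancel_right, div_mul_cancel₀ _ na1]⟩
  have hκ3 : κ * (e₃ - e₁) = (f₁ - f₃) * (a - e₁) * (a - e₃) := by
    have h1 : (f₁ - f₃) * (e₂ - e₁) * (a - e₃) = (f₁ - f₂) * (e₃ - e₁) * (a - e₂) := by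
      apply mul_right_cancel₀ hQP
      linear_combination (f₁ - f₃) * (e₂ - e₁) * ha3 - (f₁ - f₂) * (e₃ - e₁) * ha2
    apply mul_right_cancel₀ e21
    linear_combination (e₃ - e₁) * hκ - (a - e₁) * h1
  refine ⟨a, m, κ, ?_, sub_ne_zero.1 na1, sub_ne_zero.1 na2, sub_ne_zero.1 na3, hm, ?_, ?_⟩
  · rintro rfl
    rw [zero_mul] at hκ
    exact mul_ne_zero (mul_ne_zero f12 na1) na2 hκ.symm
  · apply mul_right_cancel₀ na1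
    linear_combination (a - e₂) * hm - hκ
  · apply mul_right_cancel₀ na1
    linear_combination (a - e₃) * hm - hκ3

omit [CharZero k] in
theorem match_final [IsAlgClosed k] (e₁ e₂ e₃ f₁ f₂ f₃ a m κ : k) (hκ : κ ≠ 0) (h1 : a ≠ e₁)
    (h2 : a ≠ e₂) (h3 : a ≠ e₃) (r1 : (m - f₁) * (a - e₁) = κ) (r2 : (m - f₂) * (a - e₂) = κ)
    (r3 : (m - f₃) * (a - e₃) = κ) :
    ∃ ν : k, ν ≠ 0 ∧ ∀ t : k, (κ + (m - f₁) * t) * (κ + (m - f₂) * t) * (κ + (m - f₃) * t) =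
      ν ^ 2 * ((a + t - e₁) * (a + t - e₂) * (a + t - e₃)) := by
  have n1 : a - e₁ ≠ 0 := sub_ne_zero.2 h1
  have n2 : a - e₂ ≠ 0 := sub_ne_zero.2 h2
  have n3 : a - e₃ ≠ 0 := sub_ne_zero.2 h3
  have nE : (a - e₁) * (a - e₂) * (a - e₃) ≠ 0 := mul_ne_zero (mul_ne_zero n1 n2) n3
  obtain ⟨ν, hν⟩ := IsAlgClosed.exists_pow_nat_eq (κ ^ 3 / ((a - e₁) * (a - e₂) * (a - e₃)))
    (n := 2) (by norm_num)
  have hν' : ν ^ 2 * ((a - e₁) * (a - e₂) * (a - e₃)) = κ ^ 3 := by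
    rw [hν, div_mul_cancel₀ _ nE]
  refine ⟨ν, ?_, fun t => ?_⟩
  · rintro rfl
    rw [zero_pow two_ne_zero, zero_mul] at hν'
    exact pow_ne_zero 3 hκ hν'.symm
  · apply mul_right_cancel₀ nE
    have s1 : (κ + (m - f₁) * t) * (a - e₁) = κ * (a + t - e₁) := by
      linear_combination t * r1
    have s2 : (κ + (m - f₂) * t) * (a - e₂) = κ * (a + t - e₂) := by
      linear_combination t * r2
    have s3 : (κ + (m - f₃) * t) * (a - e₃) = κ * (a + t - e₃) := by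
      linear_combination t * r3
    calc (κ + (m - f₁) * t) * (κ + (m - f₂) * t) * (κ + (m - f₃) * t) *
          ((a - e₁) * (a - e₂) * (a - e₃))
        = ((κ + (m - f₁) * t) * (a - e₁)) * ((κ + (m - f₂) * t) * (a - e₂)) *
          ((κ + (m - f₃) * t) * (a - e₃)) := by ring
      _ = κ ^ 3 * ((a + t - e₁) * (a + t - e₂) * (a + t - e₃)) := by rw [s1, s2, s3]; ring
      _ = _ := by rw [← hν']; ring

/-- One of the three labelings has a Möbius map moving infinity. -/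
theorem labeling (e₁ e₂ e₃ f₁ f₂ f₃ : k) (h12 : e₁ ≠ e₂) (h13 : e₁ ≠ e₃) (h23 : e₂ ≠ e₃)
    (g12 : f₁ ≠ f₂) (g13 : f₁ ≠ f₃)
    (hA : (f₁ - f₂) * (e₃ - e₁) = (f₁ - f₃) * (e₂ - e₁))
    (hB : (f₁ - f₃) * (e₃ - e₁) = (f₁ - f₂) * (e₂ - e₁)) :
    (f₁ - f₂) * (e₃ - e₂) ≠ (f₁ - f₃) * (e₁ - e₂) := by
  intro hC
  have e21 : e₂ - e₁ ≠ 0 := sub_ne_zero.2 h12.symm
  have e31 : e₃ - e₁ ≠ 0 := sub_ne_zero.2 h13.symm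
  have e32 : e₃ - e₂ ≠ 0 := sub_ne_zero.2 h23.symm
  have f12 : f₁ - f₂ ≠ 0 := sub_ne_zero.2 g12
  have f13 : f₁ - f₃ ≠ 0 := sub_ne_zero.2 g13
  -- `(e₃ - e₁)² = (e₂ - e₁)²`
  have h1 : (f₁ - f₂) * ((e₃ - e₁) ^ 2 - (e₂ - e₁) ^ 2) = 0 := by
    linear_combination (e₃ - e₁) * hA + (e₂ - e₁) * hB
  have h2 : (e₃ - e₁) ^ 2 - (e₂ - e₁) ^ 2 = 0 := (mul_eq_zero.1 h1).resolve_left f12
  have h3 : (e₃ - e₂) * (e₃ + e₂ - 2 * e₁) = 0 := by linear_combination h2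
  have h4 : e₃ + e₂ - 2 * e₁ = 0 := (mul_eq_zero.1 h3).resolve_left e32
  have h5 : e₃ = 2 * e₁ - e₂ := by linear_combination h4
  rw [h5] at hA hC
  -- `hA : (f₁ - f₂) (e₁ - e₂) = (f₁ - f₃) (e₂ - e₁)`, so `f₁ - f₂ = -(f₁ - f₃)`
  have h6 : (e₂ - e₁) * ((f₁ - f₂) + (f₁ - f₃)) = 0 := by linear_combination -hA
  have h7 : (f₁ - f₂) + (f₁ - f₃) = 0 := (mul_eq_zero.1 h6).resolve_left e21
  have h8 : (3 : k) * ((f₁ - f₂) * (e₁ - e₂)) = 0 := by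
    linear_combination hC + (e₁ - e₂) * h7
  have h9 : (f₁ - f₂) * (e₁ - e₂) = 0 :=
    (mul_eq_zero.1 h8).resolve_left (by norm_num)
  exact mul_ne_zero f12 (sub_ne_zero.2 h12) h9

theorem match_exists [IsAlgClosed k] (e₁ e₂ e₃ f₁ f₂ f₃ : k) (h12 : e₁ ≠ e₂) (h13 : e₁ ≠ e₃)
    (h23 : e₂ ≠ e₃) (g12 : f₁ ≠ f₂) (g13 : f₁ ≠ f₃) (g23 : f₂ ≠ f₃) :
    ∃ a m κ ν : k, κ ≠ 0 ∧ ν ≠ 0 ∧ ∀ t : k,
      (κ + (m - f₁) * t) * (κ + (m - f₂) * t) * (κ + (m - f₃) * t) =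
      ν ^ 2 * ((a + t - e₁) * (a + t - e₂) * (a + t - e₃)) := by
  by_cases hA : (f₁ - f₂) * (e₃ - e₁) = (f₁ - f₃) * (e₂ - e₁)
  · by_cases hB : (f₁ - f₃) * (e₃ - e₁) = (f₁ - f₂) * (e₂ - e₁)
    · have hC := labeling e₁ e₂ e₃ f₁ f₂ f₃ h12 h13 h23 g12 g13 hA hB
      obtain ⟨a, m, κ, hκ, a2, a1, a3, r1, r2, r3⟩ :=
        moebius_match e₂ e₁ e₃ f₁ f₂ f₃ h12.symm h23 h13 g12 g13 g23 hC
      obtain ⟨ν, hν, h⟩ := match_final e₂ e₁ e₃ f₁ f₂ f₃ a m κ hκ a2 a1 a3 r1 r2 r3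
      exact ⟨a, m, κ, ν, hκ, hν, fun t => by rw [h t]; ring⟩
    · obtain ⟨a, m, κ, hκ, a1, a2, a3, r1, r2, r3⟩ :=
        moebius_match e₁ e₂ e₃ f₁ f₃ f₂ h12 h13 h23 g13 g12 g23.symm hB
      obtain ⟨ν, hν, h⟩ := match_final e₁ e₂ e₃ f₁ f₃ f₂ a m κ hκ a1 a2 a3 r1 r2 r3
      exact ⟨a, m, κ, ν, hκ, hν, fun t => by rw [← h t]; ring⟩
  · obtain ⟨a, m, κ, hκ, a1, a2, a3, r1, r2, r3⟩ :=
      moebius_match e₁ e₂ e₃ f₁ f₂ f₃ h12 h13 h23 g12 g13 g23 hA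
    obtain ⟨ν, hν, h⟩ := match_final e₁ e₂ e₃ f₁ f₂ f₃ a m κ hκ a1 a2 a3 r1 r2 r3
    exact ⟨a, m, κ, ν, hκ, hν, h⟩

/-- The three two-torsion abscissae of an elliptic curve. -/
theorem torsion_abscissae [IsAlgClosed k] (W : WeierstrassCurve k) [W.IsElliptic] :
    ∃ e₁ e₂ e₃ : k, e₁ ≠ e₂ ∧ e₁ ≠ e₃ ∧ e₂ ≠ e₃ ∧ W.b₂ = -4 * (e₁ + e₂ + e₃) ∧
      W.b₄ = 2 * (e₁ * e₂ + e₁ * e₃ + e₂ * e₃) ∧ W.b₆ = -4 * (e₁ * e₂ * e₃) := by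
  obtain ⟨e₁, e₂, e₃, h12, h13, h23, hA, hB, hC⟩ :=
    cubic_roots (W.b₂ / 4) (W.b₄ / 2) (W.b₆ / 4) (by
      intro e he hd
      rw [← fpoly_eval] at he
      apply fpoly_deriv_ne W he
      have h4 : (fpoly W).derivative.eval e = 3 * e ^ 2 + W.b₂ / 2 * e + W.b₄ / 2 := by
        simp [fpoly]; ring
      rw [h4]
      linear_combination hd)
  exact ⟨e₁, e₂, e₃, h12, h13, h23, by linear_combination 4 * hA, by linear_combination 2 * hB,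
    by linear_combination 4 * hC⟩

end

theorem tm : TaskM := by
  intro k _ _ _ W₁ W₂ _ _
  obtain ⟨e₁, e₂, e₃, h12, h13, h23, hA, hB, hC⟩ := torsion_abscissae W₁
  obtain ⟨f₁, f₂, f₃, g12, g13, g23, gA, gB, gC⟩ := torsion_abscissae W₂
  obtain ⟨a, m, κ, ν, hκ, hν, h⟩ := match_exists e₁ e₂ e₃ f₁ f₂ f₃ h12 h13 h23 g12 g13 g23
  refine ⟨a, m, κ, ν, hκ, hν, fun t => ?_⟩
  rw [hA, hB, hC, gA, gB, gC]
  linear_combination 4 * h t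

end Pool.Agent.LibBH2
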