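import Mathlib

/-!
Places (normalised discrete valuations) of a field `K` over a subfield `k`.
-/

open scoped Classical

namespace Pool.Agent.LibBH2

/-- A place of the field `K` over the subfield `k`: a discrete valuation `ord` of `K`, normalised
(some element has order `1`) and trivial on `k`. By convention `ord 0 = 0`. -/
structure Place (k K : Type) [Field k] [Field K] [Algebra k K] where
  /-- the order of vanishing -/
  ord : K → ℤ
  ord_zero : ord 0 = 0
  ord_mul : ∀ f g : K, f ≠ 0 → g ≠ 0 → ord (f * g) = ord f + ord g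
  ord_add : ∀ f g : K, f ≠ 0 → g ≠ 0 → f + g ≠ 0 → min (ord f) (ord g) ≤ ord (f + g)
  ord_const : ∀ c : k, c ≠ 0 → ord (algebraMap k K c) = 0
  exists_uniformizer : ∃ t : K, ord t = 1

variable {k K : Type} [Field k] [Field K] [Algebra k K]

namespace Place

/-- `f` vanishes at the place `v`. -/
def Zer (v : Place k K) (f : K) : Prop := f = 0 ∨ 0 < v.ord f

/-- `f` is regular at the place `v`. -/
def Reg (v : Place k K) (f : K) : Prop := f = 0 ∨ 0 ≤ v.ord f

variable (v : Place k K)

theorem ext' {v v' : Place k K} (h : ∀ f, v.ord f = v'.ord f) : v = v' := by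
  cases v; cases v'
  congr
  exact funext h

@[simp] theorem ord_one : v.ord 1 = 0 := by
  have := v.ord_const 1 one_ne_zero
  simpa using this

theorem ord_neg (f : K) : v.ord (-f) = v.ord f := by
  by_cases hf : f = 0
  · simp [hf]
  have h1 : v.ord (-1 : K) = 0 := by
    have := v.ord_const (-1) (by simp)
    simpa using this
  rw [neg_eq_neg_one_mul, v.ord_mul _ _ (by simp) hf, h1, zero_add]

theorem ord_pow (f : K) (n : ℕ) : v.ord (f ^ n) = n * v.ord f := by
  by_cases hf : f = 0
  · subst hf
    cases n with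
    | zero => simp
    | succ n => simp [v.ord_zero]
  induction n with
  | zero => simp
  | succ n ih => rw [pow_succ, v.ord_mul _ _ (pow_ne_zero _ hf) hf, ih]; push_cast; ring

theorem ord_inv (f : K) : v.ord f⁻¹ = - v.ord f := by
  by_cases hf : f = 0
  · simp [hf, v.ord_zero]
  have := v.ord_mul f f⁻¹ hf (inv_ne_zero hf)
  rw [mul_inv_cancel₀ hf, ord_one] at this
  omega

theorem ord_div (f g : K) (hf : f ≠ 0) (hg : g ≠ 0) : v.ord (f / g) = v.ord f - v.ord g := by
  rw [div_eq_mul_inv, v.ord_mul _ _ hf (inv_ne_zero hg), ord_inv]; ring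

theorem ord_zpow (f : K) (n : ℤ) : v.ord (f ^ n) = n * v.ord f := by
  cases n with
  | ofNat n => simpa using v.ord_pow f n
  | negSucc n =>
    rw [zpow_negSucc, ord_inv, ord_pow, Int.negSucc_eq]; push_cast; ring

theorem zer_zero : v.Zer 0 := Or.inl rfl
theorem reg_zero : v.Reg 0 := Or.inl rfl

variable {v}

theorem Zer.reg {f : K} (h : v.Zer f) : v.Reg f := h.imp id le_of_lt

theorem Zer.add {f g : K} (hf : v.Zer f) (hg : v.Zer g) : v.Zer (f + g) := by
  by_cases h0 : f + g = 0
  · exact Or.inl h0
  rcases hf with rfl | hf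
  · simpa using hg
  rcases hg with rfl | hg
  · rw [add_zero]; exact Or.inr hf
  have hf0 : f ≠ 0 := by rintro rfl; simp [v.ord_zero] at hf
  have hg0 : g ≠ 0 := by rintro rfl; simp [v.ord_zero] at hg
  exact Or.inr (lt_of_lt_of_le (lt_min hf hg) (v.ord_add f g hf0 hg0 h0))

theorem Reg.add {f g : K} (hf : v.Reg f) (hg : v.Reg g) : v.Reg (f + g) := by
  by_cases h0 : f + g = 0
  · exact Or.inl h0
  by_cases hf0 : f = 0
  · simpa [hf0] using hg
  by_cases hg0 : g = 0
  · simpa [hg0] using hf
  have hf := hf.resolve_left hf0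
  have hg := hg.resolve_left hg0
  exact Or.inr (le_trans (le_min hf hg) (v.ord_add f g hf0 hg0 h0))

theorem Zer.neg {f : K} (hf : v.Zer f) : v.Zer (-f) := by
  rcases hf with rfl | hf
  · simp [zer_zero]
  · exact Or.inr (by rwa [ord_neg])

theorem Reg.neg {f : K} (hf : v.Reg f) : v.Reg (-f) := by
  rcases hf with rfl | hf
  · simp [reg_zero]
  · exact Or.inr (by rwa [ord_neg])

theorem Zer.sub {f g : K} (hf : v.Zer f) (hg : v.Zer g) : v.Zer (f - g) := by
  rw [sub_eq_add_neg]; exact hf.add hg.neg

theorem Reg.sub {f g : K} (hf : v.Reg f) (hg : v.Reg g) : v.Reg (f - g) := by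
  rw [sub_eq_add_neg]; exact hf.add hg.neg

theorem Reg.mul {f g : K} (hf : v.Reg f) (hg : v.Reg g) : v.Reg (f * g) := by
  by_cases hf0 : f = 0
  · simp [hf0, reg_zero]
  by_cases hg0 : g = 0
  · simp [hg0, reg_zero]
  have hf := hf.resolve_left hf0
  have hg := hg.resolve_left hg0
  exact Or.inr (by rw [v.ord_mul _ _ hf0 hg0]; omega)

theorem Zer.mul_reg {f g : K} (hf : v.Zer f) (hg : v.Reg g) : v.Zer (f * g) := by
  by_cases hf0 : f = 0
  · simp [hf0, zer_zero]
  by_cases hg0 : g = 0
  · simp [hg0, zer_zero]
  have hf := hf.resolve_left hf0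
  have hg := hg.resolve_left hg0
  exact Or.inr (by rw [v.ord_mul _ _ hf0 hg0]; omega)

theorem Zer.reg_mul {f g : K} (hf : v.Reg f) (hg : v.Zer g) : v.Zer (f * g) := by
  rw [mul_comm]; exact hg.mul_reg hf

theorem Reg.pow {f : K} (hf : v.Reg f) (n : ℕ) : v.Reg (f ^ n) := by
  induction n with
  | zero => exact Or.inr (by simp)
  | succ n ih => rw [pow_succ]; exact ih.mul hf

variable (v)

theorem reg_const (c : k) : v.Reg (algebraMap k K c) := by
  by_cases hc : c = 0
  · simp [hc, reg_zero]
  · exact Or.inr (by rw [v.ord_const c hc])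

theorem zer_const_iff (c : k) : v.Zer (algebraMap k K c) ↔ c = 0 := by
  constructor
  · intro h
    by_contra hc
    rcases h with h | h
    · exact hc (by simpa using h)
    · rw [v.ord_const c hc] at h; exact lt_irrefl _ h
  · rintro rfl; simp [zer_zero]

variable {v}

theorem ord_eq_zero_of_reg {f : K} (hf : v.Reg f) (h : ¬ v.Zer f) : v.ord f = 0 := by
  have h0 : f ≠ 0 := fun h0 => h (Or.inl h0)
  have h1 : ¬ 0 < v.ord f := fun h1 => h (Or.inr h1)
  have := hf.resolve_left h0
  omega

/-- the value at `v`: `f` has value `c`. -/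
theorem ord_eq_zero_of_val {f : K} {c : k} (h : v.Zer (f - algebraMap k K c)) (hc : c ≠ 0) :
    v.ord f = 0 := by
  have hf : v.Reg f := by
    have := h.reg.add (v.reg_const c)
    simpa using this
  apply ord_eq_zero_of_reg hf
  intro hz
  have := hz.sub h
  simp only [sub_sub_cancel] at this
  exact hc ((v.zer_const_iff c).1 this)

theorem ne_zero_of_val {f : K} {c : k} (h : v.Zer (f - algebraMap k K c)) (hc : c ≠ 0) :
    f ≠ 0 := by
  rintro rfl
  rw [zero_sub] at h
  have := h.neg
  rw [neg_neg] at this
  exact hc ((v.zer_const_iff c).1 this)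

theorem val_unique {f : K} {c d : k} (h : v.Zer (f - algebraMap k K c))
    (h' : v.Zer (f - algebraMap k K d)) : c = d := by
  have := h'.sub h
  have h2 : f - algebraMap k K d - (f - algebraMap k K c) = algebraMap k K (c - d) := by
    rw [map_sub]; ring
  rw [h2, zer_const_iff] at this
  exact sub_eq_zero.1 this

theorem val_add {f g : K} {c d : k} (hf : v.Zer (f - algebraMap k K c))
    (hg : v.Zer (g - algebraMap k K d)) : v.Zer (f + g - algebraMap k K (c + d)) := by
  have := hf.add hg
  convert this using 1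
  rw [map_add]; ring

theorem reg_of_val {f : K} {c : k} (h : v.Zer (f - algebraMap k K c)) : v.Reg f := by
  have := h.reg.add (v.reg_const c)
  simpa using this

theorem val_mul {f g : K} {c d : k} (hf : v.Zer (f - algebraMap k K c))
    (hg : v.Zer (g - algebraMap k K d)) : v.Zer (f * g - algebraMap k K (c * d)) := by
  have h1 := hf.mul_reg (reg_of_val hg)
  have h2 := Zer.reg_mul (v.reg_const c) hg
  have := h1.add h2
  convert this using 1
  rw [map_mul]; ring

theorem val_const (c : k) : v.Zer (algebraMap k K c - algebraMap k K c) := by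
  simp [zer_zero]

theorem val_neg {f : K} {c : k} (h : v.Zer (f - algebraMap k K c)) :
    v.Zer (-f - algebraMap k K (-c)) := by
  have := h.neg
  convert this using 1
  rw [map_neg]; ring

theorem val_sub {f g : K} {c d : k} (hf : v.Zer (f - algebraMap k K c))
    (hg : v.Zer (g - algebraMap k K d)) : v.Zer (f - g - algebraMap k K (c - d)) := by
  have := val_add hf (val_neg hg)
  convert this using 1
  rw [map_add, map_neg, map_sub]; ring

theorem val_pow {f : K} {c : k} (h : v.Zer (f - algebraMap k K c)) (n : ℕ) :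
    v.Zer (f ^ n - algebraMap k K (c ^ n)) := by
  induction n with
  | zero => simp [zer_zero]
  | succ n ih => rw [pow_succ, pow_succ]; exact val_mul ih h

theorem val_inv {f : K} {c : k} (h : v.Zer (f - algebraMap k K c)) (hc : c ≠ 0) :
    v.Zer (f⁻¹ - algebraMap k K c⁻¹) := by
  have hf0 := ne_zero_of_val h hc
  have ho := ord_eq_zero_of_val h hc
  have hr : v.Reg (-(f⁻¹ * algebraMap k K c⁻¹)) := by
    apply Reg.neg
    apply Reg.mul _ (v.reg_const _)
    exact Or.inr (by rw [ord_inv, ho]; simp)
  have := h.mul_reg hr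
  convert this using 1
  have hc' : algebraMap k K c ≠ 0 := by simpa using hc
  rw [map_inv₀]
  field_simp
  ring

theorem val_div {f g : K} {c d : k} (hf : v.Zer (f - algebraMap k K c))
    (hg : v.Zer (g - algebraMap k K d)) (hd : d ≠ 0) :
    v.Zer (f / g - algebraMap k K (c / d)) := by
  rw [div_eq_mul_inv, div_eq_mul_inv]
  exact val_mul hf (val_inv hg hd)

/-- values of polynomials -/
theorem val_aeval {f : K} {c : k} (h : v.Zer (f - algebraMap k K c)) (P : Polynomial k) :
    v.Zer (Polynomial.aeval f P - algebraMap k K (P.eval c)) := by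
  induction P using Polynomial.induction_on' with
  | add p q hp hq =>
    rw [map_add, Polynomial.eval_add]
    exact val_add hp hq
  | monomial n a =>
    rw [Polynomial.aeval_monomial, Polynomial.eval_monomial]
    exact val_mul (val_const a) (val_pow h n)

theorem ord_add_of_lt {f g : K} (hf : f ≠ 0) (hg : g ≠ 0) (h : v.ord f < v.ord g) :
    f + g ≠ 0 ∧ v.ord (f + g) = v.ord f := by
  have hne : f + g ≠ 0 := by
    intro h0
    have : f = -g := eq_neg_of_add_eq_zero_left h0
    rw [this, ord_neg] at h
    exact lt_irrefl _ h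
  refine ⟨hne, le_antisymm ?_ ?_⟩
  · by_contra hlt
    push Not at hlt
    have h2 := v.ord_add (f + g) (-g) hne (by simpa using hg) (by simpa using hf)
    rw [ord_neg, add_neg_cancel_right] at h2
    have := lt_min hlt h
    omega
  · have := v.ord_add f g hf hg hne
    rw [min_eq_left h.le] at this
    exact this

end Place

end Pool.Agent.LibBH2
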