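import Pool.Agent.LibBH2.Lines

/-!
Additivity in `CH0` along a curve: bilinearity of `z`.
-/

open scoped Classical
open Polynomial WeierstrassCurve

namespace Pool.Agent.LibBH2

variable {k : Type} [Field k] [CharZero k] [IsAlgClosed k]
variable {W W₁ W₂ : WeierstrassCurve k} [W.IsElliptic]

/-- the point of `W` at which the generic point specialises -/
noncomputable def pf (v : Place k (KE W)) : W.toAffine.Point :=
  if h : ∃ p, Spec v (genPt W) p then h.choose else 0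

omit [IsAlgClosed k] in
theorem pf_eq {v : Place k (KE W)} {p : W.toAffine.Point} (h : Spec v (genPt W) p) :
    pf v = p := by
  have h1 : ∃ p, Spec v (genPt W) p := ⟨p, h⟩
  rw [pf, dif_pos h1]
  exact spec_injective v _ _ h1.choose_spec h

/-- morphism data: points `j₁ p`, `j₂ p` are the specialisations of `T₁`, `T₂` -/
structure Mor (W W₁ W₂ : WeierstrassCurve k) [W.IsElliptic] where
  T₁ : (W₁⁄(KE W)).toAffine.Point
  T₂ : (W₂⁄(KE W)).toAffine.Point
  j₁ : W.toAffine.Point → W₁.toAffine.Point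
  j₂ : W.toAffine.Point → W₂.toAffine.Point
  spec : ∀ (v : Place k (KE W)) (p : W.toAffine.Point), Spec v (genPt W) p →
    Spec v T₁ (j₁ p) ∧ Spec v T₂ (j₂ p)

/-- the class of the image of a point -/
noncomputable def Mor.cl (M : Mor W W₁ W₂) (p : W.toAffine.Point) : CH0 W₁ W₂ :=
  pt (M.j₁ p) (M.j₂ p)

theorem Mor.rel (M : Mor W W₁ W₂) {φ : KE W} (hφ : φ ≠ 0) (S : Finset (Place k (KE W)))
    (hS : ∀ v, v.ord φ ≠ 0 → v ∈ S) (hS' : ∀ v ∈ S, ∃ p, Spec v (genPt W) p) :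
    ∑ v ∈ S, v.ord φ • M.cl (pf v) = 0 := by
  apply Pool.Agent.LibBH2.rel (DE W).ι (DE W).finite M.T₁ M.T₂ hφ S hS
    (fun v => M.j₁ (pf v)) (fun v => M.j₂ (pf v))
  intro v hv
  obtain ⟨p, hp⟩ := hS' v hv
  rw [pf_eq hp]
  exact M.spec v p hp

theorem Mor.vert (M : Mor W W₁ W₂) (p : W.toAffine.Point) :
    M.cl p + M.cl (-p) = M.cl 0 + M.cl 0 := by
  match p with
  | .zero =>
    have : (Affine.Point.zero : W.toAffine.Point) = 0 := rfl
    rw [this, neg_zero]
  | .some x y h =>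
    obtain ⟨v₁, h₁⟩ := place_exists (.some x y h : W.toAffine.Point)
    obtain ⟨v₂, h₂⟩ := place_exists (-.some x y h : W.toAffine.Point)
    obtain ⟨v₃, h₃⟩ := place_exists (0 : W.toAffine.Point)
    have hord := ord_vert h v₁ v₂ v₃ h₁ h₂ h₃
    have key := M.rel ((DE W).s_sub_ne_zero x) {v₁, v₂, v₃} (by
      intro v hv
      rw [hord v] at hv
      simp only [Finset.mem_insert, Finset.mem_singleton]
      by_contra hcon
      push Not at hcon
      rw [if_neg hcon.1, if_neg hcon.2.1, if_neg hcon.2.2] at hv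
      exact hv (by norm_num)) (by
      intro v hv
      simp only [Finset.mem_insert, Finset.mem_singleton] at hv
      rcases hv with rfl | rfl | rfl
      · exact ⟨_, h₁⟩
      · exact ⟨_, h₂⟩
      · exact ⟨_, h₃⟩)
    simp only [hord, add_smul, sub_smul, Finset.sum_add_distrib, Finset.sum_sub_distrib] at key
    simp only [ite_smul, one_smul, zero_smul] at key
    rw [Finset.sum_ite_eq_of_mem' _ _ _ (by simp), Finset.sum_ite_eq_of_mem' _ _ _ (by simp),
      Finset.sum_ite_eq_of_mem' _ _ _ (by simp), pf_eq h₁, pf_eq h₂, pf_eq h₃] at key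
    rw [sub_eq_zero] at key
    rw [key, ofNat_zsmul, two_nsmul]

theorem Mor.line (M : Mor W W₁ W₂) {l m x₁ x₂ x₃ y₁ y₂ y₃ : k}
    (hN : fpoly W - (C l * X + C m) ^ 2 = (X - C x₁) * (X - C x₂) * (X - C x₃))
    (h₁ : W.toAffine.Nonsingular x₁ y₁) (h₂ : W.toAffine.Nonsingular x₂ y₂)
    (h₃ : W.toAffine.Nonsingular x₃ y₃)
    (e₁ : y₁ + (W.a₁ * x₁ + W.a₃) / 2 = l * x₁ + m)
    (e₂ : y₂ + (W.a₁ * x₂ + W.a₃) / 2 = l * x₂ + m)
    (e₃ : y₃ + (W.a₁ * x₃ + W.a₃) / 2 = l * x₃ + m) :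
    M.cl (.some x₁ y₁ h₁) + M.cl (.some x₂ y₂ h₂) + M.cl (.some x₃ y₃ h₃) =
      M.cl 0 + M.cl 0 + M.cl 0 := by
  obtain ⟨v₁, s₁⟩ := place_exists (.some x₁ y₁ h₁ : W.toAffine.Point)
  obtain ⟨v₂, s₂⟩ := place_exists (.some x₂ y₂ h₂ : W.toAffine.Point)
  obtain ⟨v₃, s₃⟩ := place_exists (.some x₃ y₃ h₃ : W.toAffine.Point)
  obtain ⟨v₄, s₄⟩ := place_exists (0 : W.toAffine.Point)
  have hord := ord_line hN h₁ h₂ h₃ e₁ e₂ e₃ v₁ v₂ v₃ v₄ s₁ s₂ s₃ s₄
  have hφ : (DE W).w - algebraMap k (KE W) l * (DE W).s - algebraMap k (KE W) m ≠ 0 := by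
    intro h0
    have h5 := hord v₄
    rw [h0, Place.ord_zero, if_pos rfl] at h5
    have g : ∀ (x y : k) (h : W.toAffine.Nonsingular x y) (u : Place k (KE W)),
        Spec u (genPt W) (.some x y h) → v₄ ≠ u := by
      rintro x y h u hu rfl
      have := spec_injective _ _ _ hu s₄
      exact absurd this (by simp)
    rw [if_neg (g _ _ _ _ s₁), if_neg (g _ _ _ _ s₂), if_neg (g _ _ _ _ s₃)] at h5
    norm_num at h5
  have key := M.rel hφ {v₁, v₂, v₃, v₄} (by
    intro v hv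
    rw [hord v] at hv
    simp only [Finset.mem_insert, Finset.mem_singleton]
    by_contra hcon
    push Not at hcon
    rw [if_neg hcon.1, if_neg hcon.2.1, if_neg hcon.2.2.1, if_neg hcon.2.2.2] at hv
    exact hv (by norm_num)) (by
    intro v hv
    simp only [Finset.mem_insert, Finset.mem_singleton] at hv
    rcases hv with rfl | rfl | rfl | rfl
    · exact ⟨_, s₁⟩
    · exact ⟨_, s₂⟩
    · exact ⟨_, s₃⟩
    · exact ⟨_, s₄⟩)
  simp only [hord, add_smul, sub_smul, Finset.sum_add_distrib, Finset.sum_sub_distrib] at key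
  simp only [ite_smul, one_smul, zero_smul] at key
  rw [Finset.sum_ite_eq_of_mem' _ _ _ (by simp), Finset.sum_ite_eq_of_mem' _ _ _ (by simp),
    Finset.sum_ite_eq_of_mem' _ _ _ (by simp), Finset.sum_ite_eq_of_mem' _ _ _ (by simp),
    pf_eq s₁, pf_eq s₂, pf_eq s₃, pf_eq s₄] at key
  rw [sub_eq_zero] at key
  rw [key]
  have : (3 : ℤ) • M.cl (0 : W.toAffine.Point) = (3 : ℕ) • M.cl 0 := by
    rw [← natCast_zsmul]; rfl
  rw [this]
  abel

/-- additivity along the curve -/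
theorem Mor.add (M : Mor W W₁ W₂) (p q : W.toAffine.Point) :
    M.cl (p + q) + M.cl 0 = M.cl p + M.cl q := by
  by_cases hp : p = 0
  · rw [hp, zero_add, add_comm]
  by_cases hq : q = 0
  · rw [hq, add_zero]
  by_cases hpq : p + q = 0
  · rw [hpq, ← M.vert p, eq_neg_of_add_eq_zero_right hpq]
  match p, q with
  | .zero, _ => exact absurd rfl hp
  | _, .zero => exact absurd rfl hq
  | .some x₁ y₁ h₁, .some x₂ y₂ h₂ =>
    have hxy : ¬(x₁ = x₂ ∧ y₁ = W.toAffine.negY x₂ y₂) := by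
      intro h
      exact hpq (Affine.Point.add_of_Y_eq h.1 h.2)
    set ℓ := W.toAffine.slope x₁ x₂ y₁ y₂ with hℓ
    set x₃ := W.toAffine.addX x₁ x₂ ℓ with hx₃
    set y₃ := W.toAffine.negAddY x₁ x₂ y₁ ℓ with hy₃
    have hadd := Affine.Point.add_some hxy (h₁ := h₁) (h₂ := h₂)
    have hns : W.toAffine.Nonsingular x₃ (W.toAffine.addY x₁ x₂ y₁ ℓ) :=
      Affine.nonsingular_add h₁ h₂ hxy
    have hns' : W.toAffine.Nonsingular x₃ y₃ := by
      have h5 := (Affine.nonsingular_neg ..).2 hns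
      have h6 : W.toAffine.negY x₃ (W.toAffine.addY x₁ x₂ y₁ ℓ) = y₃ := by
        rw [Affine.addY, Affine.negY_negY]
      rwa [h6] at h5
    have hneg : -(Affine.Point.some x₁ y₁ h₁ + Affine.Point.some x₂ y₂ h₂) =
        Affine.Point.some x₃ y₃ hns' := by
      rw [hadd, Affine.Point.neg_some]
      congr 1
      rw [Affine.addY, Affine.negY_negY]
    have hpol := Affine.addPolynomial_slope h₁.1 h₂.1 hxy
    have hN : fpoly W - (C (ℓ + W.a₁ / 2) * X + C (y₁ - ℓ * x₁ + W.a₃ / 2)) ^ 2 =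
        (X - C x₁) * (X - C x₂) * (X - C x₃) := by
      have h5 : W.toAffine.addPolynomial x₁ y₁ ℓ =
          -((X - C x₁) * (X - C x₂) * (X - C x₃)) := hpol
      rw [← neg_eq_iff_eq_neg] at h5
      rw [← h5]
      apply Polynomial.funext
      intro t
      rw [Affine.addPolynomial_eq]
      simp only [eval_sub, eval_pow, eval_add, eval_mul, eval_C, eval_X, fpoly_eval, eval_neg,
        Cubic.toPoly]
      simp only [WeierstrassCurve.b₂, WeierstrassCurve.b₄, WeierstrassCurve.b₆]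
      ring
    have hy₂ : y₂ = ℓ * (x₂ - x₁) + y₁ := by
      by_cases hx : x₁ = x₂
      · have : y₁ = y₂ := by
          have hne : y₁ ≠ W.toAffine.negY x₂ y₂ := fun h => hxy ⟨hx, h⟩
          exact Affine.Y_eq_of_Y_ne h₁.1 h₂.1 hx hne
        rw [← hx, ← this]; ring
      · rw [hℓ, Affine.slope_of_X_ne hx]
        have : x₁ - x₂ ≠ 0 := sub_ne_zero.2 hx
        field_simp
        ring
    have h7 := M.line hN h₁ h₂ hns' (by ring) (by rw [hy₂]; ring) (by
      rw [hy₃, Affine.negAddY]; ring)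
    have h8 := M.vert (Affine.Point.some x₁ y₁ h₁ + Affine.Point.some x₂ y₂ h₂)
    rw [hneg] at h8
    have h9 : M.cl (.some x₃ y₃ hns') =
        M.cl 0 + M.cl 0 - M.cl (Affine.Point.some x₁ y₁ h₁ + Affine.Point.some x₂ y₂ h₂) := by
      rw [← h8]; abel
    rw [h9] at h7
    have h10 := h7
    have : M.cl (Affine.Point.some x₁ y₁ h₁) + M.cl (Affine.Point.some x₂ y₂ h₂) =
        M.cl (Affine.Point.some x₁ y₁ h₁ + Affine.Point.some x₂ y₂ h₂) + M.cl 0 := by
      have h11 : M.cl (Affine.Point.some x₁ y₁ h₁) + M.cl (Affine.Point.some x₂ y₂ h₂) =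
        (M.cl 0 + M.cl 0 + M.cl 0) - (M.cl 0 + M.cl 0 -
          M.cl (Affine.Point.some x₁ y₁ h₁ + Affine.Point.some x₂ y₂ h₂)) := by
        rw [← h7]; abel
      rw [h11]; abel
    exact this.symm

end Pool.Agent.LibBH2
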