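import Pool.Agent.LibBH2.PolyDefs

/-!
Task S1: scaling of short Weierstrass curves.
-/

open Height WeierstrassCurve
open scoped Classical

namespace Pool.Agent.LibBH2

namespace S1

open WeierstrassCurve.Affine

variable {L : Type} [Field L]

/-- a short Weierstrass curve -/
abbrev sh (A B : L) : WeierstrassCurve L := ⟨0, 0, 0, A, B⟩

theorem eqn (A B x y : L) : (sh A B).toAffine.Equation x y ↔ y ^ 2 = x ^ 3 + A * x + B := by
  rw [equation_iff]
  simp

theorem nons (A B x y : L) : (sh A B).toAffine.Nonsingular x y ↔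
    y ^ 2 = x ^ 3 + A * x + B ∧ (0 ≠ 3 * x ^ 2 + A ∨ y ≠ -y) := by
  rw [nonsingular_iff, eqn]
  simp

theorem negY_sh (A B x y : L) : (sh A B).toAffine.negY x y = -y := by
  simp [negY]

theorem nons_scale {A B A' B' l : L} (hl : l ≠ 0) (hA : A' = A * l ^ 4) (hB : B' = B * l ^ 6)
    {x y : L} (h : (sh A B).toAffine.Nonsingular x y) :
    (sh A' B').toAffine.Nonsingular (l ^ 2 * x) (l ^ 3 * y) := by
  rw [nons] at h ⊢
  subst hA hB
  obtain ⟨h1, h2⟩ := h
  refine ⟨by linear_combination l ^ 6 * h1, ?_⟩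
  rcases h2 with h2 | h2
  · left
    intro h3
    apply h2
    have : l ^ 4 * (3 * x ^ 2 + A) = 0 := by linear_combination -h3
    rcases mul_eq_zero.1 this with h | h
    · exact absurd (pow_eq_zero_iff (by norm_num) |>.1 h) hl
    · exact h.symm
  · right
    intro h3
    apply h2
    have : l ^ 3 * (y - -y) = 0 := by linear_combination h3
    rcases mul_eq_zero.1 this with h | h
    · exact absurd (pow_eq_zero_iff (by norm_num) |>.1 h) hl
    · exact sub_eq_zero.1 h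

theorem slope_scale {A B A' B' l : L} (hl : l ≠ 0) (hA : A' = A * l ^ 4) {x₁ x₂ y₁ y₂ : L}
    (hxy : ¬(x₁ = x₂ ∧ y₁ = (sh A B).toAffine.negY x₂ y₂)) :
    (sh A' B').toAffine.slope (l ^ 2 * x₁) (l ^ 2 * x₂) (l ^ 3 * y₁) (l ^ 3 * y₂) =
      l * (sh A B).toAffine.slope x₁ x₂ y₁ y₂ := by
  by_cases hx : x₁ = x₂
  · subst hx
    have hy : y₁ ≠ (sh A B).toAffine.negY x₁ y₂ := fun h => hxy ⟨rfl, h⟩
    have hy' : l ^ 3 * y₁ ≠ (sh A' B').toAffine.negY (l ^ 2 * x₁) (l ^ 3 * y₂) := by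
      rw [negY_sh] at hy ⊢
      intro h
      apply hy
      apply mul_left_cancel₀ (pow_ne_zero 3 hl)
      rw [h]; ring
    rw [slope_of_Y_ne rfl hy, slope_of_Y_ne rfl hy', negY_sh, negY_sh]
    simp only
    have e1 : 3 * (l ^ 2 * x₁) ^ 2 + 2 * 0 * (l ^ 2 * x₁) + A' - 0 * (l ^ 3 * y₁) =
        l ^ 3 * (l * (3 * x₁ ^ 2 + 2 * 0 * x₁ + A - 0 * y₁)) := by
      rw [hA]; ring
    have e2 : l ^ 3 * y₁ - -(l ^ 3 * y₁) = l ^ 3 * (y₁ - -y₁) := by ring
    rw [e1, e2, mul_div_mul_left _ _ (pow_ne_zero 3 hl), mul_div_assoc]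
  · have hx' : l ^ 2 * x₁ ≠ l ^ 2 * x₂ := fun h => hx (mul_left_cancel₀ (pow_ne_zero 2 hl) h)
    rw [slope_of_X_ne hx, slope_of_X_ne hx']
    have h1 : x₁ - x₂ ≠ 0 := sub_ne_zero.2 hx
    have h2 : l ^ 2 * x₁ - l ^ 2 * x₂ = l ^ 2 * (x₁ - x₂) := by ring
    rw [h2]
    field_simp

/-- the scaling homomorphism -/
noncomputable def sc {A B A' B' l : L} (hl : l ≠ 0) (hA : A' = A * l ^ 4) (hB : B' = B * l ^ 6) :
    (sh A B).toAffine.Point →+ (sh A' B').toAffine.Point where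
  toFun P := match P with
    | 0 => 0
    | Point.some _ _ h => Point.some _ _ (nons_scale hl hA hB h)
  map_zero' := rfl
  map_add' := by
    rintro (_ | ⟨x₁, y₁, h₁⟩) (_ | ⟨x₂, y₂, h₂⟩)
    any_goals rfl
    by_cases hxy : x₁ = x₂ ∧ y₁ = (sh A B).toAffine.negY x₂ y₂
    · rw [Point.add_of_Y_eq hxy.left hxy.right, Point.add_of_Y_eq (by rw [hxy.left]) (by
        rw [hxy.right, negY_sh, negY_sh]; ring)]
    · rw [Point.add_some hxy]
      have hxy' : ¬(l ^ 2 * x₁ = l ^ 2 * x₂ ∧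
          l ^ 3 * y₁ = (sh A' B').toAffine.negY (l ^ 2 * x₂) (l ^ 3 * y₂)) := by
        rintro ⟨h1, h2⟩
        apply hxy
        refine ⟨mul_left_cancel₀ (pow_ne_zero 2 hl) h1, ?_⟩
        rw [negY_sh] at h2 ⊢
        apply mul_left_cancel₀ (pow_ne_zero 3 hl)
        rw [h2]; ring
      rw [Point.add_some hxy']
      have hs := slope_scale (B := B) (B' := B') hl hA hxy
      have e1 : l ^ 2 * (sh A B).toAffine.addX x₁ x₂ ((sh A B).toAffine.slope x₁ x₂ y₁ y₂) =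
          (sh A' B').toAffine.addX (l ^ 2 * x₁) (l ^ 2 * x₂)
            ((sh A' B').toAffine.slope (l ^ 2 * x₁) (l ^ 2 * x₂) (l ^ 3 * y₁) (l ^ 3 * y₂)) := by
        rw [hs]
        simp only [addX]
        ring
      have e2 : l ^ 3 * (sh A B).toAffine.addY x₁ x₂ y₁ ((sh A B).toAffine.slope x₁ x₂ y₁ y₂) =
          (sh A' B').toAffine.addY (l ^ 2 * x₁) (l ^ 2 * x₂) (l ^ 3 * y₁)
            ((sh A' B').toAffine.slope (l ^ 2 * x₁) (l ^ 2 * x₂) (l ^ 3 * y₁) (l ^ 3 * y₂)) := by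
        rw [hs]
        simp only [addY, negAddY, addX, negY]
        ring
      simp only [Point.some.injEq]
      exact ⟨e1, e2⟩

theorem sc_some {A B A' B' l : L} (hl : l ≠ 0) (hA : A' = A * l ^ 4) (hB : B' = B * l ^ 6)
    {x y : L} (h : (sh A B).toAffine.Nonsingular x y) :
    sc hl hA hB (Point.some x y h) = Point.some _ _ (nons_scale hl hA hB h) := rfl

theorem sc_zero {A B A' B' l : L} (hl : l ≠ 0) (hA : A' = A * l ^ 4) (hB : B' = B * l ^ 6) :
    sc hl hA hB (Point.zero : (sh A B).toAffine.Point) = Point.zero := rfl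

end S1

open S1 WeierstrassCurve.Affine in
theorem s1 : TaskS1 := by
  intro L _ A B l hl
  have hl' : l⁻¹ ≠ 0 := inv_ne_zero hl
  have hA' : A = A * l ^ 4 * l⁻¹ ^ 4 := by field_simp
  have hB' : B = B * l ^ 6 * l⁻¹ ^ 6 := by field_simp
  let f := sc (A := A) (B := B) (A' := A * l ^ 4) (B' := B * l ^ 6) hl rfl rfl
  let g := sc (A := A * l ^ 4) (B := B * l ^ 6) (A' := A) (B' := B) hl' hA' hB'
  refine ⟨{ toFun := f, invFun := g, left_inv := ?_, right_inv := ?_, map_add' := f.map_add }, ?_⟩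
  · rintro (_ | ⟨x, y, h⟩)
    · rfl
    · simp only [f, g]
      rw [sc_some, sc_some, Point.some.injEq]
      constructor <;> field_simp
  · rintro (_ | ⟨x, y, h⟩)
    · rfl
    · simp only [f, g]
      rw [sc_some, sc_some, Point.some.injEq]
      constructor <;> field_simp
  · intro x y h
    exact ⟨_, rfl⟩

end Pool.Agent.LibBH2
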