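import Pool.Agent.LibBH2.Family
import Pool.Agent.LibBH2.PolyDefs
import Pool.Agent.LibBH2.HeightDefs

/-!
Statements of the remaining tasks.
-/

open WeierstrassCurve
open scoped Classical

namespace Pool.Agent.LibBH2

/-- Task M: matching the two-torsion of two elliptic curves. -/
def TaskM : Prop := ∀ (k : Type) [Field k] [CharZero k] [IsAlgClosed k] (W₁ W₂ : WeierstrassCurve k)
  [W₁.IsElliptic] [W₂.IsElliptic], ∃ a m κ ν : k, κ ≠ 0 ∧ ν ≠ 0 ∧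
    ∀ t : k, 4 * (m * t + κ) ^ 3 + W₂.b₂ * (m * t + κ) ^ 2 * t +
      2 * W₂.b₄ * (m * t + κ) * t ^ 2 + W₂.b₆ * t ^ 3
      = ν ^ 2 * (4 * (a + t) ^ 3 + W₁.b₂ * (a + t) ^ 2 + 2 * W₁.b₄ * (a + t) + W₁.b₆)

/-- Task KW: curves `y² = x³ + a x + b` and `y² = x³ + c x + d` sharing the point `(x, y)` after the
scaling `(s², s³)`. -/
def TaskKW : Prop := ∀ (k : Type) [Field k] [CharZero k] [IsAlgClosed k] (a b c d : k)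
  [(⟨0, 0, 0, a, b⟩ : WeierstrassCurve k).IsElliptic]
  [(⟨0, 0, 0, c, d⟩ : WeierstrassCurve k).IsElliptic],
  ¬ (a = 0 ∧ c = 0) → ¬ (b = 0 ∧ d = 0) → ∀ (s x y : k)
  (h : (⟨0, 0, 0, a, b⟩ : WeierstrassCurve k).toAffine.Nonsingular x y)
  (h' : (⟨0, 0, 0, c, d⟩ : WeierstrassCurve k).toAffine.Nonsingular (s ^ 2 * x) (s ^ 3 * y)),
  s ≠ 0 → a * s ^ 4 ≠ c →
  2 • (zc (Affine.Point.some x y h) (Affine.Point.some _ _ h') :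
    CH0 (⟨0, 0, 0, a, b⟩ : WeierstrassCurve k) (⟨0, 0, 0, c, d⟩ : WeierstrassCurve k)) = 0

/-- Task Bf: Theorem B. -/
def TaskBf : Prop := ∀ a b c d : ℚ, 4 * a ^ 3 + 27 * b ^ 2 ≠ 0 → 4 * c ^ 3 + 27 * d ^ 2 ≠ 0 →
  ¬ (a = 0 ∧ c = 0) → ¬ (b = 0 ∧ d = 0) →
  {D : ℤ | Squarefree D ∧ ∃ (P : (tw a b D).toAffine.Point) (Q : (tw c d D).toAffine.Point),
    ¬ IsOfFinAddOrder P ∧ ¬ IsOfFinAddOrder Q ∧
    2 • (zc (constPt Qb P) (constPt Qb Q) : CH0 ((tw a b D)⁄Qb) ((tw c d D)⁄Qb)) = 0}.Infinite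

/-- Task Cf: Theorem C. -/
def TaskCf : Prop := ∀ u v u' v' : ℤ, 0 < u → u < v → 0 < u' → u' < v' →
  (u ^ 4 + u ^ 2 * v ^ 2 + v ^ 4) ^ 3 *
      ((v' ^ 2 - u' ^ 2) * (2 * u' ^ 2 + v' ^ 2) * (u' ^ 2 + 2 * v' ^ 2)) ^ 2 ≠
    (u' ^ 4 + u' ^ 2 * v' ^ 2 + v' ^ 4) ^ 3 *
      ((v ^ 2 - u ^ 2) * (2 * u ^ 2 + v ^ 2) * (u ^ 2 + 2 * v ^ 2)) ^ 2 →
  {t : ℤ | (fam t u v).Δ ≠ 0 ∧ (fam t u' v').Δ ≠ 0 ∧
    (∃ r : ℕ, r.Prime ∧ padicValRat r ((fam t u v).c₄ ^ 3 / (fam t u v).Δ) < 0 ∧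
      0 ≤ padicValRat r ((fam t u' v').c₄ ^ 3 / (fam t u' v').Δ)) ∧
    ∃ (P₁ P₂ : (fam t u v).toAffine.Point) (Q₁ Q₂ : (fam t u' v').toAffine.Point),
      LinearIndependent ℤ ![P₁, P₂] ∧ LinearIndependent ℤ ![Q₁, Q₂] ∧
      ∀ P ∈ AddSubgroup.closure {P₁, P₂}, ∀ Q ∈ AddSubgroup.closure {Q₁, Q₂},
        2 • (zc (constPt Qb P) (constPt Qb Q) :
          CH0 ((fam t u v)⁄Qb) ((fam t u' v')⁄Qb)) = 0}.Infinite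

/-- Task Df: Theorem D. -/
def TaskDf : Prop := ∀ a b : ℚ, 4 * a ^ 3 + 27 * b ^ 2 ≠ 0 → a ≠ 0 → b ≠ 0 →
  {D : ℤ | Squarefree D ∧ ∃ P Q : (tw a b D).toAffine.Point, LinearIndependent ℤ ![P, Q] ∧
    2 • (zc (constPt Qb P) (constPt Qb Q) : CH0 ((tw a b D)⁄Qb) ((tw a b D)⁄Qb)) = 0}.Infinite

end Pool.Agent.LibBH2
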